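import Pool.Agent.DD.SubF

set_option autoImplicit false

/-! # DD package Abs: absorption and comparability (section 3 of /team-store/DD_Proof.md) -/

namespace Pool.Agent.DD

/-- Right powers of the letter: `xpow 0 = x`, `xpow (n+1) = x * xpow n` (so `xpow n` is `x^[n+1]`). -/
def xpow : ℕ → FF
  | 0 => xF
  | n + 1 => xF.mul (xpow n)

/-- Absorption: induction on a tree of `a` (`El.ind`):
`(A*B)*x^[n+1] = (A*B)*(A*x^[n]) = A*(B*x^[n]) = A*x^[n+1] = x^[n+2]` for large `n`. -/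
theorem absorb (a : FF) : ∃ N, ∀ n, N ≤ n → a.mul (xpow n) = xpow (n + 1) := by
  induction a using El.ind with
  | h1 y => exact ⟨0, fun n _ => rfl⟩
  | h2 A B ihA ihB =>
    obtain ⟨NA, hA⟩ := ihA
    obtain ⟨NB, hB⟩ := ihB
    refine ⟨NA + NB + 1, fun n hn => ?_⟩
    obtain ⟨k, rfl⟩ : ∃ k, n = k + 1 := ⟨n - 1, by omega⟩
    rw [← hA k (by omega), ← El.ld, hB k (by omega), hA (k + 1) (by omega)]
  | h3 j _ _ _ _ => exact j.elim

/-- The same for an element of the monoid: induction with `Mon.ind`. -/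
theorem absorb_smul (m : PP) : ∃ N, ∀ n, N ≤ n → m • xpow n = xpow (n + len m) := by
  induction m using Mon.ind with
  | h1 => exact ⟨0, fun n _ => by rw [one_smul, len_one, Nat.add_zero]⟩
  | h2 a m ih =>
    obtain ⟨N1, h1⟩ := ih
    obtain ⟨N2, h2⟩ := absorb a
    refine ⟨N1 + N2, fun n hn => ?_⟩
    rw [mul_smul, h1 n (by omega), gen_smul, h2 (n + len m) (by omega), len_mul, len_gen]
    congr 1
    omega

/-- Every element is a proper full prefix of `xpow n` for large `n`. -/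
theorem sub_xpow (z : FF) : ∃ N, ∀ n, N ≤ n → Sub z (xpow n) := by
  obtain ⟨N, h⟩ := absorb z
  refine ⟨N + 1, fun n hn => ?_⟩
  obtain ⟨k, rfl⟩ : ∃ k, n = k + 1 := ⟨n - 1, by omega⟩
  rw [← h k (by omega)]
  exact sub_mul _ _

theorem sub_total (z z' : FF) : z = z' ∨ Sub z z' ∨ Sub z' z := by
  obtain ⟨N, h⟩ := sub_xpow z
  obtain ⟨N', h'⟩ := sub_xpow z'
  exact sub_comp (h (N + N') (by omega)) (h' (N + N') (by omega))

end Pool.Agent.DD
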