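import Pool.Agent.DD.Dyn

/-!
# The left distributive group `GG` and acyclicity
-/

set_option autoImplicit false

noncomputable section

namespace Pool.Agent.DD

/-- sequences of pairs of positive rational numbers -/
def Vec : Type := {v : ℕ → ℚ × ℚ // ∀ i, 0 < (v i).1 ∧ 0 < (v i).2}

/-- the permutation group of `Vec` -/
abbrev GG : Type := Equiv.Perm Vec

/-- the shifted sequence -/
def Vec.tail (v : Vec) : Vec := ⟨fun i => v.1 (i + 1), fun i => v.2 (i + 1)⟩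

/-- first pair and remaining sequence -/
def Vec.cons (a : ℚ × ℚ) (h : 0 < a.1 ∧ 0 < a.2) (v : Vec) : Vec :=
  ⟨fun i => Nat.casesOn i a v.1, fun i => by cases i with
    | zero => exact h
    | succ n => exact v.2 n⟩

theorem Vec.ext {v w : Vec} (h : ∀ i, v.1 i = w.1 i) : v = w := Subtype.ext (funext h)

theorem Vec.cons_tail (v : Vec) : Vec.cons (v.1 0) (v.2 0) v.tail = v :=
  Vec.ext fun i => by cases i <;> rfl

theorem Vec.tail_cons (a : ℚ × ℚ) (h : 0 < a.1 ∧ 0 < a.2) (v : Vec) :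
    (Vec.cons a h v).tail = v := Vec.ext fun _ => rfl

/-- the generator as a map -/
def sgFun (v : Vec) : Vec :=
  ⟨fun i => match i with
    | 0 => (bX1 (v.1 0).1 (v.1 0).2 (v.1 1).1 (v.1 1).2,
        bY1 (v.1 0).1 (v.1 0).2 (v.1 1).1 (v.1 1).2)
    | 1 => (bX2 (v.1 0).1 (v.1 0).2 (v.1 1).1 (v.1 1).2,
        bY2 (v.1 0).1 (v.1 0).2 (v.1 1).1 (v.1 1).2)
    | n + 2 => v.1 (n + 2),
  fun i => match i with
    | 0 => ⟨bX1_pos (v.2 0).1 (v.2 0).2 (v.2 1).1 (v.2 1).2,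
        bY1_pos (v.2 0).1 (v.2 0).2 (v.2 1).1 (v.2 1).2⟩
    | 1 => ⟨bX2_pos (v.2 0).1 (v.2 0).2 (v.2 1).1 (v.2 1).2,
        bY2_pos (v.2 0).1 (v.2 0).2 (v.2 1).1 (v.2 1).2⟩
    | n + 2 => v.2 (n + 2)⟩

/-- its inverse as a map -/
def sgInv (v : Vec) : Vec :=
  ⟨fun i => match i with
    | 0 => (iX1 (v.1 0).1 (v.1 0).2 (v.1 1).1 (v.1 1).2,
        iY1 (v.1 0).1 (v.1 0).2 (v.1 1).1 (v.1 1).2)
    | 1 => (iX2 (v.1 0).1 (v.1 0).2 (v.1 1).1 (v.1 1).2,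
        iY2 (v.1 0).1 (v.1 0).2 (v.1 1).1 (v.1 1).2)
    | n + 2 => v.1 (n + 2),
  fun i => match i with
    | 0 => ⟨iX1_pos (v.2 0).1 (v.2 0).2 (v.2 1).1 (v.2 1).2,
        iY1_pos (v.2 0).1 (v.2 0).2 (v.2 1).1 (v.2 1).2⟩
    | 1 => ⟨iX2_pos (v.2 0).1 (v.2 0).2 (v.2 1).1 (v.2 1).2,
        iY2_pos (v.2 0).1 (v.2 0).2 (v.2 1).1 (v.2 1).2⟩
    | n + 2 => v.2 (n + 2)⟩

/-- the generator -/
def sg : GG where
  toFun := sgFun
  invFun := sgInv
  left_inv v := Vec.ext fun i => match i with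
    | 0 => Prod.ext (ib_X1 (v.2 0).1 (v.2 0).2 (v.2 1).1 (v.2 1).2)
        (ib_Y1 (v.2 0).1 (v.2 0).2 (v.2 1).1 (v.2 1).2)
    | 1 => Prod.ext (ib_X2 (v.2 0).1 (v.2 0).2 (v.2 1).1 (v.2 1).2)
        (ib_Y2 (v.2 0).1 (v.2 0).2 (v.2 1).1 (v.2 1).2)
    | _ + 2 => rfl
  right_inv v := Vec.ext fun i => match i with
    | 0 => Prod.ext (bi_X1 (v.2 0).1 (v.2 0).2 (v.2 1).1 (v.2 1).2)
        (bi_Y1 (v.2 0).1 (v.2 0).2 (v.2 1).1 (v.2 1).2)
    | 1 => Prod.ext (bi_X2 (v.2 0).1 (v.2 0).2 (v.2 1).1 (v.2 1).2)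
        (bi_Y2 (v.2 0).1 (v.2 0).2 (v.2 1).1 (v.2 1).2)
    | _ + 2 => rfl

/-- the shift: `sh g` acts on the tail -/
def shFun (g : GG) : GG where
  toFun v := Vec.cons (v.1 0) (v.2 0) (g v.tail)
  invFun v := Vec.cons (v.1 0) (v.2 0) (g.symm v.tail)
  left_inv v := by
    change Vec.cons (v.1 0) (v.2 0) (g.symm (Vec.cons (v.1 0) (v.2 0) (g v.tail)).tail) = v
    rw [Vec.tail_cons, Equiv.symm_apply_apply, Vec.cons_tail]
  right_inv v := by
    change Vec.cons (v.1 0) (v.2 0) (g (Vec.cons (v.1 0) (v.2 0) (g.symm v.tail)).tail) = v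
    rw [Vec.tail_cons, Equiv.apply_symm_apply, Vec.cons_tail]

/-- the shift endomorphism -/
def sh : GG →* GG where
  toFun := shFun
  map_one' := Equiv.ext fun v => Vec.cons_tail v
  map_mul' g h := Equiv.ext fun v => by
    change Vec.cons (v.1 0) (v.2 0) (g (h v.tail)) =
      Vec.cons (v.1 0) (v.2 0) (g (Vec.cons (v.1 0) (v.2 0) (h v.tail)).tail)
    rw [Vec.tail_cons]

theorem sh_apply (g : GG) (v : Vec) : sh g v = Vec.cons (v.1 0) (v.2 0) (g v.tail) := rfl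

theorem sg_comm (g : GG) : sg * sh (sh g) = sh (sh g) * sg :=
  Equiv.ext fun _ => Vec.ext fun i => match i with
    | 0 => rfl
    | 1 => rfl
    | _ + 2 => rfl

theorem sg_braid : sg * sh sg * sg = sh sg * sg * sh sg :=
  Equiv.ext fun v => Vec.ext fun i => match i with
    | 0 => Prod.ext (br_X1 (v.2 0).1 (v.2 0).2 (v.2 1).1 (v.2 1).2 (v.2 2).1 (v.2 2).2)
        (br_Y1 (v.2 0).1 (v.2 0).2 (v.2 1).1 (v.2 1).2 (v.2 2).1 (v.2 2).2)
    | 1 => Prod.ext (br_X2 (v.2 0).1 (v.2 0).2 (v.2 1).1 (v.2 1).2 (v.2 2).1 (v.2 2).2)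
        (br_Y2 (v.2 0).1 (v.2 0).2 (v.2 1).1 (v.2 1).2 (v.2 2).1 (v.2 2).2)
    | 2 => Prod.ext (br_X3 (v.2 0).1 (v.2 0).2 (v.2 1).1 (v.2 1).2 (v.2 2).1 (v.2 2).2)
        (br_Y3 (v.2 0).1 (v.2 0).2 (v.2 1).1 (v.2 1).2 (v.2 2).1 (v.2 2).2)
    | _ + 3 => rfl

/-- the left distributive operation -/
def star' (a b : GG) : GG := a * sh b * sg * (sh a)⁻¹

theorem star'_distrib (a b c : GG) :
    star' a (star' b c) = star' (star' a b) (star' a c) := by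
  have hb : ∀ g : GG, sg * (sh (sh g))⁻¹ = (sh (sh g))⁻¹ * sg := fun g => by
    have h := sg_comm g⁻¹
    rwa [map_inv, map_inv] at h
  have e1 : star' a (star' b c) =
      a * sh b * sh (sh c) * (sh sg * sg) * (sh (sh b))⁻¹ * (sh a)⁻¹ := by
    unfold star'
    simp only [map_mul, map_inv, mul_assoc]
    rw [← mul_assoc (sh (sh b))⁻¹ sg, ← hb b, mul_assoc]
  have e2 : star' (star' a b) (star' a c) =
      a * sh b * sh (sh c) * (sg * sh sg * sg * (sh sg)⁻¹) * (sh (sh b))⁻¹ * (sh a)⁻¹ := by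
    unfold star'
    simp only [map_mul, map_inv, mul_assoc, mul_inv_rev, inv_inv, inv_mul_cancel_left]
    rw [← mul_assoc (sh (sh a))⁻¹ sg, ← hb a, mul_assoc, inv_mul_cancel_left,
      ← mul_assoc sg (sh (sh c)), sg_comm c, mul_assoc]
  rw [e1, e2, sg_braid, mul_inv_cancel_right]

/-- increases the first coordinate -/
def Inc (g : GG) : Prop := ∀ v : Vec, (v.1 0).1 < ((g v).1 0).1

theorem Inc.mul {g h : GG} (hg : Inc g) (hh : Inc h) : Inc (g * h) :=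
  fun v => (hh v).trans (hg (h v))

theorem Inc.ne_one {g : GG} (hg : Inc g) : g ≠ 1 := by
  rintro rfl
  have h := hg ⟨fun _ => (1, 1), fun _ => ⟨one_pos, one_pos⟩⟩
  exact lt_irrefl _ h

theorem inc_core (c d : GG) : Inc (sh c * sg * sh d) := by
  intro v
  have h0 : ((sh d v).1 0) = v.1 0 := rfl
  have h1 : (((sh c * sg * sh d) v).1 0).1 = ((sg (sh d v)).1 0).1 := rfl
  rw [h1]
  have h2 : ((sg (sh d v)).1 0).1 = bX1 (v.1 0).1 (v.1 0).2 ((sh d v).1 1).1 ((sh d v).1 1).2 := rfl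
  rw [h2, bX1]
  have p1 := (v.2 0).1
  have p2 := (v.2 0).2
  have p3 := ((sh d v).2 1).1
  have p4 := mul_pos p1 p2
  have p5 := mul_pos p3 p2
  linarith

/-- `u⁻¹ * star' u c` increases the first coordinate -/
theorem inc_left (u c : GG) : Inc (u⁻¹ * star' u c) := by
  have h : u⁻¹ * star' u c = sh c * sg * sh u⁻¹ := by
    unfold star'
    rw [map_inv]
    simp only [mul_assoc, inv_mul_cancel_left]
  rw [h]
  exact inc_core c u⁻¹

end Pool.Agent.DD
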