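import Pool.Agent.DD.Defs
import Pool.Agent.DD.DynG

set_option autoImplicit false

/-! # DD: acyclicity of the free left distributive algebra on one generator (section 8 of /team-store/DD_Proof.md) -/

namespace Pool.Agent.DD

/-- The homomorphism into the left distributive group `GG`. -/
private noncomputable def phi : FF → GG :=
  El.lift (fun _ => 1) star' (fun j _ _ => j.elim) star'_distrib (fun j _ _ _ => j.elim)

private theorem phi_mul (a b : FF) : phi (a.mul b) = star' (phi a) (phi b) := by
  obtain ⟨s, rfl⟩ := cls_surj a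
  obtain ⟨t, rfl⟩ := cls_surj b
  rfl

private theorem inc_trans {a b c : GG} (h : Inc (a⁻¹ * b)) (h' : Inc (b⁻¹ * c)) :
    Inc (a⁻¹ * c) := by
  have e : a⁻¹ * c = a⁻¹ * b * (b⁻¹ * c) := by
    rw [mul_assoc, mul_inv_cancel_left]
  rw [e]
  exact h.mul h'

private theorem inc_mul (u c : FF) : Inc ((phi u)⁻¹ * phi (u.mul c)) := by
  rw [phi_mul]
  exact inc_left _ _

private theorem pfx_inc {z E : FF} (h : Pfx z E) : phi z = phi E ∨ Inc ((phi z)⁻¹ * phi E) := by
  induction h with
  | refl => exact Or.inl rfl
  | @mul u c _ ih =>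
    right
    rcases ih with h | h
    · rw [h]
      exact inc_mul u c
    · exact inc_trans h (inc_mul u c)
  | bin j w _ _ => exact j.elim

/-- Acyclicity. See section 8 (Dynnikov coordinates). -/
theorem sub_irrefl (z : FF) : ¬ Sub z z := by
  rintro ⟨c, h⟩
  have h2 : Inc ((phi z)⁻¹ * phi z) := by
    rcases pfx_inc h with h1 | h1
    · have h3 := inc_mul z c
      rwa [h1] at h3
    · exact inc_trans (inc_mul z c) h1
  rw [inv_mul_cancel] at h2
  exact h2.ne_one rfl

end Pool.Agent.DD
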