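import Pool.Agent.DD.BdF

set_option autoImplicit false

/-! # DD package AtF: the full prefix at a position (4.7) of /team-store/DD_Proof.md -/

namespace Pool.Agent.DD

variable {Y J : Type}

theorem kap_lt_of_sub {z E : El Y J} (h : Sub z E) : kap z < kap E := by
  rw [lt_iff, ← pi_eq_kap_smul, ← pi_eq_kap_smul]
  exact sub_pi h

private theorem atF_kap_le {z E : El Y J} (h : Sub z E ∨ z = E) : kap z ≤ kap E := by
  rcases h with h | rfl
  · exact (kap_lt_of_sub h).le
  · exact le_rfl

private theorem atF_trans {z u E : El Y J} (h : Sub z u ∨ z = u) (h' : Sub u E ∨ u = E) :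
    Sub z E ∨ z = E := by
  rcases h' with h' | rfl
  · rcases h with h | rfl
    · exact Or.inl (h.trans h')
    · exact Or.inl h'
  · exact h

/-- Uniqueness: `sub_comp`. -/
theorem at_unique {z z' E : El Y J} (h : Sub z E ∨ z = E) (h' : Sub z' E ∨ z' = E) (hk : kap z = kap z') :
    z = z' := by
  rcases h with h | rfl
  · rcases h' with h' | rfl
    · rcases sub_comp h h' with h1 | h1 | h1
      · exact h1
      · exact absurd hk (kap_lt_of_sub h1).ne
      · exact absurd hk (kap_lt_of_sub h1).ne'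
    · exact absurd hk (kap_lt_of_sub h).ne
  · rcases h' with h' | h'
    · exact absurd hk (kap_lt_of_sub h').ne'
    · exact h'.symm

/-- Existence for a decomposition: induction on `T`. -/
theorem leaf_exists {m : Mon Y J} {T : TT} {E : El Y J} {v : PP} (h : Bd m T E) (hv : v ∈ Pos T) :
    ∃ z, (Sub z E ∨ z = E) ∧ kap z = piM m * v := by
  induction T generalizing m E v with
  | var u =>
    have hv1 : v = 1 := hv
    have h1 : eps E = m := h
    exact ⟨E, Or.inr rfl, by rw [hv1, mul_one, kap, h1]⟩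
  | mul A B iha ihb =>
    obtain ⟨E1, h1, h2⟩ := h
    have h3 := bd_sub h2
    rcases hv with hv | ⟨q, hq, rfl⟩
    · obtain ⟨z, hz, hk⟩ := iha h1 hv
      exact ⟨z, atF_trans hz (Or.inl h3), hk⟩
    · obtain ⟨z, hz, hk⟩ := ihb h2 hq
      refine ⟨z, hz, ?_⟩
      have h4 : pi E1 = piM m • cls A := by
        rw [pi_eq_kap_smul, bd_kap h1, mul_smul, ← cls_eq_kT]
      have h5 : piM m * gen (cls A) = gen (pi E1) * piM m := by
        rw [h4, mul_eq_tri, tri_gen]
      change kap z = piM m * (gen (cls A) * q)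
      rw [hk, map_mul, piM_gen, ← mul_assoc, h5]
  | bin j _ _ _ _ => exact j.elim

theorem at_exists {E : El Y J} {p : PP} (h : p ≤ kap E) : ∃ z, (Sub z E ∨ z = E) ∧ kap z = p := by
  obtain ⟨T, hT⟩ := kT_surj (kap E)
  obtain ⟨N, hN⟩ := bd_large E hT
  obtain ⟨N', hN'⟩ := exists_mem_pos (T := T) (p := p) (by rw [hT]; exact h)
  obtain ⟨z, hz, hk⟩ := leaf_exists (hN (max N N') (le_max_left _ _)) (hN' (max N N') (le_max_right _ _))
  exact ⟨z, hz, by rw [hk, map_one, one_mul]⟩

theorem at_spec {E : El Y J} {p : PP} (h : p ≤ kap E) : (Sub (At E p) E ∨ At E p = E) ∧ kap (At E p) = p := by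
  unfold At
  rw [dif_pos (at_exists h)]
  exact (at_exists h).choose_spec

theorem at_eq {z E : El Y J} (h : Sub z E ∨ z = E) : At E (kap z) = z := by
  obtain ⟨h1, h2⟩ := at_spec (atF_kap_le h)
  exact at_unique h1 h h2

theorem kap_at {E : El Y J} {p : PP} (h : p ≤ kap E) : kap (At E p) = p := (at_spec h).2

theorem at_kap (E : El Y J) : At E (kap E) = E := at_eq (Or.inr rfl)

theorem sub_at {E : El Y J} {p : PP} (h : p < kap E) : Sub (At E p) E := by
  obtain ⟨h1 | h1, h2⟩ := at_spec h.le
  · exact h1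
  · rw [h1] at h2
    exact absurd h2 h.ne'

/-- Below the end, the prefix depends only on `eps E`. -/
theorem at_congr {E E' : El Y J} {p : PP} (h : eps E = eps E') (hp : p < kap E) : At E p = At E' p := by
  have h1 := at_eq (Or.inl ((sub_congr h).1 (sub_at hp)))
  rw [kap_at hp.le] at h1
  exact h1.symm

theorem at_at {E : El Y J} {p q : PP} (h : q ≤ p) (hp : p ≤ kap E) : At (At E p) q = At E q := by
  have h0 : q ≤ kap (At E p) := by
    rw [kap_at hp]
    exact h
  obtain ⟨h1, h2⟩ := at_spec h0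
  have h3 := at_eq (atF_trans h1 (at_spec hp).1)
  rw [h2] at h3
  exact h3.symm

theorem at_smul {E : El Y J} {p : PP} (m : Mon Y J) (hp : p ≤ kap E) : At (m • E) (piM m * p) = m • At E p := by
  obtain ⟨h1, h2⟩ := at_spec hp
  have h3 : Sub (m • At E p) (m • E) ∨ m • At E p = m • E := by
    rcases h1 with h1 | h1
    · exact Or.inl (sub_smul m h1)
    · exact Or.inr (by rw [h1])
  have h4 := at_eq h3
  rw [kap_smul, h2] at h4
  exact h4

theorem at_bin {E w : El Y J} {p : PP} (j : J) (hp : p < kap E) : At (.bin j E w) p = At E p := by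
  refine at_congr (eps_bin j E w) ?_
  rw [kap_bin]
  exact hp

/-- Only the element `1` of the monoid has length 0: `eps z = 1` if `kap z = 1`. -/
theorem eps_eq_one {z : El Y J} (h : kap z = 1) : eps z = 1 := by
  have h1 : piM (eps z) = 1 := h
  rw [← len_eq_zero, ← len_piM, h1, len_one]

/-- Equal skeletons and common full bound: `a*s = a'*t` and `pi a = pi a'` imply `a = a'`. -/
theorem left_eq {a a' s t : El Y J} (h : a.mul s = a'.mul t) (hp : pi a = pi a') : a = a' := by
  refine at_unique (Or.inl (sub_mul a s)) (Or.inl ?_) ?_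
  · rw [h]
    exact sub_mul a' t
  · rw [kap_eq_eps_pi, kap_eq_eps_pi, hp]

end Pool.Agent.DD
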