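import Pool.Agent.DD.Gen

set_option autoImplicit false

/-! # DD: the structure `B` over a partially endomorphic algebra (section 3 of /team-store/DD_Statics.md): definitions and laws -/

namespace Pool.Agent.DD

open Encodable

variable {e f : ℕ} {n : Fin e → ℕ} {m : Fin f → ℕ} {X Y : Type} [Primcodable Y]

/-- The elements of `B`: elements of the algebra, left factors `(t; a_1, ..., a_n)`, pairs, a junk element. -/
inductive BB (n : Fin e → ℕ) (X : Type) : Type
  | el : X → BB n X
  | lft : (t : Fin e) → (Fin (n t) → X) → BB n X
  | pr : BB n X → BB n X → BB n X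
  | oo : BB n X

/-- A map of the algebra acts on `B`. -/
def BB.map (φ : X → X) : BB n X → BB n X
  | .el x => .el (φ x)
  | .lft t a => .lft t fun i => φ (a i)
  | .pr b c => .pr (b.map φ) (c.map φ)
  | .oo => .oo

/-- The product: left factors act, all other elements act trivially. -/
def BB.mul (A : Alg n m X) : BB n X → BB n X → BB n X
  | .lft t a, b => b.map (A.act t a)
  | _, b => b

/-- Closed terms in the symbols of `F`. -/
inductive ClT : Trm n m Y → Prop
  | app (g : Fin f) (x : Fin (ar n m (.inr g : Sy e f)) → Trm n m Y) : (∀ i, ClT (x i)) → ClT (.app (.inr g) x)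

open Classical in
/-- The value of a static word. -/
noncomputable def valw (A : Alg n m X) (v : Y → X) (w : Wd e f Y) : Option X :=
  if h : ∃ c : Trm n m Y, ClT c ∧ c.word = w then some (h.choose.eval A v) else none

/-- The static values are inserted at their places. -/
noncomputable def fill (A : Alg n m X) (v : Y → X) : List (Option (Wd e f Y)) → List X → Option (List X)
  | [], [] => some []
  | [], _ :: _ => none
  | some w :: P, l => (valw A v w).bind fun x => (fill A v P l).map fun r => x :: r
  | none :: _, [] => none
  | none :: P, x :: l => (fill A v P l).map fun r => x :: r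

/-- The list of elements coded by an element of `B`. -/
def decL : BB n X → List (BB n X)
  | .pr b c => b :: decL c
  | b => [b]

/-- A list of elements of `B` which are elements of the algebra. -/
def els : List (BB n X) → Option (List X)
  | [] => some []
  | .el x :: l => (els l).map fun r => x :: r
  | _ :: _ => none

/-- The value of the symbol `h` (a left factor if `h` is in `E`, then without the last argument). -/
def mkB (A : Alg n m X) (h : Sy e f) (l : List X) : BB n X :=
  match h with
  | .inr g => if hl : l.length = m g then
      .el (A (.inr g) fun i : Fin (m g) => l.get (Fin.cast hl.symm i)) else .oo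
  | .inl t => if hl : l.length = n t then
      .lft t fun i : Fin (n t) => l.get (Fin.cast hl.symm i) else .oo

/-- The binary symbols: `0` is the pair, `encode (h, P) + 1` is the symbol `h` with pattern `P`. -/
noncomputable def binB (A : Alg n m X) (v : Y → X) : ℕ → BB n X → BB n X → BB n X
  | 0, b, c => .pr b c
  | j + 1, b, c => match (decode j : Option (Sy e f × List (Option (Wd e f Y)))) with
    | none => .oo
    | some (h, P) => match (els (b :: (decL c).dropLast)).bind (fill A v P) with
      | none => .oo
      | some l => mkB A h l

/-- The maps of the algebra given by the indices. -/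
noncomputable def psi (A : Alg n m X) (v : Y → X) (i : ℕ) : X → X :=
  match (decode i : Option (Fin e × List (Wd e f Y))) with
  | none => id
  | some (t, ws) => match fill A v (ws.map some) [] with
    | none => id
    | some l => if hl : l.length = n t then A.act t fun i : Fin (n t) => l.get (Fin.cast hl.symm i) else id

/-- The structure `B`. -/
noncomputable def BS (A : Alg n m X) (v : Y → X) : XS (BB n X) ℕ ℕ where
  mul := BB.mul A
  bin := binB A v
  tau i b := b.map (psi A v i)

/-- A map of the algebra which is compatible with all operations (an endomorphism). -/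
def End' (A : Alg n m X) (φ : X → X) : Prop := ∀ (h : Sy e f) (x : Fin (ar n m h) → X), φ (A h x) = A h fun i => φ (x i)

theorem act_end {A : Alg n m X} (hA : A.PE) (t : Fin e) (a : Fin (n t) → X) : End' A (A.act t a) := by
  exact fun h x => hA t a h x

/-- Values of closed terms are fixed by endomorphisms: induction on `ClT`. -/
theorem ClT.fix {A : Alg n m X} {φ : X → X} (hφ : End' A φ) (v : Y → X) {c : Trm n m Y} (hc : ClT c) :
    φ (c.eval A v) = c.eval A v := by
  induction hc with
  | app g x _ ih =>
    change φ (A (.inr g) fun i => (x i).eval A v) = A (.inr g) fun i => (x i).eval A v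
    rw [hφ]
    exact congrArg (A (.inr g)) (funext ih)

theorem valw_fix {A : Alg n m X} {φ : X → X} (hφ : End' A φ) (v : Y → X) {w : Wd e f Y} {x : X}
    (h : valw A v w = some x) : φ x = x := by
  unfold valw at h
  by_cases h1 : ∃ c : Trm n m Y, ClT c ∧ c.word = w
  · rw [dif_pos h1] at h
    obtain rfl := Option.some.inj h
    exact ClT.fix hφ v h1.choose_spec.1
  · rw [dif_neg h1] at h
    cases h

/-- `word_injective`. -/
theorem valw_word (A : Alg n m X) (v : Y → X) {c : Trm n m Y} (hc : ClT c) :
    valw A v c.word = some (c.eval A v) := by
  have h1 : ∃ c' : Trm n m Y, ClT c' ∧ c'.word = c.word := ⟨c, hc, rfl⟩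
  unfold valw
  rw [dif_pos h1, word_injective n m h1.choose_spec.2]

/-- Induction on `P`, `valw_fix`. -/
theorem fill_map {A : Alg n m X} {φ : X → X} (hφ : End' A φ) (v : Y → X) (P : List (Option (Wd e f Y))) (l : List X) :
    fill A v P (l.map φ) = (fill A v P l).map fun r => r.map φ := by
  induction P generalizing l with
  | nil => cases l <;> rfl
  | cons p P ih =>
    cases p with
    | none =>
      cases l with
      | nil => rfl
      | cons x l =>
        have h1 : fill A v (none :: P) ((x :: l).map φ) =
          (fill A v P (l.map φ)).map fun r => φ x :: r := rfl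
        have h2 : fill A v (none :: P) (x :: l) = (fill A v P l).map fun r => x :: r := rfl
        rw [h1, h2, ih, Option.map_map, Option.map_map]
        rfl
    | some w =>
      have h1 : fill A v (some w :: P) (l.map φ) =
        (valw A v w).bind fun x => (fill A v P (l.map φ)).map fun r => x :: r := by
          simp only [fill]
      have h2 : fill A v (some w :: P) l =
        (valw A v w).bind fun x => (fill A v P l).map fun r => x :: r := by
          simp only [fill]
      rw [h1, h2, ih]
      cases hw : valw A v w with
      | none => rfl
      | some x =>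
        rw [Option.bind_some, Option.bind_some, Option.map_map, Option.map_map]
        have h3 := valw_fix hφ v hw
        congr 1
        funext r
        simp [h3]

theorem decL_map (φ : X → X) (b : BB n X) : decL (b.map φ) = (decL b).map fun c => c.map φ := by
  induction b with
  | el x => rfl
  | lft t a => rfl
  | oo => rfl
  | pr b c _ ihc =>
    change b.map φ :: decL (c.map φ) = b.map φ :: (decL c).map fun c => c.map φ
    rw [ihc]

theorem els_map (φ : X → X) (l : List (BB n X)) :
    els (l.map fun c => c.map φ) = (els l).map fun r => r.map φ := by
  induction l with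
  | nil => rfl
  | cons c l ih =>
    cases c with
    | el x =>
      have h1 : els ((BB.el x :: l : List (BB n X)).map fun c => c.map φ) =
        (els (l.map fun c => c.map φ)).map fun r => φ x :: r := rfl
      have h2 : els (BB.el x :: l : List (BB n X)) = (els l).map fun r => x :: r := rfl
      rw [h1, h2, ih, Option.map_map, Option.map_map]
      rfl
    | lft t a => rfl
    | pr b c => rfl
    | oo => rfl

theorem mkB_map {A : Alg n m X} {φ : X → X} (hφ : End' A φ) (h : Sy e f) (l : List X) :
    (mkB A h l).map φ = mkB A h (l.map φ) := by
  cases h with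
  | inr g =>
    by_cases hl : l.length = m g
    · have hl' : (l.map φ).length = m g := by rw [List.length_map, hl]
      have h1 : mkB A (.inr g) l = .el (A (.inr g) fun i : Fin (m g) =>
          l.get (Fin.cast hl.symm i)) := dif_pos hl
      have h2 : mkB A (.inr g) (l.map φ) = .el (A (.inr g) fun i : Fin (m g) =>
          (l.map φ).get (Fin.cast hl'.symm i)) := dif_pos hl'
      rw [h1, h2]
      change BB.el (φ (A (.inr g) fun i : Fin (m g) => l.get (Fin.cast hl.symm i))) = _
      congr 1
      refine (hφ (.inr g) _).trans ?_
      refine congrArg (A (.inr g)) (funext fun i => ?_)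
      simp
    · have hl' : ¬ (l.map φ).length = m g := by rwa [List.length_map]
      have h1 : mkB A (.inr g) l = .oo := dif_neg hl
      have h2 : mkB A (.inr g) (l.map φ) = .oo := dif_neg hl'
      rw [h1, h2]
      rfl
  | inl t =>
    by_cases hl : l.length = n t
    · have hl' : (l.map φ).length = n t := by rw [List.length_map, hl]
      have h1 : mkB A (.inl t) l = .lft t fun i : Fin (n t) =>
          l.get (Fin.cast hl.symm i) := dif_pos hl
      have h2 : mkB A (.inl t) (l.map φ) = .lft t fun i : Fin (n t) =>
          (l.map φ).get (Fin.cast hl'.symm i) := dif_pos hl'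
      rw [h1, h2]
      change BB.lft t (fun i : Fin (n t) => φ (l.get (Fin.cast hl.symm i))) = _
      congr 1
      funext i
      simp
    · have hl' : ¬ (l.map φ).length = n t := by rwa [List.length_map]
      have h1 : mkB A (.inl t) l = .oo := dif_neg hl
      have h2 : mkB A (.inl t) (l.map φ) = .oo := dif_neg hl'
      rw [h1, h2]
      rfl

theorem binB_map {A : Alg n m X} {φ : X → X} (hφ : End' A φ) (v : Y → X) (j : ℕ) (b c : BB n X) :
    (binB A v j b c).map φ = binB A v j (b.map φ) (c.map φ) := by
  cases j with
  | zero => rfl
  | succ j =>
    cases hd : (decode j : Option (Sy e f × List (Option (Wd e f Y)))) with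
    | none =>
      have e1 : ∀ b c, binB A v (j + 1) b c = .oo := by
        intro b c
        simp only [binB, hd]
      rw [e1, e1]
      rfl
    | some q =>
      obtain ⟨h, P⟩ := q
      have h1 : (b.map φ :: (decL (c.map φ)).dropLast) =
          (b :: (decL c).dropLast).map fun c => c.map φ := by
        rw [decL_map, List.map_cons, List.map_dropLast]
      have h2 : (els (b.map φ :: (decL (c.map φ)).dropLast)).bind (fill A v P) =
          ((els (b :: (decL c).dropLast)).bind (fill A v P)).map fun r => r.map φ := by
        rw [h1, els_map]
        cases els (b :: (decL c).dropLast) with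
        | none => rfl
        | some l => exact fill_map hφ v P l
      have e1 : ∀ b c, binB A v (j + 1) b c =
          match (els (b :: (decL c).dropLast)).bind (fill A v P) with
          | none => .oo
          | some l => mkB A h l := by
        intro b c
        simp only [binB, hd]
      rw [e1, e1, h2]
      cases (els (b :: (decL c).dropLast)).bind (fill A v P) with
      | none => rfl
      | some l => exact mkB_map hφ h l

private theorem psi_cases (A : Alg n m X) (v : Y → X) (i : ℕ) : psi A v i = id ∨
    ∃ (t : Fin e) (ws : List (Wd e f Y)) (l : List X) (hl : l.length = n t),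
      fill A v (ws.map some) [] = some l ∧
      psi A v i = A.act t fun i : Fin (n t) => l.get (Fin.cast hl.symm i) := by
  unfold psi
  cases (decode i : Option (Fin e × List (Wd e f Y))) with
  | none => exact Or.inl rfl
  | some q =>
    obtain ⟨t, ws⟩ := q
    simp only
    cases hf : fill A v (ws.map some) [] with
    | none => exact Or.inl rfl
    | some l =>
      simp only
      by_cases hl : l.length = n t
      · exact Or.inr ⟨t, ws, l, hl, hf, dif_pos hl⟩
      · exact Or.inl (dif_neg hl)

omit [Primcodable Y] in
private theorem act_comm {A : Alg n m X} {φ : X → X} (hφ : End' A φ) (t : Fin e)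
    (a : Fin (n t) → X) (x : X) : φ (A.act t a x) = A.act t (fun i => φ (a i)) (φ x) := by
  refine (hφ (.inl t) _).trans ?_
  refine congrArg (A (.inl t)) ?_
  exact Fin.comp_snoc φ a x

private theorem map_map (φ ψ : X → X) (b : BB n X) : (b.map φ).map ψ = b.map fun x => ψ (φ x) := by
  induction b with
  | el x => rfl
  | oo => rfl
  | lft t a => rfl
  | pr b c ihb ihc =>
    change BB.pr ((b.map φ).map ψ) ((c.map φ).map ψ) = BB.pr _ _
    rw [ihb, ihc]

theorem psi_end {A : Alg n m X} (hA : A.PE) (v : Y → X) (i : ℕ) : End' A (psi A v i) := by
  rcases psi_cases A v i with h | ⟨t, ws, l, hl, -, h⟩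
  · rw [h]
    exact fun h x => rfl
  · rw [h]
    exact act_end hA t _

/-- `psi i` commutes with endomorphisms: `φ (A.act t a x) = A.act t (φ ∘ a) (φ x)` and the `a i` are static values, hence
fixed (from `fill_map` with `l = []`). -/
theorem psi_comm {A : Alg n m X} {φ : X → X} (hφ : End' A φ) (v : Y → X) (i : ℕ) (x : X) :
    φ (psi A v i x) = psi A v i (φ x) := by
  rcases psi_cases A v i with h | ⟨t, ws, l, hl, h1, h⟩
  · rw [h]
    rfl
  · rw [h, act_comm hφ]
    have h2 := fill_map hφ v (ws.map some) []
    rw [List.map_nil, h1] at h2
    have h3 : l = l.map φ := Option.some.inj h2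
    congr 1
    funext i
    have h4 : (l.map φ)[i.1]'(by rw [List.length_map, hl]; exact i.2) = l[i.1]'(by
      rw [hl]; exact i.2) := by
      congr 1
      exact h3.symm
    rw [List.getElem_map] at h4
    exact h4

/-- `(mul b c).map φ = mul (b.map φ) (c.map φ)`. -/
theorem mulB_map {A : Alg n m X} {φ : X → X} (hφ : End' A φ) (b c : BB n X) :
    (BB.mul A b c).map φ = BB.mul A (b.map φ) (c.map φ) := by
  cases b with
  | el x => rfl
  | oo => rfl
  | pr b c => rfl
  | lft t a =>
    change (c.map (A.act t a)).map φ = (c.map φ).map (A.act t fun i => φ (a i))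
    rw [map_map, map_map]
    congr 1
    funext x
    exact act_comm hφ t a x

/-- The laws: `mul b` is `id` or `map φ` for an endomorphism `φ = A.act t a` (`act_end`); `mulB_map`, `binB_map`, `psi_end`, `psi_comm`. -/
theorem BS_laws {A : Alg n m X} (hA : A.PE) (v : Y → X) : (BS A v).Laws := by
  refine ⟨fun a b c => ?_, fun j a b c => ?_, fun i a b => ?_, fun i j a b => ?_, fun i k a => ?_,
    fun i a b => ?_⟩
  · cases a with
    | el x => rfl
    | oo => rfl
    | pr _ _ => rfl
    | lft t a => exact mulB_map (act_end hA t a) b c
  · cases a with
    | el x => rfl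
    | oo => rfl
    | pr _ _ => rfl
    | lft t a => exact binB_map (act_end hA t a) v j b c
  · exact mulB_map (psi_end hA v i) a b
  · exact binB_map (psi_end hA v i) v j a b
  · change (a.map (psi A v k)).map (psi A v i) = (a.map (psi A v i)).map (psi A v k)
    rw [map_map, map_map]
    congr 1
    funext x
    exact psi_comm (psi_end hA v i) v k x
  · cases a with
    | el x => rfl
    | oo => rfl
    | pr _ _ => rfl
    | lft t a =>
      change (b.map (psi A v i)).map (A.act t a) = (b.map (A.act t a)).map (psi A v i)
      rw [map_map, map_map]
      congr 1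
      funext x
      exact psi_comm (act_end hA t a) v i x

end Pool.Agent.DD
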