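import Pool.Agent.DD.EQ

set_option autoImplicit false

/-! # DD: the failure of `EQ` as an inductively defined relation -/

namespace Pool.Agent.DD

variable {L Y I J : Type} [DecidableEq I] (D : LDat L Y I)

/-- The last letter of a term. -/
def lastL {L J : Type} : Tm L J → L
  | .var l => l
  | .mul _ z => lastL z
  | .bin _ _ w => lastL w

/-- The failure of `EQ`: the set `S` is given by a list, `d` is given as difference of the counts of the lists `p`, `q`. -/
inductive NEQ : List I → List I → List I → Tm L J → Tm L J → Prop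
  | var {S p q : List I} {l l' : L} : (D.yv l ≠ D.yv l' ∨ ∃ i, (D.kl l' ++ q).count i ≠ (D.kl l ++ p).count i) →
      NEQ S p q (.var l) (.var l')
  | mulr {S p q : List I} (a a' : Tm L J) {z z' : Tm L J} : NEQ S p q z z' → NEQ S p q (a.mul z) (a'.mul z')
  | mulc {S : List I} (p q : List I) {a a' z : Tm L J} (z' : Tm L J) {l : L} (i : I) : l ∈ Ends z → i ∉ S ++ D.kl l →
      (D.kl (lastL a')).count i ≠ (D.kl (lastL a)).count i → NEQ S p q (a.mul z) (a'.mul z')
  | mull {S : List I} (p q : List I) {a a' z : Tm L J} (z' : Tm L J) {l : L} : l ∈ Ends z →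
      NEQ (S ++ D.kl l) (D.kl (lastL a')) (D.kl (lastL a)) a a' → NEQ S p q (a.mul z) (a'.mul z')
  | binl {S p q : List I} (j j' : J) {z z' : Tm L J} (w w' : Tm L J) : NEQ S p q z z' →
      NEQ S p q (.bin j z w) (.bin j' z' w')
  | binr {S p q : List I} (j j' : J) (z z' : Tm L J) {w w' : Tm L J} : NEQ S p q w w' →
      NEQ S p q (.bin j z w) (.bin j' z' w')

omit [DecidableEq I] in
private theorem set_app (S : List I) (l : L) : {i | i ∈ S ++ D.kl l} = {i | i ∈ S} ∪ D.sp l := by
  ext i
  exact List.mem_append

/-- Induction on `T` (cases on `T'`): the function `d` is determined by the last letters. -/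
theorem EQ.last {T T' : Tm L J} {S : Set I} {d : I → ℤ} (h : EQ D T T' S d) (i : I) :
    ((D.kl (lastL T')).count i : ℤ) = (D.kl (lastL T)).count i + d i := by
  induction T generalizing T' S d with
  | var l =>
    cases T' with
    | var l' => exact h.2 i
    | mul a' z' => exact h.elim
    | bin j' z' w' => exact h.elim
  | mul a z _ ih =>
    cases T' with
    | var l' => exact h.elim
    | mul a' z' => exact ih (T' := z') h.1
    | bin j' z' w' => exact h.elim
  | bin j z w _ ih =>
    cases T' with
    | var l' => exact h.elim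
    | mul a' z' => exact h.elim
    | bin j' z' w' => exact ih (T' := w') h.2.2

/-- Soundness: induction on `NEQ`; in the cases `mulc`, `mull` the function `d'` given by `EQ` is
`fun i => (D.kl (lastL a')).count i - (D.kl (lastL a)).count i` by `EQ.last`. -/
theorem NEQ.sound {S p q : List I} {T T' : Tm L J} (h : NEQ D S p q T T') :
    ¬ EQ D T T' {i | i ∈ S} fun i => (p.count i : ℤ) - q.count i := by
  induction h with
  | @var S p q l l' h0 =>
    intro hE
    obtain ⟨h1, h2⟩ := hE
    rcases h0 with h0 | ⟨i, h0⟩
    · exact h0 h1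
    · have h3 := h2 i
      rw [List.count_append, List.count_append] at h0
      apply h0
      have h4 : ((D.kl l').count i : ℤ) = (D.kl l).count i + ((p.count i : ℤ) - q.count i) := h3
      omega
  | mulr a a' _ ih =>
    intro hE
    exact ih hE.1
  | @mulc S p q a a' z z' l i hl hi hc =>
    intro hE
    obtain ⟨d', hd', hE'⟩ := hE.2 l hl
    have h1 := EQ.last D hE' i
    rw [hd' i (fun h2 => hi (List.mem_append.2 h2)), add_zero] at h1
    exact hc (by exact_mod_cast h1)
  | @mull S p q a a' z z' l hl _ ih =>
    intro hE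
    obtain ⟨d', hd', hE'⟩ := hE.2 l hl
    have h1 : d' = fun i => ((D.kl (lastL a')).count i : ℤ) - (D.kl (lastL a)).count i := by
      funext i
      have := EQ.last D hE' i
      omega
    rw [set_app, ← h1] at ih
    exact ih hE'
  | binl j j' w w' _ ih =>
    intro hE
    exact ih hE.2.1
  | binr j j' z z' _ ih =>
    intro hE
    exact ih hE.2.2

/-- Completeness: induction on `Shp T T'`, all `S p q` at the same time. `mul a z`, `mul a' z'`: either `EQ z z' S d` fails (`mulr`) or there is
`l ∈ Ends z` such that no `d'` works; try `d' = fun i => (D.kl (lastL a')).count i - (D.kl (lastL a)).count i`: either it does not vanish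
outside `S ∪ sp l` (`mulc`) or `EQ a a' (S ∪ sp l) d'` fails (`mull`, induction). -/
theorem NEQ.complete {T T' : Tm L J} (hs : Shp T T') {S p q : List I}
    (h : ¬ EQ D T T' {i | i ∈ S} fun i => (p.count i : ℤ) - q.count i) : NEQ D S p q T T' := by
  induction hs generalizing S p q with
  | var y y' =>
    by_cases hy : D.yv y = D.yv y'
    · refine NEQ.var (Or.inr ?_)
      by_contra hc
      push Not at hc
      refine h ⟨hy, fun i => ?_⟩
      have h1 := hc i
      rw [List.count_append, List.count_append] at h1
      change ((D.kl y').count i : ℤ) = (D.kl y).count i + ((p.count i : ℤ) - q.count i)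
      omega
    · exact NEQ.var (Or.inl hy)
  | @mul a a' b b' _ _ ih1 ih2 =>
    by_cases h1 : EQ D b b' {i | i ∈ S} fun i => (p.count i : ℤ) - q.count i
    · by_contra hN
      refine h ⟨h1, fun l hl => ⟨fun i => ((D.kl (lastL a')).count i : ℤ) - (D.kl (lastL a)).count i,
        fun i hi => ?_, ?_⟩⟩
      · by_contra hne
        refine hN (NEQ.mulc p q b' i hl (fun h2 => hi (List.mem_append.1 h2)) fun h3 => hne ?_)
        change ((D.kl (lastL a')).count i : ℤ) - (D.kl (lastL a)).count i = 0
        rw [h3, sub_self]
      · by_contra hne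
        refine hN (NEQ.mull p q b' hl (ih1 ?_))
        rw [set_app]
        exact hne
    · exact NEQ.mulr a a' (ih2 h1)
  | @bin j a a' b b' _ _ ih1 ih2 =>
    by_cases h1 : EQ D a a' {i | i ∈ S} fun i => (p.count i : ℤ) - q.count i
    · by_cases h2 : EQ D b b' {i | i ∈ S} fun i => (p.count i : ℤ) - q.count i
      · exact absurd ⟨rfl, h1, h2⟩ h
      · exact NEQ.binr j j a a' (ih2 h2)
    · exact NEQ.binl j j b b' (ih1 h1)

/-- The case `S = ∅`, `d = 0`. -/
theorem neq_iff {T T' : Tm L J} (hs : Shp T T') : NEQ D [] [] [] T T' ↔ ¬ EQ D T T' ∅ 0 := by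
  have h1 : {i | i ∈ ([] : List I)} = (∅ : Set I) := by
    ext i
    simp
  have h2 : (fun i => ((([] : List I).count i : ℕ) : ℤ) - (([] : List I).count i : ℕ)) = (0 : I → ℤ) := by
    funext i
    simp
  constructor
  · intro h
    have h3 := NEQ.sound D h
    rw [h1, h2] at h3
    exact h3
  · intro h
    apply NEQ.complete D hs
    rw [h1, h2]
    exact h

end Pool.Agent.DD
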