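import Pool.Agent.DD.Code
import Pool.Agent.DD.NEq

set_option autoImplicit false

/-! # DD: coded letters, primitive recursive recursion on terms -/

namespace Pool.Agent.DD

open Encodable Pool.Agent.H78Ext

/-- The base letter and the list of indices coded by a natural number. -/
def dl (l : ℕ) : ℕ × List ℕ := (decode (α := ℕ × List ℕ) l).getD (0, [])

theorem dl_encode (x : ℕ × List ℕ) : dl (encode x) = x := by
  rw [dl, encodek]
  rfl

/-- The letters of extended terms are natural numbers. -/
def cD : LDat ℕ ℕ ℕ where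
  yv l := (dl l).1
  kl l := (dl l).2
  tl i l := encode ((dl l).1, i :: (dl l).2)
  yv_tl i l := by rw [dl_encode]
  kl_tl i l := by rw [dl_encode]

/-- Recursion on terms (without parameters for the subterms). -/
def Tm.fold {σ : Type} (fv : ℕ → σ) (fm : σ → σ → σ) (fb : ℕ → σ → σ → σ) : Tm ℕ ℕ → σ
  | .var y => fv y
  | .mul a b => fm (a.fold fv fm fb) (b.fold fv fm fb)
  | .bin j a b => fb j (a.fold fv fm fb) (b.fold fv fm fb)

private theorem dcod0 {n : ℕ} (h1 : ¬ n % 3 = 1) (h2 : ¬ n % 3 = 2) : dcod n = .var (n / 3) := by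
  rw [dcod, dif_neg h1, dif_neg h2]

private theorem dcod1 {n : ℕ} (h1 : n % 3 = 1) :
    dcod n = .mul (dcod (n / 3).unpair.1) (dcod (n / 3).unpair.2) := by
  rw [dcod, dif_pos h1]

private theorem dcod2 {n : ℕ} (h2 : n % 3 = 2) :
    dcod n = .bin (n / 3).unpair.1 (dcod (n / 3).unpair.2.unpair.1)
      (dcod (n / 3).unpair.2.unpair.2) := by
  rw [dcod, dif_neg (by omega), dif_pos h2]

private theorem range_get {σ : Type} (f : ℕ → σ) {n k : ℕ} (h : k < n) :
    ((List.range n).map f)[k]? = some (f k) := by
  rw [List.getElem?_map, List.getElem?_range h]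
  rfl

/-- Recursion on terms is primitive recursive. `Primrec.nat_strong_rec` for `fun a k => (dcod k).fold (fv a) (fm a) (fb a)`: its value at `k`
is computed from `k = length` of the list of the earlier values: `k % 3 = 0`: `fv a (k / 3)`; `k % 3 = 1`: `fm a` of the values at
`(k / 3).unpair.1`, `(k / 3).unpair.2`; `k % 3 = 2`: `fb a (k / 3).unpair.1` of the values at `(k / 3).unpair.2.unpair.1`,
`(k / 3).unpair.2.unpair.2` (`dcod_lt1`, `dcod_lt2`, unfold `dcod` once). Then `t = dcod (cod t)`, `encode_tm`. -/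
theorem prim_fold {α σ : Type} [Primcodable α] [Primcodable σ] {fv : α → ℕ → σ} {fm : α → σ × σ → σ}
    {fb : α → ℕ × σ × σ → σ} (hv : Primrec₂ fv) (hm : Primrec₂ fm) (hb : Primrec₂ fb) :
    Primrec₂ fun (a : α) (t : Tm ℕ ℕ) =>
      t.fold (fv a) (fun x y => fm a (x, y)) (fun j x y => fb a (j, x, y)) := by
  have h3 : Primrec fun x : α × List σ => x.2.length / 3 :=
    Primrec.nat_div.comp (Primrec.list_length.comp Primrec.snd) (Primrec.const 3)
  have hm3 : Primrec fun x : α × List σ => x.2.length % 3 :=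
    Primrec.nat_mod.comp (Primrec.list_length.comp Primrec.snd) (Primrec.const 3)
  have u1 : Primrec fun x : α × List σ => (x.2.length / 3).unpair.1 :=
    Primrec.fst.comp (Primrec.unpair.comp h3)
  have u2 : Primrec fun x : α × List σ => (x.2.length / 3).unpair.2 :=
    Primrec.snd.comp (Primrec.unpair.comp h3)
  have u21 : Primrec fun x : α × List σ => (x.2.length / 3).unpair.2.unpair.1 :=
    Primrec.fst.comp (Primrec.unpair.comp u2)
  have u22 : Primrec fun x : α × List σ => (x.2.length / 3).unpair.2.unpair.2 :=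
    Primrec.snd.comp (Primrec.unpair.comp u2)
  have g0 : Primrec fun x : α × List σ => some (fv x.1 (x.2.length / 3)) :=
    Primrec.option_some.comp (hv.comp Primrec.fst h3)
  have g1 : Primrec fun x : α × List σ => (x.2[(x.2.length / 3).unpair.1]?).bind fun a =>
      (x.2[(x.2.length / 3).unpair.2]?).map fun b => fm x.1 (a, b) := by
    refine Primrec.option_bind (Primrec.list_getElem?.comp Primrec.snd u1) ?_
    refine Primrec.option_map
      (Primrec.list_getElem?.comp (Primrec.snd.comp Primrec.fst) (u2.comp Primrec.fst)) ?_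
    exact hm.comp (Primrec.fst.comp (Primrec.fst.comp Primrec.fst))
      (Primrec.pair (Primrec.snd.comp Primrec.fst) Primrec.snd)
  have g2 : Primrec fun x : α × List σ =>
      (x.2[(x.2.length / 3).unpair.2.unpair.1]?).bind fun a =>
      (x.2[(x.2.length / 3).unpair.2.unpair.2]?).map fun b =>
        fb x.1 ((x.2.length / 3).unpair.1, a, b) := by
    refine Primrec.option_bind (Primrec.list_getElem?.comp Primrec.snd u21) ?_
    refine Primrec.option_map
      (Primrec.list_getElem?.comp (Primrec.snd.comp Primrec.fst) (u22.comp Primrec.fst)) ?_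
    exact hb.comp (Primrec.fst.comp (Primrec.fst.comp Primrec.fst))
      (Primrec.pair (u1.comp (Primrec.fst.comp Primrec.fst))
        (Primrec.pair (Primrec.snd.comp Primrec.fst) Primrec.snd))
  have c1 : PrimrecPred fun x : α × List σ => x.2.length % 3 = 1 :=
    Primrec.eq.comp hm3 (Primrec.const 1)
  have c2 : PrimrecPred fun x : α × List σ => x.2.length % 3 = 2 :=
    Primrec.eq.comp hm3 (Primrec.const 2)
  have hg := Primrec.ite c1 g1 (Primrec.ite c2 g2 g0)
  have h : Primrec₂ fun (a : α) (k : ℕ) =>
      (dcod k).fold (fv a) (fun x y => fm a (x, y)) (fun j x y => fb a (j, x, y)) := by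
    refine Primrec.nat_strong_rec _ (g := fun a l =>
      if l.length % 3 = 1 then (l[(l.length / 3).unpair.1]?).bind fun x =>
        (l[(l.length / 3).unpair.2]?).map fun y => fm a (x, y)
      else if l.length % 3 = 2 then (l[(l.length / 3).unpair.2.unpair.1]?).bind fun x =>
        (l[(l.length / 3).unpair.2.unpair.2]?).map fun y => fb a ((l.length / 3).unpair.1, x, y)
      else some (fv a (l.length / 3))) hg ?_
    intro a n
    have hlen : ((List.range n).map fun k =>
      (dcod k).fold (fv a) (fun x y => fm a (x, y)) (fun j x y => fb a (j, x, y))).length = n := by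
      rw [List.length_map, List.length_range]
    simp only [hlen]
    by_cases h1 : n % 3 = 1
    · rw [if_pos h1, range_get _ (dcod_lt1 h1).1, range_get _ (dcod_lt1 h1).2, dcod1 h1]
      rfl
    · rw [if_neg h1]
      by_cases h2 : n % 3 = 2
      · rw [if_pos h2, range_get _ (dcod_lt2 h2).1, range_get _ (dcod_lt2 h2).2, dcod2 h2]
        rfl
      · rw [if_neg h2, dcod0 h1 h2]
        rfl
  refine (h.comp Primrec.fst (Primrec.encode.comp Primrec.snd)).of_eq fun x => ?_
  rw [encode_tm, dcod_cod]

theorem prim_dl : Primrec dl := by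
  exact Primrec.option_getD.comp Primrec.decode (Primrec.const _)

theorem prim_tl : Primrec₂ fun i l => cD.tl i l := by
  exact Primrec.encode.comp (Primrec.pair (Primrec.fst.comp (prim_dl.comp Primrec.snd))
    (Primrec.list_cons.comp Primrec.fst (Primrec.snd.comp (prim_dl.comp Primrec.snd))))

/-- `Tm.map` is a fold. -/
theorem prim_tau : Primrec₂ fun (i : ℕ) (T : Tm ℕ ℕ) => T.map (cD.tl i) := by
  have h := prim_fold (α := ℕ) (σ := Tm ℕ ℕ) (fv := fun i y => .var (cD.tl i y))
    (fm := fun _ x => x.1.mul x.2) (fb := fun _ x => .bin x.1 x.2.1 x.2.2)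
    (prim_var.comp prim_tl)
    (prim_mul.comp (Primrec.fst.comp Primrec.snd) (Primrec.snd.comp Primrec.snd))
    (prim_bin (Primrec.fst.comp Primrec.snd) (Primrec.fst.comp (Primrec.snd.comp Primrec.snd))
      (Primrec.snd.comp (Primrec.snd.comp Primrec.snd)))
  refine h.of_eq fun i T => ?_
  induction T with
  | var y => rfl
  | mul a b iha ihb =>
    rw [Tm.fold, iha, ihb]
    rfl
  | bin j a b iha ihb =>
    rw [Tm.fold, iha, ihb]
    rfl

theorem prim_er : Primrec fun T : Tm ℕ ℕ => er 0 T := by
  have h := prim_fold (α := ℕ) (σ := Tm ℕ ℕ) (fv := fun _ _ => .var 0)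
    (fm := fun _ x => x.1.mul x.2) (fb := fun _ x => .bin x.1 x.2.1 x.2.2)
    (Primrec₂.const _)
    (prim_mul.comp (Primrec.fst.comp Primrec.snd) (Primrec.snd.comp Primrec.snd))
    (prim_bin (Primrec.fst.comp Primrec.snd) (Primrec.fst.comp (Primrec.snd.comp Primrec.snd))
      (Primrec.snd.comp (Primrec.snd.comp Primrec.snd)))
  refine (h.comp (Primrec.const 0) Primrec.id).of_eq fun T => ?_
  change T.fold _ _ _ = er 0 T
  unfold er
  induction T with
  | var y => rfl
  | mul a b iha ihb =>
    rw [Tm.fold, iha, ihb]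
    rfl
  | bin j a b iha ihb =>
    rw [Tm.fold, iha, ihb]
    rfl

theorem prim_lastL : Primrec fun T : Tm ℕ ℕ => lastL T := by
  have h := prim_fold (α := ℕ) (σ := ℕ) (fv := fun _ y => y)
    (fm := fun _ x => x.2) (fb := fun _ x => x.2.2)
    Primrec.snd (Primrec.snd.comp Primrec.snd) (Primrec.snd.comp (Primrec.snd.comp Primrec.snd))
  refine (h.comp (Primrec.const 0) Primrec.id).of_eq fun T => ?_
  change T.fold _ _ _ = lastL T
  induction T with
  | var y => rfl
  | mul a b iha ihb =>
    rw [Tm.fold, lastL, ihb]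
  | bin j a b iha ihb =>
    rw [Tm.fold, lastL, ihb]

/-- The list of the end letters. -/
def endsL : Tm ℕ ℕ → List ℕ
  | .var l => [l]
  | .mul _ z => endsL z
  | .bin _ z w => endsL z ++ endsL w

theorem mem_endsL (T : Tm ℕ ℕ) (l : ℕ) : l ∈ endsL T ↔ l ∈ Ends T := by
  induction T with
  | var y => exact List.mem_singleton
  | mul a b iha ihb => exact ihb
  | bin j a b iha ihb =>
    change l ∈ endsL a ++ endsL b ↔ l ∈ Ends a ∪ Ends b
    rw [List.mem_append, Set.mem_union, iha, ihb]

theorem prim_endsL : Primrec endsL := by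
  have h := prim_fold (α := ℕ) (σ := List ℕ) (fv := fun _ y => [y])
    (fm := fun _ x => x.2) (fb := fun _ x => x.2.1 ++ x.2.2)
    (Primrec.list_cons.comp Primrec.snd (Primrec.const []))
    (Primrec.snd.comp Primrec.snd)
    (Primrec.list_append.comp (Primrec.fst.comp (Primrec.snd.comp Primrec.snd))
      (Primrec.snd.comp (Primrec.snd.comp Primrec.snd)))
  refine (h.comp (Primrec.const 0) Primrec.id).of_eq fun T => ?_
  change T.fold _ _ _ = endsL T
  induction T with
  | var y => rfl
  | mul a b iha ihb =>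
    rw [Tm.fold, endsL, ihb]
  | bin j a b iha ihb =>
    rw [Tm.fold, endsL, iha, ihb]

/-- `Shp s t ↔ er 0 s = er 0 t`. -/
theorem prim_shp : PrimrecPred fun x : Tm ℕ ℕ × Tm ℕ ℕ => Shp x.1 x.2 := by
  refine (Primrec.eq.comp (prim_er.comp Primrec.fst) (prim_er.comp Primrec.snd)).of_eq fun x => ?_
  exact ⟨fun h => shp_of_er_eq 0 h, fun h => h.er_eq 0⟩

/-- Counting is primitive recursive (a fold on lists). -/
theorem prim_count : Primrec₂ fun (i : ℕ) (l : List ℕ) => l.count i := by
  have h : Primrec fun x : ℕ × List ℕ =>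
      x.2.foldr (fun b s => if b = x.1 then s + 1 else s) 0 := by
    refine Primrec.list_foldr (h := fun (x : ℕ × List ℕ) (y : ℕ × ℕ) =>
      if y.1 = x.1 then y.2 + 1 else y.2) Primrec.snd (Primrec.const 0) ?_
    exact Primrec.ite
      (Primrec.eq.comp (Primrec.fst.comp Primrec.snd) (Primrec.fst.comp Primrec.fst))
      (Primrec.succ.comp (Primrec.snd.comp Primrec.snd)) (Primrec.snd.comp Primrec.snd)
  refine h.of_eq fun x => ?_
  obtain ⟨i, l⟩ := x
  change l.foldr (fun b s => if b = i then s + 1 else s) 0 = l.count i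
  induction l with
  | nil => rfl
  | cons b l ih =>
    rw [List.foldr_cons, ih, List.count_cons]
    by_cases hb : b = i
    · simp [hb]
    · simp [hb]

end Pool.Agent.DD
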