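import Pool.Agent.DD.Gen
import Pool.Agent.DD.Cod2

set_option autoImplicit false

/-! # DD: the translation of terms of type `(E, F)` and the easy half of its correctness -/

namespace Pool.Agent.DD

open Encodable

variable {e f : ℕ} {n : Fin e → ℕ} {m : Fin f → ℕ} {Y : Type} [Primcodable Y]

/-- The structure of extended terms. -/
def raw : XS (Tm ℕ ℕ) ℕ ℕ := ⟨Tm.mul, Tm.bin, fun i T => T.map (cD.tl i)⟩

/-- The translation: a static word or an extended term. -/
def tr (t : Trm n m Y) : Wd e f Y ⊕ Tm ℕ ℕ :=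
  t.eval (algG n m Y raw) fun y => .inr (.var (encode (encode y, ([] : List ℕ))))

/-- `Sim` is an equivalence relation. -/
def simSetoid : Setoid (Tm ℕ ℕ) := ⟨Sim cD, ⟨Sim.refl cD, Sim.symm cD, Sim.trans cD⟩⟩

/-- The quotient of the extended terms by `Sim`. -/
def QX : Type := Quotient simSetoid

/-- The class of an extended term. -/
def qx (T : Tm ℕ ℕ) : QX := Quotient.mk simSetoid T

/-- The structure of the quotient (`Quotient.map₂`, `Quotient.map`, with `Sim.mul`, `Sim.bin`, `Sim.tau`). -/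
def QS : XS QX ℕ ℕ where
  mul := Quotient.map₂ Tm.mul fun _ _ h _ _ h' => Sim.mul cD h h'
  bin j := Quotient.map₂ (Tm.bin j) fun _ _ h _ _ h' => Sim.bin cD h h'
  tau i := Quotient.map (fun T => T.map (cD.tl i)) fun _ _ h => Sim.tau cD i h

/-- `Ex.sim`, `Sim.mul_tau`, `Sim.tau_comm`; `tau_mul`, `tau_bin` hold by definition. -/
theorem QS_laws : QS.Laws := by
  refine ⟨?_, ?_, ?_, ?_, ?_, ?_⟩
  · rintro ⟨a⟩ ⟨b⟩ ⟨c⟩
    exact Quotient.sound (s := simSetoid) ((Ex.ld a b c).sim cD)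
  · rintro j ⟨a⟩ ⟨b⟩ ⟨c⟩
    exact Quotient.sound (s := simSetoid) ((Ex.lb j a b c).sim cD)
  · rintro i ⟨a⟩ ⟨b⟩
    rfl
  · rintro i j ⟨a⟩ ⟨b⟩
    rfl
  · rintro i k ⟨a⟩
    exact Quotient.sound (s := simSetoid) (Sim.tau_comm cD k i a)
  · rintro i ⟨a⟩ ⟨b⟩
    exact Quotient.sound (s := simSetoid) (Sim.mul_tau cD i a b)

theorem hom_qx : XS.Hom raw QS qx := by
  exact ⟨fun _ _ => rfl, fun _ _ _ => rfl, fun _ _ => rfl⟩

/-- Naturality of the values of terms: induction on `t`, `hom_algG`. -/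
theorem eval_algG {B B' : Type} {A : XS B ℕ ℕ} {A' : XS B' ℕ ℕ} {φ : B → B'} (hφ : XS.Hom A A' φ)
    (v : Y → Wd e f Y ⊕ B) (t : Trm n m Y) :
    Sum.map id φ (t.eval (algG n m Y A) v) = t.eval (algG n m Y A') fun y => Sum.map id φ (v y) := by
  induction t with
  | var y => rfl
  | app h x ih =>
    change Sum.map id φ (algG n m Y A h fun i => (x i).eval (algG n m Y A) v) =
      algG n m Y A' h fun i => (x i).eval (algG n m Y A') fun y => Sum.map id φ (v y)
    rw [hom_algG hφ]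
    congr 1
    funext i
    exact ih i

/-- (=>) of the theorem in section 3: the values of `s` and `t` in the partially endomorphic algebra `algG n m Y QS` are equal, they are
the classes of `tr s` and `tr t` (`eval_algG`, `hom_qx`, `algG_PE`, `QS_laws`). -/
theorem tr_of_freeEq {s t : Trm n m Y} (h : FreeEq s t) :
    (∃ w, tr s = .inl w ∧ tr t = .inl w) ∨ ∃ T T', tr s = .inr T ∧ tr t = .inr T' ∧ Sim cD T T' := by
  have h1 := h (Wd e f Y ⊕ QX) (algG n m Y QS) (algG_PE n m QS_laws)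
    (fun y => Sum.map id qx (.inr (.var (encode (encode y, ([] : List ℕ))))))
  rw [← eval_algG hom_qx, ← eval_algG hom_qx] at h1
  have h2 : Sum.map id qx (tr s) = Sum.map id qx (tr t) := h1
  generalize tr s = u at h2 ⊢
  generalize tr t = u' at h2 ⊢
  rcases u with w | T
  · rcases u' with w' | T'
    · have h3 : (w : Wd e f Y) = w' := Sum.inl.inj h2
      exact Or.inl ⟨w, rfl, by rw [h3]⟩
    · exact absurd h2 Sum.inl_ne_inr
  · rcases u' with w' | T'
    · exact absurd h2 Sum.inr_ne_inl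
    · exact Or.inr ⟨T, T', rfl, rfl, Quotient.exact (s := simSetoid) (Sum.inr.inj h2)⟩

end Pool.Agent.DD
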