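import Pool.Agent.DD.BB1
import Pool.Agent.DD.TrD

set_option autoImplicit false

/-! # DD: values in `B`, the second half of the correctness of the translation -/

namespace Pool.Agent.DD

open Encodable

variable {e f : ℕ} {n : Fin e → ℕ} {m : Fin f → ℕ} {X Y : Type} [Primcodable Y]

/-- `z` represents the element `x` of the algebra: a static word with value `x`, or the element `el x` of `B`. -/
def Rep (A : Alg n m X) (v : Y → X) : Wd e f Y ⊕ BB n X → X → Prop
  | .inl w, x => ∃ c : Trm n m Y, ClT c ∧ c.word = w ∧ c.eval A v = x
  | .inr b, x => b = .el x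

/-- If all arguments are represented, the pattern is filled with the values of the other arguments: induction on `Forall₂`
(`valw_word`). -/
theorem fill_pat {A : Alg n m X} {v : Y → X} {l : List (Wd e f Y ⊕ BB n X)} {r : List X}
    (h : List.Forall₂ (Rep A v) l r) :
    ∃ s, els (nonst l) = some s ∧ fill A v (pat l) s = some r := by
  induction h with
  | nil => exact ⟨[], rfl, rfl⟩
  | @cons a x l r ha _ ih =>
    obtain ⟨s, h1, h2⟩ := ih
    cases a with
    | inl w =>
      obtain ⟨c, hc, rfl, rfl⟩ := ha
      refine ⟨s, h1, ?_⟩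
      change ((valw A v c.word).bind fun x => (fill A v (pat l) s).map fun r => x :: r) = _
      rw [valw_word A v hc, h2]
      rfl
    | inr b =>
      obtain rfl : b = .el x := ha
      refine ⟨x :: s, ?_, ?_⟩
      · change ((els (nonst l)).map fun r => x :: r) = _
        rw [h1]
        rfl
      · change ((fill A v (pat l) s).map fun r => x :: r) = _
        rw [h2]
        rfl

private theorem pat_of_nonst {W B : Type} {l : List (W ⊕ B)} (h0 : nonst l = []) :
    pat l = (stat l).map some := by
  induction l with
  | nil => rfl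
  | cons a l ih =>
    cases a with
    | inl w =>
      have h1 : nonst l = [] := h0
      change some w :: pat l = some w :: (stat l).map some
      rw [ih h1]
    | inr b => cases h0

/-- If all arguments are static. -/
theorem fill_stat {A : Alg n m X} {v : Y → X} {l : List (Wd e f Y ⊕ BB n X)} {r : List X}
    (h : List.Forall₂ (Rep A v) l r) (h0 : nonst l = []) :
    fill A v ((stat l).map some) [] = some r := by
  obtain ⟨s, h1, h2⟩ := fill_pat h
  rw [h0] at h1
  obtain rfl : [] = s := Option.some.inj h1
  rwa [pat_of_nonst h0] at h2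

/-- The code of a nonempty list of elements of the algebra is decoded correctly:
`decL (lst z l) = l ++ [z]` if `z = el x` (`z` is not a pair). -/
theorem decL_lst {A : Alg n m X} {v : Y → X} (x : X) (l : List (BB n X)) :
    decL (lst (BS A v) (.el x) l) = l ++ [.el x] := by
  induction l with
  | nil => rfl
  | cons b l ih =>
    change b :: decL (lst (BS A v) (.el x) l) = _
    rw [ih]
    rfl

/-- Value of `opc`: `decL_lst`, `encodek`. `hs` says that the arguments `z :: l` are elements of the algebra. -/
theorem opc_val {A : Alg n m X} {v : Y → X} (h : Sy e f) (P : List (Option (Wd e f Y))) {z : BB n X} {l : List (BB n X)}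
    {s r : List X} (hs : els (z :: l) = some s) (hr : fill A v P s = some r) :
    opc (BS A v) h P z l = mkB A h r := by
  cases z with
  | el x =>
    change binB A v (encode (h, P) + 1) (.el x) (lst (BS A v) (.el x) l) = _
    simp only [binB, encodek]
    rw [decL_lst, List.dropLast_concat, hs, Option.bind_some, hr]
  | lft t a => cases hs
  | pr b c => cases hs
  | oo => cases hs

private theorem f2_ofFn {α β : Type} {R : α → β → Prop} {k : ℕ} {l : List α} {x : Fin k → β}
    (h : List.Forall₂ R l (List.ofFn x)) :
    ∃ y : Fin k → α, l = List.ofFn y ∧ ∀ i, R (y i) (x i) := by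
  have hl : l.length = k := by
    have h1 := h.length_eq
    rwa [List.length_ofFn] at h1
  subst hl
  refine ⟨fun i => l.get i, (List.ofFn_get l).symm, fun i => ?_⟩
  have h1 := h.get i.2 (by simp)
  simpa using h1

private theorem f2_of {α β : Type} {R : α → β → Prop} {k : ℕ} {y : Fin k → α} {x : Fin k → β}
    (h : ∀ i, R (y i) (x i)) : List.Forall₂ R (List.ofFn y) (List.ofFn x) := by
  rw [List.forall₂_iff_get]
  refine ⟨by simp, fun i h1 h2 => ?_⟩
  simpa using h ⟨i, by simpa using h1⟩

omit [Primcodable Y] in
private theorem f2_stat {A : Alg n m X} {v : Y → X} {l : List (Wd e f Y ⊕ BB n X)} {r : List X}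
    (h : List.Forall₂ (Rep A v) l r) (h0 : nonst l = []) :
    List.Forall₂ (fun w x => ∃ c : Trm n m Y, ClT c ∧ c.word = w ∧ c.eval A v = x) (stat l) r := by
  induction h with
  | nil => exact .nil
  | @cons a x l r ha _ ih =>
    cases a with
    | inl w => exact .cons ha (ih h0)
    | inr b => cases h0

/-- The key lemma. `g ∈ F`: if all arguments are static, take the closed term `app (inr g) c` with `c i` closed terms for the arguments; otherwise
`opc_val`, `fill_pat`, `mkB A (inr g) (List.ofFn x) = el (A (inr g) x)`.
`t ∈ E`: `x = Fin.snoc x0 x1`, the list is `l0 ++ [z]` with `l0` representing `List.ofFn x0` and `z` representing `x1`. `z` static: the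
value `x1` is fixed by `A.act t x0` (`ClT.fix`, `act_end`). `z = inr (el x1)`: if all of `l0` are static, `psi (encode (t, stat l0)) = A.act t x0` by
`fill_stat`; otherwise `opc_val` with `mkB A (inl t) (List.ofFn x0) = lft t x0`. -/
theorem rep_opG {A : Alg n m X} (hA : A.PE) {v : Y → X} (h : Sy e f) {l : List (Wd e f Y ⊕ BB n X)}
    (x : Fin (ar n m h) → X) (hl : List.Forall₂ (Rep A v) l (List.ofFn x)) :
    Rep A v (opG (BS A v) h l) (A h x) := by
  obtain ⟨y, rfl, hy⟩ := f2_ofFn hl
  cases h with
  | inr g =>
    rcases h0 : nonst (List.ofFn y) with _ | ⟨z, l'⟩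
    · have h1 : opG (BS A v) (.inr g : Sy e f) (List.ofFn y) =
          .inl (.inl (.inr g) :: (stat (List.ofFn y)).flatten) := by
        simp only [opG]
        rw [h0]
      rw [h1]
      have h2 := f2_stat hl h0
      obtain ⟨w, hw, hw2⟩ := f2_ofFn h2
      choose c hc hcw hce using hw2
      refine ⟨.app (.inr g) c, .app g c hc, ?_, ?_⟩
      · rw [hw]
        change Sum.inl (.inr g : Sy e f) :: (List.ofFn fun i => (c i).word).flatten = _
        simp only [hcw]
      · change A (.inr g) (fun i => (c i).eval A v) = _
        simp only [hce]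
    · have h1 : opG (BS A v) (.inr g : Sy e f) (List.ofFn y) =
          .inr (opc (BS A v) (.inr g : Sy e f) (pat (List.ofFn y)) z l') := by
        simp only [opG]
        rw [h0]
      rw [h1]
      obtain ⟨s, h2, h3⟩ := fill_pat hl
      rw [h0] at h2
      change opc (BS A v) (.inr g : Sy e f) (pat (List.ofFn y)) z l' = .el (A (.inr g) x)
      rw [opc_val (.inr g : Sy e f) _ h2 h3]
      have h4 : (List.ofFn x).length = m g := List.length_ofFn
      simp only [mkB]
      rw [dif_pos h4]
      congr 2
      funext i
      simp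
  | inl t =>
    obtain ⟨y0, y1, rfl⟩ : ∃ (y0 : Fin (n t) → Wd e f Y ⊕ BB n X) (y1 : Wd e f Y ⊕ BB n X),
        y = Fin.snoc (α := fun _ => Wd e f Y ⊕ BB n X) y0 y1 :=
      ⟨fun i => y i.castSucc, y (Fin.last _), (Fin.snoc_init_self y).symm⟩
    obtain ⟨x0, x1, rfl⟩ : ∃ (x0 : Fin (n t) → X) (x1 : X),
        x = Fin.snoc (α := fun _ => X) x0 x1 :=
      ⟨fun i => x i.castSucc, x (Fin.last _), (Fin.snoc_init_self x).symm⟩
    have hy0 : ∀ i, Rep A v (y0 i) (x0 i) := by
      intro i
      have := hy i.castSucc
      rwa [Fin.snoc_castSucc, Fin.snoc_castSucc] at this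
    have hy1 : Rep A v y1 x1 := by
      have := hy (Fin.last _)
      rwa [Fin.snoc_last, Fin.snoc_last] at this
    have hl0 : List.Forall₂ (Rep A v) (List.ofFn y0) (List.ofFn x0) := f2_of hy0
    have e1 : List.ofFn (Fin.snoc (α := fun _ => Wd e f Y ⊕ BB n X) y0 y1) =
        List.ofFn y0 ++ [y1] := by
      rw [List.ofFn_succ']
      simp [List.concat_eq_append]
    change Rep A v (opG (BS A v) (.inl t : Sy e f)
      (List.ofFn (Fin.snoc (α := fun _ => Wd e f Y ⊕ BB n X) y0 y1))) (A.act t x0 x1)
    rw [e1]
    cases y1 with
    | inl s =>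
      have h1 : opG (BS A v) (.inl t : Sy e f) (List.ofFn y0 ++ [.inl s]) = .inl s := by
        simp only [opG, List.getLast?_append, List.getLast?_singleton, Option.some_or]
      rw [h1]
      obtain ⟨c, hc, h2, h3⟩ := hy1
      refine ⟨c, hc, h2, ?_⟩
      rw [← h3]
      exact ((hc.fix (act_end hA t x0) v)).symm
    | inr z =>
      obtain rfl : z = .el x1 := hy1
      rcases h0 : nonst (List.ofFn y0) with _ | ⟨w, l'⟩
      · have h1 : opG (BS A v) (.inl t : Sy e f) (List.ofFn y0 ++ [.inr (.el x1)]) =
            .inr ((BS A v).tau (encode (t, stat (List.ofFn y0))) (.el x1)) := by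
          simp only [opG, List.getLast?_append, List.getLast?_singleton, Option.some_or,
            List.dropLast_concat]
          rw [h0]
        rw [h1]
        change BB.el (psi A v (encode (t, stat (List.ofFn y0))) x1) = .el (A.act t x0 x1)
        have h2 := fill_stat hl0 h0
        have h4 : (List.ofFn x0).length = n t := List.length_ofFn
        have h3 : psi A v (encode (t, stat (List.ofFn y0))) = A.act t x0 := by
          simp only [psi, encodek]
          rw [h2]
          simp only
          rw [dif_pos h4]
          congr 1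
          funext i
          simp
        rw [h3]
      · have h1 : opG (BS A v) (.inl t : Sy e f) (List.ofFn y0 ++ [.inr (.el x1)]) =
            .inr ((BS A v).mul (opc (BS A v) (.inl t : Sy e f) (pat (List.ofFn y0)) w l')
              (.el x1)) := by
          simp only [opG, List.getLast?_append, List.getLast?_singleton, Option.some_or,
            List.dropLast_concat]
          rw [h0]
        rw [h1]
        obtain ⟨s, h2, h3⟩ := fill_pat hl0
        rw [h0] at h2
        rw [opc_val (.inl t : Sy e f) _ h2 h3]
        have h4 : (List.ofFn x0).length = n t := List.length_ofFn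
        have h5 : mkB A (.inl t) (List.ofFn x0) = .lft t x0 := by
          simp only [mkB]
          rw [dif_pos h4]
          congr 1
          funext i
          simp
        rw [h5]
        rfl

/-- Values of terms: induction on `t`, `rep_opG`. -/
theorem rep_eval {A : Alg n m X} (hA : A.PE) (v : Y → X) (t : Trm n m Y) :
    Rep A v (t.eval (algG n m Y (BS A v)) fun y => .inr (.el (v y))) (t.eval A v) := by
  induction t with
  | var y => rfl
  | app h x ih => exact rep_opG hA h _ (f2_of ih)

/-- The assignment of the coded letters. -/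
noncomputable def vB (v : Y → X) (k : ℕ) : BB n X :=
  match (decode k : Option Y) with
  | some y => .el (v y)
  | none => .oo

/-- The values of extended terms in `B` are a homomorphism: `tau`: induction on the term, `kl_tl`, `tau_mul`, `tau_bin`. -/
theorem hom_val {A : Alg n m X} (hA : A.PE) (v : Y → X) :
    XS.Hom raw (BS A v) ((BS A v).val cD (vB v)) := by
  refine ⟨fun _ _ => rfl, fun _ _ _ => rfl, fun i T => ?_⟩
  change (BS A v).val cD (vB v) (T.map (cD.tl i)) = (BS A v).tau i ((BS A v).val cD (vB v) T)
  induction T with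
  | var l =>
    change (BS A v).tauL (cD.kl (cD.tl i l)) (vB v (cD.yv (cD.tl i l))) =
      (BS A v).tau i ((BS A v).tauL (cD.kl l) (vB v (cD.yv l)))
    rw [cD.kl_tl, cD.yv_tl]
    rfl
  | mul a b iha ihb =>
    change (BS A v).mul ((BS A v).val cD (vB v) (a.map (cD.tl i)))
      ((BS A v).val cD (vB v) (b.map (cD.tl i))) =
        (BS A v).tau i ((BS A v).mul ((BS A v).val cD (vB v) a) ((BS A v).val cD (vB v) b))
    rw [iha, ihb, (BS_laws hA v).tau_mul]
  | bin j a b iha ihb =>
    change (BS A v).bin j ((BS A v).val cD (vB v) (a.map (cD.tl i)))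
      ((BS A v).val cD (vB v) (b.map (cD.tl i))) =
        (BS A v).tau i ((BS A v).bin j ((BS A v).val cD (vB v) a) ((BS A v).val cD (vB v) b))
    rw [iha, ihb, (BS_laws hA v).tau_bin]

/-- `eval_algG` with `hom_val`, `rep_eval`; the value of the letter `encode (encode y, [])` is `el (v y)` (`dl_encode`, `encodek`). -/
theorem rep_tr {A : Alg n m X} (hA : A.PE) (v : Y → X) (t : Trm n m Y) :
    Rep A v (Sum.map id ((BS A v).val cD (vB v)) (tr t)) (t.eval A v) := by
  have h1 := eval_algG (n := n) (m := m) (Y := Y) (hom_val hA v)
    (fun y => .inr (.var (encode (encode y, ([] : List ℕ))))) t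
  have h2 : (fun y : Y => Sum.map id ((BS A v).val cD (vB v))
      (.inr (.var (encode (encode y, ([] : List ℕ)))) : Wd e f Y ⊕ Tm ℕ ℕ)) =
        fun y => .inr (.el (v y)) := by
    funext y
    have h3 : (BS A v).val cD (vB v) (.var (encode (encode y, ([] : List ℕ)))) = .el (v y) := by
      change (BS A v).tauL (dl (encode (encode y, ([] : List ℕ)))).2
        (vB v (dl (encode (encode y, ([] : List ℕ)))).1) = _
      rw [dl_encode]
      change vB v (encode y) = _
      simp only [vB, encodek]
    change Sum.inr _ = _
    rw [h3]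
  rw [h2] at h1
  rw [tr, h1]
  exact rep_eval hA v t

/-- (<=) of the theorem in section 3: `rep_tr` for `s` and `t`. First case: `tr s = tr t = inl w`: the two closed terms have the same word
(`word_injective`). Second case: `sound` with `BS_laws`. -/
theorem freeEq_of_tr {s t : Trm n m Y}
    (h : (∃ w, tr s = .inl w ∧ tr t = .inl w) ∨ ∃ T T', tr s = .inr T ∧ tr t = .inr T' ∧ Sim cD T T') :
    FreeEq s t := by
  intro X A hA v
  have hs := rep_tr hA v s
  have ht := rep_tr hA v t
  rcases h with ⟨w, h1, h2⟩ | ⟨T, T', h1, h2, h3⟩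
  · rw [h1] at hs
    rw [h2] at ht
    obtain ⟨c, -, hc, hc2⟩ := hs
    obtain ⟨c', -, hc', hc2'⟩ := ht
    have h4 : c = c' := word_injective n m (hc.trans hc'.symm)
    rw [← hc2, ← hc2', h4]
  · rw [h1] at hs
    rw [h2] at ht
    have hs' : (BS A v).val cD (vB v) T = .el (s.eval A v) := hs
    have ht' : (BS A v).val cD (vB v) T' = .el (t.eval A v) := ht
    have h4 := sound cD (BS A v) (BS_laws hA v) (vB v) h3
    rw [hs', ht'] at h4
    exact BB.el.inj h4

end Pool.Agent.DD
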