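import Pool.Agent.DD.AtF

set_option autoImplicit false

/-! # DD package BdAt: leaves of decompositions and prefixes (4.8), (F4) (4.9) of /team-store/DD_Proof.md -/

namespace Pool.Agent.DD

variable {Y J : Type}

theorem bd_E1 {m : Mon Y J} {A B : TT} {E1 E : El Y J} (h1 : Bd m A E1) (h2 : Bd (gen E1 * m) B E) :
    E1 = At E (piM m * kT A) := by
  have h := at_eq (Or.inl (bd_sub h2))
  rw [bd_kap h1] at h
  exact h.symm

theorem bd_at_left {m : Mon Y J} {A B : TT} {E1 E : El Y J} {v : PP} (h1 : Bd m A E1)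
    (h2 : Bd (gen E1 * m) B E) (hv : v ∈ Pos A) : At E (piM m * v) = At E1 (piM m * v) := by
  have hs := bd_sub h2
  have hE := at_eq (Or.inl hs)
  have hq : piM m * v ≤ kap E1 := by
    rw [bd_kap h1]
    exact mul_le_iff.2 (le_kT hv)
  have h := at_at hq (kap_lt_of_sub hs).le
  rw [hE] at h
  exact h.symm

/-- `pi(m) [A] v = pi([E1] m) v`. -/
theorem bd_pos_right {m : Mon Y J} {A : TT} {E1 : El Y J} (h1 : Bd m A E1) (v : PP) :
    piM m * (gen (cls A) * v) = piM (gen E1 * m) * v := by
  have e : pi E1 = piM m • cls A := by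
    rw [pi_eq_kap_smul, bd_kap h1, mul_smul, ← cls_eq_kT]
  rw [map_mul, piM_gen, e, ← tri_gen, ← mul_assoc, ← mul_eq_tri]

theorem bd_le {m : Mon Y J} {T : TT} {E : El Y J} {v : PP} (h : Bd m T E) (hv : v ∈ Pos T) : piM m * v ≤ kap E := by
  rw [bd_kap h]
  exact mul_le_iff.2 (le_kT hv)

theorem bd_eps_first {m : Mon Y J} {T : TT} {E : El Y J} (h : Bd m T E) : eps (At E (piM m)) = m := by
  induction T generalizing E with
  | var u =>
    have h' : eps E = m := h
    have hk : kap E = piM m := by rw [kap, h']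
    rw [← hk, at_kap, h']
  | mul A B iha ihb =>
    obtain ⟨E1, h1, h2⟩ := h
    have e := bd_at_left h1 h2 (one_mem_pos A)
    rw [mul_one] at e
    rw [e]
    exact iha h1
  | bin j _ _ _ _ => exact j.elim

/-- Below `pi m` the prefixes are those of any element with `eps = m`. -/
theorem bd_at_lt {m : Mon Y J} {T : TT} {E z : El Y J} {p : PP} (h : Bd m T E) (hz : eps z = m) (hp : p < piM m) :
    At E p = At z p := by
  have hle : piM m ≤ kap E := by
    have := bd_le h (one_mem_pos T)
    rwa [mul_one] at this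
  have he := bd_eps_first h
  have hk : kap (At E (piM m)) = piM m := kap_at hle
  rw [← at_at hp.le hle]
  apply at_congr
  · rw [he, hz]
  · rw [hk]
    exact hp

/-- Cutting a decomposition at a position. Induction on `T`. -/
theorem bd_cut {T : TT} {v : PP} (hv : v ∈ Pos T) : ∃ T', kT T' = v ∧ Pos T' = {q | q ∈ Pos T ∧ q ≤ v} ∧
    ∀ (m : Mon Y J) (E : El Y J), Bd m T E → Bd m T' (At E (piM m * v)) := by
  induction T generalizing v with
  | var u =>
    have hv' : v = 1 := hv
    subst hv'
    refine ⟨.var u, rfl, ?_, ?_⟩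
    · ext q
      constructor
      · intro hq
        have hq1 : q = 1 := hq
        exact ⟨hq, hq1.le⟩
      · exact fun hq => hq.1
    · intro m E h
      have h' : eps E = m := h
      have hk : kap E = piM m := by rw [kap, h']
      rw [mul_one, ← hk, at_kap]
      exact h
  | mul A B iha ihb =>
    rcases hv with hv | ⟨v', hv', rfl⟩
    · obtain ⟨T', hT, hP, hB⟩ := iha hv
      refine ⟨T', hT, ?_, ?_⟩
      · rw [hP]
        ext q
        constructor
        · rintro ⟨hq, hle⟩
          exact ⟨Or.inl hq, hle⟩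
        · rintro ⟨hq | ⟨w, _, rfl⟩, hle⟩
          · exact ⟨hq, hle⟩
          · exact absurd (hle.trans_lt ((le_kT hv).trans_lt (kT_lt_gen A))) (not_lt.2 (le_mul_r _ _))
      · rintro m E ⟨E1, h1, h2⟩
        rw [bd_at_left h1 h2 hv]
        exact hB m E1 h1
    · obtain ⟨B', hT, hP, hB⟩ := ihb hv'
      refine ⟨A.mul B', ?_, ?_, ?_⟩
      · rw [kT_mul, hT]
      · rw [posF_mul, hP]
        ext q
        constructor
        · rintro (hq | ⟨w, ⟨hw, hle⟩, rfl⟩)
          · exact ⟨Or.inl hq, (le_kT hq).trans ((kT_lt_gen A).le.trans (le_mul_r _ _))⟩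
          · exact ⟨Or.inr ⟨w, hw, rfl⟩, mul_le_iff.2 hle⟩
        · rintro ⟨hq | ⟨w, hw, rfl⟩, hle⟩
          · exact Or.inl hq
          · exact Or.inr ⟨w, ⟨hw, mul_le_iff.1 hle⟩, rfl⟩
      · rintro m E ⟨E1, h1, h2⟩
        refine ⟨E1, h1, ?_⟩
        have e := bd_pos_right h1 v'
        change Bd (gen E1 * m) B' (At E (piM m * (gen (cls A) * v')))
        rw [e]
        exact hB _ E h2
  | bin j _ _ _ _ => exact j.elim

/-- (F4): `eps` of the prefix at a leaf is determined by the prefixes at the earlier leaves. Induction on `T`. -/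
theorem f4 {m : Mon Y J} {T : TT} {E E' : El Y J} {v : PP} (h : Bd m T E) (h' : Bd m T E') (hv : v ∈ Pos T)
    (hag : ∀ u ∈ Pos T, u < v → At E (piM m * u) = At E' (piM m * u)) :
    eps (At E (piM m * v)) = eps (At E' (piM m * v)) := by
  induction T generalizing m E E' v with
  | var u =>
    have hv' : v = 1 := hv
    subst hv'
    have h1 : eps E = m := h
    have h1' : eps E' = m := h'
    have hk : kap E = piM m := by rw [kap, h1]
    have hk' : kap E' = piM m := by rw [kap, h1']
    rw [mul_one]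
    conv_lhs => rw [← hk, at_kap, h1]
    conv_rhs => rw [← hk', at_kap, h1']
  | mul A B iha ihb =>
    obtain ⟨E1, h1, h2⟩ := h
    obtain ⟨E1', h1', h2'⟩ := h'
    rcases hv with hv | ⟨v', hv', rfl⟩
    · rw [bd_at_left h1 h2 hv, bd_at_left h1' h2' hv]
      refine iha h1 h1' hv fun u hu huv => ?_
      rw [← bd_at_left h1 h2 hu, ← bd_at_left h1' h2' hu]
      exact hag u (Or.inl hu) huv
    · have hlt : kT A < gen (cls A) * v' := (kT_lt_gen A).trans_le (le_mul_r _ _)
      have e : E1 = E1' := by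
        rw [bd_E1 h1 h2, bd_E1 h1' h2']
        exact hag _ (Or.inl (kT_mem_pos A)) hlt
      subst e
      change eps (At E (piM m * (gen (cls A) * v'))) = eps (At E' (piM m * (gen (cls A) * v')))
      rw [bd_pos_right h1 v']
      refine ihb h2 h2' hv' fun u hu huv => ?_
      rw [← bd_pos_right h1 u]
      exact hag _ (Or.inr ⟨u, hu, rfl⟩) (mul_lt_mul_l _ huv)
  | bin j _ _ _ _ => exact j.elim

end Pool.Agent.DD
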