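import Pool.Agent.DD.GraftF

set_option autoImplicit false

/-! # DD package BdF: decompositions (4.6) of /team-store/DD_Proof.md -/

namespace Pool.Agent.DD

variable {Y J : Type}

/-- (a) -/
theorem bd_kap {m : Mon Y J} {T : TT} {E : El Y J} (h : Bd m T E) : kap E = piM m * kT T := by
  induction T generalizing m E with
  | var u =>
    have h1 : eps E = m := h
    rw [kap, h1, kT_var, mul_one]
  | mul A B iha ihb =>
    obtain ⟨E1, h1, h2⟩ := h
    rw [ihb h2, map_mul, piM_gen, pi_eq_kap_smul, iha h1, mul_smul, ← cls_eq_kT, ← tri_gen,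
      ← mul_eq_tri, mul_assoc, kT_mul]
  | bin j _ _ _ _ => exact j.elim

/-- (b) -/
theorem bd_bin {m : Mon Y J} {T : TT} {E : El Y J} (j : J) (w : El Y J) (h : Bd m T E) : Bd m T (.bin j E w) := by
  induction T generalizing m with
  | var u => exact (eps_bin _ _ _).trans h
  | mul A B iha ihb =>
    obtain ⟨E1, h1, h2⟩ := h
    exact ⟨E1, h1, ihb h2⟩
  | bin j _ _ _ _ => exact j.elim

/-- (c) -/
theorem bd_smul {m : Mon Y J} {T : TT} {E : El Y J} (n : Mon Y J) (h : Bd m T E) : Bd (n * m) T (n • E) := by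
  induction T generalizing m E with
  | var u =>
    have h1 : eps E = m := h
    exact (eps_smul _ _).trans (by rw [h1])
  | mul A B iha ihb =>
    obtain ⟨E1, h1, h2⟩ := h
    refine ⟨n • E1, iha h1, ?_⟩
    have e : gen (n • E1) * (n * m) = n * (gen E1 * m) := by
      rw [← tri_gen, ← mul_assoc, ← mul_eq_tri, mul_assoc]
    rw [e]
    exact ihb h2
  | bin j _ _ _ _ => exact j.elim

/-- (d) Induction on `t`. -/
theorem bd_sk (t : Tm Y J) (m : Mon Y J) : Bd m (sk t) (m • cls t) := by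
  induction t generalizing m with
  | var y => exact eps_smul_var m y
  | mul a b iha ihb =>
    refine ⟨m • cls a, iha m, ?_⟩
    have e : gen (m • cls a) * m = m * gen (cls a) := by rw [← tri_gen, ← mul_eq_tri]
    have e2 : m • cls (a.mul b) = (m * gen (cls a)) • cls b := by rw [mul_smul, gen_smul, cls_mul]
    rw [e, e2]
    exact ihb _
  | bin j a b iha _ =>
    rw [cls_bin, smul_bin]
    exact bd_bin j _ (iha m)

/-- (e) Induction on `B`, `sub_iff_eps`. -/
theorem bd_sub {m : Mon Y J} {B : TT} {E1 E : El Y J} (h : Bd (gen E1 * m) B E) : Sub E1 E := by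
  induction B generalizing m E E1 with
  | var u => exact sub_iff_eps.2 ⟨E1, m, h, Or.inr rfl⟩
  | mul A B iha ihb =>
    obtain ⟨E2, h1, h2⟩ := h
    exact (iha h1).trans (ihb h2)
  | bin j _ _ _ _ => exact j.elim

/-- (f) for `Dst`. Induction on `Dst`. -/
theorem bd_dst {m : Mon Y J} {A B D : TT} {E : El Y J} (h : Dst A B D) (h2 : Bd m (A.mul B) E) : Bd m D E := by
  induction h generalizing m E with
  | base b => exact h2
  | @mul b c d e hd he ihd ihe =>
    obtain ⟨E1, h3, E2, h4, h5⟩ := h2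
    refine ⟨E2, ihd ⟨E1, h3, h4⟩, ihe ⟨gen E2 • E1, bd_smul _ h3, ?_⟩⟩
    have e : gen (gen E2 • E1) * (gen E2 * m) = gen E2 * (gen E1 * m) := by
      rw [gen_smul, ← mul_assoc, ← gen_mul, mul_assoc]
    rw [e]
    exact h5
  | @bin j _ _ _ _ _ _ _ _ => exact j.elim

/-- (f) -/
theorem bd_par {m : Mon Y J} {T T' : TT} {E : El Y J} (h : Par T T') (h2 : Bd m T E) : Bd m T' E := by
  induction h generalizing m E with
  | var y => exact h2
  | @mul a a' b b' d ha hb hd iha ihb =>
    obtain ⟨E1, h3, h4⟩ := h2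
    exact bd_dst hd ⟨E1, iha h3, ihb h4⟩
  | @bin j _ _ _ _ _ _ _ _ => exact j.elim

theorem bd_exp {m : Mon Y J} {T T' : TT} {E : El Y J} (h : Exp T T') (h2 : Bd m T E) : Bd m T' E := by
  unfold Exp at h
  induction h with
  | refl => exact h2
  | tail _ h3 ih => exact bd_par h3 ih

/-- (h) Induction on `W`. -/
theorem bd_graft {m n : Mon Y J} {W b : TT} {z E : El Y J} (h : Bd m W z) (hz : eps z = n) (h2 : Bd n b E) :
    Bd m (graft b W) E := by
  induction W generalizing m z with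
  | var u =>
    have h1 : eps z = m := h
    have h3 : m = n := h1.symm.trans hz
    rw [h3]
    exact h2
  | mul A B iha ihb =>
    obtain ⟨E1, h3, h4⟩ := h
    exact ⟨E1, h3, ihb h4 hz⟩
  | bin j _ _ _ _ => exact j.elim

/-- (k) -/
theorem bd_exists (E : El Y J) : ∃ T, Bd 1 T E := by
  obtain ⟨t, rfl⟩ := cls_surj E
  have h := bd_sk t 1
  rw [one_smul] at h
  exact ⟨_, h⟩

/-- (i) -/
theorem bd_large (E : El Y J) {T0 : TT} (h : kT T0 = kap E) : ∃ N, ∀ n, N ≤ n → Bd 1 (dd^[n] T0) E := by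
  obtain ⟨T, hT⟩ := bd_exists E
  have h1 := bd_kap hT
  rw [map_one, one_mul] at h1
  have h2 : cls T = cls T0 := cls_eq_of_kT (h1.symm.trans h.symm)
  obtain ⟨N, hN⟩ := exp_of_cls h2
  exact ⟨N, fun n hn => bd_exp (hN n hn) hT⟩

/-- `m` is a right factor of `eps E`. -/
theorem bd_right {m : Mon Y J} {T : TT} {E : El Y J} (h : Bd m T E) : ∃ n, eps E = n * m := by
  induction T generalizing m E with
  | var u => exact ⟨1, by rw [one_mul]; exact h⟩
  | mul A B iha ihb =>
    obtain ⟨E1, h1, h2⟩ := h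
    obtain ⟨n, hn⟩ := ihb h2
    exact ⟨n * gen E1, by rw [hn, mul_assoc]⟩
  | bin j _ _ _ _ => exact j.elim

end Pool.Agent.DD
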