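import Pool.Agent.DD.TrF

set_option autoImplicit false

/-! # DD package BldF: elements with prescribed labels; the lemma (Det) ((6.4) of /team-store/DD_Proof.md) -/

namespace Pool.Agent.DD

variable {Y J : Type}

theorem bd_bld (mu : PP → Lab Y J) (m : Mon Y J) (T : TT) : Bd m T (bld mu m T) := by
  induction T generalizing m with
  | var u => exact eps_asm _ _
  | mul A B iha ihb => exact ⟨bld mu m A, iha m, ihb _⟩
  | bin j _ _ _ _ => exact j.elim

/-- The labels of `bld` at the leaves. Induction on `T`, `bd_at_left`, `bd_pos_right`. -/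
theorem lab_bld (mu : PP → Lab Y J) (m : Mon Y J) (T : TT) {v : PP} (hv : v ∈ Pos T) :
    lab (At (bld mu m T) (piM m * v)) = mu (piM m * v) := by
  induction T generalizing m v with
  | var u =>
    have hv1 : v = 1 := hv
    rw [hv1, mul_one]
    change lab (At (asm m (mu (piM m))) (piM m)) = _
    have hk : At (asm m (mu (piM m))) (piM m) = asm m (mu (piM m)) := by
      have h := at_kap (asm m (mu (piM m)))
      rwa [kap, eps_asm] at h
    rw [hk, lab_asm]
  | mul A B iha ihb =>
    have h1 : Bd m A (bld mu m A) := bd_bld mu m A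
    have h2 : Bd (gen (bld mu m A) * m) B (bld mu m (A.mul B)) := bd_bld mu _ B
    rcases hv with hv | ⟨v', hv', rfl⟩
    · rw [bd_at_left h1 h2 hv]
      exact iha m hv
    · change lab (At _ (piM m * (gen (cls A) * v'))) = mu (piM m * (gen (cls A) * v'))
      rw [bd_pos_right h1 v']
      exact ihb _ hv'
  | bin j _ _ _ _ => exact j.elim

/-- (Det). `kT S = piM C` (by `bd_kap`); `p ∈ Pos (graft Z1 S) = Pos S ∪ piM C * Pos Z1` implies `p < piM C`
(`p = piM C` is divisible), then both prefixes are `At z0 p` (`bd_at_lt`); otherwise `tr_exp` with `m = 1`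
(`bd_graft`). -/
theorem det {S Z1 T1 : TT} {C : Mon Y J} {z0 U1 U2 : El Y J} (hS : Bd 1 S z0) (hz : eps z0 = C)
    (h1 : Bd C Z1 U1) (h2 : Bd C Z1 U2) (hT : Exp (graft Z1 S) T1) {p : PP} (hp : p ∈ Pos T1)
    (hC : ¬ Dv (piM C) p) (hag : ∀ q ∈ Pos T1, q < p → At U1 q = At U2 q) : At U1 p = At U2 p := by
  have hk : kT S = piM C := by
    have h := bd_kap hS
    rw [map_one, one_mul] at h
    rw [← h, kap, hz]
  by_cases hn : p ∈ Pos (graft Z1 S)
  · rw [pos_graft, hk] at hn
    rcases hn with hn | ⟨q, _, rfl⟩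
    · have hle := le_kT hn
      rw [hk] at hle
      rcases eq_or_lt_of_le hle with h | h
      · exact absurd ⟨1, by rw [h, mul_one]⟩ hC
      · rw [bd_at_lt h1 hz h, bd_at_lt h2 hz h]
    · exact absurd ⟨q, rfl⟩ hC
  · obtain ⟨v0, v1, h0, h1', h01, h1p, hE⟩ := tr_exp (Y := Y) (J := J) hT hp hn
    have e1 := hE 1 U1 (bd_graft hS hz h1)
    have e2 := hE 1 U2 (bd_graft hS hz h2)
    rw [map_one, one_mul, one_mul, one_mul] at e1 e2
    rw [e1, e2, hag v0 h0 (h01.trans h1p), hag v1 h1' h1p]

end Pool.Agent.DD
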