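import Pool.Agent.DD.GraftF

set_option autoImplicit false

/-! # DD: blocks and the class CL (section 5.1 - 5.3 of /team-store/DD_Proof.md) -/

namespace Pool.Agent.DD

theorem inB_iff {L c p : PP} : InB L c p ↔ c ≠ 1 ∧ tri L c ≤ p ∧ p < L * c := Iff.rfl

theorem le_of_tri_le_mul {L c w : PP} (h : tri L c ≤ L * w) : c ≤ w := by
  by_contra hw
  exact absurd (mul_lt_tri L (not_le.1 hw)) (not_lt.2 h)

theorem le_of_tri_lt_mul {L c w : PP} (h : tri L c < L * w) : c ≤ w := le_of_tri_le_mul h.le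

theorem inB_not_dv {L c p : PP} (h : InB L c p) : ¬ Dv L p := by
  rintro ⟨w, rfl⟩
  obtain ⟨_, h1, h2⟩ := inB_iff.1 h
  exact absurd (mul_lt_iff.1 h2) (not_lt.2 (le_of_tri_le_mul h1))

private theorem inB_le {L c c' p : PP} (h : InB L c p) (h' : InB L c' p) : c' ≤ c := by
  obtain ⟨_, _, h2⟩ := inB_iff.1 h
  obtain ⟨_, h1, _⟩ := inB_iff.1 h'
  exact le_of_tri_lt_mul (h1.trans_lt h2)

theorem inB_unique {L c c' p : PP} (h : InB L c p) (h' : InB L c' p) : c = c' :=
  le_antisymm (inB_le h' h) (inB_le h h')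

theorem lt_of_inB {L c p : PP} (h : InB L c p) : L < p := by
  obtain ⟨h0, h1, _⟩ := inB_iff.1 h
  exact (lt_tri L h0).trans_le h1

/-- The fullness condition gives `[U] = L |> [b]`. -/
theorem gen_full {L : PP} {U b : TT} (h : kT U = L * kT b) : gen (cls U) = tri L (gen (cls b)) := by
  rw [gen_cls, gen_cls, h, tri_sc]

theorem kT_star (U V : TT) : kT (star U V) = gen (cls U) * kT V := by
  rw [← kT_mul, kT, kT, cls_dst (dst_star U V)]
  rfl

theorem cl_sbs {L : PP} {W : TT} (hW : kT W = L) (b : TT) : CL L (sbs W b) b := by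
  induction b with
  | var u => exact CL.a (show kT W ≤ L from hW.le)
  | mul b1 b2 ih1 ih2 => exact CL.b ih1 (by rw [kT_sbs, hW]) ih2
  | bin j a b _ _ => exact j.elim

theorem cl_star {L : PP} {U V b1 b2 : TT} (hU : CL L U b1) (hf : kT U = L * kT b1)
    (hV : CL L V b2) : CL L (star U V) (star b1 b2) := by
  have hG := gen_full hf
  induction hV with
  | @a V h =>
    have h' : kT V ≤ L := h
    clear h
    induction V with
    | var u =>
      exact CL.b hU hf (CL.a (show kT xx ≤ L from one_le L))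
    | mul w1 w2 ih1 _ =>
      have hlt : kT w1 < kT (w1.mul w2) := (pos_spn (Spn.base w1 w2)).1
      have h1 := ih1 (hlt.le.trans h')
      refine CL.c h1 (show tri L (kT (star b1 xx)) ≤ kT (star U w1) from ?_)
        (show kT ((star U w1).mul (star U w2)) ≤ L * kT (star b1 xx) from ?_)
      · rw [kT_star, kT_star, map_mul, kT_var, map_one, mul_one, ← hG]
        exact le_mul_r _ _
      · have e : kT ((star U w1).mul (star U w2)) = gen (cls U) * kT (w1.mul w2) := by
          have := kT_star U (w1.mul w2)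
          exact this
        rw [e, kT_star, kT_var, mul_one, mul_eq_tri L, ← hG]
        exact mul_le_iff.2 h'
    | bin j a b _ _ => exact j.elim
  | @b V1 V2 c1 c2 h1 h2 h3 ih1 ih2 =>
    refine CL.b ih1 ?_ ih2
    rw [kT_star, kT_star, h2, hG, ← mul_assoc, ← mul_assoc, mul_eq_tri L]
  | @c V1 V2 c h1 h2 h3 ih =>
    have h2' : tri L (kT c) ≤ kT V1 := h2
    have h3' : kT (V1.mul V2) ≤ L * kT c := h3
    refine CL.c ih (show tri L (kT (star b1 c)) ≤ kT (star U V1) from ?_)
      (show kT ((star U V1).mul (star U V2)) ≤ L * kT (star b1 c) from ?_)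
    · rw [kT_star, kT_star, map_mul, ← hG]
      exact mul_le_iff.2 h2'
    · have e : kT ((star U V1).mul (star U V2)) = gen (cls U) * kT (V1.mul V2) :=
        kT_star U (V1.mul V2)
      rw [e, kT_star, ← mul_assoc, mul_eq_tri L, ← hG, mul_assoc]
      exact mul_le_iff.2 h3'

theorem cl_star_c {L : PP} {U V b : TT} (hU : CL L U b) (h1 : tri L (kT b) ≤ kT U)
    (h2 : kT (U.mul V) ≤ L * kT b) : CL L (star U V) b := by
  induction V with
  | var u => exact CL.c hU h1 h2
  | mul w1 w2 ih1 _ =>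
    have hlt : kT w1 < kT (w1.mul w2) := (pos_spn (Spn.base w1 w2)).1
    have h3 : kT (U.mul w1) < kT (U.mul (w1.mul w2)) := by
      rw [kT_mul U w1, kT_mul U (w1.mul w2)]
      exact mul_lt_iff.2 hlt
    refine CL.c (ih1 (h3.le.trans h2)) (show tri L (kT b) ≤ kT (star U w1) from ?_)
      (show kT ((star U w1).mul (star U w2)) ≤ L * kT b from ?_)
    · rw [kT_star, ← kT_mul]
      exact h1.trans (pos_spn (Spn.base U w1)).1.le
    · have e : kT ((star U w1).mul (star U w2)) = gen (cls U) * kT (w1.mul w2) :=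
        kT_star U (w1.mul w2)
      rw [e, ← kT_mul]
      exact h2
  | bin j a b _ _ => exact j.elim

theorem kT_dd (T : TT) : kT (dd T) = kT T := kT_dd_iter 1 T

theorem cl_dd {L : PP} {T b : TT} (h : CL L T b) : CL L (dd T) (dd b) := by
  induction h with
  | @a W h => exact CL.a (show kT (dd W) ≤ L from (kT_dd W).le.trans h)
  | @b U V b1 b2 h1 h2 h3 ih1 ih2 =>
    exact cl_star ih1 (by rw [kT_dd, kT_dd, h2]) ih2
  | @c U V b h1 h2 h3 ih =>
    have h2' : tri L (kT b) ≤ kT U := h2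
    have h3' : kT (U.mul V) ≤ L * kT b := h3
    refine cl_star_c ih ?_ ?_
    · rw [kT_dd, kT_dd]
      exact h2'
    · have e : kT ((dd U).mul (dd V)) = kT (U.mul V) := by
        rw [kT_mul, kT_mul, kT_dd, cls_dd]
      rw [e, kT_dd]
      exact h3'

theorem cl_dd_iter {L : PP} {T b : TT} (n : ℕ) (h : CL L T b) : CL L (dd^[n] T) (dd^[n] b) := by
  induction n generalizing T b with
  | zero => exact h
  | succ n ih => exact ih (cl_dd h)

/-- Theorem N (5.3). -/
theorem thmN {L : PP} {T b : TT} (h : CL L T b) {p : PP} (hp : p ∈ Pos T) :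
    p < L ∨ (∃ v ∈ Pos b, p = L * v) ∨ ∃ c ∈ Pos b, InB L c p := by
  induction h generalizing p with
  | @a W h =>
    have h' : kT W ≤ L := h
    rcases ((le_kT hp).trans h').lt_or_eq with h1 | h1
    · exact Or.inl h1
    · exact Or.inr (Or.inl ⟨1, one_mem_pos _, by rw [h1, mul_one]⟩)
  | @b U V b1 b2 h1 h2 h3 ih1 ih2 =>
    have hG := gen_full h2
    rcases hp with hp | ⟨q, hq, rfl⟩
    · rcases ih1 hp with h | ⟨v, hv, h⟩ | ⟨c, hc, h⟩
      · exact Or.inl h
      · exact Or.inr (Or.inl ⟨v, Or.inl hv, h⟩)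
      · exact Or.inr (Or.inr ⟨c, Or.inl hc, h⟩)
    · change gen (cls U) * q < L ∨ (∃ v ∈ Pos (b1.mul b2), gen (cls U) * q = L * v) ∨
        ∃ c ∈ Pos (b1.mul b2), InB L c (gen (cls U) * q)
      rw [hG]
      have hLb : tri L (gen (cls b1)) * L = L * gen (cls b1) := (mul_eq_tri _ _).symm
      rcases ih2 hq with h | ⟨v, hv, h⟩ | ⟨c, hc, h⟩
      · refine Or.inr (Or.inr ⟨gen (cls b1), Or.inr ⟨1, one_mem_pos _, mul_one _⟩, ?_⟩)
        refine inB_iff.2 ⟨?_, le_mul_r _ _, ?_⟩
        · intro e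
          have := congrArg len e
          rw [len_gen, len_one] at this
          exact absurd this one_ne_zero
        · rw [← hLb]
          exact mul_lt_iff.2 h
      · refine Or.inr (Or.inl ⟨gen (cls b1) * v, Or.inr ⟨v, hv, rfl⟩, ?_⟩)
        rw [h, ← mul_assoc, ← mul_assoc, hLb]
      · obtain ⟨hc1, hc2, hc3⟩ := inB_iff.1 h
        refine Or.inr (Or.inr ⟨gen (cls b1) * c, Or.inr ⟨c, hc, rfl⟩, inB_iff.2 ⟨?_, ?_, ?_⟩⟩)
        · intro e
          have := congrArg len e
          rw [len_mul, len_gen, len_one] at this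
          omega
        · rw [map_mul]
          exact mul_le_iff.2 hc2
        · rw [← mul_assoc, ← hLb, mul_assoc]
          exact mul_lt_iff.2 hc3
  | @c U V b h1 h2 h3 ih =>
    have h2' : tri L (kT b) ≤ kT U := h2
    have h3' : kT (U.mul V) ≤ L * kT b := h3
    have hle := (le_kT hp).trans h3'
    rcases hp with hp | ⟨q, hq, rfl⟩
    · exact ih hp
    · have hgt : tri L (kT b) ≤ gen (cls U) * q :=
        h2'.trans ((kT_lt_gen U).le.trans (le_mul_r _ _))
      rcases hle.lt_or_eq with h4 | h4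
      · by_cases hb : kT b = 1
        · rw [hb, mul_one] at h4
          exact Or.inl h4
        · exact Or.inr (Or.inr ⟨kT b, kT_mem_pos b, inB_iff.2 ⟨hb, hgt, h4⟩⟩)
      · exact Or.inr (Or.inl ⟨kT b, kT_mem_pos b, h4⟩)

end Pool.Agent.DD
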