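import Pool.Agent.DD.Blk1

set_option autoImplicit false

/-! # DD: block theorem, niceness, reduction, finite chains (section 5.3 - 5.5 of /team-store/DD_Proof.md) -/

namespace Pool.Agent.DD

/-- Niceness. -/
theorem blk_niceness {W b : TT} {n : ℕ} {p : PP} (h : p ∈ Pos (dd^[n] (sbs W b)))
    (hd : Dv (kT W) p) : ∃ v ∈ Pos (dd^[n] b), p = kT W * v := by
  rcases thmN (cl_dd_iter n (cl_sbs rfl b)) h with h1 | ⟨v, hv, h1⟩ | ⟨c, _, h1⟩
  · obtain ⟨w, rfl⟩ := hd
    exact absurd (le_mul_r (kT W) w) (not_le.2 h1)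
  · exact ⟨v, hv, h1⟩
  · exact absurd hd (inB_not_dv h1)

/-- Every position lies in some `Phi n L`. -/
theorem exists_phi (L p : PP) : ∃ n, Phi n L p := by
  obtain ⟨W, hW⟩ := kT_surj L
  -- a large right power
  obtain ⟨N1, h1⟩ := absorb_smul L
  obtain ⟨N2, h2⟩ := sub_xpow (p • xF)
  obtain ⟨b, hb⟩ := cls_surj (xpow (max N1 N2))
  have h3 : cls (sbs W b) = xpow (max N1 N2 + len L) := by
    rw [cls_sbs, hb, hW, h1 _ (le_max_left _ _)]
  have h4 : p < kT (sbs W b) := by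
    rw [lt_iff, ← cls_eq_kT, h3]
    exact h2 _ ((le_max_right N1 N2).trans (Nat.le_add_right _ _))
  obtain ⟨N, hN⟩ := exists_mem_pos h4.le
  exact ⟨N, W, b, hW, hN N le_rfl⟩

/-- The block theorem (existence). -/
theorem blk_theorem {L : PP} (p : PP) : p < L ∨ Dv L p ∨ ∃ c, InB L c p := by
  obtain ⟨n, W, b, hW, hp⟩ := exists_phi L p
  rcases thmN (cl_dd_iter n (cl_sbs hW b)) hp with h1 | ⟨v, _, h1⟩ | ⟨c, _, h1⟩
  · exact Or.inl h1
  · exact Or.inr (Or.inl ⟨v, h1⟩)
  · exact Or.inr (Or.inr ⟨c, h1⟩)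

/-- `dd (A[W]) = (dd W)[W']` with `kap W' = L |> kap A`. -/
theorem dd_sbs_split (W A : TT) : ∃ W' : TT, dd (sbs W A) = sbs W' (dd W) ∧
    kT W' = tri (kT W) (kT A) := by
  induction A with
  | var u =>
    refine ⟨xx, ?_, ?_⟩
    · change dd W = sbs xx (dd W)
      have : ∀ T : TT, sbs xx T = T := by
        intro T
        induction T with
        | var u => rfl
        | mul a b iha ihb =>
          change (sbs xx a).mul (sbs xx b) = _
          rw [iha, ihb]
        | bin j a b _ _ => exact j.elim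
      exact (this _).symm
    · rw [kT_var, map_one]
  | mul a A2 _ ih2 =>
    obtain ⟨W2, h1, h2⟩ := ih2
    refine ⟨star (dd (sbs W a)) W2, ?_, ?_⟩
    · change star (dd (sbs W a)) (dd (sbs W A2)) = _
      rw [h1, star_sbs]
    · rw [kT_star, h2, kT_mul, map_mul, cls_dd, gen_sbs]
  | bin j a b _ _ => exact j.elim

/-- RED (5.4). -/
theorem red {n : ℕ} {L p c : PP} (h : Phi (n + 1) L p) (hc : InB L c p) :
    Phi n (tri L c) p := by
  obtain ⟨W, b, hW, hp⟩ := h
  obtain ⟨hc0, hc1, hc2⟩ := inB_iff.1 hc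
  have hpb : p ≤ L * kT b := by
    have := le_kT hp
    rwa [kT_dd_iter, kT_sbs, hW] at this
  have hcb : c ≤ kT b := le_of_tri_le_mul (hc1.trans hpb)
  obtain ⟨k, A, hA, hs⟩ := exists_spn hcb
  have hp2 : p ∈ Pos (dd^[n + 1] (sbs W (dd^[k] b))) :=
    pos_exp (exp_dd_iter (n + 1) (sbs_exp W (exp_self_dd_iter k b))) hp
  have hp3 : p ∈ Pos (dd^[n + 1] (sbs W A)) := by
    rcases hs with rfl | hs
    · exact hp2
    · have h1 := spn_dd_iter (n + 1) (sbs_spn W hs)
      rw [(pos_spn h1).2]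
      refine ⟨hp2, ?_⟩
      rw [kT_dd_iter, kT_sbs, hA, hW]
      exact hc2.le
  obtain ⟨W', h1, h2⟩ := dd_sbs_split W A
  refine ⟨W', dd W, by rw [h2, hW, hA], ?_⟩
  rw [Function.iterate_succ_apply, h1] at hp3
  exact hp3

theorem phi_zero {L p c : PP} (h : Phi 0 L p) (hc : InB L c p) : Dv (tri L c) p := by
  obtain ⟨W, b, hW, hp⟩ := h
  obtain ⟨v, hv, w, hw, h1⟩ := mem_pos_sbs.1 hp
  rw [hW] at h1
  have hw' : w ≤ L := by
    rw [← hW]
    exact le_kT hw
  have hv1 : v ≠ 1 := by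
    rintro rfl
    rw [map_one, one_mul] at h1
    have h2 := lt_of_inB hc
    rw [h1] at h2
    exact absurd hw' (not_le.2 h2)
  have hne : w ≠ L := by
    intro e
    refine inB_not_dv hc ⟨v, ?_⟩
    rw [h1, e, mul_eq_tri L]
  have hb : InB L v p := by
    refine inB_iff.2 ⟨hv1, ?_, ?_⟩
    · rw [h1]
      exact le_mul_r _ _
    · rw [h1, mul_eq_tri L]
      exact mul_lt_iff.2 (lt_of_le_of_ne hw' hne)
  rw [inB_unique hc hb]
  exact ⟨w, h1⟩

/-- Finite chains (5.5). -/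
theorem fc_all (L p : PP) : FC p L := by
  obtain ⟨n, hn⟩ := exists_phi L p
  induction n generalizing L with
  | zero =>
    rcases blk_theorem (L := L) p with h | h | ⟨c, h⟩
    · exact FC.lt h
    · exact FC.dv h
    · exact FC.bl h (FC.dv (phi_zero hn h))
  | succ n ih =>
    rcases blk_theorem (L := L) p with h | h | ⟨c, h⟩
    · exact FC.lt h
    · exact FC.dv h
    · exact FC.bl h (ih _ (red hn h))

end Pool.Agent.DD
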