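import Pool.Agent.DD.Blk2

set_option autoImplicit false

/-! # DD: divisors of `a |> h` (section 5.6 of /team-store/DD_Proof.md) -/

namespace Pool.Agent.DD

theorem gen_ne_one (d : FF) : gen d ≠ (1 : PP) := by
  intro e
  have := congrArg len e
  rw [len_gen, len_one] at this
  exact absurd this one_ne_zero

/-- `B |> (a g) > a |> (b g)` for `B = a |> b`, `a ≠ 1`. -/
theorem tri_mul_gt {a : PP} (ha : a ≠ 1) (b g : PP) :
    tri a (b * g) < tri (tri a b) (a * g) := by
  have e1 : tri (tri a b) (a * g) = tri a (tri b g) * tri (tri a b) a := by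
    rw [mul_eq_tri a g, map_mul, ← mul_tri, ← mul_eq_tri a b, mul_tri]
  have e2 : tri a (b * g) = tri a (tri b g) * tri a b := by
    rw [mul_eq_tri b g, map_mul]
  rw [e1, e2]
  exact mul_lt_iff.2 (lt_tri _ ha)

/-- L1''. -/
theorem l1pp {a b c d : PP} (ha : a ≠ 1) (hb : b ≠ 1) (h : tri (tri a b) c = tri a d) :
    ∃ h', c = tri a h' := by
  by_cases hc : c = 1
  · exact ⟨1, by rw [hc, map_one]⟩
  have hB : tri a b ≠ 1 := tri_ne_one hb
  have hBa : tri a b * a = a * b := (mul_eq_tri a b).symm
  -- the case `c ≤ a`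
  have small : tri (tri a b) c < a * b → False := by
    intro h1
    have h2 : b < d := tri_lt_iff.1 ((lt_tri (tri a b) hc).trans_eq h)
    have h3 := mul_lt_tri a h2
    rw [← h] at h3
    exact absurd h3 (not_lt.2 h1.le)
  rcases blk_theorem (L := a) c with h1 | ⟨g, hg⟩ | ⟨e, he⟩
  · exfalso
    refine small ((tri_le_mul _ _).trans_lt ?_)
    rw [← hBa]
    exact mul_lt_iff.2 h1
  · exfalso
    by_cases hg1 : g = 1
    · refine small ?_
      rw [hg, hg1, mul_one, ← hBa]
      exact tri_lt_mul hB a
    · have h1 := tri_mul_gt ha b g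
      rw [← hg, h] at h1
      have h2 := mul_lt_tri a (tri_lt_iff.1 h1)
      rw [← h] at h2
      have h3 := tri_lt_mul hB c
      rw [hg, ← mul_assoc, hBa, mul_assoc] at h3
      rw [hg] at h2
      exact absurd h3 (not_lt.2 h2.le)
  · obtain ⟨he0, he1, he2⟩ := inB_iff.1 he
    rcases he1.lt_or_eq with h1 | h1
    · exfalso
      have h2 := mul_lt_tri (tri a b) h1
      rw [← map_mul, h] at h2
      have h3 := mul_lt_tri a (tri_lt_iff.1 h2)
      rw [← h] at h3
      have h4 : tri (tri a b) c < a * (b * e) := by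
        refine (tri_le_mul _ _).trans_lt ?_
        rw [← mul_assoc, ← hBa, mul_assoc]
        exact mul_lt_iff.2 he2
      exact absurd h4 (not_lt.2 h3.le)
    · exact ⟨e, h1.symm⟩

open Classical in
/-- the characteristic homomorphism of the letters in the image of `tri a` -/
private noncomputable def chi (a : PP) : PP →* ℕ :=
  Mon.lift (fun d => if (∃ h, gen d = tri a h) then (1 : ℕ) else 0) (by
    intro f g
    by_cases hf : ∃ h, gen f = tri a h
    · have key : (∃ h, gen g = tri a h) ↔ ∃ h, gen (f.mul g) = tri a h := by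
        obtain ⟨h1, e1⟩ := hf
        have e2 : gen (f.mul g) = tri (tri a h1) (gen g) := by
          rw [← e1, tri_gen, gen_smul]
        constructor
        · rintro ⟨h2, e3⟩
          refine ⟨tri h1 h2, ?_⟩
          rw [e2, e3, ← mul_tri, ← mul_eq_tri, mul_tri]
        · rintro ⟨d, e3⟩
          by_cases ha : a = 1
          · exact ⟨gen g, by rw [ha, one_tri]⟩
          · have hh1 : h1 ≠ 1 := by
              rintro rfl
              rw [map_one] at e1
              exact gen_ne_one f e1
            exact l1pp ha hh1 (e2.symm.trans e3)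
      simp only [hf, if_true, one_mul, mul_one]
      by_cases hg : ∃ h, gen g = tri a h
      · rw [if_pos hg, if_pos (key.1 hg)]
      · rw [if_neg hg, if_neg (fun h => hg (key.2 h))]
    · simp only [hf, if_false, zero_mul, mul_zero])

private theorem chi_gen (a : PP) (d : FF) (h : chi a (gen d) = 1) : ∃ h, gen d = tri a h := by
  by_contra hn
  have h1 : chi a (gen d) = 0 := if_neg hn
  rw [h1] at h
  exact absurd h zero_ne_one

private theorem chi_tri (a h : PP) : chi a (tri a h) = 1 := by
  induction h using Mon.ind with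
  | h1 => rw [map_one, map_one]
  | h2 b m ih =>
    rw [map_mul, map_mul, ih, mul_one]
    exact if_pos ⟨gen b, rfl⟩

/-- L1. -/
theorem gen_dv_tri {a h : PP} {d : FF} (hd : Dv (gen d) (tri a h)) : ∃ h', gen d = tri a h' := by
  obtain ⟨m, hm⟩ := hd
  have h1 := chi_tri a h
  rw [hm, map_mul] at h1
  exact chi_gen a d (Nat.eq_one_of_mul_eq_one_right h1)

/-- L1'. -/
theorem not_dv_tri {a w : PP} (hw : w ≠ 1) (hwa : w ≤ a) (h : PP) : ¬ Dv w (tri a h) := by
  rintro ⟨m, hm⟩
  obtain ⟨d, w', rfl⟩ := exists_gen_mul hw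
  obtain ⟨h', e⟩ := gen_dv_tri (a := a) (h := h) (d := d) ⟨w' * m, by rw [hm, mul_assoc]⟩
  have hh' : h' ≠ 1 := by
    rintro rfl
    rw [map_one] at e
    exact gen_ne_one d e
  have h1 := lt_tri a hh'
  rw [← e] at h1
  exact absurd (h1.trans_le (le_mul_r _ _)) (not_lt.2 hwa)

end Pool.Agent.DD
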