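import Pool.Agent.DD.Blk3

set_option autoImplicit false

/-! # DD: divisibility and blocks (section 5.7 of /team-store/DD_Proof.md) -/

namespace Pool.Agent.DD

theorem ne_one_of_inB {L c p : PP} (h : InB L c p) : L ≠ 1 := by
  rintro rfl
  obtain ⟨_, h1, h2⟩ := inB_iff.1 h
  rw [one_tri] at h1
  rw [one_mul] at h2
  exact absurd h2 (not_lt.2 h1)

/-- DIV (5.7). -/
theorem div_fst {a p : PP} (hfc : FC p a) : ∀ z c : PP, Fst a p c → Dv p z →
    ∃ e, Fst a z (c * e) := by
  induction hfc with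
  | @lt L h =>
    have h' : p < L := h
    rintro z c (h1 | h1) _
    · rw [h1] at h'
      exact absurd h' (not_lt.2 (le_mul_r _ _))
    · exact absurd (lt_of_inB h1) (lt_asymm h')
  | @dv L h =>
    rintro z c (h1 | h1) ⟨e, he⟩
    · exact ⟨e, Or.inl (by rw [he, h1, mul_assoc])⟩
    · exact absurd h (inB_not_dv h1)
  | @bl L c' hb _ ih =>
    rintro z c hF hz
    have hcc : c = c' := by
      rcases hF with h1 | h1
      · exact absurd ⟨c, h1⟩ (inB_not_dv hb)
      · exact inB_unique h1 hb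
    subst hcc
    have hL : L ≠ 1 := ne_one_of_inB hb
    obtain ⟨hc, hp1, hp2⟩ := inB_iff.1 hb
    have hVL : tri L c * L = L * c := (mul_eq_tri L c).symm
    obtain ⟨c1, hc1, hc1L⟩ : ∃ c1, Fst (tri L c) p c1 ∧ c1 ≤ L := by
      rcases blk_theorem (L := tri L c) p with h1 | ⟨c1, h1⟩ | ⟨c1, h1⟩
      · exact absurd h1 (not_lt.2 hp1)
      · refine ⟨c1, Or.inl h1, ?_⟩
        rw [h1, ← hVL] at hp2
        exact (mul_lt_iff.1 hp2).le
      · refine ⟨c1, Or.inr h1, ?_⟩
        rw [← hVL] at hp2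
        exact le_of_tri_lt_mul ((inB_iff.1 h1).2.1.trans_lt hp2)
    obtain ⟨e, he⟩ := ih z c1 hc1 hz
    obtain ⟨g, hg⟩ : ∃ g, g = c1 * e := ⟨_, rfl⟩
    rw [← hg] at he
    rcases he with hA | hB
    · -- (A)
      rcases blk_theorem (L := L) g with h1 | ⟨g', h1⟩ | ⟨h, h1⟩
      · refine ⟨1, Or.inr (inB_iff.2 ?_)⟩
        rw [mul_one, hA]
        exact ⟨hc, le_mul_r _ _, by rw [← hVL]; exact mul_lt_iff.2 h1⟩
      · refine ⟨g', Or.inl ?_⟩
        rw [hA, h1, ← mul_assoc, hVL, mul_assoc]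
      · obtain ⟨_, h2, h3⟩ := inB_iff.1 h1
        refine ⟨h, Or.inr (inB_iff.2 ⟨mul_ne_one_l h hc, ?_, ?_⟩)⟩
        · rw [map_mul, hA]
          exact mul_le_iff.2 h2
        · rw [hA, ← mul_assoc, ← hVL, mul_assoc]
          exact mul_lt_iff.2 h3
    · -- (B)
      obtain ⟨hg1, hz1, hz2⟩ := inB_iff.1 hB
      have hc1' : InB (tri L c) c1 p := by
        rcases hc1 with h1 | h1
        · exfalso
          obtain ⟨w, hw⟩ := hz
          exact inB_not_dv hB ⟨c1 * w, by rw [hw, h1, mul_assoc]⟩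
        · exact h1
      have hVz : tri L c ≤ z := (lt_tri _ hg1).le.trans hz1
      rcases blk_theorem (L := L) g with h1 | ⟨g', h1⟩ | ⟨h, h1⟩
      · refine ⟨1, Or.inr (inB_iff.2 ?_)⟩
        rw [mul_one]
        exact ⟨hc, hVz, hz2.trans (by rw [← hVL]; exact mul_lt_iff.2 h1)⟩
      · by_cases hg' : g' = 1
        · refine ⟨1, Or.inr (inB_iff.2 ?_)⟩
          rw [mul_one]
          refine ⟨hc, hVz, ?_⟩
          rw [h1, hg', mul_one, hVL] at hz2
          exact hz2
        · refine ⟨g', Or.inr (inB_iff.2 ⟨mul_ne_one_l g' hc, ?_, ?_⟩)⟩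
          · rw [h1] at hz1
            exact (tri_mul_gt hL c g').le.trans hz1
          · rw [h1, ← mul_assoc, hVL, mul_assoc] at hz2
            exact hz2
      · obtain ⟨_, h2, h3⟩ := inB_iff.1 h1
        rcases h2.lt_or_eq with h4 | h4
        · refine ⟨h, Or.inr (inB_iff.2 ⟨mul_ne_one_l h hc, ?_, ?_⟩)⟩
          · rw [map_mul]
            exact (mul_lt_tri (tri L c) h4).le.trans hz1
          · refine hz2.trans ?_
            rw [← mul_assoc, ← hVL, mul_assoc]
            exact mul_lt_iff.2 h3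
        · exact absurd ⟨e, by rw [h4, hg]⟩
            (not_dv_tri (inB_iff.1 hc1').1 hc1L h)

/-- J1. -/
theorem j_one {a p z c : PP} (hb : InB a c p) (ha : Dv a z) (hp : Dv p z) : Dv (a * c) z := by
  obtain ⟨e, he | he⟩ := div_fst (fc_all a p) z c (Or.inr hb) hp
  · exact ⟨e, by rw [he, mul_assoc]⟩
  · exact absurd ha (inB_not_dv he)

end Pool.Agent.DD
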