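import Pool.Agent.DD.Blk4

set_option autoImplicit false

/-! # DD: conditional least common right multiples (section 5.8 of /team-store/DD_Proof.md) -/

namespace Pool.Agent.DD

private theorem dv_trans {a b c : PP} (h1 : Dv a b) (h2 : Dv b c) : Dv a c := by
  obtain ⟨x, rfl⟩ := h1
  obtain ⟨y, rfl⟩ := h2
  exact ⟨x * y, mul_assoc _ _ _⟩

private theorem dv_mul_l {a b : PP} (v : PP) (h : Dv a b) : Dv (v * a) (v * b) := by
  obtain ⟨x, rfl⟩ := h
  exact ⟨x, (mul_assoc _ _ _).symm⟩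

private theorem dv_cancel {v a b : PP} (h : Dv (v * a) (v * b)) : Dv a b := by
  obtain ⟨x, hx⟩ := h
  rw [mul_assoc] at hx
  exact ⟨x, mul_cancel_l hx⟩

private def IsL (a b m : PP) : Prop := Dv a m ∧ Dv b m ∧ ∀ z', Dv a z' → Dv b z' → Dv m z'

private theorem lcm_step {n : ℕ}
    (IH : ∀ a b z : PP, len z < n → Dv a z → Dv b z → ∃ m, IsL a b m) {z : PP} (hz : len z = n)
    {a b : PP} (hfc : FC b a) : a ≤ b → Dv a z → Dv b z → ∃ m, IsL a b m := by
  induction hfc with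
  | @lt L h => exact fun h1 => absurd h (not_lt.2 h1)
  | @dv L h => exact fun _ _ _ => ⟨b, h, ⟨1, (mul_one b).symm⟩, fun _ _ h => h⟩
  | @bl L c hb _ ih =>
    intro hLb hLz hbz
    obtain ⟨hc, h1, _⟩ := inB_iff.1 hb
    have hVL : tri L c * L = L * c := (mul_eq_tri L c).symm
    have h2 : Dv (L * c) z := j_one hb hLz hbz
    have h3 : Dv (tri L c) z := dv_trans ⟨L, hVL.symm⟩ h2
    obtain ⟨m', hm1, hm2, hm3⟩ := ih h1 h3 hbz
    obtain ⟨b', rfl⟩ := hm1
    have h4 := hm3 z h3 hbz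
    obtain ⟨z0, rfl⟩ := h3
    rw [← hVL] at h2
    have hlen : len z0 < n := by
      have e1 := len_mul (tri L c) z0
      have e2 : len (tri L c) ≠ 0 := fun e => tri_ne_one hc (len_eq_zero.1 e)
      omega
    obtain ⟨m0, hn1, hn2, hn3⟩ := IH L b' z0 hlen (dv_cancel h2) (dv_cancel h4)
    refine ⟨tri L c * m0, ?_, ?_, ?_⟩
    · refine dv_trans ⟨c, rfl⟩ ?_
      rw [← hVL]
      exact dv_mul_l _ hn1
    · exact dv_trans hm2 (dv_mul_l _ hn2)
    · intro z' h5 h6
      have h7 : Dv (L * c) z' := j_one hb h5 h6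
      have h8 : Dv (tri L c) z' := dv_trans ⟨L, hVL.symm⟩ h7
      have h9 := hm3 z' h8 h6
      obtain ⟨z0', rfl⟩ := h8
      rw [← hVL] at h7
      exact dv_mul_l _ (hn3 z0' (dv_cancel h7) (dv_cancel h9))

private theorem lcm_aux (n : ℕ) : ∀ a b z : PP, len z < n → Dv a z → Dv b z → ∃ m, IsL a b m := by
  induction n with
  | zero => exact fun _ _ _ h => absurd h (Nat.not_lt_zero _)
  | succ n ih =>
    intro a b z hz ha hb
    rcases Nat.lt_succ_iff_lt_or_eq.1 hz with h | h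
    · exact ih a b z h ha hb
    · rcases le_total a b with h1 | h1
      · exact lcm_step ih h (fc_all a b) h1 ha hb
      · obtain ⟨m, h2, h3, h4⟩ := lcm_step ih h (fc_all b a) h1 hb ha
        exact ⟨m, h3, h2, fun z' h5 h6 => h4 z' h6 h5⟩

/-- Conditional right lcms. -/
theorem blk_lcm {a b z : PP} (ha : Dv a z) (hb : Dv b z) :
    ∃ m, Dv a m ∧ Dv b m ∧ ∀ z', Dv a z' → Dv b z' → Dv m z' :=
  lcm_aux (len z + 1) a b z (Nat.lt_succ_self _) ha hb

end Pool.Agent.DD
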