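import Pool.Agent.DD.Blk5

set_option autoImplicit false

/-! # DD: interface of section 5 (proved in the files Blk* of helper1) -/

namespace Pool.Agent.DD

/-- The block theorem (existence). -/
theorem block_theorem {L : PP} (hL : L ≠ 1) (p : PP) : p < L ∨ Dv L p ∨ ∃ c, InB L c p := by
  clear hL
  exact blk_theorem p

/-- Niceness. -/
theorem niceness {W b : TT} {n : ℕ} {p : PP} (h : p ∈ Pos (dd^[n] (sbs W b))) (hd : Dv (kT W) p) :
    ∃ v ∈ Pos (dd^[n] b), p = kT W * v := by
  exact blk_niceness h hd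

/-- Conditional right lcms. -/
theorem lcm_exists {a b z : PP} (ha : Dv a z) (hb : Dv b z) :
    ∃ m, Dv a m ∧ Dv b m ∧ ∀ z', Dv a z' → Dv b z' → Dv m z' := by
  exact blk_lcm ha hb

end Pool.Agent.DD
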