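import Pool.Agent.DD.El

set_option autoImplicit false

/-! # DD package Cf: expansions (1.1)-(1.5) of /team-store/DD_Proof.md -/

namespace Pool.Agent.DD

variable {Y J : Type}

theorem Par.refl (t : Tm Y J) : Par t t := by
  induction t with
  | var y => exact .var y
  | mul a b iha ihb => exact .mul iha ihb (.base b)
  | bin j a b iha ihb => exact .bin iha ihb

/-- Induction on `v`. -/
theorem dst_star (u v : Tm Y J) : Dst u v (star u v) := by
  induction v with
  | var y => exact .base _
  | mul b c ihb ihc => exact .mul ihb ihc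
  | bin j b c ihb ihc => exact .bin ihb ihc

/-- Induction on `Dst`, `El.ld`, `El.lb`. -/
theorem cls_dst {a b d : Tm Y J} (h : Dst a b d) : cls d = (cls a).mul (cls b) := by
  induction h with
  | base b => rfl
  | mul _ _ ih1 ih2 => rw [cls_mul, cls_mul, ih1, ih2, ← El.ld]
  | bin _ _ ih1 ih2 => rw [cls_bin, cls_bin, ih1, ih2, ← El.lb]

theorem cls_par {s t : Tm Y J} (h : Par s t) : cls s = cls t := by
  induction h with
  | var y => rfl
  | mul _ _ hd ih1 ih2 => rw [cls_dst hd, cls_mul, ih1, ih2]
  | bin _ _ ih1 ih2 => rw [cls_bin, cls_bin, ih1, ih2]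

theorem cls_exp {s t : Tm Y J} (h : Exp s t) : cls s = cls t := by
  induction h with
  | refl => rfl
  | tail _ h ih => rw [ih, cls_par h]

/-- (1.2) Induction on `Dst`. -/
theorem dst_star_star {a c e : Tm Y J} (A : Tm Y J) (h : Dst a c e) :
    Dst (star A a) (star A c) (star A e) := by
  induction h with
  | base b => exact .base _
  | mul _ _ ih1 ih2 => exact .mul ih1 ih2
  | bin _ _ ih1 ih2 => exact .bin ih1 ih2

/-- (1.3) Induction on `Dst`, inverting `Par (b1*b2) B`, (1.2). -/
theorem par_star {a b d A B : Tm Y J} (h : Dst a b d) (ha : Par a A) (hb : Par b B) :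
    Par d (star A B) := by
  induction h generalizing B with
  | base b => exact .mul ha hb (dst_star A B)
  | mul _ _ ih1 ih2 =>
    cases hb with
    | mul hb1 hb2 hD => exact .mul (ih1 hb1) (ih2 hb2) (dst_star_star A hD)
  | bin _ _ ih1 ih2 =>
    cases hb with
    | bin hb1 hb2 => exact .bin (ih1 hb1) (ih2 hb2)

/-- (1.4) The triangle property: induction on `Par`, (1.3). -/
theorem par_dd {s t : Tm Y J} (h : Par s t) : Par t (dd s) := by
  induction h with
  | var y => exact .var y
  | mul _ _ hd ih1 ih2 => exact par_star hd ih1 ih2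
  | bin _ _ ih1 ih2 => exact .bin ih1 ih2

/-- (1.5) `par_dd` twice. -/
theorem par_dd_dd {s t : Tm Y J} (h : Par s t) : Par (dd s) (dd t) :=
  par_dd (par_dd h)

theorem par_self_dd (t : Tm Y J) : Par t (dd t) :=
  par_dd (Par.refl t)

theorem cls_dd (t : Tm Y J) : cls (dd t) = cls t :=
  (cls_par (par_self_dd t)).symm

theorem cls_dd_iter (n : ℕ) (t : Tm Y J) : cls (dd^[n] t) = cls t := by
  induction n generalizing t with
  | zero => rfl
  | succ n ih => rw [Function.iterate_succ_apply, ih, cls_dd]

end Pool.Agent.DD
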