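import Pool.Agent.DD.Cf

set_option autoImplicit false

/-! # DD package CfN: confluence (1.6), (1.7) of /team-store/DD_Proof.md -/

namespace Pool.Agent.DD

variable {Y J : Type}

theorem Exp.refl (t : Tm Y J) : Exp t t := Relation.ReflTransGen.refl

theorem Exp.trans {s t u : Tm Y J} (h1 : Exp s t) (h2 : Exp t u) : Exp s u := Relation.ReflTransGen.trans h1 h2

theorem Par.exp {s t : Tm Y J} (h : Par s t) : Exp s t := Relation.ReflTransGen.single h

theorem exp_mul {a a' b b' : Tm Y J} (h1 : Exp a a') (h2 : Exp b b') : Exp (a.mul b) (a'.mul b') := by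
  have e1 : Exp (a.mul b) (a'.mul b) := by
    induction h1 with
    | refl => exact Exp.refl _
    | tail _ h ih => exact ih.trans (Par.mul h (Par.refl b) (Dst.base b)).exp
  have e2 : Exp (a'.mul b) (a'.mul b') := by
    induction h2 with
    | refl => exact Exp.refl _
    | tail _ h ih => exact ih.trans (Par.mul (Par.refl a') h (Dst.base _)).exp
  exact e1.trans e2

theorem exp_bin {j : J} {a a' b b' : Tm Y J} (h1 : Exp a a') (h2 : Exp b b') : Exp (.bin j a b) (.bin j a' b') := by
  have e1 : Exp (.bin j a b) (.bin j a' b) := by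
    induction h1 with
    | refl => exact Exp.refl _
    | tail _ h ih => exact ih.trans (Par.bin h (Par.refl b)).exp
  have e2 : Exp (.bin j a' b) (.bin j a' b') := by
    induction h2 with
    | refl => exact Exp.refl _
    | tail _ h ih => exact ih.trans (Par.bin (Par.refl a') h).exp
  exact e1.trans e2

theorem Dst.exp {a b d : Tm Y J} (h : Dst a b d) : Exp (a.mul b) d :=
  (Par.mul (Par.refl a) (Par.refl b) h).exp

theorem exp_dd {s t : Tm Y J} (h : Exp s t) : Exp (dd s) (dd t) := by
  induction h with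
  | refl => exact Exp.refl _
  | tail _ h ih => exact ih.trans (par_dd_dd h).exp

theorem exp_dd_iter {s t : Tm Y J} (n : ℕ) (h : Exp s t) : Exp (dd^[n] s) (dd^[n] t) := by
  induction n with
  | zero => exact h
  | succ n ih =>
    rw [Function.iterate_succ_apply', Function.iterate_succ_apply']
    exact exp_dd ih

theorem exp_self_dd_iter (n : ℕ) (t : Tm Y J) : Exp t (dd^[n] t) := by
  induction n with
  | zero => exact Exp.refl _
  | succ n ih =>
    rw [Function.iterate_succ_apply']
    exact ih.trans (par_self_dd _).exp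

theorem exp_dd_iter_le {m n : ℕ} (h : m ≤ n) (t : Tm Y J) : Exp (dd^[m] t) (dd^[n] t) := by
  obtain ⟨k, rfl⟩ := Nat.exists_eq_add_of_le' h
  rw [Function.iterate_add_apply]
  exact exp_self_dd_iter k _

/-- (1.6) if `s` expands to `t` then `t` expands to some `dd^k s`. Induction on the chain: if `s -> r` (one `Par` step) and
`r` expands to `t`, `t` expands to `dd^k r`, then `dd^k r` expands to `dd^(k+1) s` by `par_dd` and (1.5). -/
theorem exp_back {s t : Tm Y J} (h : Exp s t) : ∃ k, Exp t (dd^[k] s) := by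
  induction h with
  | refl => exact ⟨0, Exp.refl _⟩
  | tail _ h ih =>
    obtain ⟨k, hk⟩ := ih
    refine ⟨k + 1, (par_dd h).exp.trans ?_⟩
    rw [Function.iterate_succ_apply']
    exact exp_dd hk

private theorem cfN_mul_iter (n : ℕ) (a b : Tm Y J) :
    Exp ((dd^[n] a).mul (dd^[n] b)) (dd^[n] (a.mul b)) := by
  induction n with
  | zero => exact Exp.refl _
  | succ n ih =>
    rw [Function.iterate_succ_apply', Function.iterate_succ_apply', Function.iterate_succ_apply']
    exact (dst_star (dd (dd^[n] a)) (dd (dd^[n] b))).exp.trans (exp_dd ih)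

private theorem cfN_bin_iter (n : ℕ) (j : J) (a b : Tm Y J) :
    dd^[n] (.bin j a b) = .bin j (dd^[n] a) (dd^[n] b) := by
  induction n with
  | zero => rfl
  | succ n ih =>
    rw [Function.iterate_succ_apply', Function.iterate_succ_apply', Function.iterate_succ_apply',
      ih]
    rfl

private theorem cfN_exp_of_eqv {s t : Tm Y J} (h : Eqv s t) : ∃ n, Exp s (dd^[n] t) := by
  induction h with
  | refl a => exact ⟨0, Exp.refl _⟩
  | symm _ ih =>
    obtain ⟨n, hn⟩ := ih
    obtain ⟨k, hk⟩ := exp_back hn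
    exact ⟨k, (exp_self_dd_iter n _).trans hk⟩
  | trans _ _ ih1 ih2 =>
    obtain ⟨n, hn⟩ := ih1
    obtain ⟨m, hm⟩ := ih2
    refine ⟨n + m, ?_⟩
    rw [Function.iterate_add_apply]
    exact hn.trans (exp_dd_iter n hm)
  | mul _ _ ih1 ih2 =>
    obtain ⟨n, hn⟩ := ih1
    obtain ⟨m, hm⟩ := ih2
    refine ⟨max n m, ?_⟩
    exact (exp_mul (hn.trans (exp_dd_iter_le (le_max_left n m) _))
      (hm.trans (exp_dd_iter_le (le_max_right n m) _))).trans (cfN_mul_iter _ _ _)
  | bin _ _ ih1 ih2 =>
    obtain ⟨n, hn⟩ := ih1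
    obtain ⟨m, hm⟩ := ih2
    refine ⟨max n m, ?_⟩
    rw [cfN_bin_iter]
    exact exp_bin (hn.trans (exp_dd_iter_le (le_max_left n m) _))
      (hm.trans (exp_dd_iter_le (le_max_right n m) _))
  | ld a b c => exact ⟨0, (Dst.mul (Dst.base b) (Dst.base c)).exp⟩
  | lb j a b c => exact ⟨0, (Dst.bin (Dst.base b) (Dst.base c)).exp⟩

/-- (1.7). Induction on `Eqv` for the statement `∃ n, Exp s (dd^[n] t)`. -/
theorem exp_of_eqv {s t : Tm Y J} (h : Eqv s t) : ∃ N, ∀ n, N ≤ n → Exp s (dd^[n] t) := by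
  obtain ⟨N, hN⟩ := cfN_exp_of_eqv h
  exact ⟨N, fun n hn => hN.trans (exp_dd_iter_le hn _)⟩

theorem exp_of_cls {s t : Tm Y J} (h : cls s = cls t) : ∃ N, ∀ n, N ≤ n → Exp s (dd^[n] t) := exp_of_eqv (cls_eq.1 h)

/-- Church-Rosser. -/
theorem common_exp {s t : Tm Y J} (h : cls s = cls t) : ∃ u, Exp s u ∧ Exp t u := by
  obtain ⟨N, hN⟩ := exp_of_cls h
  exact ⟨dd^[N] t, hN N le_rfl, exp_self_dd_iter N t⟩

end Pool.Agent.DD
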