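import Pool.Agent.DD.Tm

set_option autoImplicit false

/-! # MP_dd36e8_al: the free algebra `El Y J`, its monoid `Mon Y J`, actions, `eps`, labels
(DD_Proof.md, section 2; definitions with the proofs of well-definedness) -/

namespace Pool.Agent.DD

variable {Y J : Type}

/-- `Eqv` as a setoid. -/
def stm (Y J : Type) : Setoid (Tm Y J) where
  r := Eqv
  iseqv := ⟨Eqv.refl, Eqv.symm, Eqv.trans⟩

/-- The free algebra on `Y`. -/
def El (Y J : Type) : Type := Quotient (stm Y J)

/-- The class of a term. -/
def cls (t : Tm Y J) : El Y J := Quotient.mk (stm Y J) t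

theorem cls_eq {s t : Tm Y J} : cls s = cls t ↔ Eqv s t :=
  ⟨fun h => Quotient.exact h, fun h => Quotient.sound (s := stm Y J) h⟩

theorem cls_surj (E : El Y J) : ∃ t, cls t = E := Quotient.exists_rep E

namespace El

/-- The letters. -/
def var (y : Y) : El Y J := cls (.var y)

/-- The product. -/
def mul : El Y J → El Y J → El Y J :=
  Quotient.map₂ Tm.mul (fun _ _ h _ _ h' => Eqv.mul h h')

/-- The operations `bin`. -/
def bin (j : J) : El Y J → El Y J → El Y J :=
  Quotient.map₂ (Tm.bin j) (fun _ _ h _ _ h' => Eqv.bin h h')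

end El

theorem cls_var (y : Y) : cls (.var y : Tm Y J) = El.var y := rfl
theorem cls_mul (a b : Tm Y J) : cls (a.mul b) = (cls a).mul (cls b) := rfl
theorem cls_bin (j : J) (a b : Tm Y J) : cls (.bin j a b) = .bin j (cls a) (cls b) := rfl

/-- Induction over elements of the free algebra. -/
theorem El.ind {p : El Y J → Prop} (h1 : ∀ y, p (.var y)) (h2 : ∀ a b, p a → p b → p (a.mul b))
    (h3 : ∀ j a b, p a → p b → p (.bin j a b)) (E : El Y J) : p E := by
  obtain ⟨t, rfl⟩ := cls_surj E
  induction t with
  | var y => exact h1 y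
  | mul a b iha ihb => exact h2 _ _ iha ihb
  | bin j a b iha ihb => exact h3 _ _ _ iha ihb

theorem El.ld (a b c : El Y J) : a.mul (b.mul c) = (a.mul b).mul (a.mul c) := by
  obtain ⟨a, rfl⟩ := cls_surj a
  obtain ⟨b, rfl⟩ := cls_surj b
  obtain ⟨c, rfl⟩ := cls_surj c
  exact cls_eq.2 (Eqv.ld a b c)

theorem El.lb (j : J) (a b c : El Y J) : a.mul (.bin j b c) = .bin j (a.mul b) (a.mul c) := by
  obtain ⟨a, rfl⟩ := cls_surj a
  obtain ⟨b, rfl⟩ := cls_surj b
  obtain ⟨c, rfl⟩ := cls_surj c
  exact cls_eq.2 (Eqv.lb j a b c)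

/-- Evaluation of terms. -/
def fold {α : Type} (v : Y → α) (m : α → α → α) (b : J → α → α → α) : Tm Y J → α
  | .var y => v y
  | .mul s t => m (fold v m b s) (fold v m b t)
  | .bin j s t => b j (fold v m b s) (fold v m b t)

/-- A general recursion principle: maps out of `El Y J`. -/
def El.lift {α : Type} (v : Y → α) (m : α → α → α) (b : J → α → α → α)
    (hld : ∀ x y z, m x (m y z) = m (m x y) (m x z))
    (hlb : ∀ j x y z, m x (b j y z) = b j (m x y) (m x z)) : El Y J → α :=
  Quotient.lift (fold v m b) (by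
      intro s t h
      have h' : Eqv s t := h
      clear h
      induction h' with
      | refl a => rfl
      | symm _ ih => exact ih.symm
      | trans _ _ ih1 ih2 => exact ih1.trans ih2
      | mul _ _ ih1 ih2 => exact congrArg₂ m ih1 ih2
      | bin _ _ ih1 ih2 => exact congrArg₂ (b _) ih1 ih2
      | ld a b c => exact hld _ _ _
      | lb j a b c => exact hlb _ _ _ _)

/-- The relations `[a][b] = [ab][a]`. -/
inductive MRel : FreeMonoid (El Y J) → FreeMonoid (El Y J) → Prop
  | mk (a b : El Y J) : MRel (.of a * .of b) (.of (a.mul b) * .of a)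

/-- The monoid of the free algebra. -/
abbrev Mon (Y J : Type) : Type := PresentedMonoid (MRel (Y := Y) (J := J))

/-- The generators of the monoid. -/
def gen (a : El Y J) : Mon Y J := PresentedMonoid.of MRel a

theorem gen_mul (a b : El Y J) : gen a * gen b = gen (a.mul b) * gen a :=
  PresentedMonoid.mk_eq_mk_of_rel (MRel.mk a b)

/-- Maps out of the monoid. -/
def Mon.lift {M : Type} [Monoid M] (f : El Y J → M) (h : ∀ a b, f a * f b = f (a.mul b) * f a) :
    Mon Y J →* M :=
  PresentedMonoid.lift f (by
    rintro _ _ ⟨a, b⟩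
    simp only [map_mul, FreeMonoid.lift_eval_of]
    exact h a b)

theorem Mon.lift_gen {M : Type} [Monoid M] (f : El Y J → M) (h : ∀ a b, f a * f b = f (a.mul b) * f a)
    (a : El Y J) : Mon.lift f h (gen a) = f a := rfl

/-- Induction over the monoid. -/
theorem Mon.ind {p : Mon Y J → Prop} (h1 : p 1) (h2 : ∀ a m, p m → p (gen a * m)) (m : Mon Y J) : p m := by
  obtain ⟨w, rfl⟩ := PresentedMonoid.surjective_mk m
  induction w using FreeMonoid.recOn with
  | one => exact h1
  | of_mul a w ih =>
    rw [map_mul]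
    exact h2 a _ ih

theorem Mon.hom_ext {M : Type} [Monoid M] {f g : Mon Y J →* M} (h : ∀ a, f (gen a) = g (gen a)) : f = g :=
  PresentedMonoid.ext _ h

/-- The action of the monoid on the algebra: `[a].z = az`. -/
def actHom : Mon Y J →* Function.End (El Y J) :=
  Mon.lift (M := Function.End (El Y J)) (fun a => (fun z => a.mul z : El Y J → El Y J))
    (fun a b => funext fun z => El.ld a b z)

instance : MulAction (Mon Y J) (El Y J) where
  smul m z := actHom m z
  one_smul z := by change actHom 1 z = z; rw [map_one]; rfl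
  mul_smul m n z := by change actHom (m * n) z = actHom m (actHom n z); rw [map_mul]; rfl

theorem gen_smul (a z : El Y J) : gen a • z = a.mul z := rfl

theorem smul_mul' (m : Mon Y J) (a b : El Y J) : m • (a.mul b) = (m • a).mul (m • b) := by
  induction m using Mon.ind generalizing a b with
  | h1 => simp
  | h2 c m ih => rw [mul_smul, ih, mul_smul, mul_smul, gen_smul, gen_smul, gen_smul, El.ld]

theorem smul_bin (m : Mon Y J) (j : J) (a b : El Y J) : m • (El.bin j a b) = .bin j (m • a) (m • b) := by
  induction m using Mon.ind generalizing a b with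
  | h1 => simp
  | h2 c m ih => rw [mul_smul, ih, mul_smul, mul_smul, gen_smul, gen_smul, gen_smul, El.lb]

/-- The action of `m` on the monoid: `m |> [a] = [m.a]`. -/
def tri (m : Mon Y J) : Mon Y J →* Mon Y J :=
  Mon.lift (fun a => gen (m • a)) (fun a b => by rw [smul_mul']; exact gen_mul _ _)

theorem tri_gen (m : Mon Y J) (a : El Y J) : tri m (gen a) = gen (m • a) := rfl

theorem one_tri (n : Mon Y J) : tri 1 n = n := by
  have : tri (1 : Mon Y J) = MonoidHom.id _ := Mon.hom_ext fun a => by simp [tri_gen]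
  rw [this]; rfl

theorem mul_tri (m n k : Mon Y J) : tri (m * n) k = tri m (tri n k) := by
  have : tri (m * n) = (tri m).comp (tri n) := Mon.hom_ext fun a => by simp [tri_gen, mul_smul]
  rw [this]; rfl

/-- `m n = (m ▷ n) m`. -/
theorem mul_eq_tri (m n : Mon Y J) : m * n = tri m n * m := by
  induction m using Mon.ind with
  | h1 => simp [one_tri]
  | h2 a m ih =>
    have key : ∀ k : Mon Y J, gen a * k = tri (gen a) k * gen a := by
      intro k
      induction k using Mon.ind with
      | h1 => simp
      | h2 b k ihk => rw [map_mul, tri_gen, gen_smul, mul_assoc, ← ihk, ← mul_assoc, ← mul_assoc, gen_mul]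
    rw [mul_assoc, ih, ← mul_assoc, key, mul_tri, mul_assoc]

theorem tri_smul (m n : Mon Y J) (z : El Y J) : tri m n • (m • z) = m • (n • z) := by
  rw [← mul_smul, ← mul_eq_tri, mul_smul]

/-- The length. -/
def lenHom : Mon Y J →* Multiplicative ℕ := Mon.lift (fun _ => Multiplicative.ofAdd 1) (fun _ _ => rfl)

/-- The length of an element of the monoid. -/
def len (m : Mon Y J) : ℕ := Multiplicative.toAdd (lenHom m)

theorem len_one : len (1 : Mon Y J) = 0 := by simp [len]
theorem len_gen (a : El Y J) : len (gen a) = 1 := rfl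
theorem len_mul (m n : Mon Y J) : len (m * n) = len m + len n := by simp [len]

theorem len_eq_zero {m : Mon Y J} : len m = 0 ↔ m = 1 := by
  constructor
  · intro h
    induction m using Mon.ind with
    | h1 => rfl
    | h2 a m _ => rw [len_mul, len_gen] at h; omega
  · rintro rfl; exact len_one

/-- Every `m ≠ 1` is `[a] m'`. -/
theorem exists_gen_mul {m : Mon Y J} (h : m ≠ 1) : ∃ a m', m = gen a * m' := by
  induction m using Mon.ind with
  | h1 => exact absurd rfl h
  | h2 a m _ => exact ⟨a, m, rfl⟩

/-- The pair `(E, eps E)`. -/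
def epsPair : El Y J → El Y J × Mon Y J :=
  El.lift (α := El Y J × Mon Y J) (fun y => (.var y, 1)) (fun p q => (p.1.mul q.1, gen p.1 * q.2))
    (fun j p q => (.bin j p.1 q.1, p.2))
    (fun x y z => by
      simp only [Prod.mk.injEq]
      exact ⟨El.ld _ _ _, by rw [← mul_assoc, ← mul_assoc, gen_mul]⟩)
    (fun j x y z => by
      simp only [Prod.mk.injEq, and_true]
      exact El.lb _ _ _ _)

theorem epsPair_fst (E : El Y J) : (epsPair E).1 = E := by
  induction E using El.ind with
  | h1 y => rfl
  | h2 a b iha ihb =>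
    have : epsPair (a.mul b) = ((epsPair a).1.mul (epsPair b).1, gen (epsPair a).1 * (epsPair b).2) := by
      obtain ⟨a, rfl⟩ := cls_surj a
      obtain ⟨b, rfl⟩ := cls_surj b
      rfl
    rw [this, iha, ihb]
  | h3 j a b iha ihb =>
    have : epsPair (.bin j a b) = (.bin j (epsPair a).1 (epsPair b).1, (epsPair a).2) := by
      obtain ⟨a, rfl⟩ := cls_surj a
      obtain ⟨b, rfl⟩ := cls_surj b
      rfl
    rw [this, iha, ihb]

/-- `eps E`: the monoid element of the leftmost letter. -/
def eps (E : El Y J) : Mon Y J := (epsPair E).2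

theorem eps_var (y : Y) : eps (.var y : El Y J) = 1 := rfl

theorem eps_mul (a z : El Y J) : eps (a.mul z) = gen a * eps z := by
  have h := epsPair_fst a
  obtain ⟨s, rfl⟩ := cls_surj a
  obtain ⟨t, rfl⟩ := cls_surj z
  change gen (epsPair (cls s)).1 * _ = _
  rw [h]
  rfl

theorem eps_bin (j : J) (z w : El Y J) : eps (.bin j z w) = eps z := by
  obtain ⟨s, rfl⟩ := cls_surj z
  obtain ⟨t, rfl⟩ := cls_surj w
  rfl

theorem eps_smul (m : Mon Y J) (z : El Y J) : eps (m • z) = m * eps z := by
  induction m using Mon.ind with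
  | h1 => simp
  | h2 a m ih => rw [mul_smul, gen_smul, eps_mul, ih, mul_assoc]

theorem eps_smul_var (m : Mon Y J) (y : Y) : eps (m • (El.var y : El Y J)) = m := by rw [eps_smul, eps_var, mul_one]

/-- Labels: a letter and a stack of pairs (symbol, right argument). -/
abbrev Lab (Y J : Type) : Type := Y × List (J × El Y J)

/-- The action of an element of the algebra on labels. -/
def labAct (a : El Y J) (l : Lab Y J) : Lab Y J := (l.1, l.2.map fun p => (p.1, a.mul p.2))

/-- The pair `(E, lab E)`. -/
def labPair : El Y J → El Y J × Lab Y J :=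
  El.lift (α := El Y J × Lab Y J) (fun y => (.var y, (y, []))) (fun p q => (p.1.mul q.1, labAct p.1 q.2))
    (fun j p q => (.bin j p.1 q.1, (p.2.1, (j, q.1) :: p.2.2)))
    (fun x y z => by
      simp only [Prod.mk.injEq, labAct, List.map_map]
      refine ⟨El.ld _ _ _, trivial, List.map_congr_left fun p _ => ?_⟩
      simp only [Function.comp_apply]
      rw [El.ld])
    (fun j x y z => by
      simp only [Prod.mk.injEq, labAct, List.map_cons, and_true]
      exact El.lb _ _ _ _)

theorem labPair_fst (E : El Y J) : (labPair E).1 = E := by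
  induction E using El.ind with
  | h1 y => rfl
  | h2 a b iha ihb =>
    have : (labPair (a.mul b)).1 = (labPair a).1.mul (labPair b).1 := by
      obtain ⟨a, rfl⟩ := cls_surj a
      obtain ⟨b, rfl⟩ := cls_surj b
      rfl
    rw [this, iha, ihb]
  | h3 j a b iha ihb =>
    have : (labPair (.bin j a b)).1 = .bin j (labPair a).1 (labPair b).1 := by
      obtain ⟨a, rfl⟩ := cls_surj a
      obtain ⟨b, rfl⟩ := cls_surj b
      rfl
    rw [this, iha, ihb]

/-- The label of the leftmost letter. -/
def lab (E : El Y J) : Lab Y J := (labPair E).2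

theorem lab_var (y : Y) : lab (.var y : El Y J) = (y, []) := rfl

theorem lab_mul (a z : El Y J) : lab (a.mul z) = labAct a (lab z) := by
  have h := labPair_fst a
  obtain ⟨s, rfl⟩ := cls_surj a
  obtain ⟨t, rfl⟩ := cls_surj z
  change labAct (labPair (cls s)).1 _ = _
  rw [h]
  rfl

theorem lab_bin (j : J) (z w : El Y J) : lab (.bin j z w) = ((lab z).1, (j, w) :: (lab z).2) := by
  have h := labPair_fst w
  obtain ⟨s, rfl⟩ := cls_surj z
  obtain ⟨t, rfl⟩ := cls_surj w
  change ((labPair (cls s)).2.1, (j, (labPair (cls t)).1) :: (labPair (cls s)).2.2) = _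
  rw [h]
  rfl

/-- The action of the monoid on labels. -/
def labSmul (m : Mon Y J) (l : Lab Y J) : Lab Y J := (l.1, l.2.map fun p => (p.1, m • p.2))

theorem lab_smul (m : Mon Y J) (z : El Y J) : lab (m • z) = labSmul m (lab z) := by
  induction m using Mon.ind with
  | h1 => simp [labSmul]
  | h2 a m ih =>
    rw [mul_smul, gen_smul, lab_mul, ih]
    simp only [labAct, labSmul, List.map_map, Prod.mk.injEq, true_and]
    refine List.map_congr_left fun p _ => ?_
    simp only [Function.comp_apply]
    rw [mul_smul, gen_smul]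

/-- The element with given `eps` and `lab`. -/
def asmL (m : Mon Y J) (y : Y) : List (J × El Y J) → El Y J
  | [] => m • El.var y
  | (j, w) :: l => .bin j (asmL m y l) w

/-- The element with given `eps` and `lab`. -/
def asm (m : Mon Y J) (l : Lab Y J) : El Y J := asmL m l.1 l.2

theorem eps_asm (m : Mon Y J) (l : Lab Y J) : eps (asm m l) = m := by
  obtain ⟨y, l⟩ := l
  unfold asm
  induction l with
  | nil => exact eps_smul_var m y
  | cons p l ih => exact (eps_bin _ _ _).trans ih

theorem lab_asm (m : Mon Y J) (l : Lab Y J) : lab (asm m l) = l := by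
  obtain ⟨y, l⟩ := l
  unfold asm
  induction l with
  | nil =>
    change lab (m • (El.var y : El Y J)) = _
    rw [lab_smul, lab_var]
    rfl
  | cons p l ih =>
    change lab (.bin p.1 (asmL m y l) p.2) = _
    rw [lab_bin, show lab (asmL m y l) = (y, l) from ih]

theorem asmL_gen (a : El Y J) (m : Mon Y J) (y : Y) (l : List (J × El Y J)) :
    asmL (gen a * m) y (l.map fun p => (p.1, a.mul p.2)) = a.mul (asmL m y l) := by
  induction l with
  | nil => exact mul_smul _ _ _
  | cons p l ih =>
    change El.bin p.1 (asmL (gen a * m) y (l.map _)) (a.mul p.2) = a.mul (.bin p.1 (asmL m y l) p.2)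
    rw [ih, El.lb]

theorem asm_eps_lab (E : El Y J) : asm (eps E) (lab E) = E := by
  induction E using El.ind with
  | h1 y => exact one_smul _ _
  | h2 a b _ ihb =>
    rw [eps_mul, lab_mul]
    refine (asmL_gen a (eps b) (lab b).1 (lab b).2).trans ?_
    exact congrArg (El.mul a) ihb
  | h3 j a b iha _ =>
    rw [eps_bin, lab_bin]
    exact congrArg (fun z => El.bin j z b) iha

theorem El.ext_iff' {E E' : El Y J} : E = E' ↔ eps E = eps E' ∧ lab E = lab E' :=
  ⟨by rintro rfl; exact ⟨rfl, rfl⟩, fun h => by rw [← asm_eps_lab E, h.1, h.2, asm_eps_lab]⟩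

theorem bin_inj {j j' : J} {z w z' w' : El Y J} (h : El.bin j z w = .bin j' z' w') :
    j = j' ∧ z = z' ∧ w = w' := by
  have h1 := congrArg eps h
  have h2 := congrArg lab h
  rw [eps_bin, eps_bin] at h1
  rw [lab_bin, lab_bin] at h2
  simp only [Prod.mk.injEq, List.cons.injEq] at h2
  exact ⟨h2.2.1.1, El.ext_iff'.2 ⟨h1, Prod.ext h2.1 h2.2.2⟩, h2.2.1.2⟩

theorem smul_var_inj {m m' : Mon Y J} {y y' : Y} (h : m • (El.var y : El Y J) = m' • (El.var y' : El Y J)) :
    m = m' ∧ y = y' := by
  have h1 := congrArg eps h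
  have h2 := congrArg lab h
  rw [eps_smul_var, eps_smul_var] at h1
  rw [lab_smul, lab_smul] at h2
  exact ⟨h1, congrArg Prod.fst h2⟩

theorem smul_var_ne_bin {m : Mon Y J} {y : Y} {j : J} {z w : El Y J}
    (h : m • (El.var y : El Y J) = .bin j z w) : False := by
  have h2 := congrArg lab h
  rw [lab_smul, lab_bin, lab_var] at h2
  simp [labSmul] at h2

/-- An element is `m.y` or `bin j z w`. -/
theorem var_or_bin (E : El Y J) : (∃ (m : Mon Y J) (y : Y), E = m • (El.var y : El Y J)) ∨
    ∃ j z w, E = .bin j z w := by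
  rw [← asm_eps_lab E]
  obtain ⟨y, l⟩ := lab E
  cases l with
  | nil => exact Or.inl ⟨_, y, rfl⟩
  | cons p l => exact Or.inr ⟨p.1, _, p.2, rfl⟩

/-- The free algebra on one letter, without `bin`. -/
abbrev FF : Type := El Unit Empty

/-- The monoid of `FF`. -/
abbrev PP : Type := Mon Unit Empty

/-- The letter of `FF`. -/
abbrev xF : FF := El.var ()

/-- The skeleton map. -/
def pi : El Y J → FF :=
  El.lift (fun _ => xF) (fun a b => a.mul b) (fun _ a _ => a) El.ld (fun _ _ _ _ => rfl)

theorem pi_var (y : Y) : pi (El.var y : El Y J) = xF := rfl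

theorem pi_mul (a b : El Y J) : pi (a.mul b) = (pi a).mul (pi b) := by
  obtain ⟨s, rfl⟩ := cls_surj a
  obtain ⟨t, rfl⟩ := cls_surj b
  rfl

theorem pi_bin (j : J) (a b : El Y J) : pi (.bin j a b) = pi a := by
  obtain ⟨s, rfl⟩ := cls_surj a
  obtain ⟨t, rfl⟩ := cls_surj b
  rfl

theorem pi_cls (t : Tm Y J) : pi (cls t) = cls (sk t) := by
  induction t with
  | var y => rfl
  | mul a b iha ihb => rw [cls_mul, pi_mul, iha, ihb]; rfl
  | bin j a b iha _ => rw [cls_bin, pi_bin, iha]; rfl

/-- The skeleton map on the monoid. -/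
def piM : Mon Y J →* PP := Mon.lift (fun a => gen (pi a)) (fun a b => by rw [gen_mul, pi_mul])

theorem piM_gen (a : El Y J) : piM (gen a) = gen (pi a) := rfl

theorem pi_smul (m : Mon Y J) (z : El Y J) : pi (m • z) = piM m • pi z := by
  induction m using Mon.ind with
  | h1 => simp
  | h2 a m ih => rw [mul_smul, gen_smul, pi_mul, ih, map_mul, mul_smul, piM_gen, gen_smul]

theorem piM_eps (E : El Y J) : piM (eps E) = eps (pi E) := by
  induction E using El.ind with
  | h1 y => rfl
  | h2 a b _ ihb => rw [eps_mul, map_mul, pi_mul, eps_mul, ihb, piM_gen]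
  | h3 j a b iha _ => rw [eps_bin, pi_bin, iha]

theorem piM_tri (m n : Mon Y J) : piM (tri m n) = tri (piM m) (piM n) := by
  induction n using Mon.ind with
  | h1 => simp
  | h2 a n ih => rw [map_mul, map_mul, ih, tri_gen, piM_gen, map_mul, map_mul, piM_gen, tri_gen, pi_smul]

theorem len_piM (m : Mon Y J) : len (piM m) = len m := by
  induction m using Mon.ind with
  | h1 => simp [len_one]
  | h2 a m ih => rw [map_mul, len_mul, len_mul, ih, piM_gen, len_gen, len_gen]

/-- `kap E`: the position of the end of `E`. -/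
def kap (E : El Y J) : PP := piM (eps E)

theorem kap_eq_eps_pi (E : El Y J) : kap E = eps (pi E) := piM_eps E
theorem kap_var (y : Y) : kap (El.var y : El Y J) = 1 := by rw [kap, eps_var, map_one]
theorem kap_smul (m : Mon Y J) (E : El Y J) : kap (m • E) = piM m * kap E := by rw [kap, eps_smul, map_mul]; rfl
theorem kap_mul (a z : El Y J) : kap (a.mul z) = gen (pi a) * kap z := by rw [kap, eps_mul, map_mul, piM_gen]; rfl
theorem kap_bin (j : J) (z w : El Y J) : kap (.bin j z w) = kap z := by rw [kap, eps_bin]; rfl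

theorem FF_eq (E : FF) : E = eps E • xF := by
  induction E using El.ind with
  | h1 y => exact (one_smul _ _).symm
  | h2 a b _ ihb => rw [eps_mul, mul_smul, gen_smul, ← ihb]
  | h3 j a b _ _ => exact j.elim

theorem pi_eq_kap_smul (E : El Y J) : pi E = kap E • xF := by rw [kap_eq_eps_pi]; exact FF_eq _

/-- The end position of a tree. -/
def kT (T : TT) : PP := eps (cls T)

theorem kT_var (u : Unit) : kT (.var u) = 1 := rfl
theorem kT_mul (A B : TT) : kT (A.mul B) = gen (cls A) * kT B := eps_mul (cls A) (cls B)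
theorem cls_eq_kT (T : TT) : cls T = kT T • xF := FF_eq _

/-- The successor. -/
def sc (p : PP) : PP := gen (p • xF)

theorem gen_cls (T : TT) : gen (cls T) = sc (kT T) := by rw [sc, ← cls_eq_kT]

/-- `p` divides `q`. -/
def Dv (p q : PP) : Prop := ∃ c, q = p * c

end Pool.Agent.DD
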