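import Pool.Agent.DD.Ind
import Pool.Agent.DD.El

set_option autoImplicit false

/-! # DD: coding of the terms with letters and symbols in `ℕ` by natural numbers -/

namespace Pool.Agent.DD

open Pool.Agent.H78Ext

/-- The code of a term. -/
def cod : Tm ℕ ℕ → ℕ
  | .var y => 3 * y
  | .mul a b => 3 * Nat.pair (cod a) (cod b) + 1
  | .bin j a b => 3 * Nat.pair j (Nat.pair (cod a) (cod b)) + 2

theorem dcod_lt1 {n : ℕ} (h : n % 3 = 1) : (n / 3).unpair.1 < n ∧ (n / 3).unpair.2 < n := by
  have h1 := Nat.unpair_left_le (n / 3)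
  have h2 := Nat.unpair_right_le (n / 3)
  omega

theorem dcod_lt2 {n : ℕ} (h : n % 3 = 2) : (n / 3).unpair.2.unpair.1 < n ∧ (n / 3).unpair.2.unpair.2 < n := by
  have h2 := Nat.unpair_right_le (n / 3)
  have h3 := Nat.unpair_left_le (n / 3).unpair.2
  have h4 := Nat.unpair_right_le (n / 3).unpair.2
  omega

/-- The term with a given code. -/
def dcod (n : ℕ) : Tm ℕ ℕ :=
  if h1 : n % 3 = 1 then
    have := dcod_lt1 h1
    .mul (dcod (n / 3).unpair.1) (dcod (n / 3).unpair.2)
  else if h2 : n % 3 = 2 then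
    have := dcod_lt2 h2
    .bin (n / 3).unpair.1 (dcod (n / 3).unpair.2.unpair.1) (dcod (n / 3).unpair.2.unpair.2)
  else .var (n / 3)
termination_by n
decreasing_by
  all_goals first | exact this.1 | exact this.2

theorem dcod_cod (t : Tm ℕ ℕ) : dcod (cod t) = t := by
  induction t with
  | var y =>
    rw [cod, dcod, dif_neg (by omega), dif_neg (by omega)]
    congr 1
    omega
  | mul a b iha ihb =>
    have h1 : (3 * Nat.pair (cod a) (cod b) + 1) / 3 = Nat.pair (cod a) (cod b) := by omega
    rw [cod, dcod, dif_pos (by omega)]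
    simp only [h1, Nat.unpair_pair, iha, ihb]
  | bin j a b iha ihb =>
    have h1 : (3 * Nat.pair j (Nat.pair (cod a) (cod b)) + 2) / 3 = Nat.pair j (Nat.pair (cod a) (cod b)) := by
      omega
    rw [cod, dcod, dif_neg (by omega), dif_pos (by omega)]
    simp only [h1, Nat.unpair_pair, iha, ihb]

theorem cod_dcod (n : ℕ) : cod (dcod n) = n := by
  induction n using Nat.strong_induction_on with
  | _ n ih =>
    rw [dcod]
    split_ifs with h1 h2
    · rw [cod, ih _ (dcod_lt1 h1).1, ih _ (dcod_lt1 h1).2, Nat.pair_unpair]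
      omega
    · rw [cod, ih _ (dcod_lt2 h2).1, ih _ (dcod_lt2 h2).2, Nat.pair_unpair, Nat.pair_unpair]
      omega
    · rw [cod]
      omega

/-- The terms are coded bijectively by the natural numbers. -/
def codEquiv : Tm ℕ ℕ ≃ ℕ := ⟨cod, dcod, dcod_cod, cod_dcod⟩

instance : Denumerable (Tm ℕ ℕ) := Denumerable.ofEquiv ℕ codEquiv

instance : Primcodable (Tm ℕ ℕ) := Primcodable.ofDenumerable _

theorem encode_tm (t : Tm ℕ ℕ) : Encodable.encode t = cod t := rfl

theorem prim_var : Primrec (fun y : ℕ => (.var y : Tm ℕ ℕ)) := by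
  refine Primrec.encode_iff.1 ?_
  exact Primrec.nat_mul.comp (Primrec.const 3) Primrec.id

theorem prim_mul : Primrec₂ (fun a b : Tm ℕ ℕ => a.mul b) := by
  refine Primrec.encode_iff.1 ?_
  refine Primrec.nat_add.comp (Primrec.nat_mul.comp (Primrec.const 3) ?_) (Primrec.const 1)
  exact Primrec₂.natPair.comp (Primrec.encode.comp Primrec.fst) (Primrec.encode.comp Primrec.snd)

theorem prim_bin {β : Type} [Primcodable β] {f : β → ℕ} {g h : β → Tm ℕ ℕ} (hf : Primrec f) (hg : Primrec g)
    (hh : Primrec h) : Primrec (fun x => Tm.bin (f x) (g x) (h x)) := by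
  refine Primrec.encode_iff.1 ?_
  refine Primrec.nat_add.comp (Primrec.nat_mul.comp (Primrec.const 3) ?_) (Primrec.const 2)
  exact Primrec₂.natPair.comp hf (Primrec₂.natPair.comp (Primrec.encode.comp hg) (Primrec.encode.comp hh))

end Pool.Agent.DD
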