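import Pool.Agent.DD.BdAt

set_option autoImplicit false

/-! # DD package RB: bisimulations pass to prefixes (6.1) of /team-store/DD_Proof.md -/

namespace Pool.Agent.DD

variable {Y J : Type}

/-- Stripping the layers. -/
theorem bisim_eps {R : El Y J → El Y J → Prop} (hR : Bisim R) {E E' : El Y J} (h : R E E') :
    ∃ y, R (eps E • El.var y) (eps E' • El.var y) := by
  have key : ∀ (m : Mon Y J) (y : Y) (l : List (J × El Y J)) (E' : El Y J), R (asmL m y l) E' →
      ∃ y, R (m • El.var y) (eps E' • El.var y) := by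
    intro m y l
    induction l with
    | nil =>
      intro E' h
      have h' : R (m • El.var y) E' := h
      rcases var_or_bin E' with ⟨m', y', rfl⟩ | ⟨j, z, w, rfl⟩
      · have h2 := hR.b4 h'
        subst h2
        refine ⟨y, ?_⟩
        rw [eps_smul_var]
        exact h'
      · exact absurd h' hR.b3
    | cons p l ih =>
      intro E' h
      have h' : R (.bin p.1 (asmL m y l) p.2) E' := h
      rcases var_or_bin E' with ⟨m', y', rfl⟩ | ⟨j, z, w, rfl⟩
      · exact absurd h' hR.b3'
      · rw [eps_bin]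
        exact ih z (hR.b2 h').2.1
  refine key (eps E) (lab E).1 (lab E).2 E' ?_
  have h2 : asmL (eps E) (lab E).1 (lab E).2 = E := asm_eps_lab E
  rw [h2]
  exact h

/-- (6.1) Induction on `T`. -/
theorem rb {R : El Y J → El Y J → Prop} (hR : Bisim R) {m m' : Mon Y J} {T : TT} {E E' : El Y J}
    (h : Bd m T E) (h' : Bd m' T E') (hm : piM m = piM m') (hE : R E E') :
    (∀ v ∈ Pos T, R (At E (piM m * v)) (At E' (piM m * v))) ∧ ∃ y, R (m • El.var y) (m' • El.var y) := by
  induction T generalizing m m' E E' with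
  | var u =>
    have h1 : eps E = m := h
    have h1' : eps E' = m' := h'
    constructor
    · intro v hv
      have hv' : v = 1 := hv
      have e1 : piM m * v = kap E := by rw [hv', mul_one, kap, h1]
      have e2 : piM m * v = kap E' := by rw [hv', mul_one, kap, h1', hm]
      have e3 : At E (piM m * v) = E := by rw [e1]; exact at_kap E
      have e4 : At E' (piM m * v) = E' := by rw [e2]; exact at_kap E'
      rw [e3, e4]
      exact hE
    · rw [← h1, ← h1']
      exact bisim_eps hR hE
  | mul A B ihA ihB =>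
    obtain ⟨E1, h1, h2⟩ := h
    obtain ⟨E1', h1', h2'⟩ := h'
    have e1 : kap E1 = kap E1' := by rw [bd_kap h1, bd_kap h1', hm]
    have e2 : pi E1 = pi E1' := by rw [pi_eq_kap_smul, pi_eq_kap_smul, e1]
    have e3 : piM (gen E1 * m) = piM (gen E1' * m') := by
      rw [map_mul, map_mul, piM_gen, piM_gen, e2, hm]
    obtain ⟨h3, y, h4⟩ := ihB h2 h2' e3 hE
    rw [mul_smul, mul_smul, gen_smul, gen_smul] at h4
    obtain ⟨h5, h6⟩ := hR.b5 h4 e2
    refine ⟨?_, y, h6⟩
    obtain ⟨h7, -⟩ := ihA h1 h1' hm h5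
    rintro v (hv | ⟨q, hq, rfl⟩)
    · have e4 : At E (piM m * v) = At E1 (piM m * v) := bd_at_left h1 h2 hv
      have e5 : At E' (piM m * v) = At E1' (piM m * v) := by
        rw [hm]
        exact bd_at_left h1' h2' hv
      rw [e4, e5]
      exact h7 v hv
    · have e6 : piM m * (gen (cls A) * q) = piM (gen E1 * m) * q := bd_pos_right h1 q
      have h8 := h3 q hq
      rw [← e6] at h8
      exact h8
  | bin j A B _ _ => exact j.elim

theorem bisim_kap {R : El Y J → El Y J → Prop} (hR : Bisim R) {E E' : El Y J} (h : R E E') : kap E = kap E' := by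
  rw [kap_eq_eps_pi, kap_eq_eps_pi, hR.b1 h]

theorem rb_at {R : El Y J → El Y J → Prop} (hR : Bisim R) {E E' : El Y J} {p : PP} (hE : R E E') (hp : p ≤ kap E) :
    R (At E p) (At E' p) := by
  obtain ⟨T0, hT⟩ := kT_surj (kap E)
  obtain ⟨N1, h1⟩ := bd_large E hT
  obtain ⟨N2, h2⟩ := bd_large E' (hT.trans (bisim_kap hR hE))
  have hp' : p ≤ kT T0 := by rw [hT]; exact hp
  obtain ⟨N3, h3⟩ := exists_mem_pos hp'
  have h4 := (rb hR (h1 (N1 + N2 + N3) (by omega)) (h2 (N1 + N2 + N3) (by omega)) rfl hE).1 p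
    (h3 (N1 + N2 + N3) (by omega))
  rw [map_one, one_mul] at h4
  exact h4

theorem bisim_smul {R : El Y J → El Y J → Prop} (hR : Bisim R) {m : Mon Y J} {s t : El Y J}
    (h : R (m • s) (m • t)) : R s t := by
  induction m using Mon.ind with
  | h1 =>
    rw [one_smul, one_smul] at h
    exact h
  | h2 a m ih =>
    rw [mul_smul, mul_smul, gen_smul, gen_smul] at h
    exact ih (hR.b5 h rfl).2

end Pool.Agent.DD
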