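import Pool.Agent.DD.LevF
import Pool.Agent.DD.RB

set_option autoImplicit false

/-! # DD package Core1: (6.3) of /team-store/DD_Proof.md -/

namespace Pool.Agent.DD

variable {Y J : Type}

/-- `Top(D)` -/
def TopD (R : El Y J → El Y J → Prop) (D : ℕ) : Prop :=
  ∀ e e' : El Y J, eps e = eps e' → R e e' → Good (Lev D) e → Good (Lev D) e' → e = e'

/-- `S(D)` -/
def SD (R : El Y J → El Y J → Prop) (D : ℕ) : Prop :=
  ∀ (C C' : Mon Y J) (s1 s1' s s' : El Y J), Lev D s1 → Lev D s1' → Lev D s → Lev D s' →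
    C • s1 = C' • s1' → R (C • s) (C' • s') → C • s = C' • s'

/-- `C2(D)` -/
def C2D (R : El Y J → El Y J → Prop) (D : ℕ) : Prop :=
  ∀ E E' : El Y J, Lev D E → Lev D E' → R E E' → E = E'

/-- Induction on `Good (Lev D) e`. -/
theorem top_of_S {R : El Y J → El Y J → Prop} (hR : Bisim R) {D : ℕ} (h : SD R D) : TopD R D := by
  intro e e' heps hRe hg hg'
  induction hg generalizing e' with
  | var m y =>
    cases hg' with
    | var m' y' =>
      rw [eps_smul_var, eps_smul_var] at heps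
      rw [heps, hR.b4 hRe]
    | bin j' C' s' t' _ hz' hw' hs' ht' => exact (hR.b3 hRe).elim
  | @bin z w j C s t _ hz hw hs ht ih =>
    cases hg' with
    | var m' y' => exact (hR.b3' hRe).elim
    | @bin z' w' j' C' s' t' hgz' hz' hw' hs' ht' =>
      obtain ⟨rfl, h1, h2⟩ := hR.b2 hRe
      rw [eps_bin, eps_bin] at heps
      have h3 : z = z' := ih z' heps h1 hgz'
      have h4 : C • s = C' • s' := by rw [← hz, ← hz', h3]
      have h5 : C • t = C' • t' := h C C' s s' t t' hs hs' ht ht' h4 (by rwa [← hw, ← hw'])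
      rw [h3, hw, hw', h5]

/-- Common tree: `lev_large` for both with the same `T0`; first exception `first_exc`; `f4`, `rb`. -/
theorem C2_of_top {R : El Y J → El Y J → Prop} (hR : Bisim R) {D : ℕ} (h : TopD R D) : C2D R (D + 1) := by
  intro E E' hE hE' hRE
  obtain ⟨T0, hT0⟩ := bd_exists E
  have hk : kT T0 = kap E := by rw [bd_kap hT0, map_one, one_mul]
  have hkk : kap E = kap E' := bisim_kap hR hRE
  obtain ⟨N1, hN1⟩ := lev_large hE hk
  obtain ⟨N2, hN2⟩ := lev_large hE' (hk.trans hkk)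
  obtain ⟨h1, h2⟩ := hN1 (max N1 N2) (le_max_left _ _)
  obtain ⟨h3, h4⟩ := hN2 (max N1 N2) (le_max_right _ _)
  by_contra hne
  have hkT : kT (dd^[max N1 N2] T0) = kap E := by rw [bd_kap h1, map_one, one_mul]
  obtain ⟨q, hq, hq1, hq2⟩ := first_exc (pos_finite (dd^[max N1 N2] T0))
    (Q := fun p => At E p = At E' p) ⟨kT (dd^[max N1 N2] T0), kT_mem_pos _, fun h5 => hne (by
      have h6 : At E (kT (dd^[max N1 N2] T0)) = At E' (kT (dd^[max N1 N2] T0)) := h5
      rwa [hkT, at_kap, hkk, at_kap] at h6)⟩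
  apply hq1
  refine h _ _ ?_ (rb_at hR hRE (by rw [← hkT]; exact le_kT hq)) (h2 q hq) (h4 q hq)
  have h5 := f4 h1 h3 hq (fun u hu huq => by
    rw [map_one, one_mul]
    exact hq2 u hu huq)
  rwa [map_one, one_mul] at h5

theorem bisim_flip {R : El Y J → El Y J → Prop} (hR : Bisim R) : Bisim (fun a b => R b a) := by
  exact
    { b1 := fun h => (hR.b1 h).symm
      b2 := fun h => ⟨(hR.b2 h).1.symm, (hR.b2 h).2⟩
      b3 := fun h => hR.b3' h
      b3' := fun h => hR.b3 h
      b4 := fun h => (hR.b4 h).symm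
      b5 := fun h h' => hR.b5 h h'.symm }

theorem top_flip {R : El Y J → El Y J → Prop} {D : ℕ} (h : TopD R D) : TopD (fun a b => R b a) D := by
  intro e e' h1 h2 h3 h4
  exact (h e' e h1.symm h2 h4 h3).symm

end Pool.Agent.DD
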