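import Pool.Agent.DD.Core1
import Pool.Agent.DD.BldF

set_option autoImplicit false

/-! # DD package Core2: step 1 of (6.4) of /team-store/DD_Proof.md -/

namespace Pool.Agent.DD

variable {Y J : Type}

/-- For two trees with the same end there is a common expansion. -/
theorem common_tree {S S' : TT} (h : kT S = kT S') : ∃ W, Exp S W ∧ Exp S' W ∧ kT W = kT S := by
  obtain ⟨W, h1, h2⟩ := common_exp (cls_eq_of_kT h)
  exact ⟨W, h1, h2, kT_exp h1⟩

/-- For finitely many elements with the same end there is a common tree; here two. -/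
theorem common_bd {E E' : El Y J} (h : kap E = kap E') : ∃ T : TT, Bd 1 T E ∧ Bd 1 T E' := by
  obtain ⟨T, hT⟩ := bd_exists E
  obtain ⟨T', hT'⟩ := bd_exists E'
  have h1 := bd_kap hT
  have h2 := bd_kap hT'
  rw [map_one, one_mul] at h1 h2
  obtain ⟨W, hW, hW', -⟩ := common_tree (S := T) (S' := T') (by rw [← h1, ← h2, h])
  exact ⟨W, bd_exp hW hT, bd_exp hW' hT'⟩

/-- A tree for `C`, and a tree for the prefixes at `piM C * A`. -/
private theorem core2_setup {C : Mon Y J} {s1 s : El Y J} {A : PP} (hA1 : A ≤ kap s1)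
    (hA : A ≤ kap s) : ∃ (S Z : TT) (z0 : El Y J), Bd 1 S z0 ∧ eps z0 = C ∧
      Bd C Z (At (C • s) (piM C * A)) ∧ Bd C Z (At (C • s1) (piM C * A)) ∧
      kT (graft Z S) = piM C * A := by
  obtain ⟨Z, hZ, hZ1⟩ := common_bd (E := At s A) (E' := At s1 A) (by rw [kap_at hA, kap_at hA1])
  obtain ⟨S, hS⟩ := bd_exists (C • (El.var (lab s).1 : El Y J))
  have hk := bd_kap hS
  have hkZ := bd_kap hZ
  rw [map_one, one_mul] at hk hkZ
  rw [kap_smul, kap_var, mul_one] at hk
  rw [kap_at hA] at hkZ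
  refine ⟨S, Z, _, hS, eps_smul_var _ _, ?_, ?_, ?_⟩
  · have := bd_smul C hZ
    rwa [mul_one, ← at_smul C hA] at this
  · have := bd_smul C hZ1
    rwa [mul_one, ← at_smul C hA1] at this
  · rw [kT_graft, ← hk, ← hkZ]

/-- The case of step 1 in which `piM C` divides the position. -/
private theorem core2_dv {R : El Y J → El Y J → Prop} (hR : Bisim R) {D : ℕ} (h2 : C2D R (D + 1))
    {C : Mon Y J} {s1 s E' : El Y J} (hs1 : Lev (D + 1) s1) (hs : Lev (D + 1) s)
    (hE : R (C • s) E') {A v : PP} (hA1 : A ≤ kap s1) (hA : A ≤ kap s) (hv : v < A)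
    (hp : At E' (piM C * v) = At (C • s1) (piM C * v)) :
    At (C • s) (piM C * v) = At (C • s1) (piM C * v) := by
  have hv1 : v ≤ kap s1 := hv.le.trans hA1
  have hvs : v ≤ kap s := hv.le.trans hA
  have hle : piM C * v ≤ kap (C • s) := by
    rw [kap_smul]
    exact mul_le_iff.2 hvs
  have h3 := rb_at hR hE hle
  rw [hp, at_smul C hvs, at_smul C hv1] at h3
  rw [at_smul C hvs, at_smul C hv1,
    h2 _ _ (lev_at hs hvs) (lev_at hs1 hv1) (bisim_smul hR h3)]

/-- STEP 1. `S`: `Bd 1 S (C.y)`-like tree for `C` (take `z0 := C • var y`, `y` from a leaf of `s`), `ZA` a common tree of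
`At s A`, `At s1 A`, the same with primes, `W` a common expansion of `graft ZA S`, `graft ZA' S'`; first exception below
`L` in `Pos W` of the statement `At E p = At e p ∧ At E' p = At e p`; then `f4` at `L = kT W` for `At E L`, `At e L`, `At E' L`. -/
theorem step1 {R : El Y J → El Y J → Prop} (hR : Bisim R) {D : ℕ} (h2 : C2D R (D + 1)) {C C' : Mon Y J}
    {s1 s1' s s' : El Y J} (hs1 : Lev (D + 1) s1) (hs1' : Lev (D + 1) s1') (hs : Lev (D + 1) s)
    (hs' : Lev (D + 1) s') (he : C • s1 = C' • s1') (hE : R (C • s) (C' • s')) {L A A' : PP}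
    (hL : L = piM C * A) (hL' : L = piM C' * A') (hlcm : ∀ p, Dv (piM C) p → Dv (piM C') p → Dv L p)
    (hA1 : A ≤ kap s1) (hA1' : A' ≤ kap s1') (hA : A ≤ kap s) (hA' : A' ≤ kap s') :
    eps (At (C • s) L) = eps (At (C' • s') L) := by
  obtain ⟨S, Z, z0, hS, hz0, hZ, hZ1, hk⟩ := core2_setup (C := C) hA1 hA
  obtain ⟨S', Z', z0', hS', hz0', hZ', hZ1', hk'⟩ := core2_setup (C := C') hA1' hA'
  rw [← hL] at hZ hZ1 hk
  rw [← hL'] at hZ' hZ1' hk'
  obtain ⟨W, hW, hW', hkW⟩ := common_tree (S := graft Z S) (S' := graft Z' S') (by rw [hk, hk'])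
  rw [hk] at hkW
  have hLE : L ≤ kap (C • s) := by
    rw [kap_smul, hL]
    exact mul_le_iff.2 hA
  have hLe : L ≤ kap (C • s1) := by
    rw [kap_smul, hL]
    exact mul_le_iff.2 hA1
  have hLE' : L ≤ kap (C' • s') := by
    rw [kap_smul, hL']
    exact mul_le_iff.2 hA'
  have hB1 : Bd 1 W (At (C • s) L) := bd_exp hW (bd_graft hS hz0 hZ)
  have hB3 : Bd 1 W (At (C' • s') L) := bd_exp hW' (bd_graft hS' hz0' hZ')
  have key : ∀ p ∈ Pos W, p < L →
      At (At (C • s) L) p = At (At (C • s1) L) p ∧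
        At (At (C' • s') L) p = At (At (C • s1) L) p := by
    by_contra hcon
    push Not at hcon
    obtain ⟨p0, hp0, hp0L, hp0n⟩ := hcon
    obtain ⟨p, hp, hpn, hpq⟩ := first_exc (pos_finite W)
      (Q := fun p => p < L → At (At (C • s) L) p = At (At (C • s1) L) p ∧
        At (At (C' • s') L) p = At (At (C • s1) L) p)
      ⟨p0, hp0, fun h => hp0n (h hp0L).1 (h hp0L).2⟩
    have hpL : p < L := by
      by_contra h
      exact hpn fun h' => absurd h' h
    have hpn' : ¬ (At (At (C • s) L) p = At (At (C • s1) L) p ∧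
        At (At (C' • s') L) p = At (At (C • s1) L) p) := fun h => hpn fun _ => h
    have hag1 : ∀ q ∈ Pos W, q < p → At (At (C • s) L) q = At (At (C • s1) L) q :=
      fun q hq hqp => (hpq q hq hqp (hqp.trans hpL)).1
    have hag3 : ∀ q ∈ Pos W, q < p → At (At (C' • s') L) q = At (At (C • s1) L) q :=
      fun q hq hqp => (hpq q hq hqp (hqp.trans hpL)).2
    have d1 : ¬ Dv (piM C) p → At (At (C • s) L) p = At (At (C • s1) L) p := fun hd =>
      det hS hz0 hZ hZ1 hW hp hd hag1
    have d3 : ¬ Dv (piM C') p → At (At (C' • s') L) p = At (At (C • s1) L) p := fun hd => by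
      rw [he] at hag3 ⊢
      exact det hS' hz0' hZ' hZ1' hW' hp hd hag3
    have e1 : At (At (C • s) L) p = At (C • s) p := at_at hpL.le hLE
    have e2 : At (At (C • s1) L) p = At (C • s1) p := at_at hpL.le hLe
    have e3 : At (At (C' • s') L) p = At (C' • s') p := at_at hpL.le hLE'
    by_cases hd : Dv (piM C) p
    · by_cases hd' : Dv (piM C') p
      · obtain ⟨c, hc⟩ := hlcm p hd hd'
        rw [hc] at hpL
        exact absurd hpL (not_lt.2 (le_mul_r _ _))
      · have h3 := d3 hd'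
        refine hpn' ⟨?_, h3⟩
        rw [e3, e2] at h3
        rw [e1, e2]
        obtain ⟨v, rfl⟩ := hd
        rw [hL] at hpL
        exact core2_dv hR h2 hs1 hs hE hA1 hA (mul_lt_iff.1 hpL) h3
    · have h1 := d1 hd
      by_cases hd' : Dv (piM C') p
      · refine hpn' ⟨h1, ?_⟩
        rw [e1, e2] at h1
        rw [e3, e2]
        obtain ⟨v, rfl⟩ := hd'
        rw [hL'] at hpL
        rw [he] at h1 ⊢
        exact core2_dv (bisim_flip hR) (C := C') (s1 := s1') (s := s') (E' := C • s)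
          (fun E E' hEl hEl' h => (h2 E' E hEl' hEl h).symm)
          hs1' hs' hE hA1' hA' (mul_lt_iff.1 hpL) h1
      · exact hpn' ⟨h1, d3 hd'⟩
  have hkL : L ∈ Pos W := by
    rw [← hkW]
    exact kT_mem_pos W
  have hf := f4 hB1 hB3 hkL (fun u hu huL => by
    rw [map_one, one_mul]
    have := key u hu huL
    rw [this.1, this.2])
  rw [map_one, one_mul, at_at le_rfl hLE, at_at le_rfl hLE'] at hf
  exact hf

end Pool.Agent.DD
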