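import Pool.Agent.DD.Core1
import Pool.Agent.DD.BldF

set_option autoImplicit false

/-! # DD package Core3: the CLAIM in step 2 of (6.4) of /team-store/DD_Proof.md -/

namespace Pool.Agent.DD

variable {Y J : Type}

/-- CLAIM. Choose `n` with `y ∈ Pos (dd^[n] Z')`, `Z'' := dd^[n] Z'`; `s`, `sA` are in `Bd 1 Z''` (`bd_graft` for `sA`:
`Bd 1 ZA (At s A)`, `eps (At s A) = al`). If `At s y ≠ At sA y`, let `y1 ≤ y` be the first exception in `Pos Z''` (restricted to
`≤ y`); `R (At s y1) (At sA y1)` (`rb_at`, `at_at`), the same `eps` (`f4`). `y1 < A`: both prefixes are those of an element with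
`eps = al` (`bd_at_lt`, `at_at`, `at_congr`). `y1 = A * v1`, `v1 ∈ Pos b2`: the same label (`El.ext_iff'`). Otherwise `y1` is new
over `graft b2 ZA` (`pos_graft`; positions of `ZA` are `≤ A`): `tr_exp`, `Good (Lev D) (At sA y1)` by `good_smul` (`gen_smul`), and
`Good (Lev D) (At s y1)` by `lev_good`: `TopD`. -/
theorem claim {R : El Y J → El Y J → Prop} (hR : Bisim R) {D : ℕ} (hTop : TopD R D) {s sA : El Y J}
    (hs : Lev (D + 1) s) {A : PP} (hA : A ≤ kap s) {al : Mon Y J} (hal : al = eps (At s A)) {ZA b2 Z' : TT}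
    (hZA : Bd 1 ZA (At s A)) (hsA : Bd al b2 sA) (hk : kap sA = kap s)
    (hlab : ∀ v ∈ Pos b2, lab (At sA (A * v)) = lab (At s (A * v)))
    (hZ : Exp (graft b2 ZA) Z') (hsZ : Bd 1 Z' s) {y : PP} (hy : y ≤ kap s) (hRy : R (At s y) (At sA y)) :
    At s y = At sA y := by
  have hkZ : kT Z' = kap s := by
    have h := bd_kap hsZ
    rw [map_one, one_mul] at h
    exact h.symm
  obtain ⟨N, hN⟩ := exists_mem_pos (T := Z') (p := y) (by rw [hkZ]; exact hy)
  have hyZ := hN N le_rfl
  have hsZ2 : Bd 1 (dd^[N] Z') s := bd_exp (exp_self_dd_iter N Z') hsZ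
  have hexp : Exp (graft b2 ZA) (dd^[N] Z') := hZ.trans (exp_self_dd_iter N Z')
  have hsAg : Bd 1 (graft b2 ZA) sA := bd_graft hZA hal.symm hsA
  have hsAZ : Bd 1 (dd^[N] Z') sA := bd_exp hexp hsAg
  have hkA : kap (At s A) = A := kap_at hA
  have hkZA : kT ZA = A := by
    have h := bd_kap hZA
    rw [map_one, one_mul] at h
    rw [← h, hkA]
  have hpal : piM al = A := by rw [hal]; exact hkA
  have key : ∀ p ∈ Pos (dd^[N] Z'), p ≤ y → At s p = At sA p := by
    refine fin_ind (pos_finite _) fun p hp ih hpy => ?_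
    have hag : ∀ q ∈ Pos (dd^[N] Z'), q < p → At s q = At sA q :=
      fun q hq hqp => ih q hq hqp (hqp.le.trans hpy)
    have hps : p ≤ kap s := hpy.trans hy
    have hysA : y ≤ kap sA := by rw [hk]; exact hy
    have heps : eps (At s p) = eps (At sA p) := by
      have h := f4 hsZ2 hsAZ hp (fun u hu huv => by
        rw [map_one, one_mul]
        exact hag u hu huv)
      rw [map_one, one_mul] at h
      exact h
    have hRp : R (At s p) (At sA p) := by
      have h := rb_at hR hRy (p := p) (by rw [kap_at hy]; exact hpy)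
      rw [at_at hpy hy, at_at hpy hysA] at h
      exact h
    rcases lt_or_ge p A with hpA | hpA
    · rw [bd_at_lt hsA hal.symm (by rw [hpal]; exact hpA), at_at hpA.le hA]
    · by_cases hn : p ∈ Pos (graft b2 ZA)
      · have hv : ∃ v ∈ Pos b2, p = A * v := by
          rw [pos_graft] at hn
          rcases hn with hn | ⟨v, hv, rfl⟩
          · have h1 : p ≤ A := by rw [← hkZA]; exact le_kT hn
            exact ⟨1, one_mem_pos _, by rw [mul_one]; exact le_antisymm h1 hpA⟩
          · exact ⟨v, hv, by rw [hkZA]⟩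
        obtain ⟨v, hv, rfl⟩ := hv
        exact El.ext_iff'.2 ⟨heps, (hlab v hv).symm⟩
      · obtain ⟨v0, v1, h0, _, h01, h1v, hE⟩ := tr_exp (Y := Y) (J := J) hexp hp hn
        have h2 := hE 1 sA hsAg
        rw [map_one, one_mul, one_mul, one_mul, ← hag v0 h0 (h01.trans h1v)] at h2
        have hg : Good (Lev D) (At sA p) := by
          rw [h2, ← gen_smul]
          exact good_smul _ (lev_good hs ((h01.trans h1v).le.trans hps))
        exact hTop _ _ heps hRp (lev_good hs hps) hg
  exact key y hyZ le_rfl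

end Pool.Agent.DD
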