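import Pool.Agent.DD.Core2
import Pool.Agent.DD.Core3
import Pool.Agent.DD.BlkI

set_option autoImplicit false

/-! # DD package Core4: step 2 of (6.4) of /team-store/DD_Proof.md -/

namespace Pool.Agent.DD

variable {Y J : Type}

/-- One side of the third case. -/
private theorem core4_side {R : El Y J → El Y J → Prop} (hR : Bisim R) {D : ℕ} (hTop : TopD R D)
    {C : Mon Y J} {s sA z0 : El Y J} (hs : Lev (D + 1) s) {A : PP} (hA : A ≤ kap s)
    {S ZA b2 Z T2 : TT} (hS : Bd 1 S z0) (hz : eps z0 = C) (hZA : Bd 1 ZA (At s A))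
    (hsA : Bd (eps (At s A)) b2 sA) (hk : kap sA = kap s)
    (hlab : ∀ v ∈ Pos b2, lab (At sA (A * v)) = lab (At s (A * v)))
    (hZ : Exp (graft b2 ZA) Z) (hsZ : Bd 1 Z s) (hX : Exp (graft Z S) T2) {p : PP} (hp : p ∈ Pos T2)
    (hag : ∀ q ∈ Pos T2, q < p → At (C • s) q = At (C • sA) q)
    (hRp : Dv (piM C) p → R (At (C • s) p) (At (C • sA) p)) :
    At (C • s) p = At (C • sA) p := by
  have hsAZ : Bd 1 Z sA := bd_exp hZ (bd_graft hZA rfl hsA)
  have h1 : Bd C Z (C • s) := by
    have h := bd_smul C hsZ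
    rwa [mul_one] at h
  have h2 : Bd C Z (C • sA) := by
    have h := bd_smul C hsAZ
    rwa [mul_one] at h
  by_cases hd : Dv (piM C) p
  · have h3 := hRp hd
    obtain ⟨y, rfl⟩ := hd
    have hT2 : Bd 1 T2 (C • s) := bd_exp hX (bd_graft hS hz h1)
    have hle : piM C * y ≤ kap (C • s) := by
      have h := bd_le hT2 hp
      rwa [map_one, one_mul] at h
    rw [kap_smul, mul_le_iff] at hle
    have hle' : y ≤ kap sA := by rwa [hk]
    rw [at_smul C hle, at_smul C hle'] at h3 ⊢
    rw [claim hR hTop hs hA rfl hZA hsA hk hlab hZ hsZ hle (bisim_smul hR h3)]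
  · exact det hS hz h1 h2 hX hp hd hag

/-- The tree of the prefix `C`. -/
private theorem core4_tree (C : Mon Y J) (y : Y) :
    ∃ S : TT, Bd 1 S (C • (El.var y : El Y J)) ∧ kT S = piM C := by
  obtain ⟨S, hS⟩ := bd_exists (C • (El.var y : El Y J))
  have h := bd_kap hS
  rw [kap_smul, kap_var, mul_one, map_one, one_mul] at h
  exact ⟨S, hS, h.symm⟩

/-- The tree of the prefix of `s` at `A`. -/
private theorem core4_ZA {s : El Y J} {A : PP} (hA : A ≤ kap s) :
    ∃ ZA : TT, Bd 1 ZA (At s A) ∧ kT ZA = A := by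
  obtain ⟨ZA, hZA⟩ := bd_exists (At s A)
  have h := bd_kap hZA
  rw [kap_at hA, map_one, one_mul] at h
  exact ⟨ZA, hZA, h.symm⟩

/-- The expansion of (ii). -/
private theorem core4_exp {S ZA W : TT} (N : ℕ) (b : TT) (hW : Exp (graft ZA S) W) :
    Exp (graft (dd^[N] (graft b ZA)) S) (dd^[N] (sbs W b)) := by
  refine (graft_exp_dd N S (graft b ZA)).trans (exp_dd_iter N ?_)
  rw [← graft_graft]
  exact (graft_exp hW (Exp.refl b)).trans (graft_exp_sbs W b)

/-- The label part of the second case. -/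
private theorem core4_lab {C : Mon Y J} {s sA : El Y J} {A v : PP} (h1 : A * v ≤ kap s)
    (hk : kap sA = kap s) (hlab : lab (At sA (A * v)) = lab (At s (A * v)))
    (he : eps (At (C • s) (piM C * (A * v))) = eps (At (C • sA) (piM C * (A * v)))) :
    At (C • s) (piM C * (A * v)) = At (C • sA) (piM C * (A * v)) := by
  refine El.ext_iff'.2 ⟨he, ?_⟩
  have h2 : A * v ≤ kap sA := by rwa [hk]
  rw [at_smul C h1, at_smul C h2, lab_smul, lab_smul, hlab]

/-- STEP 2, with all data given. Trees: `S` for `C` (`z0`), `ZA` for `At s A`, primes, `W` a common expansion of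
`graft ZA S` and `graft ZA' S'`, `b2 = dd^[N] b`. Claim: for all `p ∈ Pos (dd^[N] (sbs W b))`:
`At E p = At EL p ∧ At E' p = At EL p ∧ At EL' p = At EL p`, where `E = C • s`, `E' = C' • s'`, `EL = C • sA`, `EL' = C' • sA'`,
`sA = bld (fun p => lab (At s p)) al b2`. First exception; cases as in (6.4). -/
theorem step2 {R : El Y J → El Y J → Prop} (hR : Bisim R) {D : ℕ} (hTop : TopD R D) {C C' : Mon Y J}
    {s s' : El Y J} (hs : Lev (D + 1) s) (hs' : Lev (D + 1) s') (hE : R (C • s) (C' • s')) {L A A' be : PP}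
    (hL : L = piM C * A) (hL' : L = piM C' * A') (hlcm : ∀ p, Dv (piM C) p → Dv (piM C') p → Dv L p)
    (hA : kap s = A * be) (hA' : kap s' = A' * be)
    (hn : C * eps (At s A) = C' * eps (At s' A')) : C • s = C' • s' := by
  have hAs : A ≤ kap s := by
    rw [hA]
    exact le_mul_r _ _
  have hAs' : A' ≤ kap s' := by
    rw [hA']
    exact le_mul_r _ _
  have hpal : piM (eps (At s A)) = A := kap_at hAs
  have hpal' : piM (eps (At s' A')) = A' := kap_at hAs'
  obtain ⟨S, hS, hkS⟩ := core4_tree C (lab s).1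
  obtain ⟨S', hS', hkS'⟩ := core4_tree C' (lab s).1
  have hz : eps (C • (El.var (lab s).1 : El Y J)) = C := eps_smul_var _ _
  have hz' : eps (C' • (El.var (lab s).1 : El Y J)) = C' := eps_smul_var _ _
  obtain ⟨ZA, hZA, hkZA⟩ := core4_ZA hAs
  obtain ⟨ZA', hZA', hkZA'⟩ := core4_ZA hAs'
  obtain ⟨W, hW, hW', hkW⟩ := common_tree (S := graft ZA S) (S' := graft ZA' S') (by
    rw [kT_graft, kT_graft, hkS, hkS', hkZA, hkZA', ← hL, ← hL'])
  rw [kT_graft, hkS, hkZA, ← hL] at hkW
  obtain ⟨b, hb⟩ := kT_surj be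
  have hkZ : kT (graft b ZA) = kap s := by rw [kT_graft, hkZA, hb, hA]
  have hkZ' : kT (graft b ZA') = kap s' := by rw [kT_graft, hkZA', hb, hA']
  obtain ⟨N1, hN1⟩ := bd_large s hkZ
  obtain ⟨N2, hN2⟩ := bd_large s' hkZ'
  obtain ⟨N, hN, hN'⟩ : ∃ N, N1 ≤ N ∧ N2 ≤ N := ⟨max N1 N2, le_max_left _ _, le_max_right _ _⟩
  have hsZ := hN1 N hN
  have hsZ' := hN2 N hN'
  have hb2 : kT (dd^[N] b) = be := by rw [kT_dd_iter, hb]
  have hX := core4_exp N b hW
  have hX' := core4_exp N b hW'
  -- the elements `sA`, `sA'`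
  obtain ⟨sA, hsA, hlab⟩ : ∃ sA : El Y J, Bd (eps (At s A)) (dd^[N] b) sA ∧
      ∀ v ∈ Pos (dd^[N] b), lab (At sA (A * v)) = lab (At s (A * v)) := by
    refine ⟨bld (fun p => lab (At s p)) (eps (At s A)) (dd^[N] b), bd_bld _ _ _, fun v hv => ?_⟩
    have h := lab_bld (fun p => lab (At s p)) (eps (At s A)) (dd^[N] b) hv
    rwa [hpal] at h
  obtain ⟨sA', hsA', hlab'⟩ : ∃ sA' : El Y J, Bd (eps (At s' A')) (dd^[N] b) sA' ∧
      ∀ v ∈ Pos (dd^[N] b), lab (At sA' (A' * v)) = lab (At s' (A' * v)) := by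
    refine ⟨bld (fun p => lab (At s' p)) (eps (At s' A')) (dd^[N] b), bd_bld _ _ _,
      fun v hv => ?_⟩
    have h := lab_bld (fun p => lab (At s' p)) (eps (At s' A')) (dd^[N] b) hv
    rwa [hpal'] at h
  have hksA : kap sA = kap s := by rw [bd_kap hsA, hpal, hb2, hA]
  have hksA' : kap sA' = kap s' := by rw [bd_kap hsA', hpal', hb2, hA']
  have hZ : Exp (graft (dd^[N] b) ZA) (dd^[N] (graft b ZA)) := graft_exp_dd N ZA b
  have hZ' : Exp (graft (dd^[N] b) ZA') (dd^[N] (graft b ZA')) := graft_exp_dd N ZA' b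
  have hsAZ : Bd 1 (dd^[N] (graft b ZA)) sA := bd_exp hZ (bd_graft hZA rfl hsA)
  have hsAZ' : Bd 1 (dd^[N] (graft b ZA')) sA' := bd_exp hZ' (bd_graft hZA' rfl hsA')
  -- all four elements are in `Bd 1 T2`
  have key : ∀ u : El Y J, Bd 1 (dd^[N] (graft b ZA)) u → Bd 1 (dd^[N] (sbs W b)) (C • u) := by
    intro u hu
    have h := bd_smul C hu
    rw [mul_one] at h
    exact bd_exp hX (bd_graft hS hz h)
  have key' : ∀ u : El Y J, Bd 1 (dd^[N] (graft b ZA')) u →
      Bd 1 (dd^[N] (sbs W b)) (C' • u) := by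
    intro u hu
    have h := bd_smul C' hu
    rw [mul_one] at h
    exact bd_exp hX' (bd_graft hS' hz' h)
  have hT : Bd 1 (dd^[N] (sbs W b)) (C • s) := key s hsZ
  have hTA : Bd 1 (dd^[N] (sbs W b)) (C • sA) := key sA hsAZ
  have hT' : Bd 1 (dd^[N] (sbs W b)) (C' • s') := key' s' hsZ'
  have hTA' : Bd 1 (dd^[N] (sbs W b)) (C' • sA') := key' sA' hsAZ'
  -- the element with `eps = n`
  have hAt : At (C • s) L = C • At s A := by rw [hL, at_smul C hAs]
  have hAt' : At (C' • s') L = C' • At s' A' := by rw [hL', at_smul C' hAs']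
  have hLle : L ≤ kap (C • s) := by
    rw [kap_smul, hL, mul_le_iff]
    exact hAs
  have hLle' : L ≤ kap (C' • s') := by
    rw [kap_smul, hL', mul_le_iff]
    exact hAs'
  have hzW : eps (C • At s A) = C * eps (At s A) := eps_smul _ _
  have hzW' : eps (C' • At s' A') = C * eps (At s A) := by rw [eps_smul, ← hn]
  have hpn : piM (C * eps (At s A)) = L := by rw [map_mul, hpal, hL]
  have hBW : Bd 1 W (C • At s A) := by
    have h := bd_smul C hZA
    rw [mul_one] at h
    exact bd_exp hW (bd_graft hS hz h)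
  have hBL : Bd (C * eps (At s A)) (dd^[N] b) (C • sA) := bd_smul C hsA
  have hBL' : Bd (C * eps (At s A)) (dd^[N] b) (C' • sA') := by
    rw [hn]
    exact bd_smul C' hsA'
  have hXW : Exp (graft (dd^[N] b) W) (dd^[N] (sbs W b)) :=
    (graft_exp_dd N W b).trans (exp_dd_iter N (graft_exp_sbs W b))
  -- the claim
  have hclaim : ∀ p ∈ Pos (dd^[N] (sbs W b)), At (C • s) p = At (C • sA) p ∧
      At (C' • s') p = At (C • sA) p ∧ At (C' • sA') p = At (C • sA) p := by
    refine fin_ind (pos_finite _) fun p hp ih => ?_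
    have f4' : ∀ u u' : El Y J, Bd 1 (dd^[N] (sbs W b)) u → Bd 1 (dd^[N] (sbs W b)) u' →
        (∀ q ∈ Pos (dd^[N] (sbs W b)), q < p → At u q = At u' q) →
        eps (At u p) = eps (At u' p) := by
      intro u u' hu hu' hag
      have h := f4 hu hu' hp (fun q hq hqp => by
        rw [map_one, one_mul]
        exact hag q hq hqp)
      rwa [map_one, one_mul] at h
    have hpE : p ≤ kap (C • s) := by
      have h := bd_le hT hp
      rwa [map_one, one_mul] at h
    have hRp : R (At (C • s) p) (At (C' • s') p) := rb_at hR hE hpE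
    have ihL : ∀ q ∈ Pos (dd^[N] (sbs W b)), q < p → At (C • s) q = At (C • sA) q :=
      fun q hq hqp => (ih q hq hqp).1
    have ihL' : ∀ q ∈ Pos (dd^[N] (sbs W b)), q < p → At (C' • s') q = At (C' • sA') q :=
      fun q hq hqp => (ih q hq hqp).2.1.trans (ih q hq hqp).2.2.symm
    have ihLL : ∀ q ∈ Pos (dd^[N] (sbs W b)), q < p → At (C • sA) q = At (C' • sA') q :=
      fun q hq hqp => (ih q hq hqp).2.2.symm
    have ihE : ∀ q ∈ Pos (dd^[N] (sbs W b)), q < p → At (C • s) q = At (C' • s') q :=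
      fun q hq hqp => (ih q hq hqp).1.trans (ih q hq hqp).2.1.symm
    by_cases hpL : p < L
    · have h1 : At (C • s) p = At (C • At s A) p := by rw [← hAt, at_at hpL.le hLle]
      have h2 : At (C' • s') p = At (C • At s A) p := by
        rw [← at_at hpL.le hLle', hAt']
        refine at_congr (hzW'.trans hzW.symm) ?_
        rw [kap, hzW', hpn]
        exact hpL
      have h3 : At (C • sA) p = At (C • At s A) p := bd_at_lt hBL hzW (by rwa [hpn])
      have h4 : At (C' • sA') p = At (C • At s A) p := bd_at_lt hBL' hzW (by rwa [hpn])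
      exact ⟨h1.trans h3.symm, h2.trans h3.symm, h4.trans h3.symm⟩
    · by_cases hd : Dv L p
      · obtain ⟨v, hv, hpv⟩ := niceness hp (by rwa [hkW])
        rw [hkW] at hpv
        have hvb : v ≤ be := by
          rw [← hb2]
          exact le_kT hv
        have hv1 : A * v ≤ kap s := by
          rw [hA, mul_le_iff]
          exact hvb
        have hv1' : A' * v ≤ kap s' := by
          rw [hA', mul_le_iff]
          exact hvb
        have hp1 : p = piM C * (A * v) := by rw [hpv, hL, mul_assoc]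
        have hp1' : p = piM C' * (A' * v) := by rw [hpv, hL', mul_assoc]
        have h1 : At (C • s) p = At (C • sA) p := by
          have he := f4' _ _ hT hTA ihL
          rw [hp1] at he ⊢
          exact core4_lab hv1 hksA (hlab v hv) he
        have h2 : At (C' • s') p = At (C' • sA') p := by
          have he := f4' _ _ hT' hTA' ihL'
          rw [hp1'] at he ⊢
          exact core4_lab hv1' hksA' (hlab' v hv) he
        have h3 : At (C • s) p = At (C' • s') p := by
          refine hTop _ _ (f4' _ _ hT hT' ihE) hRp ?_ ?_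
          · rw [hp1, at_smul C hv1]
            exact good_smul C (lev_good hs hv1)
          · rw [hp1', at_smul C' hv1']
            exact good_smul C' (lev_good hs' hv1')
        exact ⟨h1, h3.symm.trans h1, h2.symm.trans (h3.symm.trans h1)⟩
      · have h1 : At (C • sA) p = At (C' • sA') p :=
          det hBW hzW hBL hBL' hXW hp (by rwa [hpn]) ihLL
        by_cases hP : Dv (piM C') p
        · have hP' : ¬ Dv (piM C) p := fun h => hd (hlcm p h hP)
          have h2 : At (C • s) p = At (C • sA) p :=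
            core4_side hR hTop hs hAs hS hz hZA hsA hksA hlab hZ hsZ hX hp ihL
              fun h => absurd h hP'
          have h3 : At (C' • s') p = At (C' • sA') p :=
            core4_side (bisim_flip hR) (top_flip hTop) hs' hAs' hS' hz' hZA' hsA' hksA' hlab' hZ'
              hsZ' hX' hp ihL' fun _ => by
                show R (At (C' • sA') p) (At (C' • s') p)
                rw [← h1, ← h2]
                exact hRp
          exact ⟨h2, h3.trans h1.symm, h1.symm⟩
        · have h2 : At (C' • s') p = At (C' • sA') p :=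
            core4_side (bisim_flip hR) (top_flip hTop) hs' hAs' hS' hz' hZA' hsA' hksA' hlab' hZ'
              hsZ' hX' hp ihL' fun h => absurd h hP
          have h3 : At (C • s) p = At (C • sA) p :=
            core4_side hR hTop hs hAs hS hz hZA hsA hksA hlab hZ hsZ hX hp ihL fun _ => by
              rw [h1, ← h2]
              exact hRp
          exact ⟨h3, h2.trans h1.symm, h1.symm⟩
  -- the end
  have hkE : kap (C • s) = kT (dd^[N] (sbs W b)) := by
    have h := bd_kap hT
    rwa [map_one, one_mul] at h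
  have hmem : kap (C • s) ∈ Pos (dd^[N] (sbs W b)) := by
    rw [hkE]
    exact kT_mem_pos _
  obtain ⟨h1, h2, -⟩ := hclaim _ hmem
  have h3 : At (C • s) (kap (C • s)) = C • s := at_kap _
  have h4 : At (C' • s') (kap (C • s)) = C' • s' := by
    rw [bisim_kap hR hE]
    exact at_kap _
  rw [← h3, ← h4, h1, h2]

end Pool.Agent.DD
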