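import Pool.Agent.DD.Core4

set_option autoImplicit false

/-! # DD package Core5: the core theorem (6.3), (6.4) of /team-store/DD_Proof.md -/

namespace Pool.Agent.DD

variable {Y J : Type}

private theorem core5_le {A be k : PP} (h : k = A * be) : A ≤ k := by
  rw [h]
  exact le_mul_r _ _

/-- (6.4). `kap e` is a common multiple, `lcm_exists`; `mul_cancel_l`; `step1` and `step2`. -/
theorem S_of_C2 {R : El Y J → El Y J → Prop} (hR : Bisim R) {D : ℕ} (hTop : TopD R D) (h2 : C2D R (D + 1)) :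
    SD R (D + 1) := by
  intro C C' s1 s1' s s' hs1 hs1' hs hs' he hE
  have hk1 : piM C * kap s1 = piM C' * kap s1' := by
    rw [← kap_smul, ← kap_smul, he]
  have hk : piM C * kap s = piM C' * kap s' := by
    rw [← kap_smul, ← kap_smul, bisim_kap hR hE]
  obtain ⟨L, ⟨A, hL⟩, ⟨A', hL'⟩, hlcm⟩ := lcm_exists (a := piM C) (b := piM C')
    (z := piM C * kap s1) ⟨kap s1, rfl⟩ ⟨kap s1', hk1⟩
  obtain ⟨be1, hb1⟩ := hlcm (piM C * kap s1) ⟨kap s1, rfl⟩ ⟨kap s1', hk1⟩
  obtain ⟨be, hb⟩ := hlcm (piM C * kap s) ⟨kap s, rfl⟩ ⟨kap s', hk⟩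
  have a1 : kap s1 = A * be1 := by
    apply mul_cancel_l (m := piM C)
    rw [hb1, hL, mul_assoc]
  have a1' : kap s1' = A' * be1 := by
    apply mul_cancel_l (m := piM C')
    rw [← hk1, hb1, hL', mul_assoc]
  have a2 : kap s = A * be := by
    apply mul_cancel_l (m := piM C)
    rw [hb, hL, mul_assoc]
  have a2' : kap s' = A' * be := by
    apply mul_cancel_l (m := piM C')
    rw [← hk, hb, hL', mul_assoc]
  have h3 := step1 hR h2 hs1 hs1' hs hs' he hE hL hL' hlcm (core5_le a1) (core5_le a1')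
    (core5_le a2) (core5_le a2')
  refine step2 hR hTop hs hs' hE hL hL' hlcm a2 a2' ?_
  have h4 : At (C • s) L = C • At s A := by rw [hL, at_smul C (core5_le a2)]
  have h5 : At (C' • s') L = C' • At s' A' := by rw [hL', at_smul C' (core5_le a2')]
  rw [h4, h5, eps_smul, eps_smul] at h3
  exact h3

theorem SD_all {R : El Y J → El Y J → Prop} (hR : Bisim R) (D : ℕ) : SD R D := by
  induction D with
  | zero =>
    intro C C' s1 s1' s s' hs1
    exact hs1.elim
  | succ D ih => exact S_of_C2 hR (top_of_S hR ih) (C2_of_top hR (top_of_S hR ih))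

/-- THE CORE THEOREM. -/
theorem core {R : El Y J → El Y J → Prop} (hR : Bisim R) {E E' : El Y J} (h : R E E') : E = E' := by
  obtain ⟨D, hD⟩ := lev_all E
  obtain ⟨D', hD'⟩ := lev_all E'
  have h1 : Lev (max D D' + 1) E := lev_mono (lev_mono_le (le_max_left D D') hD)
  have h2 : Lev (max D D' + 1) E' := lev_mono (lev_mono_le (le_max_right D D') hD')
  exact C2_of_top hR (top_of_S hR (SD_all hR (max D D'))) E E' h1 h2 h

end Pool.Agent.DD
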