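import Pool.Agent.DD.El

set_option autoImplicit false

/-! # MP_dd36e8_al: prefixes, the order on `PP`, positions, decompositions (DD_Proof.md, sections 2.5 - 6; definitions) -/

namespace Pool.Agent.DD

variable {Y J : Type}

/-- `Pfx z E`: `z` is a prefix of `E`. -/
inductive Pfx (z : El Y J) : El Y J → Prop
  | refl : Pfx z z
  | mul {u : El Y J} (c : El Y J) : Pfx z u → Pfx z (u.mul c)
  | bin {u : El Y J} (j : J) (w : El Y J) : Pfx z u → Pfx z (.bin j u w)

/-- `Sub z E`: `z` is a proper full prefix of `E`. -/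
def Sub (z E : El Y J) : Prop := ∃ c, Pfx (z.mul c) E

/-- The order of the monoid `PP` (strict). -/
def Lt (p q : PP) : Prop := Sub (p • xF) (q • xF)

/-- The order of the monoid `PP`. -/
def Le (p q : PP) : Prop := Lt p q ∨ p = q

/-- The positions of the leaves of a tree. -/
def Pos : TT → Set PP
  | .var _ => {1}
  | .mul A B => Pos A ∪ (fun q => gen (cls A) * q) '' Pos B
  | .bin j _ _ => j.elim

/-- The decomposition relation: `E` consists of a part with position `m` and of a part of the shape `T`. -/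
def Bd (m : Mon Y J) : TT → El Y J → Prop
  | .var _, E => eps E = m
  | .mul A B, E => ∃ E1, Bd m A E1 ∧ Bd (gen E1 * m) B E
  | .bin j _ _, _ => j.elim

open Classical in
/-- `At E p`: the full prefix of `E` with end position `p` (junk value if there is none). -/
noncomputable def At (E : El Y J) (p : PP) : El Y J :=
  if h : ∃ z, (Sub z E ∨ z = E) ∧ kap z = p then h.choose else E

/-- `p` is in the `L`-block `c`. -/
def InB (L c p : PP) : Prop := c ≠ 1 ∧ Le (tri L c) p ∧ Lt p (L * c)

/-- The class CL of (5.2). -/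
inductive CL (L : PP) : TT → TT → Prop
  | a {W : TT} : Le (kT W) L → CL L W xx
  | b {U V b1 b2 : TT} : CL L U b1 → kT U = L * kT b1 → CL L V b2 → CL L (U.mul V) (b1.mul b2)
  | c {U V b : TT} : CL L U b → Le (tri L (kT b)) (kT U) → Le (kT (U.mul V)) (L * kT b) → CL L (U.mul V) b

/-- The sets Phi_n(L) of (5.4). -/
def Phi (n : ℕ) (L p : PP) : Prop := ∃ W b : TT, kT W = L ∧ p ∈ Pos (dd^[n] (sbs W b))

/-- Finite chains (5.5). -/
inductive FC (p : PP) : PP → Prop
  | lt {L : PP} : Lt p L → FC p L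
  | dv {L : PP} : Dv L p → FC p L
  | bl {L c : PP} : InB L c p → FC p (tri L c) → FC p L

/-- First entry (5.7). -/
def Fst (a p c : PP) : Prop := p = a * c ∨ InB a c p

/-- Bisimulations (6.0). -/
structure Bisim (R : El Y J → El Y J → Prop) : Prop where
  b1 : ∀ {E E'}, R E E' → pi E = pi E'
  b2 : ∀ {j j' z w z' w'}, R (.bin j z w) (.bin j' z' w') → j = j' ∧ R z z' ∧ R w w'
  b3 : ∀ {m : Mon Y J} {y : Y} {j z w}, ¬ R (m • El.var y) (.bin j z w)
  b3' : ∀ {m : Mon Y J} {y : Y} {j z w}, ¬ R (.bin j z w) (m • El.var y)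
  b4 : ∀ {m m' : Mon Y J} {y y' : Y}, R (m • El.var y) (m' • El.var y') → y = y'
  b5 : ∀ {a a' s t}, R (a.mul s) (a'.mul t) → pi a = pi a' → R a a' ∧ R s t

/-- `Good S e`: all layers of `e` come from pairs in `S` (6.2). -/
inductive Good (S : El Y J → Prop) : El Y J → Prop
  | var (m : Mon Y J) (y : Y) : Good S (m • El.var y)
  | bin {z w : El Y J} (j : J) (C : Mon Y J) (s t : El Y J) : Good S z → z = C • s → w = C • t → S s → S t →
      Good S (.bin j z w)

/-- The levels (6.2). -/
def Lev : ℕ → El Y J → Prop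
  | 0, _ => False
  | D + 1, E => ∃ T : TT, Bd 1 T E ∧ ∀ q ∈ Pos T, Good (Lev D) (At E q)

/-- The element with prefix `m`, shape `T` and labels `mu` (6.4). -/
def bld (mu : PP → Lab Y J) (m : Mon Y J) : TT → El Y J
  | .var _ => asm m (mu (piM m))
  | .mul A B => bld mu (gen (bld mu m A) * m) B
  | .bin j _ _ => j.elim

end Pool.Agent.DD
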