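import Pool.Agent.DD.Sig

set_option autoImplicit false

/-! # DD: equality in the free algebra is derivability from the laws -/

namespace Pool.Agent.DD

variable {e f : ℕ} {n : Fin e → ℕ} {m : Fin f → ℕ} {Y : Type}

/-- The term `t(a_1, ..., a_n, x)`. -/
def Trm.ext (t : Fin e) (a : Fin (n t) → Trm n m Y) (x : Trm n m Y) : Trm n m Y :=
  .app (.inl t) (Fin.snoc (α := fun _ => Trm n m Y) a x)

/-- Derivability from the defining identities. -/
inductive Drv : Trm n m Y → Trm n m Y → Prop
  | refl (s : Trm n m Y) : Drv s s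
  | symm {s t : Trm n m Y} : Drv s t → Drv t s
  | trans {s t u : Trm n m Y} : Drv s t → Drv t u → Drv s u
  | congr (h : Sy e f) {x x' : Fin (ar n m h) → Trm n m Y} : (∀ i, Drv (x i) (x' i)) → Drv (.app h x) (.app h x')
  | law (t : Fin e) (a : Fin (n t) → Trm n m Y) (h : Sy e f) (x : Fin (ar n m h) → Trm n m Y) :
      Drv (Trm.ext t a (.app h x)) (.app h fun i => Trm.ext t a (x i))

private theorem snoc_map {k : ℕ} {α β : Type} (g : α → β) (a : Fin k → α) (x : α) :
    (fun i => g (Fin.snoc (α := fun _ => α) a x i)) =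
      Fin.snoc (α := fun _ => β) (fun i => g (a i)) (g x) := by
  funext i
  refine Fin.lastCases ?_ (fun j => ?_) i
  · simp
  · simp

private theorem eval_ext {X : Type} (A : Alg n m X) (v : Y → X) (t : Fin e)
    (a : Fin (n t) → Trm n m Y) (x : Trm n m Y) :
    (Trm.ext t a x).eval A v = A.act t (fun i => (a i).eval A v) (x.eval A v) :=
  congrArg (A (.inl t)) (snoc_map (fun u : Trm n m Y => u.eval A v) a x)

/-- Soundness: induction on `Drv`; the law is `A.PE`. (`eval` of `Fin.snoc`: `Fin.comp_snoc` or
cases `Fin.lastCases`.) -/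
theorem Drv.freeEq {s t : Trm n m Y} (h : Drv s t) : FreeEq s t := by
  intro X A hA v
  induction h with
  | refl s => rfl
  | symm _ ih => exact ih.symm
  | trans _ _ ih ih' => exact ih.trans ih'
  | congr h _ ih => exact congrArg (A h) (funext ih)
  | law t a h x =>
    rw [eval_ext]
    change A.act t _ (A h fun i => (x i).eval A v) = A h fun i => (Trm.ext t a (x i)).eval A v
    rw [hA]
    exact congrArg (A h) (funext fun i => (eval_ext A v t a (x i)).symm)

/-- the setoid -/
private def stD (n : Fin e → ℕ) (m : Fin f → ℕ) (Y : Type) : Setoid (Trm n m Y) where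
  r := Drv
  iseqv := ⟨Drv.refl, Drv.symm, Drv.trans⟩

/-- the class of a term -/
private def cl (s : Trm n m Y) : Quotient (stD n m Y) := Quotient.mk _ s

private theorem cl_eq {s t : Trm n m Y} : cl s = cl t ↔ Drv s t :=
  ⟨fun h => Quotient.exact h, fun h => Quotient.sound h⟩

private theorem cl_out (x : Quotient (stD n m Y)) : cl x.out = x := Quotient.out_eq x

/-- the term model -/
private noncomputable def mdl (n : Fin e → ℕ) (m : Fin f → ℕ) (Y : Type) :
    Alg n m (Quotient (stD n m Y)) :=
  fun h x => cl (.app h fun i => (x i).out)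

private theorem mdl_cl (h : Sy e f) (x : Fin (ar n m h) → Trm n m Y) :
    mdl n m Y h (fun i => cl (x i)) = cl (.app h x) :=
  cl_eq.2 (Drv.congr h fun i => cl_eq.1 (cl_out (cl (x i))))

private theorem mdl_act (t : Fin e) (a : Fin (n t) → Trm n m Y) (x : Trm n m Y) :
    (mdl n m Y).act t (fun i => cl (a i)) (cl x) = cl (Trm.ext t a x) := by
  have h := mdl_cl (Y := Y) (.inl t) (Fin.snoc (α := fun _ => Trm n m Y) a x)
  refine Eq.trans ?_ h
  exact congrArg (mdl n m Y (.inl t)) (snoc_map (fun u : Trm n m Y => cl u) a x).symm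

private theorem mdl_pe : (mdl n m Y).PE := by
  intro t a h x
  have ha : a = fun i => cl (a i).out := funext fun i => (cl_out (a i)).symm
  have hx : x = fun i => cl (x i).out := funext fun i => (cl_out (x i)).symm
  rw [ha, hx, mdl_cl, mdl_act]
  have h1 : (fun i => (mdl n m Y).act t (fun i => cl (a i).out) (cl (x i).out)) =
      fun i => cl (Trm.ext t (fun i => (a i).out) (x i).out) := funext fun i => mdl_act t _ _
  rw [h1, mdl_cl]
  exact cl_eq.2 (Drv.law t _ h _)

private theorem eval_mdl (s : Trm n m Y) : s.eval (mdl n m Y) (fun y => cl (.var y)) = cl s := by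
  induction s with
  | var y => rfl
  | app h x ih =>
    rw [← mdl_cl]
    exact congrArg (mdl n m Y h) (funext ih)

/-- Completeness: the quotient of the terms by `Drv` (a setoid; operations by representatives
`Quotient.out`, `Drv.congr`) is a
partially endomorphic algebra in `Type`, the value of `s` for the assignment `y ↦ ⟦var y⟧` is
`⟦s⟧`. -/
theorem FreeEq.drv {s t : Trm n m Y} (h : FreeEq s t) : Drv s t := by
  have h1 := h _ (mdl n m Y) mdl_pe fun y => cl (.var y)
  rw [eval_mdl, eval_mdl] at h1
  exact cl_eq.1 h1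

end Pool.Agent.DD
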