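import Pool.Agent.DD.Wd
import Pool.Agent.DD.Drv

set_option autoImplicit false

/-! # DD: the set of the equalities (pairs of words) of the free algebra is recursively enumerable -/

namespace Pool.Agent.DD

open Pool.Agent.H78Ext

variable {e f : ℕ} (n : Fin e → ℕ) (m : Fin f → ℕ) (Y : Type)

/-- The steps of derivations on pairs of words: reflexivity, symmetry, transitivity, congruence, the laws. -/
def DStep (l : List (Wd e f Y × Wd e f Y)) (p : Wd e f Y × Wd e f Y) : Prop :=
  (TW n m p.1 ∧ p.2 = p.1) ∨ (p.2, p.1) ∈ l ∨ (∃ c, (p.1, c) ∈ l ∧ (c, p.2) ∈ l) ∨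
  (∃ h : Sy e f, l.length = ar n m h ∧ p.1 = .inl h :: (l.map Prod.fst).flatten ∧
    p.2 = .inl h :: (l.map Prod.snd).flatten) ∨
  (∃ (t : Fin e) (h : Sy e f) (la lx : List (Wd e f Y)), la.length = n t ∧ lx.length = ar n m h ∧
    (∀ w ∈ la, TW n m w) ∧ (∀ w ∈ lx, TW n m w) ∧
    p.1 = .inl (.inl t) :: (la.flatten ++ .inl h :: lx.flatten) ∧
    p.2 = .inl h :: (lx.map fun w => .inl (.inl t) :: (la.flatten ++ w)).flatten)

variable {n m Y} in
private theorem ext_word (t : Fin e) (a : Fin (n t) → Trm n m Y) (z : Trm n m Y) :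
    (Trm.ext t a z).word = .inl (.inl t) :: ((List.ofFn fun i => (a i).word).flatten ++ z.word) := by
  have h1 : (Trm.ext t a z).word = .inl (.inl t) :: (List.ofFn fun i : Fin (n t + 1) =>
      (Fin.snoc (α := fun _ => Trm n m Y) a z i : Trm n m Y).word).flatten := rfl
  rw [h1]
  congr 1
  rw [List.ofFn_succ']
  simp only [Fin.snoc_castSucc, Fin.snoc_last]
  rw [List.concat_eq_append, List.flatten_append]
  simp

variable {n m Y} in
private theorem app_ext_word (t : Fin e) (a : Fin (n t) → Trm n m Y) (h : Sy e f)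
    (x : Fin (ar n m h) → Trm n m Y) :
    (Trm.app h fun i => Trm.ext t a (x i)).word = .inl h :: ((List.ofFn fun i => (x i).word).map fun w =>
      .inl (.inl t) :: ((List.ofFn fun i => (a i).word).flatten ++ w)).flatten := by
  have h1 : (Trm.app h fun i => Trm.ext t a (x i)).word =
      .inl h :: (List.ofFn fun i => (Trm.ext t a (x i)).word).flatten := rfl
  rw [h1, List.map_ofFn]
  congr 2
  congr 1
  funext i
  exact ext_word t a (x i)

private theorem list_ofFn {α : Type} {k : ℕ} (l : List α) (hk : l.length = k) :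
    l = List.ofFn fun i : Fin k => l[i.1]'(hk ▸ i.2) := by
  subst hk
  exact List.ofFn_getElem.symm

private theorem fn_list {k : ℕ} {l : List (Wd e f Y)} (hk : l.length = k)
    (h : ∀ w ∈ l, TW n m w) : ∃ x : Fin k → Trm n m Y, l = List.ofFn fun i => (x i).word := by
  subst hk
  choose g hg using fun i : Fin l.length => h (l[i.1]) (List.getElem_mem _)
  refine ⟨g, ?_⟩
  simp only [hg]
  exact List.ofFn_getElem.symm

private theorem fn_pairs {k : ℕ} {l : List (Wd e f Y × Wd e f Y)} (hk : l.length = k)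
    (h : ∀ b ∈ l, ∃ s t : Trm n m Y, s.word = b.1 ∧ t.word = b.2 ∧ Drv s t) :
    ∃ x x' : Fin k → Trm n m Y, l.map Prod.fst = (List.ofFn fun i => (x i).word) ∧
      l.map Prod.snd = (List.ofFn fun i => (x' i).word) ∧ ∀ i, Drv (x i) (x' i) := by
  subst hk
  choose g g' hg hg' hd using fun i : Fin l.length => h (l[i.1]) (List.getElem_mem _)
  refine ⟨g, g', ?_, ?_, hd⟩
  · simp only [hg]
    conv_lhs => rw [← List.ofFn_getElem (xs := l)]
    rw [List.map_ofFn]
    rfl
  · simp only [hg']
    conv_lhs => rw [← List.ofFn_getElem (xs := l)]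
    rw [List.map_ofFn]
    rfl

/-- Induction on `Der`; transitivity: `word_injective` (the two middle terms have the same word); congruence: the list of the pairs of terms as
functions on `Fin (ar n m h)`; laws: `tw_list`, the word of `Trm.ext t a x` is `inl (inl t) :: (words of a).flatten ++ word of x`. -/
theorem der_drv {p : Wd e f Y × Wd e f Y} (h : Der (DStep n m Y) p) :
    ∃ s t : Trm n m Y, s.word = p.1 ∧ t.word = p.2 ∧ Drv s t := by
  induction h with
  | mk l p hl hs ih =>
    rcases hs with ⟨⟨s, hs⟩, h2⟩ | h1 | ⟨c, h1, h2⟩ | ⟨h, h1, h2, h3⟩ | ⟨t, h, la, lx, h1, h2, h3, h4, h5, h6⟩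
    · exact ⟨s, s, hs, hs.trans h2.symm, .refl s⟩
    · obtain ⟨s, t, h2, h3, h4⟩ := ih _ h1
      exact ⟨t, s, h3, h2, h4.symm⟩
    · obtain ⟨s, t, h3, h4, h5⟩ := ih _ h1
      obtain ⟨s', t', h3', h4', h5'⟩ := ih _ h2
      obtain rfl : t = s' := word_injective n m (h4.trans h3'.symm)
      exact ⟨s, t', h3, h4', h5.trans h5'⟩
    · obtain ⟨x, x', hx, hx', hd⟩ := fn_pairs n m Y h1 ih
      refine ⟨.app h x, .app h x', ?_, ?_, .congr h hd⟩
      · rw [h2, hx]
        rfl
      · rw [h3, hx']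
        rfl
    · obtain ⟨a, ha⟩ := fn_list n m Y h1 h3
      obtain ⟨x, hx⟩ := fn_list n m Y h2 h4
      refine ⟨Trm.ext t a (.app h x), .app h fun i => Trm.ext t a (x i), ?_, ?_, .law t a h x⟩
      · rw [h5, ext_word, ha, hx]
        rfl
      · rw [h6, app_ext_word, ha, hx]

/-- Induction on `Drv`. -/
theorem drv_der {s t : Trm n m Y} (h : Drv s t) : Der (DStep n m Y) (s.word, t.word) := by
  induction h with
  | refl s => exact .mk [] _ (by simp) (Or.inl ⟨⟨s, rfl⟩, rfl⟩)
  | @symm s t _ ih =>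
    refine .mk [(s.word, t.word)] _ (by simpa using ih) (Or.inr (Or.inl ?_))
    simp
  | @trans s t u _ _ ih ih' =>
    refine .mk [(s.word, t.word), (t.word, u.word)] _ ?_ (Or.inr (Or.inr (Or.inl ⟨t.word, ?_, ?_⟩)))
    · intro b hb
      rcases List.mem_cons.1 hb with rfl | hb
      · exact ih
      · rw [List.mem_singleton.1 hb]
        exact ih'
    · simp
    · simp
  | @congr h x x' _ ih =>
    refine .mk (List.ofFn fun i => ((x i).word, (x' i).word)) _ ?_
      (Or.inr (Or.inr (Or.inr (Or.inl ⟨h, ?_, ?_, ?_⟩))))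
    · intro b hb
      obtain ⟨i, rfl⟩ := (List.mem_ofFn' _ _).1 hb
      exact ih i
    · exact List.length_ofFn
    · rw [List.map_ofFn]
      rfl
    · rw [List.map_ofFn]
      rfl
  | law t a h x =>
    refine .mk [] _ (by simp) (Or.inr (Or.inr (Or.inr (Or.inr ⟨t, h, List.ofFn fun i => (a i).word,
      List.ofFn fun i => (x i).word, List.length_ofFn, List.length_ofFn, ?_, ?_, ?_, ?_⟩))))
    · intro w hw
      obtain ⟨i, rfl⟩ := (List.mem_ofFn' _ _).1 hw
      exact ⟨a i, rfl⟩
    · intro w hw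
      obtain ⟨i, rfl⟩ := (List.mem_ofFn' _ _).1 hw
      exact ⟨x i, rfl⟩
    · rw [ext_word]
      rfl
    · exact app_ext_word t a h x

private theorem s1_eq {α β : Type} [Primcodable α] [Primcodable β] {g g' : α → β}
    (hg : Primrec g) (hg' : Primrec g') : S1 fun a => g a = g' a := by
  classical
  exact S1.prim (PrimrecRel.comp Primrec.eq hg hg')

private theorem s1_mem {α β : Type} [Primcodable α] [Primcodable β] {g : α → β} {g' : α → List β}
    (hg : Primrec g) (hg' : Primrec g') : S1 fun a => g a ∈ g' a :=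
  S1.prim (primrecPred_mem hg hg')

private theorem s1_all [Primcodable Y] {α : Type} [Primcodable α] {g : α → List (Wd e f Y)}
    (hg : Primrec g) : S1 fun a => ∀ w ∈ g a, TW n m w :=
  S1.ball (p := fun (_ : α) (w : Wd e f Y) => TW n m w)
    ((S1.prim (prim_tw (Y := Y) n m)).comp Primrec.snd) hg

/-- The step relation is S1 (even primitive recursive up to the existential quantifiers). -/
theorem s1_DStep [Primcodable Y] : S1 fun x : List (Wd e f Y × Wd e f Y) × (Wd e f Y × Wd e f Y) =>
    DStep n m Y x.1 x.2 := by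
  have hp : Primrec fun x : List (Wd e f Y × Wd e f Y) × (Wd e f Y × Wd e f Y) => x.2.1 :=
    Primrec.fst.comp Primrec.snd
  have hq : Primrec fun x : List (Wd e f Y × Wd e f Y) × (Wd e f Y × Wd e f Y) => x.2.2 :=
    Primrec.snd.comp Primrec.snd
  unfold DStep
  refine S1.or (S1.and ?_ (s1_eq hq hp)) (S1.or (s1_mem (Primrec.pair hq hp) Primrec.fst)
    (S1.or ?_ (S1.or ?_ ?_)))
  · exact (S1.prim (prim_tw (Y := Y) n m)).comp hp
  · refine S1.ex (S1.and (s1_mem ?_ ?_) (s1_mem ?_ ?_))
    · exact Primrec.pair (hp.comp Primrec.fst) Primrec.snd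
    · exact Primrec.fst.comp Primrec.fst
    · exact Primrec.pair Primrec.snd (hq.comp Primrec.fst)
    · exact Primrec.fst.comp Primrec.fst
  · refine S1.ex (S1.and (s1_eq ?_ ?_) (S1.and (s1_eq (hp.comp Primrec.fst) ?_) (s1_eq (hq.comp Primrec.fst) ?_)))
    · exact Primrec.list_length.comp (Primrec.fst.comp Primrec.fst)
    · exact (prim_ar n m).comp Primrec.snd
    · refine Primrec.list_cons.comp (Primrec.sumInl.comp Primrec.snd) (Primrec.list_flatten.comp ?_)
      exact Primrec.list_map (Primrec.fst.comp Primrec.fst) (Primrec.fst.comp Primrec.snd).to₂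
    · refine Primrec.list_cons.comp (Primrec.sumInl.comp Primrec.snd) (Primrec.list_flatten.comp ?_)
      exact Primrec.list_map (Primrec.fst.comp Primrec.fst) (Primrec.snd.comp Primrec.snd).to₂
  · refine S1.ex (S1.ex (S1.ex (S1.ex ?_)))
    have hx : Primrec fun x : ((((List (Wd e f Y × Wd e f Y) × (Wd e f Y × Wd e f Y)) × Fin e) × Sy e f) ×
        List (Wd e f Y)) × List (Wd e f Y) => x.1.1.1.1 :=
      Primrec.fst.comp (Primrec.fst.comp (Primrec.fst.comp Primrec.fst))
    have ht : Primrec fun x : ((((List (Wd e f Y × Wd e f Y) × (Wd e f Y × Wd e f Y)) × Fin e) × Sy e f) ×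
        List (Wd e f Y)) × List (Wd e f Y) => x.1.1.1.2 :=
      Primrec.snd.comp (Primrec.fst.comp (Primrec.fst.comp Primrec.fst))
    have hh : Primrec fun x : ((((List (Wd e f Y × Wd e f Y) × (Wd e f Y × Wd e f Y)) × Fin e) × Sy e f) ×
        List (Wd e f Y)) × List (Wd e f Y) => x.1.1.2 :=
      Primrec.snd.comp (Primrec.fst.comp Primrec.fst)
    have hla : Primrec fun x : ((((List (Wd e f Y × Wd e f Y) × (Wd e f Y × Wd e f Y)) × Fin e) × Sy e f) ×
        List (Wd e f Y)) × List (Wd e f Y) => x.1.2 :=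
      Primrec.snd.comp Primrec.fst
    have hlx : Primrec fun x : ((((List (Wd e f Y × Wd e f Y) × (Wd e f Y × Wd e f Y)) × Fin e) × Sy e f) ×
        List (Wd e f Y)) × List (Wd e f Y) => x.2 := Primrec.snd
    have htt : Primrec fun x : ((((List (Wd e f Y × Wd e f Y) × (Wd e f Y × Wd e f Y)) × Fin e) × Sy e f) ×
        List (Wd e f Y)) × List (Wd e f Y) => (Sum.inl (Sum.inl x.1.1.1.2) : Sy e f ⊕ Y) :=
      Primrec.sumInl.comp (Primrec.sumInl.comp ht)
    have hhh : Primrec fun x : ((((List (Wd e f Y × Wd e f Y) × (Wd e f Y × Wd e f Y)) × Fin e) × Sy e f) ×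
        List (Wd e f Y)) × List (Wd e f Y) => (Sum.inl x.1.1.2 : Sy e f ⊕ Y) :=
      Primrec.sumInl.comp hh
    refine S1.and (s1_eq (Primrec.list_length.comp hla) ((Primrec.dom_finite n).comp ht))
      (S1.and (s1_eq (Primrec.list_length.comp hlx) ((prim_ar n m).comp hh))
      (S1.and (s1_all n m Y hla) (S1.and (s1_all n m Y hlx)
      (S1.and (s1_eq (hp.comp hx) ?_) (s1_eq (hq.comp hx) ?_)))))
    · refine Primrec.list_cons.comp htt (Primrec.list_append.comp (Primrec.list_flatten.comp hla) ?_)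
      exact Primrec.list_cons.comp hhh (Primrec.list_flatten.comp hlx)
    · refine Primrec.list_cons.comp hhh (Primrec.list_flatten.comp ?_)
      refine Primrec.list_map hlx ?_
      refine Primrec.list_cons.comp (htt.comp Primrec.fst) ?_
      exact Primrec.list_append.comp ((Primrec.list_flatten.comp hla).comp Primrec.fst) Primrec.snd

/-- `S1.der`, `der_drv`, `drv_der`, `Drv.freeEq`, `FreeEq.drv`. -/
theorem s1_freeEq [Primcodable Y] : S1 fun p : Wd e f Y × Wd e f Y =>
    ∃ s t : Trm n m Y, s.word = p.1 ∧ t.word = p.2 ∧ FreeEq s t := by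
  refine (S1.der (s1_DStep n m Y)).of_eq fun p => ?_
  constructor
  · intro h
    obtain ⟨s, t, h1, h2, h3⟩ := der_drv n m Y h
    exact ⟨s, t, h1, h2, h3.freeEq⟩
  · rintro ⟨s, t, h1, h2, h3⟩
    have h4 := drv_der n m Y h3.drv
    rw [h1, h2] at h4
    exact h4

end Pool.Agent.DD
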