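import Mathlib

/-!
# A left distributive group action with an increasing coordinate (acyclicity)

`Vec` is the set of sequences of pairs of positive rational numbers, `GG` its permutation group.
`sg` is a birational lift of the action of the first braid generator on Dynnikov coordinates, `sh`
the shift of `GG`. They satisfy the braid relation and `sg` commutes with `sh (sh g)`, so
`star a b = a * sh b * sg * (sh a)⁻¹` is left self-distributive. `sg` increases the first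
coordinate, so `u⁻¹ * star u c` increases it: left division in `GG` has no cycles.
-/

set_option autoImplicit false

namespace Pool.Agent.DD

/-- first coordinate of the first new pair -/
def bX1 (a1 b1 a2 _b2 : ℚ) : ℚ := a1 * (1 + b1) + a2 * b1
/-- second coordinate of the first new pair -/
def bY1 (a1 b1 a2 b2 : ℚ) : ℚ := a2 * b1 * b2 / (a1 * (1 + b1) * (1 + b2) + a2 * b1)
/-- first coordinate of the second new pair -/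
def bX2 (a1 _b1 a2 b2 : ℚ) : ℚ := a1 * a2 * b2 / (a1 * (1 + b2) + a2)
/-- second coordinate of the second new pair -/
def bY2 (a1 b1 a2 b2 : ℚ) : ℚ := (a1 * (1 + b1) * (1 + b2) + a2 * b1) / a2

/-- the inverse map -/
def iX1 (x1 y1 x2 _y2 : ℚ) : ℚ := x1 * x2 / (x2 * (1 + y1) + x1 * y1)
/-- the inverse map -/
def iY1 (x1 y1 x2 y2 : ℚ) : ℚ := x1 * y1 * y2 / (x2 * (1 + y1) * (1 + y2) + x1 * y1)
/-- the inverse map -/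
def iX2 (x1 _y1 x2 y2 : ℚ) : ℚ := (x2 * (1 + y2) + x1) / y2
/-- the inverse map -/
def iY2 (x1 y1 x2 y2 : ℚ) : ℚ := (x2 * (1 + y1) * (1 + y2) + x1 * y1) / x1

section core

variable {a1 b1 a2 b2 a3 b3 : ℚ} (h1 : 0 < a1) (h2 : 0 < b1) (h3 : 0 < a2) (h4 : 0 < b2)
  (h5 : 0 < a3) (h6 : 0 < b3)

include h1 h2 h3 h4 in
theorem bX1_pos : 0 < bX1 a1 b1 a2 b2 := by unfold bX1; positivity
include h1 h2 h3 h4 in
theorem bY1_pos : 0 < bY1 a1 b1 a2 b2 := by unfold bY1; positivity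
include h1 h2 h3 h4 in
theorem bX2_pos : 0 < bX2 a1 b1 a2 b2 := by unfold bX2; positivity
include h1 h2 h3 h4 in
theorem bY2_pos : 0 < bY2 a1 b1 a2 b2 := by unfold bY2; positivity
include h1 h2 h3 h4 in
theorem iX1_pos : 0 < iX1 a1 b1 a2 b2 := by unfold iX1; positivity
include h1 h2 h3 h4 in
theorem iY1_pos : 0 < iY1 a1 b1 a2 b2 := by unfold iY1; positivity
include h1 h2 h3 h4 in
theorem iX2_pos : 0 < iX2 a1 b1 a2 b2 := by unfold iX2; positivity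
include h1 h2 h3 h4 in
theorem iY2_pos : 0 < iY2 a1 b1 a2 b2 := by unfold iY2; positivity

include h1 h2 h3 h4 in
theorem ib_X1 : iX1 (bX1 a1 b1 a2 b2) (bY1 a1 b1 a2 b2) (bX2 a1 b1 a2 b2) (bY2 a1 b1 a2 b2) =
    a1 := by
  unfold iX1 bX1 bY1 bX2
  field_simp
  ring

include h1 h2 h3 h4 in
theorem ib_Y1 : iY1 (bX1 a1 b1 a2 b2) (bY1 a1 b1 a2 b2) (bX2 a1 b1 a2 b2) (bY2 a1 b1 a2 b2) =
    b1 := by
  unfold iY1 bX1 bY1 bX2 bY2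
  field_simp
  ring

include h1 h2 h3 h4 in
theorem ib_X2 : iX2 (bX1 a1 b1 a2 b2) (bY1 a1 b1 a2 b2) (bX2 a1 b1 a2 b2) (bY2 a1 b1 a2 b2) =
    a2 := by
  unfold iX2 bX1 bX2 bY2
  field_simp
  ring

include h1 h2 h3 h4 in
theorem ib_Y2 : iY2 (bX1 a1 b1 a2 b2) (bY1 a1 b1 a2 b2) (bX2 a1 b1 a2 b2) (bY2 a1 b1 a2 b2) =
    b2 := by
  unfold iY2 bX1 bY1 bX2 bY2
  field_simp
  ring

include h1 h2 h3 h4 in
theorem bi_X1 : bX1 (iX1 a1 b1 a2 b2) (iY1 a1 b1 a2 b2) (iX2 a1 b1 a2 b2) (iY2 a1 b1 a2 b2) =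
    a1 := by
  unfold bX1 iX1 iY1 iX2
  field_simp
  ring

include h1 h2 h3 h4 in
theorem bi_Y1 : bY1 (iX1 a1 b1 a2 b2) (iY1 a1 b1 a2 b2) (iX2 a1 b1 a2 b2) (iY2 a1 b1 a2 b2) =
    b1 := by
  unfold bY1 iX1 iY1 iX2 iY2
  field_simp
  ring

include h1 h2 h3 h4 in
theorem bi_X2 : bX2 (iX1 a1 b1 a2 b2) (iY1 a1 b1 a2 b2) (iX2 a1 b1 a2 b2) (iY2 a1 b1 a2 b2) =
    a2 := by
  unfold bX2 iX1 iX2 iY2
  field_simp
  ring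

include h1 h2 h3 h4 in
theorem bi_Y2 : bY2 (iX1 a1 b1 a2 b2) (iY1 a1 b1 a2 b2) (iX2 a1 b1 a2 b2) (iY2 a1 b1 a2 b2) =
    b2 := by
  unfold bY2 iX1 iY1 iX2 iY2
  field_simp
  ring

include h1 h2 h3 h4 h5 h6 in
/-- simplified form of the second pair after the first two moves (left side) -/
theorem fl_X : bX1 (bX2 a1 b1 a2 b2) (bY2 a1 b1 a2 b2) a3 b3 =
    (a1 * a2 * b2 * (1 + b1) + a3 * (a1 * (1 + b1) * (1 + b2) + a2 * b1)) / a2 := by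
  unfold bX1 bX2 bY2
  field_simp
  ring

include h1 h2 h3 h4 h5 h6 in
/-- simplified form of the second pair after the first two moves (left side) -/
theorem fl_Y : bY1 (bX2 a1 b1 a2 b2) (bY2 a1 b1 a2 b2) a3 b3 =
    a3 * (a1 * (1 + b1) * (1 + b2) + a2 * b1) * b3 /
      (a1 * a2 * b2 * (1 + b1) * (1 + b3) + a3 * (a1 * (1 + b1) * (1 + b2) + a2 * b1)) := by
  unfold bY1 bX2 bY2
  field_simp
  ring

include h1 h2 h3 h4 h5 h6 in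
/-- simplified form of the second pair after the first two moves (right side) -/
theorem fr_X : bX2 a1 b1 (bX1 a2 b2 a3 b3) (bY1 a2 b2 a3 b3) =
    a1 * a3 * b2 * b3 / (a1 * (1 + b3) + (a2 * (1 + b2) * (1 + b3) + a3 * b2)) := by
  unfold bX2 bX1 bY1
  field_simp
  ring

include h1 h2 h3 h4 h5 h6 in
/-- simplified form of the second pair after the first two moves (right side) -/
theorem fr_Y : bY2 a1 b1 (bX1 a2 b2 a3 b3) (bY1 a2 b2 a3 b3) =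
    (a1 * (1 + b1) * (1 + b3) + b1 * (a2 * (1 + b2) * (1 + b3) + a3 * b2)) /
      (a2 * (1 + b2) * (1 + b3) + a3 * b2) := by
  unfold bY2 bX1 bY1
  field_simp
  ring

include h1 h2 h3 h4 h5 h6 in
theorem vl_X2 : bX2 (bX1 a1 b1 a2 b2) (bY1 a1 b1 a2 b2)
      (bX1 (bX2 a1 b1 a2 b2) (bY2 a1 b1 a2 b2) a3 b3)
      (bY1 (bX2 a1 b1 a2 b2) (bY2 a1 b1 a2 b2) a3 b3) =
    a3 * b3 * bX1 a1 b1 a2 b2 / (a2 * (1 + b3) + a3) := by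
  rw [fl_X h1 h2 h3 h4 h5 h6, fl_Y h1 h2 h3 h4 h5 h6]
  obtain ⟨N, hN⟩ : ∃ N, N = a1 * (1 + b1) * (1 + b2) + a2 * b1 := ⟨_, rfl⟩
  obtain ⟨U, hU⟩ : ∃ U, U = a1 * a2 * b2 * (1 + b1) * (1 + b3) + a3 * N := ⟨_, rfl⟩
  obtain ⟨V, hV⟩ : ∃ V, V = a1 * a2 * b2 * (1 + b1) + a3 * N := ⟨_, rfl⟩
  obtain ⟨X, hX⟩ : ∃ X, X = bX1 a1 b1 a2 b2 := ⟨_, rfl⟩
  obtain ⟨H, hH⟩ : ∃ H, H = a2 * (1 + b3) + a3 := ⟨_, rfl⟩
  have pN : 0 < N := by rw [hN]; positivity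
  have pU : 0 < U := by rw [hU]; positivity
  have pV : 0 < V := by rw [hV]; positivity
  have pX : 0 < X := by rw [hX]; exact bX1_pos h1 h2 h3 h4
  have pH : 0 < H := by rw [hH]; positivity
  have e1 : U + a3 * N * b3 = (1 + b3) * V := by rw [hU, hV]; ring
  have e2 : a2 * X * (1 + b3) + U = N * H := by
    rw [hU, hH, hX, hN]; unfold bX1; ring
  rw [← hN, ← hU, ← hV, ← hX, ← hH]
  unfold bX2
  have e3 : 1 + a3 * N * b3 / U = (1 + b3) * V / U := by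
    rw [← e1]; field_simp
  have e4 : X * ((1 + b3) * V / U) + V / a2 = V * (a2 * X * (1 + b3) + U) / (U * a2) := by
    field_simp
  rw [e3, e4, e2]
  field_simp

include h1 h2 h3 h4 h5 h6 in
theorem vr_X2 : bX1 (bX2 a1 b1 (bX1 a2 b2 a3 b3) (bY1 a2 b2 a3 b3))
      (bY2 a1 b1 (bX1 a2 b2 a3 b3) (bY1 a2 b2 a3 b3))
      (bX2 a2 b2 a3 b3) (bY2 a2 b2 a3 b3) =
    a3 * b3 * bX1 a1 b1 a2 b2 / (a2 * (1 + b3) + a3) := by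
  rw [fr_X h1 h2 h3 h4 h5 h6, fr_Y h1 h2 h3 h4 h5 h6]
  obtain ⟨G, hG⟩ : ∃ G, G = a2 * (1 + b2) * (1 + b3) + a3 * b2 := ⟨_, rfl⟩
  obtain ⟨K, hK⟩ : ∃ K, K = a1 * (1 + b1) * (1 + b3) + b1 * G := ⟨_, rfl⟩
  obtain ⟨M, hM⟩ : ∃ M, M = a1 * (1 + b3) + G := ⟨_, rfl⟩
  obtain ⟨X, hX⟩ : ∃ X, X = bX1 a1 b1 a2 b2 := ⟨_, rfl⟩
  obtain ⟨H, hH⟩ : ∃ H, H = a2 * (1 + b3) + a3 := ⟨_, rfl⟩
  have pG : 0 < G := by rw [hG]; positivity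
  have pK : 0 < K := by rw [hK]; positivity
  have pM : 0 < M := by rw [hM]; positivity
  have pH : 0 < H := by rw [hH]; positivity
  have e1 : G + K = (1 + b1) * M := by rw [hK, hM]; ring
  have e2 : a1 * b2 * (1 + b1) * H + a2 * K = G * X := by
    rw [hK, hH, hX, hG]; unfold bX1; ring
  rw [← hG, ← hK, ← hM, ← hX, ← hH]
  unfold bX1 bX2
  rw [← hH]
  have e3 : 1 + K / G = (1 + b1) * M / G := by
    rw [← e1]; field_simp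
  have e4 : a1 * a3 * b2 * b3 / M * ((1 + b1) * M / G) + a2 * a3 * b3 / H * (K / G) =
      a3 * b3 * (a1 * b2 * (1 + b1) * H + a2 * K) / (G * H) := by
    field_simp
  rw [e3, e4, e2]
  field_simp

include h1 h2 h3 h4 h5 h6 in
theorem br_X2 : bX2 (bX1 a1 b1 a2 b2) (bY1 a1 b1 a2 b2)
      (bX1 (bX2 a1 b1 a2 b2) (bY2 a1 b1 a2 b2) a3 b3)
      (bY1 (bX2 a1 b1 a2 b2) (bY2 a1 b1 a2 b2) a3 b3) =
    bX1 (bX2 a1 b1 (bX1 a2 b2 a3 b3) (bY1 a2 b2 a3 b3))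
      (bY2 a1 b1 (bX1 a2 b2 a3 b3) (bY1 a2 b2 a3 b3))
      (bX2 a2 b2 a3 b3) (bY2 a2 b2 a3 b3) :=
  (vl_X2 h1 h2 h3 h4 h5 h6).trans (vr_X2 h1 h2 h3 h4 h5 h6).symm

include h1 h2 h3 h4 h5 h6 in
theorem vl_Y2 : bY2 (bX1 a1 b1 a2 b2) (bY1 a1 b1 a2 b2)
      (bX1 (bX2 a1 b1 a2 b2) (bY2 a1 b1 a2 b2) a3 b3)
      (bY1 (bX2 a1 b1 a2 b2) (bY2 a1 b1 a2 b2) a3 b3) =
    a2 * (a1 * (1 + b1) * (1 + b3) + b1 * (a2 * (1 + b2) * (1 + b3) + a3 * b2)) /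
      (a1 * a2 * b2 * (1 + b1) * (1 + b3) + a3 * (a1 * (1 + b1) * (1 + b2) + a2 * b1)) := by
  rw [fl_X h1 h2 h3 h4 h5 h6, fl_Y h1 h2 h3 h4 h5 h6]
  obtain ⟨N, hN⟩ : ∃ N, N = a1 * (1 + b1) * (1 + b2) + a2 * b1 := ⟨_, rfl⟩
  obtain ⟨U, hU⟩ : ∃ U, U = a1 * a2 * b2 * (1 + b1) * (1 + b3) + a3 * N := ⟨_, rfl⟩
  obtain ⟨V, hV⟩ : ∃ V, V = a1 * a2 * b2 * (1 + b1) + a3 * N := ⟨_, rfl⟩
  obtain ⟨X, hX⟩ : ∃ X, X = bX1 a1 b1 a2 b2 := ⟨_, rfl⟩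
  obtain ⟨G, hG⟩ : ∃ G, G = a2 * (1 + b2) * (1 + b3) + a3 * b2 := ⟨_, rfl⟩
  obtain ⟨K, hK⟩ : ∃ K, K = a1 * (1 + b1) * (1 + b3) + b1 * G := ⟨_, rfl⟩
  have pN : 0 < N := by rw [hN]; positivity
  have pU : 0 < U := by rw [hU]; positivity
  have pV : 0 < V := by rw [hV]; positivity
  have e1 : U + a3 * N * b3 = (1 + b3) * V := by rw [hU, hV]; ring
  have e0 : N + a2 * b1 * b2 = (1 + b2) * X := by rw [hN, hX]; unfold bX1; ring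
  have e2 : (1 + b2) * (1 + b3) * X * X + b1 * b2 * U = N * K := by
    rw [hU, hK, hG, hX, hN]; unfold bX1; ring
  rw [← hN, ← hU, ← hV, ← hX, ← hG, ← hK]
  unfold bY2 bY1
  rw [← hN]
  have e3 : 1 + a3 * N * b3 / U = (1 + b3) * V / U := by
    rw [← e1]; field_simp
  have e5 : 1 + a2 * b1 * b2 / N = (1 + b2) * X / N := by
    rw [← e0]; field_simp
  have e4 : X * ((1 + b2) * X / N) * ((1 + b3) * V / U) + V / a2 * (a2 * b1 * b2 / N) =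
      V * ((1 + b2) * (1 + b3) * X * X + b1 * b2 * U) / (U * N) := by
    field_simp
  rw [e3, e5, e4, e2]
  field_simp

include h1 h2 h3 h4 h5 h6 in
/-- the common denominator on the right side -/
theorem vr_den : bX2 a1 b1 (bX1 a2 b2 a3 b3) (bY1 a2 b2 a3 b3) *
      (1 + bY2 a1 b1 (bX1 a2 b2 a3 b3) (bY1 a2 b2 a3 b3)) * (1 + bY2 a2 b2 a3 b3) +
      bX2 a2 b2 a3 b3 * bY2 a1 b1 (bX1 a2 b2 a3 b3) (bY1 a2 b2 a3 b3) =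
    b3 * (a1 * a2 * b2 * (1 + b1) * (1 + b3) + a3 * (a1 * (1 + b1) * (1 + b2) + a2 * b1)) /
      (a2 * (1 + b3) + a3) := by
  rw [fr_X h1 h2 h3 h4 h5 h6, fr_Y h1 h2 h3 h4 h5 h6]
  obtain ⟨G, hG⟩ : ∃ G, G = a2 * (1 + b2) * (1 + b3) + a3 * b2 := ⟨_, rfl⟩
  obtain ⟨K, hK⟩ : ∃ K, K = a1 * (1 + b1) * (1 + b3) + b1 * G := ⟨_, rfl⟩
  obtain ⟨M, hM⟩ : ∃ M, M = a1 * (1 + b3) + G := ⟨_, rfl⟩
  obtain ⟨U, hU⟩ : ∃ U, U = a1 * a2 * b2 * (1 + b1) * (1 + b3) +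
    a3 * (a1 * (1 + b1) * (1 + b2) + a2 * b1) := ⟨_, rfl⟩
  obtain ⟨H, hH⟩ : ∃ H, H = a2 * (1 + b3) + a3 := ⟨_, rfl⟩
  have pG : 0 < G := by rw [hG]; positivity
  have pK : 0 < K := by rw [hK]; positivity
  have pM : 0 < M := by rw [hM]; positivity
  have pH : 0 < H := by rw [hH]; positivity
  have e1 : G + K = (1 + b1) * M := by rw [hK, hM]; ring
  have e0 : a3 + G = (1 + b2) * H := by rw [hG, hH]; ring
  have e2 : a1 * b2 * (1 + b1) * (1 + b2) * H * H + a2 * a3 * K = G * U := by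
    rw [hK, hH, hU, hG]; ring
  rw [← hG, ← hK, ← hM, ← hU, ← hH]
  unfold bX2 bY2
  rw [← hH, ← hG]
  have e3 : 1 + K / G = (1 + b1) * M / G := by
    rw [← e1]; field_simp
  have e5 : 1 + G / a3 = (1 + b2) * H / a3 := by
    rw [← e0]; field_simp
  have e4 : a1 * a3 * b2 * b3 / M * ((1 + b1) * M / G) * ((1 + b2) * H / a3) +
      a2 * a3 * b3 / H * (K / G) =
      b3 * (a1 * b2 * (1 + b1) * (1 + b2) * H * H + a2 * a3 * K) / (G * H) := by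
    field_simp
  rw [e3, e5, e4, e2]
  field_simp

include h1 h2 h3 h4 h5 h6 in
theorem vr_Y2 : bY1 (bX2 a1 b1 (bX1 a2 b2 a3 b3) (bY1 a2 b2 a3 b3))
      (bY2 a1 b1 (bX1 a2 b2 a3 b3) (bY1 a2 b2 a3 b3))
      (bX2 a2 b2 a3 b3) (bY2 a2 b2 a3 b3) =
    a2 * (a1 * (1 + b1) * (1 + b3) + b1 * (a2 * (1 + b2) * (1 + b3) + a3 * b2)) /
      (a1 * a2 * b2 * (1 + b1) * (1 + b3) + a3 * (a1 * (1 + b1) * (1 + b2) + a2 * b1)) := by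
  have h : bY1 (bX2 a1 b1 (bX1 a2 b2 a3 b3) (bY1 a2 b2 a3 b3))
      (bY2 a1 b1 (bX1 a2 b2 a3 b3) (bY1 a2 b2 a3 b3))
      (bX2 a2 b2 a3 b3) (bY2 a2 b2 a3 b3) =
      bX2 a2 b2 a3 b3 * bY2 a1 b1 (bX1 a2 b2 a3 b3) (bY1 a2 b2 a3 b3) * bY2 a2 b2 a3 b3 /
      (bX2 a1 b1 (bX1 a2 b2 a3 b3) (bY1 a2 b2 a3 b3) *
      (1 + bY2 a1 b1 (bX1 a2 b2 a3 b3) (bY1 a2 b2 a3 b3)) * (1 + bY2 a2 b2 a3 b3) +
      bX2 a2 b2 a3 b3 * bY2 a1 b1 (bX1 a2 b2 a3 b3) (bY1 a2 b2 a3 b3)) := rfl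
  rw [h, vr_den h1 h2 h3 h4 h5 h6, fr_Y h1 h2 h3 h4 h5 h6]
  obtain ⟨G, hG⟩ : ∃ G, G = a2 * (1 + b2) * (1 + b3) + a3 * b2 := ⟨_, rfl⟩
  obtain ⟨K, hK⟩ : ∃ K, K = a1 * (1 + b1) * (1 + b3) + b1 * G := ⟨_, rfl⟩
  obtain ⟨U, hU⟩ : ∃ U, U = a1 * a2 * b2 * (1 + b1) * (1 + b3) +
    a3 * (a1 * (1 + b1) * (1 + b2) + a2 * b1) := ⟨_, rfl⟩
  obtain ⟨H, hH⟩ : ∃ H, H = a2 * (1 + b3) + a3 := ⟨_, rfl⟩
  have pG : 0 < G := by rw [hG]; positivity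
  have pU : 0 < U := by rw [hU]; positivity
  have pH : 0 < H := by rw [hH]; positivity
  rw [← hG, ← hK, ← hU, ← hH]
  unfold bX2 bY2
  rw [← hH, ← hG]
  field_simp

include h1 h2 h3 h4 h5 h6 in
theorem br_Y2 : bY2 (bX1 a1 b1 a2 b2) (bY1 a1 b1 a2 b2)
      (bX1 (bX2 a1 b1 a2 b2) (bY2 a1 b1 a2 b2) a3 b3)
      (bY1 (bX2 a1 b1 a2 b2) (bY2 a1 b1 a2 b2) a3 b3) =
    bY1 (bX2 a1 b1 (bX1 a2 b2 a3 b3) (bY1 a2 b2 a3 b3))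
      (bY2 a1 b1 (bX1 a2 b2 a3 b3) (bY1 a2 b2 a3 b3))
      (bX2 a2 b2 a3 b3) (bY2 a2 b2 a3 b3) :=
  (vl_Y2 h1 h2 h3 h4 h5 h6).trans (vr_Y2 h1 h2 h3 h4 h5 h6).symm

include h1 h2 h3 h4 h5 h6 in
theorem br_Y3 : bY2 (bX2 a1 b1 a2 b2) (bY2 a1 b1 a2 b2) a3 b3 =
    bY2 (bX2 a1 b1 (bX1 a2 b2 a3 b3) (bY1 a2 b2 a3 b3))
      (bY2 a1 b1 (bX1 a2 b2 a3 b3) (bY1 a2 b2 a3 b3))
      (bX2 a2 b2 a3 b3) (bY2 a2 b2 a3 b3) := by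
  have h : bY2 (bX2 a1 b1 (bX1 a2 b2 a3 b3) (bY1 a2 b2 a3 b3))
      (bY2 a1 b1 (bX1 a2 b2 a3 b3) (bY1 a2 b2 a3 b3))
      (bX2 a2 b2 a3 b3) (bY2 a2 b2 a3 b3) =
      (bX2 a1 b1 (bX1 a2 b2 a3 b3) (bY1 a2 b2 a3 b3) *
      (1 + bY2 a1 b1 (bX1 a2 b2 a3 b3) (bY1 a2 b2 a3 b3)) * (1 + bY2 a2 b2 a3 b3) +
      bX2 a2 b2 a3 b3 * bY2 a1 b1 (bX1 a2 b2 a3 b3) (bY1 a2 b2 a3 b3)) / bX2 a2 b2 a3 b3 := rfl
  rw [h, vr_den h1 h2 h3 h4 h5 h6]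
  unfold bX2 bY2
  obtain ⟨N, hN⟩ : ∃ N, N = a1 * (1 + b1) * (1 + b2) + a2 * b1 := ⟨_, rfl⟩
  obtain ⟨W, hW⟩ : ∃ W, W = a1 * (1 + b2) + a2 := ⟨_, rfl⟩
  obtain ⟨U, hU⟩ : ∃ U, U = a1 * a2 * b2 * (1 + b1) * (1 + b3) + a3 * N := ⟨_, rfl⟩
  obtain ⟨H, hH⟩ : ∃ H, H = a2 * (1 + b3) + a3 := ⟨_, rfl⟩
  have pN : 0 < N := by rw [hN]; positivity
  have pU : 0 < U := by rw [hU]; positivity
  have pW : 0 < W := by rw [hW]; positivity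
  have pH : 0 < H := by rw [hH]; positivity
  have e1 : a2 + N = (1 + b1) * W := by rw [hN, hW]; ring
  rw [← hN, ← hW, ← hU, ← hH]
  have e3 : 1 + N / a2 = (1 + b1) * W / a2 := by
    rw [← e1]; field_simp
  have e4 : a1 * a2 * b2 / W * ((1 + b1) * W / a2) * (1 + b3) + a3 * (N / a2) = U / a2 := by
    rw [hU]; field_simp
  rw [e3, e4]
  field_simp

include h1 h2 h3 h4 h5 h6 in
theorem br_X1 : bX1 (bX1 a1 b1 a2 b2) (bY1 a1 b1 a2 b2)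
      (bX1 (bX2 a1 b1 a2 b2) (bY2 a1 b1 a2 b2) a3 b3)
      (bY1 (bX2 a1 b1 a2 b2) (bY2 a1 b1 a2 b2) a3 b3) =
    bX1 a1 b1 (bX1 a2 b2 a3 b3) (bY1 a2 b2 a3 b3) := by
  unfold bX1 bY1 bX2 bY2
  field_simp
  ring

include h1 h2 h3 h4 h5 h6 in
theorem br_Y1 : bY1 (bX1 a1 b1 a2 b2) (bY1 a1 b1 a2 b2)
      (bX1 (bX2 a1 b1 a2 b2) (bY2 a1 b1 a2 b2) a3 b3)
      (bY1 (bX2 a1 b1 a2 b2) (bY2 a1 b1 a2 b2) a3 b3) =
    bY1 a1 b1 (bX1 a2 b2 a3 b3) (bY1 a2 b2 a3 b3) := by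
  unfold bX1 bY1 bX2 bY2
  field_simp
  ring

include h1 h2 h3 h4 h5 h6 in
theorem br_X3 : bX2 (bX2 a1 b1 a2 b2) (bY2 a1 b1 a2 b2) a3 b3 =
    bX2 (bX2 a1 b1 (bX1 a2 b2 a3 b3) (bY1 a2 b2 a3 b3))
      (bY2 a1 b1 (bX1 a2 b2 a3 b3) (bY1 a2 b2 a3 b3))
      (bX2 a2 b2 a3 b3) (bY2 a2 b2 a3 b3) := by
  unfold bX1 bY1 bX2 bY2
  field_simp
  ring

end core

end Pool.Agent.DD
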