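import Pool.Agent.DD.Ex

set_option autoImplicit false

/-! # DD: the relation `EQ` (section 1 of /team-store/DD_Statics.md)

Letters carry a base letter `yv l` and a list `kl l` of indices (exponents); `tl i` puts the index `i` in front. -/

namespace Pool.Agent.DD

/-- Data of letters: base letter, list of indices, the operators `tl i`. -/
structure LDat (L Y I : Type) where
  yv : L → Y
  kl : L → List I
  tl : I → L → L
  yv_tl : ∀ i l, yv (tl i l) = yv l
  kl_tl : ∀ i l, kl (tl i l) = i :: kl l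

/-- The end letters of a term. -/
def Ends {L J : Type} : Tm L J → Set L
  | .var l => {l}
  | .mul _ z => Ends z
  | .bin _ z w => Ends z ∪ Ends w

variable {L Y I J : Type} [DecidableEq I] (D : LDat L Y I)

/-- The support of a letter. -/
def LDat.sp {L Y I : Type} (D : LDat L Y I) (l : L) : Set I := {i | i ∈ D.kl l}

/-- The relation `Eq(S,d;T,T')` of DD_Statics.md. -/
def EQ : Tm L J → Tm L J → Set I → (I → ℤ) → Prop
  | .var l, .var l', _, d => D.yv l = D.yv l' ∧ ∀ i, ((D.kl l').count i : ℤ) = (D.kl l).count i + d i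
  | .mul a z, .mul a' z', S, d => EQ z z' S d ∧
      ∀ l ∈ Ends z, ∃ d' : I → ℤ, (∀ i, i ∉ S ∪ D.sp l → d' i = 0) ∧ EQ a a' (S ∪ D.sp l) d'
  | .bin j z w, .bin j' z' w', S, d => j = j' ∧ EQ z z' S d ∧ EQ w w' S d
  | _, _, _, _ => False

private theorem ends_ne : ∀ T : Tm L J, ∃ l, l ∈ Ends T
  | .var l => ⟨l, rfl⟩
  | .mul _ z => ends_ne z
  | .bin _ z _ => by
    obtain ⟨l, hl⟩ := ends_ne z
    exact ⟨l, Or.inl hl⟩

/-- Induction on `T` (cases on `T'`). -/
theorem EQ.shp {T T' : Tm L J} {S : Set I} {d : I → ℤ} (h : EQ D T T' S d) : Shp T T' := by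
  induction T generalizing T' S d with
  | var l =>
    cases T' with
    | var l' => exact .var l l'
    | mul _ _ => exact h.elim
    | bin _ _ _ => exact h.elim
  | mul a z iha ihz =>
    cases T' with
    | var _ => exact h.elim
    | bin _ _ _ => exact h.elim
    | mul a' z' =>
      obtain ⟨h1, h2⟩ := h
      obtain ⟨l, hl⟩ := ends_ne z
      obtain ⟨d', -, h3⟩ := h2 l hl
      exact .mul (iha h3) (ihz h1)
  | bin j z w ihz ihw =>
    cases T' with
    | var _ => exact h.elim
    | mul _ _ => exact h.elim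
    | bin j' z' w' =>
      obtain ⟨h0, h1, h2⟩ := h
      subst h0
      exact .bin _ (ihz h1) (ihw h2)

/-- The end letters of `T` and `T'` correspond to each other and have the same support outside `S`.
Induction on `T` (cases on `T'`): for letters `(D.kl l').count i = (D.kl l).count i` for `i ∉ S`. -/
theorem EQ.ends {T T' : Tm L J} {S : Set I} {d : I → ℤ} (hd : ∀ i, i ∉ S → d i = 0) (h : EQ D T T' S d) :
    (∀ l ∈ Ends T, ∃ l' ∈ Ends T', S ∪ D.sp l = S ∪ D.sp l') ∧
      (∀ l' ∈ Ends T', ∃ l ∈ Ends T, S ∪ D.sp l = S ∪ D.sp l') := by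
  induction T generalizing T' with
  | var l =>
    cases T' with
    | var l' =>
      have key : S ∪ D.sp l = S ∪ D.sp l' := by
        ext i
        by_cases hi : i ∈ S
        · exact ⟨fun _ => Or.inl hi, fun _ => Or.inl hi⟩
        · have h1 : ((D.kl l').count i : ℤ) = (D.kl l).count i + d i := h.2 i
          rw [hd i hi, add_zero] at h1
          have h2 : (D.kl l').count i = (D.kl l).count i := by exact_mod_cast h1
          refine or_congr Iff.rfl ?_
          change i ∈ D.kl l ↔ i ∈ D.kl l'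
          rw [← List.count_pos_iff, ← List.count_pos_iff, h2]
      constructor
      · rintro _ rfl
        exact ⟨l', rfl, key⟩
      · rintro _ rfl
        exact ⟨l, rfl, key⟩
    | mul _ _ => exact h.elim
    | bin _ _ _ => exact h.elim
  | mul a z iha ihz =>
    cases T' with
    | var _ => exact h.elim
    | bin _ _ _ => exact h.elim
    | mul a' z' =>
      obtain ⟨e1, e2⟩ := ihz h.1
      exact ⟨e1, e2⟩
  | bin j z w ihz ihw =>
    cases T' with
    | var _ => exact h.elim
    | mul _ _ => exact h.elim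
    | bin j' z' w' =>
      obtain ⟨-, h1, h2⟩ := h
      obtain ⟨e1, e2⟩ := ihz h1
      obtain ⟨e3, e4⟩ := ihw h2
      constructor
      · rintro l (hl | hl)
        · obtain ⟨l', hl', he⟩ := e1 l hl
          exact ⟨l', Or.inl hl', he⟩
        · obtain ⟨l', hl', he⟩ := e3 l hl
          exact ⟨l', Or.inr hl', he⟩
      · rintro l (hl | hl)
        · obtain ⟨l', hl', he⟩ := e2 l hl
          exact ⟨l', Or.inl hl', he⟩
        · obtain ⟨l', hl', he⟩ := e4 l hl
          exact ⟨l', Or.inr hl', he⟩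

/-- Induction on `T`. -/
theorem EQ.refl (T : Tm L J) (S : Set I) : EQ D T T S 0 := by
  induction T generalizing S with
  | var l => exact ⟨rfl, fun i => (add_zero _).symm⟩
  | mul a z iha ihz => exact ⟨ihz S, fun l _ => ⟨0, fun _ _ => rfl, iha _⟩⟩
  | bin j z w ihz ihw => exact ⟨rfl, ihz S, ihw S⟩

/-- Induction on `T` (cases on `T'`), all `S, d` at the same time. In `mul a z`, for `l' ∈ Ends z'` take `l ∈ Ends z` with
`S ∪ sp l = S ∪ sp l'` by `EQ.ends`, `d'` for `l`, and use `-d'`. -/
theorem EQ.symm {T T' : Tm L J} {S : Set I} {d : I → ℤ} (hd : ∀ i, i ∉ S → d i = 0) (h : EQ D T T' S d) :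
    EQ D T' T S (-d) := by
  induction T generalizing T' S d with
  | var l =>
    cases T' with
    | var l' =>
      refine ⟨h.1.symm, fun i => ?_⟩
      have h1 : ((D.kl l').count i : ℤ) = (D.kl l).count i + d i := h.2 i
      rw [Pi.neg_apply]
      linarith
    | mul _ _ => exact h.elim
    | bin _ _ _ => exact h.elim
  | mul a z iha ihz =>
    cases T' with
    | var _ => exact h.elim
    | bin _ _ _ => exact h.elim
    | mul a' z' =>
      obtain ⟨h1, h2⟩ := h
      refine ⟨ihz hd h1, fun l' hl' => ?_⟩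
      obtain ⟨l, hl, he⟩ := (EQ.ends D hd h1).2 l' hl'
      obtain ⟨d', hd', h3⟩ := h2 l hl
      rw [he] at hd' h3
      exact ⟨-d', fun i hi => by rw [Pi.neg_apply, hd' i hi, neg_zero], iha hd' h3⟩
  | bin j z w ihz ihw =>
    cases T' with
    | var _ => exact h.elim
    | mul _ _ => exact h.elim
    | bin j' z' w' => exact ⟨h.1.symm, ihz hd h.2.1, ihw hd h.2.2⟩

/-- Induction on `T` (cases on `T'`, `T''`), all `S, d, d'` at the same time; in `mul` use `EQ.ends` for the pair `z, z'`
to see that `S ∪ sp l` is of the form `S ∪ sp l'` with `l' ∈ Ends z'`; take the sum of the two functions. -/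
theorem EQ.trans {T T' T'' : Tm L J} {S : Set I} {d d' : I → ℤ} (hd : ∀ i, i ∉ S → d i = 0)
    (hd' : ∀ i, i ∉ S → d' i = 0) (h : EQ D T T' S d) (h' : EQ D T' T'' S d') : EQ D T T'' S (d + d') := by
  induction T generalizing T' T'' S d d' with
  | var l =>
    cases T' with
    | var l' =>
      cases T'' with
      | var l'' =>
        refine ⟨h.1.trans h'.1, fun i => ?_⟩
        have h1 : ((D.kl l').count i : ℤ) = (D.kl l).count i + d i := h.2 i
        have h2 : ((D.kl l'').count i : ℤ) = (D.kl l').count i + d' i := h'.2 i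
        rw [Pi.add_apply]
        linarith
      | mul _ _ => exact h'.elim
      | bin _ _ _ => exact h'.elim
    | mul _ _ => exact h.elim
    | bin _ _ _ => exact h.elim
  | mul a z iha ihz =>
    cases T' with
    | var _ => exact h.elim
    | bin _ _ _ => exact h.elim
    | mul a' z' =>
      cases T'' with
      | var _ => exact h'.elim
      | bin _ _ _ => exact h'.elim
      | mul a'' z'' =>
        obtain ⟨h1, h2⟩ := h
        obtain ⟨h1', h2'⟩ := h'
        refine ⟨ihz hd hd' h1 h1', fun l hl => ?_⟩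
        obtain ⟨l', hl', he⟩ := (EQ.ends D hd h1).1 l hl
        obtain ⟨e, he1, h3⟩ := h2 l hl
        obtain ⟨e', he1', h3'⟩ := h2' l' hl'
        rw [← he] at he1' h3'
        exact ⟨e + e', fun i hi => by rw [Pi.add_apply, he1 i hi, he1' i hi, add_zero],
          iha he1 he1' h3 h3'⟩
  | bin j z w ihz ihw =>
    cases T' with
    | var _ => exact h.elim
    | mul _ _ => exact h.elim
    | bin j' z' w' =>
      cases T'' with
      | var _ => exact h'.elim
      | mul _ _ => exact h'.elim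
      | bin j'' z'' w'' =>
        exact ⟨h.1.trans h'.1, ihz hd hd' h.2.1 h'.2.1, ihw hd hd' h.2.2 h'.2.2⟩

/-- Induction on `T` (cases on `T'`), all `S, S1, d` at the same time (the same `d'` works). -/
theorem EQ.mono {T T' : Tm L J} {S S1 : Set I} {d : I → ℤ} (hS : S ⊆ S1) (h : EQ D T T' S d) :
    EQ D T T' S1 d := by
  induction T generalizing T' S S1 d with
  | var l =>
    cases T' with
    | var l' => exact h
    | mul _ _ => exact h.elim
    | bin _ _ _ => exact h.elim
  | mul a z iha ihz =>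
    cases T' with
    | var _ => exact h.elim
    | bin _ _ _ => exact h.elim
    | mul a' z' =>
      obtain ⟨h1, h2⟩ := h
      refine ⟨ihz hS h1, fun l hl => ?_⟩
      obtain ⟨d', hd', h3⟩ := h2 l hl
      have h4 : S ∪ D.sp l ⊆ S1 ∪ D.sp l := Set.union_subset_union_left _ hS
      exact ⟨d', fun i hi => hd' i fun h => hi (h4 h), iha h4 h3⟩
  | bin j z w ihz ihw =>
    cases T' with
    | var _ => exact h.elim
    | mul _ _ => exact h.elim
    | bin j' z' w' => exact ⟨h.1, ihz hS h.2.1, ihw hS h.2.2⟩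

/-- Letterwise modification by functions with the same value of `yv` and the same counts: induction on `T`
(all functions `d'` are `0`). -/
theorem EQ.map_map (f g : L → L) (hy : ∀ l, D.yv (f l) = D.yv (g l))
    (hk : ∀ l i, (D.kl (f l)).count i = (D.kl (g l)).count i) (T : Tm L J) (S : Set I) :
    EQ D (T.map f) (T.map g) S 0 := by
  induction T generalizing S with
  | var l =>
    refine ⟨hy l, fun i => ?_⟩
    rw [hk l i]
    exact (add_zero _).symm
  | mul a z iha ihz => exact ⟨ihz S, fun l _ => ⟨0, fun _ _ => rfl, iha _⟩⟩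
  | bin j z w ihz ihw => exact ⟨rfl, ihz S, ihw S⟩

theorem ends_map (f : L → L) (T : Tm L J) : Ends (T.map f) = f '' Ends T := by
  induction T with
  | var l => exact (Set.image_singleton (f := f) (a := l)).symm
  | mul a z iha ihz => exact ihz
  | bin j z w ihz ihw =>
    change Ends (z.map f) ∪ Ends (w.map f) = f '' (Ends z ∪ Ends w)
    rw [Set.image_union, ihz, ihw]

theorem sp_tl (i : I) (l : L) : D.sp (D.tl i l) = insert i (D.sp l) := by
  ext k
  change k ∈ D.kl (D.tl i l) ↔ k = i ∨ k ∈ D.kl l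
  rw [D.kl_tl, List.mem_cons]

/-- (E1) Induction on `T` (cases on `T'`), all `S, d` at the same time; `ends_map`, `sp_tl`, the induction hypothesis for the left
factors and `EQ.mono`. -/
theorem EQ.tau (i : I) {T T' : Tm L J} {S : Set I} {d : I → ℤ} (h : EQ D T T' S d) :
    EQ D (T.map (D.tl i)) (T'.map (D.tl i)) S d := by
  induction T generalizing T' S d with
  | var l =>
    cases T' with
    | var l' =>
      refine ⟨?_, fun k => ?_⟩
      · rw [D.yv_tl, D.yv_tl]
        exact h.1
      · have h1 : ((D.kl l').count k : ℤ) = (D.kl l).count k + d k := h.2 k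
        rw [D.kl_tl, D.kl_tl, List.count_cons, List.count_cons]
        push_cast
        linarith
    | mul _ _ => exact h.elim
    | bin _ _ _ => exact h.elim
  | mul a z iha ihz =>
    cases T' with
    | var _ => exact h.elim
    | bin _ _ _ => exact h.elim
    | mul a' z' =>
      obtain ⟨h1, h2⟩ := h
      refine ⟨ihz h1, fun l1 hl1 => ?_⟩
      rw [ends_map] at hl1
      obtain ⟨l, hl, rfl⟩ := hl1
      obtain ⟨d', hd', h3⟩ := h2 l hl
      have h4 : S ∪ D.sp l ⊆ S ∪ D.sp (D.tl i l) := by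
        rw [sp_tl]
        exact Set.union_subset_union_right _ (Set.subset_insert _ _)
      exact ⟨d', fun k hk => hd' k fun h => hk (h4 h), EQ.mono D h4 (iha h3)⟩
  | bin j z w ihz ihw =>
    cases T' with
    | var _ => exact h.elim
    | mul _ _ => exact h.elim
    | bin j' z' w' => exact ⟨h.1, ihz h.2.1, ihw h.2.2⟩

/-- (E2) Induction on `T`, all `S` at the same time (all functions `d'` are `Pi.single i 1`). -/
theorem EQ.self_tau {i : I} {S : Set I} (hi : i ∈ S) (T : Tm L J) :
    EQ D T (T.map (D.tl i)) S (Pi.single i 1) := by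
  induction T generalizing S with
  | var l =>
    refine ⟨(D.yv_tl i l).symm, fun k => ?_⟩
    rw [D.kl_tl, List.count_cons]
    by_cases hk : i = k
    · subst hk
      simp
    · rw [Pi.single_eq_of_ne (Ne.symm hk)]
      simp [hk]
  | mul a z iha ihz =>
    refine ⟨ihz hi, fun l _ => ⟨Pi.single i 1, fun k hk => ?_, iha (Or.inl hi)⟩⟩
    refine Pi.single_eq_of_ne ?_ _
    rintro rfl
    exact hk (Or.inl hi)
  | bin j z w ihz ihw => exact ⟨rfl, ihz hi, ihw hi⟩

/-- (E4) `EQ.refl` for `z`, `EQ.self_tau` for `a`: `i ∈ sp l` for every end letter `l` of `z.map (D.tl i)`. -/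
theorem EQ.mul_tau (i : I) (a z : Tm L J) :
    EQ D (a.mul (z.map (D.tl i))) ((a.map (D.tl i)).mul (z.map (D.tl i))) ∅ 0 := by
  refine ⟨EQ.refl D _ _, fun l hl => ?_⟩
  rw [ends_map] at hl
  obtain ⟨l0, -, rfl⟩ := hl
  have h1 : i ∈ ∅ ∪ D.sp (D.tl i l0) := by
    rw [sp_tl]
    exact Or.inr (Or.inl rfl)
  refine ⟨Pi.single i 1, fun k hk => ?_, EQ.self_tau D h1 a⟩
  refine Pi.single_eq_of_ne ?_ _
  rintro rfl
  exact hk h1

/-- (E3) Invariance. Induction on `Ex T T1`, `T'` arbitrary; use `EQ.mono` in the case `ld`.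
`refl`, `trans`, `bin`: clear. `mul`: the relation for `mul a z` depends only on the relations for `a`, for `z` and on `Ends z`.
`ld`: `EQ (a(bz)) (a'(b'z')) S d` says: `EQ z z' S d`, and for all `l ∈ Ends z` there are `d'` for `b` and `d''` for `a` with support in
`S ∪ sp l`. `EQ ((ab)(az)) ((a'b')(a'z')) S d` says the same and in addition that for all `l ∈ Ends z`, `q ∈ Ends b` there is `d''` with
support in `(S ∪ sp l) ∪ sp q` and `EQ a a' ((S ∪ sp l) ∪ sp q) d''`: this follows by `EQ.mono`.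
`lb`: both sides say `EQ b b' S d`, `EQ c c' S d`, and there is `d'` for `a` for every `l ∈ Ends b ∪ Ends c`. -/
theorem ex_EQ {T T1 : Tm L J} (h : Ex T T1) {T' : Tm L J} (hs : Shp T T') :
    ∃ T1', Ex T' T1' ∧ Shp T1 T1' ∧ Ends T = Ends T1 ∧ Ends T' = Ends T1' ∧
      ∀ (S : Set I) (d : I → ℤ), EQ D T T' S d ↔ EQ D T1 T1' S d := by
  induction h generalizing T' with
  | refl a => exact ⟨T', .refl _, hs, rfl, rfl, fun _ _ => Iff.rfl⟩
  | trans _ _ ih1 ih2 =>
    obtain ⟨T1, e1, s1, n1, m1, q1⟩ := ih1 hs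
    obtain ⟨T2, e2, s2, n2, m2, q2⟩ := ih2 s1
    exact ⟨T2, e1.trans e2, s2, n1.trans n2, m1.trans m2, fun S d => (q1 S d).trans (q2 S d)⟩
  | @mul a a1 b b1 _ _ iha ihb =>
    cases hs with
    | @mul _ a' _ b' ha hb =>
      obtain ⟨a1', e1, s1, n1, m1, q1⟩ := iha ha
      obtain ⟨b1', e2, s2, n2, m2, q2⟩ := ihb hb
      refine ⟨a1'.mul b1', .mul e1 e2, .mul s1 s2, n2, m2, fun S d => ?_⟩
      change (EQ D b b' S d ∧ ∀ l ∈ Ends b, ∃ d' : I → ℤ, (∀ i, i ∉ S ∪ D.sp l → d' i = 0) ∧
        EQ D a a' (S ∪ D.sp l) d') ↔ (EQ D b1 b1' S d ∧ ∀ l ∈ Ends b1, ∃ d' : I → ℤ,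
          (∀ i, i ∉ S ∪ D.sp l → d' i = 0) ∧ EQ D a1 a1' (S ∪ D.sp l) d')
      rw [n2, q2 S d]
      exact and_congr Iff.rfl (forall_congr' fun l => imp_congr Iff.rfl
        (exists_congr fun d' => and_congr Iff.rfl (q1 _ _)))
  | @bin j a a1 b b1 _ _ iha ihb =>
    cases hs with
    | @bin _ _ a' _ b' ha hb =>
      obtain ⟨a1', e1, s1, n1, m1, q1⟩ := iha ha
      obtain ⟨b1', e2, s2, n2, m2, q2⟩ := ihb hb
      refine ⟨.bin j a1' b1', .bin e1 e2, .bin j s1 s2, ?_, ?_, fun S d => ?_⟩
      · change Ends a ∪ Ends b = Ends a1 ∪ Ends b1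
        rw [n1, n2]
      · change Ends a' ∪ Ends b' = Ends a1' ∪ Ends b1'
        rw [m1, m2]
      · exact and_congr Iff.rfl (and_congr (q1 S d) (q2 S d))
  | ld a b c =>
    cases hs with
    | @mul _ a' _ _ ha hbc =>
      cases hbc with
      | @mul _ b' _ c' hb hc =>
        refine ⟨(a'.mul b').mul (a'.mul c'), .ld a' b' c', .mul (.mul ha hb) (.mul ha hc), rfl,
          rfl, fun S d => ⟨?_, ?_⟩⟩
        · rintro ⟨⟨h1, h2⟩, h3⟩
          refine ⟨⟨h1, h3⟩, fun l hl => ?_⟩
          obtain ⟨d', hd', h4⟩ := h2 l hl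
          obtain ⟨d3, hd3, h5⟩ := h3 l hl
          exact ⟨d', hd', h4, fun q _ => ⟨d3, fun i hi => hd3 i fun h => hi (Or.inl h),
            EQ.mono D Set.subset_union_left h5⟩⟩
        · rintro ⟨⟨h1, h3⟩, h2⟩
          refine ⟨⟨h1, fun l hl => ?_⟩, h3⟩
          obtain ⟨d', hd', h4, -⟩ := h2 l hl
          exact ⟨d', hd', h4⟩
  | lb j a b c =>
    cases hs with
    | @mul _ a' _ _ ha hbc =>
      cases hbc with
      | @bin _ _ b' _ c' hb hc =>
        refine ⟨.bin j (a'.mul b') (a'.mul c'), .lb j a' b' c', .bin j (.mul ha hb) (.mul ha hc),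
          rfl, rfl, fun S d => ⟨?_, ?_⟩⟩
        · rintro ⟨⟨-, h1, h2⟩, h3⟩
          exact ⟨rfl, ⟨h1, fun l hl => h3 l (Or.inl hl)⟩, ⟨h2, fun l hl => h3 l (Or.inr hl)⟩⟩
        · rintro ⟨-, ⟨h1, h3⟩, ⟨h2, h4⟩⟩
          exact ⟨⟨rfl, h1, h2⟩, fun l hl => hl.elim (h3 l) (h4 l)⟩

end Pool.Agent.DD
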