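import Pool.Agent.DD.LCan

set_option autoImplicit false

/-! # DD: the rules for inequality (7.1) of /team-store/DD_Proof.md: soundness and completeness -/

namespace Pool.Agent.DD

variable {Y J : Type}

/-- `MV s y`: `s` is `a_1 (a_2 (... (a_n y)))`. -/
inductive MV : Tm Y J → Y → Prop
  | var (y : Y) : MV (.var y) y
  | mul (a : Tm Y J) {t : Tm Y J} {y : Y} : MV t y → MV (a.mul t) y

/-- The rules for inequality in the free algebra. -/
inductive NE : Tm Y J → Tm Y J → Prop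
  | pl {s t : Tm Y J} {T U : TT} : Eqv (sk t) T → Spn T U → Eqv U (sk s) → NE s t
  | pr {s t : Tm Y J} {T U : TT} : Eqv (sk s) T → Spn T U → Eqv U (sk t) → NE s t
  | cong {s s' t t' : Tm Y J} : Eqv s s' → NE s' t' → Eqv t' t → NE s t
  | binj {j j' : J} (z w z' w' : Tm Y J) : j ≠ j' → NE (.bin j z w) (.bin j' z' w')
  | binl {z z' : Tm Y J} (j j' : J) (w w' : Tm Y J) : NE z z' → NE (.bin j z w) (.bin j' z' w')
  | binr {w w' : Tm Y J} (j j' : J) (z z' : Tm Y J) : NE w w' → NE (.bin j z w) (.bin j' z' w')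
  | vb {s : Tm Y J} {y : Y} (j : J) (z w : Tm Y J) : MV s y → NE s (.bin j z w)
  | bv {s : Tm Y J} {y : Y} (j : J) (z w : Tm Y J) : MV s y → NE (.bin j z w) s
  | vv {s t : Tm Y J} {y y' : Y} : MV s y → MV t y' → y ≠ y' → NE s t
  | mull {a a' : Tm Y J} (s t : Tm Y J) : Eqv (sk a) (sk a') → NE a a' → NE (a.mul s) (a'.mul t)
  | mulr {a a' s t : Tm Y J} : Eqv (sk a) (sk a') → NE s t → NE (a.mul s) (a'.mul t)

theorem mv_cls {s : Tm Y J} {y : Y} (h : MV s y) : ∃ m : Mon Y J, cls s = m • (El.var y : El Y J) := by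
  induction h with
  | var y => exact ⟨1, (one_smul _ _).symm⟩
  | mul a _ ih =>
    obtain ⟨m, hm⟩ := ih
    exact ⟨gen (cls a) * m, by rw [cls_mul, hm, mul_smul, gen_smul]⟩

theorem mv_exists (m : Mon Y J) (y : Y) : ∃ s : Tm Y J, cls s = m • (El.var y : El Y J) ∧ MV s y := by
  induction m using Mon.ind with
  | h1 => exact ⟨.var y, (one_smul _ _).symm, .var y⟩
  | h2 a m ih =>
    obtain ⟨s, hs, hv⟩ := ih
    obtain ⟨b, rfl⟩ := cls_surj a
    exact ⟨b.mul s, by rw [cls_mul, hs, mul_smul, gen_smul], .mul b hv⟩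

theorem pi_ne_of {s t : Tm Y J} {T U : TT} (h1 : Eqv (sk t) T) (h2 : Spn T U) (h3 : Eqv U (sk s)) :
    pi (cls s) ≠ pi (cls t) := by
  intro h
  rw [pi_cls, pi_cls, cls_eq.2 h1, ← cls_eq.2 h3] at h
  have h4 := sub_of_spn h2
  rw [h] at h4
  exact sub_irrefl _ h4

/-- Soundness. -/
theorem ne_sound {s t : Tm Y J} (h : NE s t) : cls s ≠ cls t := by
  induction h with
  | pl h1 h2 h3 => exact fun h => pi_ne_of h1 h2 h3 (congrArg pi h)
  | pr h1 h2 h3 => exact fun h => pi_ne_of h1 h2 h3 (congrArg pi h.symm)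
  | cong h1 _ h2 ih =>
    rw [cls_eq.2 h1, ← cls_eq.2 h2]
    exact ih
  | binj z w z' w' hj =>
    intro h
    rw [cls_bin, cls_bin] at h
    exact hj (bin_inj h).1
  | binl j j' w w' _ ih =>
    intro h
    rw [cls_bin, cls_bin] at h
    exact ih (bin_inj h).2.1
  | binr j j' z z' _ ih =>
    intro h
    rw [cls_bin, cls_bin] at h
    exact ih (bin_inj h).2.2
  | vb j z w hv =>
    intro h
    obtain ⟨m, hm⟩ := mv_cls hv
    rw [hm, cls_bin] at h
    exact smul_var_ne_bin h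
  | bv j z w hv =>
    intro h
    obtain ⟨m, hm⟩ := mv_cls hv
    rw [hm, cls_bin] at h
    exact smul_var_ne_bin h.symm
  | vv hv hv' hy =>
    intro h
    obtain ⟨m, hm⟩ := mv_cls hv
    obtain ⟨m', hm'⟩ := mv_cls hv'
    rw [hm, hm'] at h
    exact hy (smul_var_inj h).2
  | mull s t h1 _ ih =>
    intro h
    rw [cls_mul, cls_mul] at h
    exact ih (mul_inj_pi h (by rw [pi_cls, pi_cls, cls_eq.2 h1])).1
  | mulr h1 _ ih =>
    intro h
    rw [cls_mul, cls_mul] at h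
    exact ih (mul_inj_pi h (by rw [pi_cls, pi_cls, cls_eq.2 h1])).2

/-- The relation of not being provably different. -/
def RN (E E' : El Y J) : Prop := ∀ s t : Tm Y J, cls s = E → cls t = E' → ¬ NE s t

theorem rn_bisim : Bisim (RN (Y := Y) (J := J)) where
  b1 := by
    intro E E' h
    obtain ⟨s, rfl⟩ := cls_surj E
    obtain ⟨t, rfl⟩ := cls_surj E'
    have h0 := h s t rfl rfl
    rcases sub_total (pi (cls s)) (pi (cls t)) with h1 | h1 | h1
    · exact h1
    · obtain ⟨T, U, hT, hU, hs⟩ := sub_term h1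
      rw [pi_cls] at hT hU
      exact absurd (NE.pl (cls_eq.1 hT.symm) hs (cls_eq.1 hU)) h0
    · obtain ⟨T, U, hT, hU, hs⟩ := sub_term h1
      rw [pi_cls] at hT hU
      exact absurd (NE.pr (cls_eq.1 hT.symm) hs (cls_eq.1 hU)) h0
  b2 := by
    intro j j' z w z' w' h
    obtain ⟨z0, rfl⟩ := cls_surj z
    obtain ⟨w0, rfl⟩ := cls_surj w
    obtain ⟨z1, rfl⟩ := cls_surj z'
    obtain ⟨w1, rfl⟩ := cls_surj w'
    refine ⟨?_, ?_, ?_⟩
    · by_contra hj
      exact h (.bin j z0 w0) (.bin j' z1 w1) rfl rfl (.binj _ _ _ _ hj)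
    · intro s t hs ht hn
      exact h (.bin j s w0) (.bin j' t w1) (by rw [cls_bin, hs]) (by rw [cls_bin, ht]) (.binl _ _ _ _ hn)
    · intro s t hs ht hn
      exact h (.bin j z0 s) (.bin j' z1 t) (by rw [cls_bin, hs]) (by rw [cls_bin, ht]) (.binr _ _ _ _ hn)
  b3 := by
    intro m y j z w h
    obtain ⟨z0, rfl⟩ := cls_surj z
    obtain ⟨w0, rfl⟩ := cls_surj w
    obtain ⟨s, hs, hv⟩ := mv_exists m y
    exact h s (.bin j z0 w0) hs rfl (.vb _ _ _ hv)
  b3' := by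
    intro m y j z w h
    obtain ⟨z0, rfl⟩ := cls_surj z
    obtain ⟨w0, rfl⟩ := cls_surj w
    obtain ⟨s, hs, hv⟩ := mv_exists m y
    exact h (.bin j z0 w0) s rfl hs (.bv _ _ _ hv)
  b4 := by
    intro m m' y y' h
    obtain ⟨s, hs, hv⟩ := mv_exists m y
    obtain ⟨t, ht, hv'⟩ := mv_exists m' y'
    by_contra hy
    exact h s t hs ht (.vv hv hv' hy)
  b5 := by
    intro a a' s t h hp
    obtain ⟨a0, rfl⟩ := cls_surj a
    obtain ⟨a1, rfl⟩ := cls_surj a'
    obtain ⟨s0, rfl⟩ := cls_surj s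
    obtain ⟨t0, rfl⟩ := cls_surj t
    rw [pi_cls, pi_cls] at hp
    refine ⟨?_, ?_⟩
    · intro u v hu hv hn
      refine h (u.mul s0) (v.mul t0) (by rw [cls_mul, hu]) (by rw [cls_mul, hv]) (.mull _ _ ?_ hn)
      apply cls_eq.1
      rw [← pi_cls, ← pi_cls, hu, hv, pi_cls, pi_cls, hp]
    · intro u v hu hv hn
      exact h (a0.mul u) (a1.mul v) (by rw [cls_mul, hu]) (by rw [cls_mul, hv]) (.mulr (cls_eq.1 hp) hn)

/-- Completeness. -/
theorem ne_complete {s t : Tm Y J} (h : cls s ≠ cls t) : NE s t := by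
  by_contra hn
  apply h
  refine core rn_bisim ?_
  intro s' t' hs ht hn'
  exact hn (.cong (cls_eq.1 hs.symm) hn' (cls_eq.1 ht))

/-- (7.1) -/
theorem ne_iff {s t : Tm Y J} : NE s t ↔ ¬ Eqv s t :=
  ⟨fun h he => ne_sound h (cls_eq.2 he), fun h => ne_complete fun he => h (cls_eq.1 he)⟩

end Pool.Agent.DD
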