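import Pool.Agent.DD.Code
import Pool.Agent.DD.NeF
import Pool.Agent.H78Ext.PrimTac

set_option autoImplicit false

/-! # DD: equality and inequality of core terms are r.e. (7.2) -/

namespace Pool.Agent.DD

open Pool.Agent.H78Ext

section Rules

variable {α β : Type} [Primcodable α] [Primcodable β]

/-- A rule with parameters `r : β`: conclusion `c r`, premises `pr r`, side condition. -/
def RStep (c : β → α) (pr : β → List α) (side : β → Prop) (l : List α) (a : α) : Prop :=
  ∃ r : β, a = c r ∧ (∀ b ∈ pr r, b ∈ l) ∧ side r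

theorem S1.rstep {c : β → α} {pr : β → List α} {side : β → Prop} (hc : Primrec c) (hp : Primrec pr)
    (hs : S1 side) : S1 fun x : List α × α => RStep c pr side x.1 x.2 := by
  classical
  refine S1.ex (S1.and ?_ (S1.and ?_ ?_))
  · exact S1.prim (PrimrecRel.comp Primrec.eq (Primrec.snd.comp Primrec.fst) (hc.comp Primrec.snd))
  · refine S1.ball (β := α) ?_ (hp.comp Primrec.snd)
    exact S1.prim (primrecPred_mem Primrec.snd (Primrec.fst.comp (Primrec.fst.comp Primrec.fst)))
  · exact hs.comp Primrec.snd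

theorem S1.tr : S1 fun _ : β => True := S1.prim (PrimrecPred.of_eq (p := fun x : β => x = x) (by
  classical
  exact PrimrecRel.comp Primrec.eq Primrec.id Primrec.id) (fun _ => by simp))

end Rules

theorem prim_mul' {β : Type} [Primcodable β] {f g : β → Tm ℕ ℕ} (hf : Primrec f) (hg : Primrec g) :
    Primrec (fun x => (f x).mul (g x)) := prim_mul.comp hf hg

theorem prim_var' {β : Type} [Primcodable β] {f : β → ℕ} (hf : Primrec f) :
    Primrec (fun x => (.var (f x) : Tm ℕ ℕ)) := prim_var.comp hf

/-- Pairs of terms. -/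
abbrev T2 : Type := Tm ℕ ℕ × Tm ℕ ℕ

/-- The steps for `Eqv`. -/
def StE (l : List T2) (p : T2) : Prop :=
  RStep (β := Tm ℕ ℕ) (fun r => (r, r)) (fun _ => []) (fun _ => True) l p ∨
  RStep (β := T2) (fun r => (r.2, r.1)) (fun r => [r]) (fun _ => True) l p ∨
  RStep (β := T2 × Tm ℕ ℕ) (fun r => (r.1.1, r.2)) (fun r => [r.1, (r.1.2, r.2)]) (fun _ => True) l p ∨
  RStep (β := T2 × T2) (fun r => (r.1.1.mul r.2.1, r.1.2.mul r.2.2)) (fun r => [r.1, r.2]) (fun _ => True) l p ∨
  RStep (β := ℕ × (T2 × T2)) (fun r => (.bin r.1 r.2.1.1 r.2.2.1, .bin r.1 r.2.1.2 r.2.2.2))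
    (fun r => [r.2.1, r.2.2]) (fun _ => True) l p ∨
  RStep (β := T2 × Tm ℕ ℕ) (fun r => (r.1.1.mul (r.1.2.mul r.2), (r.1.1.mul r.1.2).mul (r.1.1.mul r.2)))
    (fun _ => []) (fun _ => True) l p ∨
  RStep (β := ℕ × (T2 × Tm ℕ ℕ)) (fun r => (r.2.1.1.mul (.bin r.1 r.2.1.2 r.2.2),
    .bin r.1 (r.2.1.1.mul r.2.1.2) (r.2.1.1.mul r.2.2))) (fun _ => []) (fun _ => True) l p

theorem stE_S1 : S1 fun x : List T2 × T2 => StE x.1 x.2 := by
  unfold StE
  refine S1.or (S1.rstep ?_ ?_ S1.tr) (S1.or (S1.rstep ?_ ?_ S1.tr) (S1.or (S1.rstep ?_ ?_ S1.tr)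
    (S1.or (S1.rstep ?_ ?_ S1.tr) (S1.or (S1.rstep ?_ ?_ S1.tr) (S1.or (S1.rstep ?_ ?_ S1.tr)
    (S1.rstep ?_ ?_ S1.tr))))))
  all_goals
    repeat' first
      | with_reducible exact Primrec.const _
      | with_reducible exact P.id
      | with_reducible exact Primrec.fst
      | with_reducible exact Primrec.snd
      | with_reducible apply P.fst
      | with_reducible apply P.snd
      | with_reducible apply P.cons
      | with_reducible apply prim_mul'
      | with_reducible apply prim_bin
      | with_reducible apply P.pair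

theorem der_stE {p : T2} : Der StE p ↔ Eqv p.1 p.2 := by
  constructor
  · intro h
    induction h with
    | mk l a _ hs ih =>
      rcases hs with ⟨r, rfl, h, -⟩ | ⟨r, rfl, h, -⟩ | ⟨r, rfl, h, -⟩ | ⟨r, rfl, h, -⟩ | ⟨r, rfl, h, -⟩ |
        ⟨r, rfl, h, -⟩ | ⟨r, rfl, h, -⟩
      · exact .refl _
      · exact (ih _ (h r (by simp))).symm
      · exact (ih _ (h r.1 (by simp))).trans (ih _ (h (r.1.2, r.2) (by simp)))
      · exact .mul (ih _ (h r.1 (by simp))) (ih _ (h r.2 (by simp)))
      · exact .bin (ih _ (h r.2.1 (by simp))) (ih _ (h r.2.2 (by simp)))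
      · exact .ld _ _ _
      · exact .lb _ _ _ _
  · obtain ⟨s, t⟩ := p
    intro h
    change Eqv s t at h
    induction h with
    | refl a => exact .mk [] _ (by simp) (Or.inl ⟨a, rfl, by simp, trivial⟩)
    | @symm a b _ ih => exact .mk [(a, b)] _ (by simpa using ih) (Or.inr (Or.inl ⟨(a, b), rfl, by simp, trivial⟩))
    | @trans a b c _ _ ih1 ih2 =>
      refine .mk [(a, b), (b, c)] _ ?_ (Or.inr (Or.inr (Or.inl ⟨((a, b), c), rfl, by simp, trivial⟩)))
      intro x hx
      simp only [List.mem_cons, List.not_mem_nil, or_false] at hx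
      rcases hx with rfl | rfl
      · exact ih1
      · exact ih2
    | @mul a a' b b' _ _ ih1 ih2 =>
      refine .mk [(a, a'), (b, b')] _ ?_ (Or.inr (Or.inr (Or.inr (Or.inl ⟨((a, a'), (b, b')), rfl, by simp, trivial⟩))))
      intro x hx
      simp only [List.mem_cons, List.not_mem_nil, or_false] at hx
      rcases hx with rfl | rfl
      · exact ih1
      · exact ih2
    | @bin j a a' b b' _ _ ih1 ih2 =>
      refine .mk [(a, a'), (b, b')] _ ?_ (Or.inr (Or.inr (Or.inr (Or.inr (Or.inl
        ⟨(j, ((a, a'), (b, b'))), rfl, by simp, trivial⟩)))))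
      intro x hx
      simp only [List.mem_cons, List.not_mem_nil, or_false] at hx
      rcases hx with rfl | rfl
      · exact ih1
      · exact ih2
    | ld a b c => exact .mk [] _ (by simp) (Or.inr (Or.inr (Or.inr (Or.inr (Or.inr (Or.inl
        ⟨((a, b), c), rfl, by simp, trivial⟩))))))
    | lb j a b c => exact .mk [] _ (by simp) (Or.inr (Or.inr (Or.inr (Or.inr (Or.inr (Or.inr
        ⟨(j, ((a, b), c)), rfl, by simp, trivial⟩))))))

theorem eqv_S1 : S1 fun p : T2 => Eqv p.1 p.2 := (S1.der stE_S1).of_eq fun _ => der_stE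

/-- The steps for `Spn`. -/
def StS (l : List T2) (p : T2) : Prop :=
  RStep (β := T2) (fun r => (r.1.mul r.2, r.1)) (fun _ => []) (fun _ => True) l p ∨
  RStep (β := T2 × Tm ℕ ℕ) (fun r => (r.1.1.mul r.2, r.1.2)) (fun r => [r.1]) (fun _ => True) l p ∨
  RStep (β := ℕ × (T2 × Tm ℕ ℕ)) (fun r => (.bin r.1 r.2.1.1 r.2.2, r.2.1.2)) (fun r => [r.2.1])
    (fun _ => True) l p

theorem stS_S1 : S1 fun x : List T2 × T2 => StS x.1 x.2 := by
  unfold StS
  refine S1.or (S1.rstep ?_ ?_ S1.tr) (S1.or (S1.rstep ?_ ?_ S1.tr) (S1.rstep ?_ ?_ S1.tr))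
  all_goals
    repeat' first
      | with_reducible exact Primrec.const _
      | with_reducible exact P.id
      | with_reducible exact Primrec.fst
      | with_reducible exact Primrec.snd
      | with_reducible apply P.fst
      | with_reducible apply P.snd
      | with_reducible apply P.cons
      | with_reducible apply prim_mul'
      | with_reducible apply prim_var'
      | with_reducible apply prim_bin
      | with_reducible apply P.pair

theorem der_stS {p : T2} : Der StS p ↔ Spn p.1 p.2 := by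
  constructor
  · intro h
    induction h with
    | mk l a _ hs ih =>
      rcases hs with ⟨r, rfl, h, -⟩ | ⟨r, rfl, h, -⟩ | ⟨r, rfl, h, -⟩
      · exact .base _ _
      · exact .mul _ (ih _ (h r.1 (by simp)))
      · exact .bin _ _ (ih _ (h r.2.1 (by simp)))
  · obtain ⟨s, t⟩ := p
    intro h
    change Spn s t at h
    induction h with
    | base u c => exact .mk [] _ (by simp) (Or.inl ⟨(u, c), rfl, by simp, trivial⟩)
    | @mul t u c _ ih =>
      exact .mk [(t, u)] _ (by simpa using ih)
        (Or.inr (Or.inl ⟨((t, u), c), rfl, by simp, trivial⟩))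
    | @bin t u j w _ ih =>
      exact .mk [(t, u)] _ (by simpa using ih)
        (Or.inr (Or.inr ⟨(j, ((t, u), w)), rfl, by simp, trivial⟩))

theorem spn_S1 : S1 fun p : T2 => Spn p.1 p.2 := (S1.der stS_S1).of_eq fun _ => der_stS

/-- The steps for `MV`. -/
def StM (l : List (Tm ℕ ℕ × ℕ)) (p : Tm ℕ ℕ × ℕ) : Prop :=
  RStep (β := ℕ) (fun r => (.var r, r)) (fun _ => []) (fun _ => True) l p ∨
  RStep (β := (Tm ℕ ℕ × ℕ) × Tm ℕ ℕ) (fun r => (r.2.mul r.1.1, r.1.2)) (fun r => [r.1]) (fun _ => True) l p

theorem stM_S1 : S1 fun x : List (Tm ℕ ℕ × ℕ) × (Tm ℕ ℕ × ℕ) => StM x.1 x.2 := by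
  unfold StM
  refine S1.or (S1.rstep ?_ ?_ S1.tr) (S1.rstep ?_ ?_ S1.tr)
  all_goals
    repeat' first
      | with_reducible exact Primrec.const _
      | with_reducible exact P.id
      | with_reducible exact Primrec.fst
      | with_reducible exact Primrec.snd
      | with_reducible apply P.fst
      | with_reducible apply P.snd
      | with_reducible apply P.cons
      | with_reducible apply prim_mul'
      | with_reducible apply prim_var'
      | with_reducible apply prim_bin
      | with_reducible apply P.pair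

theorem der_stM {p : Tm ℕ ℕ × ℕ} : Der StM p ↔ MV p.1 p.2 := by
  constructor
  · intro h
    induction h with
    | mk l a _ hs ih =>
      rcases hs with ⟨r, rfl, h, -⟩ | ⟨r, rfl, h, -⟩
      · exact .var _
      · exact .mul _ (ih _ (h r.1 (by simp)))
  · obtain ⟨s, t⟩ := p
    intro h
    change MV s t at h
    induction h with
    | var y => exact .mk [] _ (by simp) (Or.inl ⟨y, rfl, by simp, trivial⟩)
    | @mul a t y _ ih =>
      exact .mk [(t, y)] _ (by simpa using ih)
        (Or.inr ⟨((t, y), a), rfl, by simp, trivial⟩)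

theorem mv_S1 : S1 fun p : Tm ℕ ℕ × ℕ => MV p.1 p.2 := (S1.der stM_S1).of_eq fun _ => der_stM

/-- The skeleton with letter `0`, inside `Tm ℕ ℕ`. -/
def esk : Tm ℕ ℕ → Tm ℕ ℕ
  | .var _ => .var 0
  | .mul a b => (esk a).mul (esk b)
  | .bin _ a _ => esk a

/-- The steps for the graph of `esk`. -/
def StK (l : List T2) (p : T2) : Prop :=
  RStep (β := ℕ) (fun r => (.var r, .var 0)) (fun _ => []) (fun _ => True) l p ∨
  RStep (β := T2 × T2) (fun r => (r.1.1.mul r.2.1, r.1.2.mul r.2.2)) (fun r => [r.1, r.2]) (fun _ => True) l p ∨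
  RStep (β := ℕ × (T2 × Tm ℕ ℕ)) (fun r => (.bin r.1 r.2.1.1 r.2.2, r.2.1.2)) (fun r => [r.2.1])
    (fun _ => True) l p

theorem stK_S1 : S1 fun x : List T2 × T2 => StK x.1 x.2 := by
  unfold StK
  refine S1.or (S1.rstep ?_ ?_ S1.tr) (S1.or (S1.rstep ?_ ?_ S1.tr) (S1.rstep ?_ ?_ S1.tr))
  all_goals
    repeat' first
      | with_reducible exact Primrec.const _
      | with_reducible exact P.id
      | with_reducible exact Primrec.fst
      | with_reducible exact Primrec.snd
      | with_reducible apply P.fst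
      | with_reducible apply P.snd
      | with_reducible apply P.cons
      | with_reducible apply prim_mul'
      | with_reducible apply prim_var'
      | with_reducible apply prim_bin
      | with_reducible apply P.pair

theorem der_stK {p : T2} : Der StK p ↔ esk p.1 = p.2 := by
  constructor
  · intro h
    induction h with
    | mk l a _ hs ih =>
      rcases hs with ⟨r, rfl, h, -⟩ | ⟨r, rfl, h, -⟩ | ⟨r, rfl, h, -⟩
      · rfl
      · have h1 := ih _ (h r.1 (by simp))
        have h2 := ih _ (h r.2 (by simp))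
        change (esk r.1.1).mul (esk r.2.1) = r.1.2.mul r.2.2
        rw [h1, h2]
      · exact ih r.2.1 (h r.2.1 (by simp))
  · obtain ⟨s, t⟩ := p
    intro h
    change esk s = t at h
    subst h
    induction s with
    | var y => exact .mk [] _ (by simp) (Or.inl ⟨y, rfl, by simp, trivial⟩)
    | mul a b ih1 ih2 =>
      refine .mk [(a, esk a), (b, esk b)] _ ?_ (Or.inr (Or.inl ⟨((a, esk a), (b, esk b)), rfl, by simp, trivial⟩))
      intro x hx
      simp only [List.mem_cons, List.not_mem_nil, or_false] at hx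
      rcases hx with rfl | rfl
      · exact ih1
      · exact ih2
    | bin j a b ih1 _ =>
      exact .mk [(a, esk a)] _ (by simpa using ih1)
        (Or.inr (Or.inr ⟨(j, ((a, esk a), b)), rfl, by simp, trivial⟩))

theorem esk_S1 : S1 fun p : T2 => esk p.1 = p.2 := (S1.der stK_S1).of_eq fun _ => der_stK

theorem sk_esk (t : Tm ℕ ℕ) : sk (esk t) = sk t := by
  induction t with
  | var y => rfl
  | mul a b iha ihb =>
    change (sk (esk a)).mul (sk (esk b)) = _
    rw [iha, ihb]
    rfl
  | bin j a b iha _ => exact iha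

/-- Trees as terms. -/
def emb : TT → Tm ℕ ℕ
  | .var _ => .var 0
  | .mul a b => (emb a).mul (emb b)
  | .bin j _ _ => j.elim

theorem emb_sk (t : Tm ℕ ℕ) : emb (sk t) = esk t := by
  induction t with
  | var y => rfl
  | mul a b iha ihb =>
    change (emb (sk a)).mul (emb (sk b)) = _
    rw [iha, ihb]
    rfl
  | bin j a b iha _ => exact iha

theorem sk_emb (T : TT) : sk (emb T) = T := by
  induction T with
  | var y => rfl
  | mul a b iha ihb =>
    change (sk (emb a)).mul (sk (emb b)) = _
    rw [iha, ihb]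
  | bin j _ _ _ _ => exact j.elim

theorem emb_eqv {S T : TT} (h : Eqv S T) : Eqv (emb S) (emb T) := by
  induction h with
  | refl a => exact .refl _
  | symm _ ih => exact ih.symm
  | trans _ _ ih1 ih2 => exact ih1.trans ih2
  | mul _ _ ih1 ih2 => exact .mul ih1 ih2
  | @bin j _ _ _ _ _ _ _ _ => exact j.elim
  | ld a b c => exact .ld _ _ _
  | lb j a b c => exact j.elim

theorem sk_eqv {s t : Tm ℕ ℕ} (h : Eqv s t) : Eqv (sk s) (sk t) := by
  rw [← cls_eq, ← pi_cls, ← pi_cls, cls_eq.2 h]

theorem emb_spn {S T : TT} (h : Spn S T) : Spn (emb S) (emb T) := by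
  induction h with
  | base u c => exact .base _ _
  | mul c _ ih => exact .mul _ ih
  | bin j w _ ih => exact j.elim

theorem eqv_sk_iff {a a' : Tm ℕ ℕ} : Eqv (sk a) (sk a') ↔ Eqv (esk a) (esk a') := by
  constructor
  · intro h
    have := emb_eqv h
    rwa [emb_sk, emb_sk] at this
  · intro h
    have := sk_eqv h
    rwa [sk_esk, sk_esk] at this

/-- The steps for `NE`. -/
def StN (l : List T2) (p : T2) : Prop :=
  RStep (β := T2 × (T2 × T2)) (fun r => r.1) (fun _ => [])
    (fun r => (esk r.1.1 = r.2.1.1 ∧ esk r.1.2 = r.2.1.2) ∧ Eqv r.2.1.2 r.2.2.1 ∧ Spn r.2.2.1 r.2.2.2 ∧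
      Eqv r.2.2.2 r.2.1.1) l p ∨
  RStep (β := T2 × (T2 × T2)) (fun r => (r.1.2, r.1.1)) (fun _ => [])
    (fun r => (esk r.1.1 = r.2.1.1 ∧ esk r.1.2 = r.2.1.2) ∧ Eqv r.2.1.2 r.2.2.1 ∧ Spn r.2.2.1 r.2.2.2 ∧
      Eqv r.2.2.2 r.2.1.1) l p ∨
  RStep (β := T2 × T2) (fun r => (r.1.1, r.2.2)) (fun r => [(r.1.2, r.2.1)])
    (fun r => Eqv r.1.1 r.1.2 ∧ Eqv r.2.1 r.2.2) l p ∨
  RStep (β := (ℕ × ℕ) × (T2 × T2)) (fun r => (.bin r.1.1 r.2.1.1 r.2.1.2, .bin r.1.2 r.2.2.1 r.2.2.2))
    (fun _ => []) (fun r => r.1.1 ≠ r.1.2) l p ∨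
  RStep (β := (ℕ × ℕ) × (T2 × T2)) (fun r => (.bin r.1.1 r.2.1.1 r.2.2.1, .bin r.1.2 r.2.1.2 r.2.2.2))
    (fun r => [r.2.1]) (fun _ => True) l p ∨
  RStep (β := (ℕ × ℕ) × (T2 × T2)) (fun r => (.bin r.1.1 r.2.1.1 r.2.2.1, .bin r.1.2 r.2.1.2 r.2.2.2))
    (fun r => [r.2.2]) (fun _ => True) l p ∨
  RStep (β := (ℕ × ℕ) × (T2 × Tm ℕ ℕ)) (fun r => (r.2.2, .bin r.1.2 r.2.1.1 r.2.1.2)) (fun _ => [])
    (fun r => MV r.2.2 r.1.1) l p ∨
  RStep (β := (ℕ × ℕ) × (T2 × Tm ℕ ℕ)) (fun r => (.bin r.1.2 r.2.1.1 r.2.1.2, r.2.2)) (fun _ => [])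
    (fun r => MV r.2.2 r.1.1) l p ∨
  RStep (β := (ℕ × ℕ) × T2) (fun r => r.2) (fun _ => [])
    (fun r => MV r.2.1 r.1.1 ∧ MV r.2.2 r.1.2 ∧ r.1.1 ≠ r.1.2) l p ∨
  RStep (β := T2 × (T2 × T2)) (fun r => (r.1.1.mul r.2.1.1, r.1.2.mul r.2.1.2)) (fun r => [r.1])
    (fun r => (esk r.1.1 = r.2.2.1 ∧ esk r.1.2 = r.2.2.2) ∧ Eqv r.2.2.1 r.2.2.2) l p ∨
  RStep (β := T2 × (T2 × T2)) (fun r => (r.1.1.mul r.2.1.1, r.1.2.mul r.2.1.2)) (fun r => [r.2.1])
    (fun r => (esk r.1.1 = r.2.2.1 ∧ esk r.1.2 = r.2.2.2) ∧ Eqv r.2.2.1 r.2.2.2) l p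

theorem stN_S1 : S1 fun x : List T2 × T2 => StN x.1 x.2 := by
  have hne : ∀ {β : Type} [Primcodable β] {f g : β → ℕ}, Primrec f → Primrec g → S1 fun r => f r ≠ g r := by
    intro β _ f g hf hg
    exact S1.prim (primrecPred_eq hf hg).not
  have hk : S1 fun r : T2 × (T2 × T2) => (esk r.1.1 = r.2.2.1 ∧ esk r.1.2 = r.2.2.2) ∧ Eqv r.2.2.1 r.2.2.2 := by
    refine S1.and (S1.and ?_ ?_) ?_
    · refine S1.comp esk_S1 (f := fun r : T2 × (T2 × T2) => (r.1.1, r.2.2.1)) ?_
      repeat' first
        | with_reducible exact Primrec.const _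
        | with_reducible exact P.id
        | with_reducible exact Primrec.fst
        | with_reducible exact Primrec.snd
        | with_reducible apply P.fst
        | with_reducible apply P.snd
        | with_reducible apply P.cons
        | with_reducible apply prim_mul'
        | with_reducible apply prim_var'
        | with_reducible apply prim_bin
        | with_reducible apply P.pair
    · refine S1.comp esk_S1 (f := fun r : T2 × (T2 × T2) => (r.1.2, r.2.2.2)) ?_
      repeat' first
        | with_reducible exact Primrec.const _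
        | with_reducible exact P.id
        | with_reducible exact Primrec.fst
        | with_reducible exact Primrec.snd
        | with_reducible apply P.fst
        | with_reducible apply P.snd
        | with_reducible apply P.cons
        | with_reducible apply prim_mul'
        | with_reducible apply prim_var'
        | with_reducible apply prim_bin
        | with_reducible apply P.pair
    · refine S1.comp eqv_S1 (f := fun r : T2 × (T2 × T2) => (r.2.2.1, r.2.2.2)) ?_
      repeat' first
        | with_reducible exact Primrec.const _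
        | with_reducible exact P.id
        | with_reducible exact Primrec.fst
        | with_reducible exact Primrec.snd
        | with_reducible apply P.fst
        | with_reducible apply P.snd
        | with_reducible apply P.cons
        | with_reducible apply prim_mul'
        | with_reducible apply prim_var'
        | with_reducible apply prim_bin
        | with_reducible apply P.pair
  have hp : S1 fun r : T2 × (T2 × T2) => (esk r.1.1 = r.2.1.1 ∧ esk r.1.2 = r.2.1.2) ∧ Eqv r.2.1.2 r.2.2.1 ∧
      Spn r.2.2.1 r.2.2.2 ∧ Eqv r.2.2.2 r.2.1.1 := by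
    refine S1.and (S1.and ?_ ?_) (S1.and ?_ (S1.and ?_ ?_))
    · refine S1.comp esk_S1 (f := fun r : T2 × (T2 × T2) => (r.1.1, r.2.1.1)) ?_
      repeat' first
        | with_reducible exact Primrec.const _
        | with_reducible exact P.id
        | with_reducible exact Primrec.fst
        | with_reducible exact Primrec.snd
        | with_reducible apply P.fst
        | with_reducible apply P.snd
        | with_reducible apply P.cons
        | with_reducible apply prim_mul'
        | with_reducible apply prim_var'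
        | with_reducible apply prim_bin
        | with_reducible apply P.pair
    · refine S1.comp esk_S1 (f := fun r : T2 × (T2 × T2) => (r.1.2, r.2.1.2)) ?_
      repeat' first
        | with_reducible exact Primrec.const _
        | with_reducible exact P.id
        | with_reducible exact Primrec.fst
        | with_reducible exact Primrec.snd
        | with_reducible apply P.fst
        | with_reducible apply P.snd
        | with_reducible apply P.cons
        | with_reducible apply prim_mul'
        | with_reducible apply prim_var'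
        | with_reducible apply prim_bin
        | with_reducible apply P.pair
    · refine S1.comp eqv_S1 (f := fun r : T2 × (T2 × T2) => (r.2.1.2, r.2.2.1)) ?_
      repeat' first
        | with_reducible exact Primrec.const _
        | with_reducible exact P.id
        | with_reducible exact Primrec.fst
        | with_reducible exact Primrec.snd
        | with_reducible apply P.fst
        | with_reducible apply P.snd
        | with_reducible apply P.cons
        | with_reducible apply prim_mul'
        | with_reducible apply prim_var'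
        | with_reducible apply prim_bin
        | with_reducible apply P.pair
    · refine S1.comp spn_S1 (f := fun r : T2 × (T2 × T2) => (r.2.2.1, r.2.2.2)) ?_
      repeat' first
        | with_reducible exact Primrec.const _
        | with_reducible exact P.id
        | with_reducible exact Primrec.fst
        | with_reducible exact Primrec.snd
        | with_reducible apply P.fst
        | with_reducible apply P.snd
        | with_reducible apply P.cons
        | with_reducible apply prim_mul'
        | with_reducible apply prim_var'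
        | with_reducible apply prim_bin
        | with_reducible apply P.pair
    · refine S1.comp eqv_S1 (f := fun r : T2 × (T2 × T2) => (r.2.2.2, r.2.1.1)) ?_
      repeat' first
        | with_reducible exact Primrec.const _
        | with_reducible exact P.id
        | with_reducible exact Primrec.fst
        | with_reducible exact Primrec.snd
        | with_reducible apply P.fst
        | with_reducible apply P.snd
        | with_reducible apply P.cons
        | with_reducible apply prim_mul'
        | with_reducible apply prim_var'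
        | with_reducible apply prim_bin
        | with_reducible apply P.pair
  unfold StN
  refine S1.or (S1.rstep ?_ ?_ hp) (S1.or (S1.rstep ?_ ?_ hp) (S1.or (S1.rstep ?_ ?_ (S1.and
    (S1.comp eqv_S1 (f := fun r : T2 × T2 => (r.1.1, r.1.2)) ?_)
    (S1.comp eqv_S1 (f := fun r : T2 × T2 => (r.2.1, r.2.2)) ?_)))
    (S1.or (S1.rstep ?_ ?_ (hne ?_ ?_)) (S1.or (S1.rstep ?_ ?_ S1.tr) (S1.or (S1.rstep ?_ ?_ S1.tr)
    (S1.or (S1.rstep ?_ ?_ (S1.comp mv_S1 (f := fun r : (ℕ × ℕ) × (T2 × Tm ℕ ℕ) => (r.2.2, r.1.1)) ?_))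
    (S1.or (S1.rstep ?_ ?_ (S1.comp mv_S1 (f := fun r : (ℕ × ℕ) × (T2 × Tm ℕ ℕ) => (r.2.2, r.1.1)) ?_))
    (S1.or (S1.rstep ?_ ?_ (S1.and (S1.comp mv_S1 (f := fun r : (ℕ × ℕ) × T2 => (r.2.1, r.1.1)) ?_)
      (S1.and (S1.comp mv_S1 (f := fun r : (ℕ × ℕ) × T2 => (r.2.2, r.1.2)) ?_) (hne ?_ ?_))))
    (S1.or (S1.rstep ?_ ?_ hk) (S1.rstep ?_ ?_ hk))))))))))
  all_goals
    repeat' first
      | with_reducible exact Primrec.const _
      | with_reducible exact P.id
      | with_reducible exact Primrec.fst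
      | with_reducible exact Primrec.snd
      | with_reducible apply P.fst
      | with_reducible apply P.snd
      | with_reducible apply P.cons
      | with_reducible apply prim_mul'
      | with_reducible apply prim_var'
      | with_reducible apply prim_bin
      | with_reducible apply P.pair

theorem der_stN {p : T2} : Der StN p ↔ NE p.1 p.2 := by
  constructor
  · intro h
    induction h with
    | mk l a _ hs ih =>
      rcases hs with ⟨r, rfl, h, h'⟩ | ⟨r, rfl, h, h'⟩ | ⟨r, rfl, h, h'⟩ | ⟨r, rfl, h, h'⟩ | ⟨r, rfl, h, h'⟩ |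
        ⟨r, rfl, h, h'⟩ | ⟨r, rfl, h, h'⟩ | ⟨r, rfl, h, h'⟩ | ⟨r, rfl, h, h'⟩ | ⟨r, rfl, h, h'⟩ | ⟨r, rfl, h, h'⟩
      · obtain ⟨⟨h1, h2⟩, h3, h4, h5⟩ := h'
        rw [← h2] at h3
        rw [← h1] at h5
        have h3' := sk_eqv h3
        have h5' := sk_eqv h5
        rw [sk_esk] at h3' h5'
        exact .pl h3' (spn_sk h4) h5'
      · obtain ⟨⟨h1, h2⟩, h3, h4, h5⟩ := h'
        rw [← h2] at h3
        rw [← h1] at h5
        have h3' := sk_eqv h3
        have h5' := sk_eqv h5
        rw [sk_esk] at h3' h5'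
        exact .pr h3' (spn_sk h4) h5'
      · exact .cong h'.1 (ih (r.1.2, r.2.1) (h (r.1.2, r.2.1) (by simp))) h'.2
      · exact .binj _ _ _ _ h'
      · exact .binl _ _ _ _ (ih _ (h r.2.1 (by simp)))
      · exact .binr _ _ _ _ (ih _ (h r.2.2 (by simp)))
      · exact .vb _ _ _ h'
      · exact .bv _ _ _ h'
      · exact .vv h'.1 h'.2.1 h'.2.2
      · obtain ⟨⟨h1, h2⟩, h3⟩ := h'
        rw [← h1, ← h2] at h3
        exact .mull _ _ (eqv_sk_iff.2 h3) (ih _ (h r.1 (by simp)))
      · obtain ⟨⟨h1, h2⟩, h3⟩ := h'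
        rw [← h1, ← h2] at h3
        exact .mulr (eqv_sk_iff.2 h3) (ih _ (h r.2.1 (by simp)))
  · obtain ⟨s, t⟩ := p
    intro h
    change NE s t at h
    induction h with
    | @pl s t T U h1 h2 h3 =>
      refine .mk [] _ (by simp) (Or.inl ⟨((s, t), ((esk s, esk t), (emb T, emb U))), rfl, by simp,
        ⟨rfl, rfl⟩, ?_, emb_spn h2, ?_⟩)
      · have := emb_eqv h1
        rwa [emb_sk] at this
      · have := emb_eqv h3
        rwa [emb_sk] at this
    | @pr s t T U h1 h2 h3 =>
      refine .mk [] _ (by simp) (Or.inr (Or.inl ⟨((t, s), ((esk t, esk s), (emb T, emb U))), rfl, by simp,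
        ⟨rfl, rfl⟩, ?_, emb_spn h2, ?_⟩))
      · have := emb_eqv h1
        rwa [emb_sk] at this
      · have := emb_eqv h3
        rwa [emb_sk] at this
    | @cong s s' t t' h1 _ h2 ih =>
      exact .mk [(s', t')] _ (by simpa using ih)
        (Or.inr (Or.inr (Or.inl ⟨((s, s'), (t', t)), rfl, by simp, h1, h2⟩)))
    | @binj j j' z w z' w' hj =>
      exact .mk [] _ (by simp)
        (Or.inr (Or.inr (Or.inr (Or.inl ⟨((j, j'), ((z, w), (z', w'))), rfl, by simp, hj⟩))))
    | @binl z z' j j' w w' _ ih =>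
      exact .mk [(z, z')] _ (by simpa using ih)
        (Or.inr (Or.inr (Or.inr (Or.inr (Or.inl ⟨((j, j'), ((z, z'), (w, w'))), rfl, by simp, trivial⟩)))))
    | @binr w w' j j' z z' _ ih =>
      exact .mk [(w, w')] _ (by simpa using ih)
        (Or.inr (Or.inr (Or.inr (Or.inr (Or.inr (Or.inl
          ⟨((j, j'), ((z, z'), (w, w'))), rfl, by simp, trivial⟩))))))
    | @vb s y j z w hv =>
      exact .mk [] _ (by simp)
        (Or.inr (Or.inr (Or.inr (Or.inr (Or.inr (Or.inr (Or.inl
          ⟨((y, j), ((z, w), s)), rfl, by simp, hv⟩)))))))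
    | @bv s y j z w hv =>
      exact .mk [] _ (by simp)
        (Or.inr (Or.inr (Or.inr (Or.inr (Or.inr (Or.inr (Or.inr (Or.inl
          ⟨((y, j), ((z, w), s)), rfl, by simp, hv⟩))))))))
    | @vv s t y y' h1 h2 h3 =>
      exact .mk [] _ (by simp)
        (Or.inr (Or.inr (Or.inr (Or.inr (Or.inr (Or.inr (Or.inr (Or.inr (Or.inl
          ⟨((y, y'), (s, t)), rfl, by simp, h1, h2, h3⟩)))))))))
    | @mull a a' s t h1 _ ih =>
      exact .mk [(a, a')] _ (by simpa using ih)
        (Or.inr (Or.inr (Or.inr (Or.inr (Or.inr (Or.inr (Or.inr (Or.inr (Or.inr (Or.inl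
          ⟨((a, a'), ((s, t), (esk a, esk a'))), rfl, by simp, ⟨rfl, rfl⟩, eqv_sk_iff.1 h1⟩))))))))))
    | @mulr a a' s t h1 _ ih =>
      exact .mk [(s, t)] _ (by simpa using ih)
        (Or.inr (Or.inr (Or.inr (Or.inr (Or.inr (Or.inr (Or.inr (Or.inr (Or.inr (Or.inr
          ⟨((a, a'), ((s, t), (esk a, esk a'))), rfl, by simp, ⟨rfl, rfl⟩, eqv_sk_iff.1 h1⟩))))))))))

theorem ne_S1 : S1 fun p : T2 => NE p.1 p.2 := (S1.der stN_S1).of_eq fun _ => der_stN

/-- The word problem of the core algebras. -/
theorem core_computable : ComputablePred fun p : T2 => Eqv p.1 p.2 := by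
  rw [ComputablePred.computable_iff_re_compl_re']
  refine ⟨s1_iff_re.1 eqv_S1, s1_iff_re.1 (ne_S1.of_eq fun p => ne_iff)⟩

end Pool.Agent.DD
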