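import Pool.Agent.DD.LCan

set_option autoImplicit false

/-! # DD: expansions as a rewriting preorder, renaming of letters, terms of the same shape (/team-store/DD_Statics.md) -/

namespace Pool.Agent.DD

variable {L L' J : Type}

/-- Expansions as a rewriting preorder. -/
inductive Ex : Tm L J → Tm L J → Prop
  | refl (a : Tm L J) : Ex a a
  | trans {a b c : Tm L J} : Ex a b → Ex b c → Ex a c
  | mul {a a' b b' : Tm L J} : Ex a a' → Ex b b' → Ex (a.mul b) (a'.mul b')
  | bin {j : J} {a a' b b' : Tm L J} : Ex a a' → Ex b b' → Ex (.bin j a b) (.bin j a' b')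
  | ld (a b c : Tm L J) : Ex (a.mul (b.mul c)) ((a.mul b).mul (a.mul c))
  | lb (j : J) (a b c : Tm L J) : Ex (a.mul (.bin j b c)) (.bin j (a.mul b) (a.mul c))

theorem Ex.eqv {s t : Tm L J} (h : Ex s t) : Eqv s t := by
  induction h with
  | refl a => exact .refl a
  | trans _ _ ih1 ih2 => exact ih1.trans ih2
  | mul _ _ ih1 ih2 => exact ih1.mul ih2
  | bin _ _ ih1 ih2 => exact ih1.bin ih2
  | ld a b c => exact .ld a b c
  | lb j a b c => exact .lb j a b c

theorem Dst.ex {a b d : Tm L J} (h : Dst a b d) : Ex (a.mul b) d := by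
  induction h with
  | base b => exact .refl _
  | mul _ _ ih1 ih2 => exact (Ex.ld _ _ _).trans (ih1.mul ih2)
  | bin _ _ ih1 ih2 => exact (Ex.lb _ _ _ _).trans (ih1.bin ih2)

theorem Par.ex {s t : Tm L J} (h : Par s t) : Ex s t := by
  induction h with
  | var y => exact .refl _
  | mul _ _ hd ih1 ih2 => exact (ih1.mul ih2).trans hd.ex
  | bin _ _ ih1 ih2 => exact ih1.bin ih2

theorem Exp.ex {s t : Tm L J} (h : Exp s t) : Ex s t := by
  unfold Exp at h
  induction h with
  | refl => exact .refl _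
  | tail _ h ih => exact ih.trans h.ex

/-- Church-Rosser. -/
theorem common_ex {s t : Tm L J} (h : Eqv s t) : ∃ u, Ex s u ∧ Ex t u := by
  obtain ⟨u, h1, h2⟩ := common_exp (cls_eq.2 h)
  exact ⟨u, h1.ex, h2.ex⟩

/-- Renaming of letters. -/
def Tm.map (f : L → L') : Tm L J → Tm L' J
  | .var l => .var (f l)
  | .mul a b => (a.map f).mul (b.map f)
  | .bin j a b => .bin j (a.map f) (b.map f)

theorem Ex.map (f : L → L') {s t : Tm L J} (h : Ex s t) : Ex (s.map f) (t.map f) := by
  induction h with
  | refl a => exact .refl _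
  | trans _ _ ih1 ih2 => exact ih1.trans ih2
  | mul _ _ ih1 ih2 => exact ih1.mul ih2
  | bin _ _ ih1 ih2 => exact ih1.bin ih2
  | ld a b c => exact .ld _ _ _
  | lb j a b c => exact .lb _ _ _ _

theorem Shp.refl (t : Tm L J) : Shp t t := by
  induction t with
  | var y => exact .var y y
  | mul a b iha ihb => exact .mul iha ihb
  | bin j a b iha ihb => exact .bin j iha ihb

theorem Shp.symm {s t : Tm L J} (h : Shp s t) : Shp t s := by
  induction h with
  | var y y' => exact .var y' y
  | mul _ _ ih1 ih2 => exact .mul ih1 ih2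
  | bin j _ _ ih1 ih2 => exact .bin j ih1 ih2

theorem Shp.trans {s t u : Tm L J} (h : Shp s t) (h' : Shp t u) : Shp s u := by
  induction h generalizing u with
  | var y y' =>
    cases h' with
    | var _ y'' => exact .var y y''
  | mul _ _ ih1 ih2 =>
    cases h' with
    | mul h1 h2 => exact .mul (ih1 h1) (ih2 h2)
  | bin j _ _ ih1 ih2 =>
    cases h' with
    | bin _ h1 h2 => exact .bin j (ih1 h1) (ih2 h2)

theorem shp_map (f : L → L) (t : Tm L J) : Shp t (t.map f) := by
  induction t with
  | var y => exact .var y _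
  | mul a b iha ihb => exact .mul iha ihb
  | bin j a b iha ihb => exact .bin j iha ihb

/-- All letters are replaced by `l0`. -/
def er (l0 : L) (t : Tm L J) : Tm L J := t.map fun _ => l0

theorem shp_er (l0 : L) (t : Tm L J) : Shp t (er l0 t) := shp_map _ t

theorem Shp.er_eq (l0 : L) {s t : Tm L J} (h : Shp s t) : er l0 s = er l0 t := by
  unfold er
  induction h with
  | var y y' => rfl
  | mul _ _ ih1 ih2 =>
    change (Tm.map _ _).mul (Tm.map _ _) = (Tm.map _ _).mul (Tm.map _ _)
    rw [ih1, ih2]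
  | bin j _ _ ih1 ih2 =>
    change Tm.bin _ (Tm.map _ _) (Tm.map _ _) = Tm.bin _ (Tm.map _ _) (Tm.map _ _)
    rw [ih1, ih2]

theorem shp_of_er_eq (l0 : L) {s t : Tm L J} (h : er l0 s = er l0 t) : Shp s t :=
  (shp_er l0 s).trans (h ▸ (shp_er l0 t).symm)

end Pool.Agent.DD
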