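import Pool.Agent.DD.Cod2
import Pool.Agent.H78Ext.PrimTac

set_option autoImplicit false

/-! # DD: expansions and the failure of `EQ` are recursively enumerable -/

namespace Pool.Agent.DD

open Encodable Pool.Agent.H78Ext

/-- The steps of the inductive definition of `Ex`. -/
def ExStep (l : List (Tm ℕ ℕ × Tm ℕ ℕ)) (x : Tm ℕ ℕ × Tm ℕ ℕ) : Prop :=
  x.1 = x.2 ∨ (∃ c, (x.1, c) ∈ l ∧ (c, x.2) ∈ l) ∨
  (∃ a a' b b', x.1 = Tm.mul a b ∧ x.2 = Tm.mul a' b' ∧ (a, a') ∈ l ∧ (b, b') ∈ l) ∨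
  (∃ j a a' b b', x.1 = Tm.bin j a b ∧ x.2 = Tm.bin j a' b' ∧ (a, a') ∈ l ∧ (b, b') ∈ l) ∨
  (∃ a b c, x.1 = Tm.mul a (Tm.mul b c) ∧ x.2 = Tm.mul (Tm.mul a b) (Tm.mul a c)) ∨
  (∃ j a b c, x.1 = Tm.mul a (Tm.bin j b c) ∧ x.2 = Tm.bin j (Tm.mul a b) (Tm.mul a c))

theorem der_ExStep (x : Tm ℕ ℕ × Tm ℕ ℕ) : Der ExStep x ↔ Ex x.1 x.2 := by
  constructor
  · intro h
    induction h with
    | mk l x _ hs ih =>
      obtain ⟨s, t⟩ := x
      rcases hs with h | ⟨c, h1, h2⟩ | ⟨a, a', b, b', h1, h2, h3, h4⟩ |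
        ⟨j, a, a', b, b', h1, h2, h3, h4⟩ | ⟨a, b, c, h1, h2⟩ | ⟨j, a, b, c, h1, h2⟩
      · change s = t at h
        subst h
        exact .refl _
      · exact (ih _ h1).trans (ih _ h2)
      · change s = _ at h1
        change t = _ at h2
        subst h1
        subst h2
        exact .mul (ih _ h3) (ih _ h4)
      · change s = _ at h1
        change t = _ at h2
        subst h1
        subst h2
        exact .bin (ih _ h3) (ih _ h4)
      · change s = _ at h1
        change t = _ at h2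
        subst h1
        subst h2
        exact .ld _ _ _
      · change s = _ at h1
        change t = _ at h2
        subst h1
        subst h2
        exact .lb _ _ _ _
  · obtain ⟨s, t⟩ := x
    intro h
    change Ex s t at h
    induction h with
    | refl a => exact .mk [] _ (by simp) (Or.inl rfl)
    | @trans a b c _ _ ih1 ih2 =>
      refine .mk [(a, b), (b, c)] _ ?_ (Or.inr (Or.inl ⟨b, by simp, by simp⟩))
      intro x hx
      simp only [List.mem_cons, List.not_mem_nil, or_false] at hx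
      rcases hx with rfl | rfl
      · exact ih1
      · exact ih2
    | @mul a a' b b' _ _ ih1 ih2 =>
      refine .mk [(a, a'), (b, b')] _ ?_ (Or.inr (Or.inr (Or.inl
        ⟨a, a', b, b', rfl, rfl, by simp, by simp⟩)))
      intro x hx
      simp only [List.mem_cons, List.not_mem_nil, or_false] at hx
      rcases hx with rfl | rfl
      · exact ih1
      · exact ih2
    | @bin j a a' b b' _ _ ih1 ih2 =>
      refine .mk [(a, a'), (b, b')] _ ?_ (Or.inr (Or.inr (Or.inr (Or.inl
        ⟨j, a, a', b, b', rfl, rfl, by simp, by simp⟩))))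
      intro x hx
      simp only [List.mem_cons, List.not_mem_nil, or_false] at hx
      rcases hx with rfl | rfl
      · exact ih1
      · exact ih2
    | ld a b c =>
      exact .mk [] _ (by simp) (Or.inr (Or.inr (Or.inr (Or.inr (Or.inl ⟨a, b, c, rfl, rfl⟩)))))
    | lb j a b c =>
      exact .mk [] _ (by simp) (Or.inr (Or.inr (Or.inr (Or.inr (Or.inr ⟨j, a, b, c, rfl, rfl⟩)))))

section Auto

variable {β : Type} [Primcodable β]

private theorem sx_mul {f g : β → Tm ℕ ℕ} (hf : Primrec f) (hg : Primrec g) :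
    Primrec (fun x => (f x).mul (g x)) := prim_mul.comp hf hg

private theorem sx_var {f : β → ℕ} (hf : Primrec f) :
    Primrec (fun x => (Tm.var (f x) : Tm ℕ ℕ)) := prim_var.comp hf

private theorem sx_yv {f : β → ℕ} (hf : Primrec f) : Primrec (fun x => cD.yv (f x)) :=
  Primrec.fst.comp (prim_dl.comp hf)

private theorem sx_kl {f : β → ℕ} (hf : Primrec f) : Primrec (fun x => cD.kl (f x)) :=
  Primrec.snd.comp (prim_dl.comp hf)

private theorem sx_last {f : β → Tm ℕ ℕ} (hf : Primrec f) : Primrec (fun x => lastL (f x)) :=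
  prim_lastL.comp hf

private theorem sx_ends {f : β → Tm ℕ ℕ} (hf : Primrec f) : Primrec (fun x => endsL (f x)) :=
  prim_endsL.comp hf

private theorem sx_count {f : β → ℕ} {g : β → List ℕ} (hf : Primrec f) (hg : Primrec g) :
    Primrec (fun x => (g x).count (f x)) := prim_count.comp hf hg

private theorem sx_eq {γ : Type} [Primcodable γ] {f g : β → γ} (hf : Primrec f) (hg : Primrec g) :
    S1 fun x => f x = g x := by
  classical
  exact S1.prim (primrecPred_eq hf hg)

private theorem sx_ne {γ : Type} [Primcodable γ] {f g : β → γ} (hf : Primrec f) (hg : Primrec g) :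
    S1 fun x => f x ≠ g x := by
  classical
  exact S1.prim (primrecPred_eq hf hg).not

private theorem sx_mem {γ : Type} [Primcodable γ] {f : β → γ} {g : β → List γ} (hf : Primrec f)
    (hg : Primrec g) : S1 fun x => f x ∈ g x := S1.prim (primrecPred_mem hf hg)

private theorem sx_nmem {γ : Type} [Primcodable γ] {f : β → γ} {g : β → List γ} (hf : Primrec f)
    (hg : Primrec g) : S1 fun x => f x ∉ g x := S1.prim (primrecPred_mem hf hg).not

end Auto

private theorem s1_ExStep : S1 fun x : List (Tm ℕ ℕ × Tm ℕ ℕ) × (Tm ℕ ℕ × Tm ℕ ℕ) =>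
    ExStep x.1 x.2 := by
  unfold ExStep
  refine S1.or (sx_eq ?_ ?_) (S1.or (S1.ex (S1.and (sx_mem ?_ ?_) (sx_mem ?_ ?_)))
    (S1.or (S1.ex (S1.ex (S1.ex (S1.ex (S1.and (sx_eq ?_ ?_) (S1.and (sx_eq ?_ ?_)
      (S1.and (sx_mem ?_ ?_) (sx_mem ?_ ?_))))))))
    (S1.or (S1.ex (S1.ex (S1.ex (S1.ex (S1.ex (S1.and (sx_eq ?_ ?_) (S1.and (sx_eq ?_ ?_)
      (S1.and (sx_mem ?_ ?_) (sx_mem ?_ ?_)))))))))
    (S1.or (S1.ex (S1.ex (S1.ex (S1.and (sx_eq ?_ ?_) (sx_eq ?_ ?_)))))
    (S1.ex (S1.ex (S1.ex (S1.ex (S1.and (sx_eq ?_ ?_) (sx_eq ?_ ?_))))))))))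
  all_goals
    repeat' first
      | with_reducible exact Primrec.const _
      | with_reducible exact P.id
      | with_reducible exact Primrec.fst
      | with_reducible exact Primrec.snd
      | with_reducible apply P.fst
      | with_reducible apply P.snd
      | with_reducible apply P.cons
      | with_reducible apply P.append
      | with_reducible apply sx_mul
      | with_reducible apply sx_var
      | with_reducible apply prim_bin
      | with_reducible apply sx_yv
      | with_reducible apply sx_kl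
      | with_reducible apply sx_last
      | with_reducible apply sx_ends
      | with_reducible apply sx_count
      | with_reducible apply P.pair

/-- `S1.der`, `prim_mul`, `prim_bin`. -/
theorem s1_Ex : S1 fun x : Tm ℕ ℕ × Tm ℕ ℕ => Ex x.1 x.2 :=
  (S1.der s1_ExStep).of_eq der_ExStep

/-- The arguments of `NEQ`: `((S, p, q), (T, T'))`. -/
abbrev NX : Type := (List ℕ × List ℕ × List ℕ) × (Tm ℕ ℕ × Tm ℕ ℕ)

/-- The steps of the inductive definition of `NEQ`. -/
def NStep (r : List NX) (x : NX) : Prop :=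
  (∃ l l', x.2 = (Tm.var l, Tm.var l') ∧
    (cD.yv l ≠ cD.yv l' ∨ ∃ i, (cD.kl l' ++ x.1.2.2).count i ≠ (cD.kl l ++ x.1.2.1).count i)) ∨
  (∃ a a' z z', x.2 = (Tm.mul a z, Tm.mul a' z') ∧ (x.1, (z, z')) ∈ r) ∨
  (∃ a a' z z' l i, x.2 = (Tm.mul a z, Tm.mul a' z') ∧ l ∈ endsL z ∧ i ∉ x.1.1 ++ cD.kl l ∧
    (cD.kl (lastL a')).count i ≠ (cD.kl (lastL a)).count i) ∨
  (∃ a a' z z' l, x.2 = (Tm.mul a z, Tm.mul a' z') ∧ l ∈ endsL z ∧
    ((x.1.1 ++ cD.kl l, cD.kl (lastL a'), cD.kl (lastL a)), (a, a')) ∈ r) ∨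
  (∃ j j' z z' w w', x.2 = (Tm.bin j z w, Tm.bin j' z' w') ∧ ((x.1, (z, z')) ∈ r ∨ (x.1, (w, w')) ∈ r))

theorem der_NStep (x : NX) : Der NStep x ↔ NEQ cD x.1.1 x.1.2.1 x.1.2.2 x.2.1 x.2.2 := by
  constructor
  · intro h
    induction h with
    | mk r x _ hs ih =>
      obtain ⟨⟨S, p, q⟩, T, T'⟩ := x
      rcases hs with ⟨l, l', h1, h2⟩ | ⟨a, a', z, z', h1, h2⟩ | ⟨a, a', z, z', l, i, h1, h2, h3, h4⟩ |
        ⟨a, a', z, z', l, h1, h2, h3⟩ | ⟨j, j', z, z', w, w', h1, h2 | h2⟩
      · obtain ⟨rfl, rfl⟩ := Prod.mk.inj h1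
        exact .var h2
      · obtain ⟨rfl, rfl⟩ := Prod.mk.inj h1
        exact .mulr a a' (ih _ h2)
      · obtain ⟨rfl, rfl⟩ := Prod.mk.inj h1
        exact .mulc p q z' i ((mem_endsL z l).1 h2) h3 h4
      · obtain ⟨rfl, rfl⟩ := Prod.mk.inj h1
        exact .mull p q z' ((mem_endsL z l).1 h2) (ih _ h3)
      · obtain ⟨rfl, rfl⟩ := Prod.mk.inj h1
        exact .binl j j' w w' (ih _ h2)
      · obtain ⟨rfl, rfl⟩ := Prod.mk.inj h1
        exact .binr j j' z z' (ih _ h2)
  · obtain ⟨⟨S, p, q⟩, T, T'⟩ := x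
    intro h
    change NEQ cD S p q T T' at h
    induction h with
    | @var S p q l l' h => exact .mk [] _ (by simp) (Or.inl ⟨l, l', rfl, h⟩)
    | @mulr S p q a a' z z' _ ih =>
      exact .mk [((S, p, q), (z, z'))] _ (by simpa using ih)
        (Or.inr (Or.inl ⟨a, a', z, z', rfl, by simp⟩))
    | @mulc S p q a a' z z' l i h1 h2 h3 =>
      exact .mk [] _ (by simp)
        (Or.inr (Or.inr (Or.inl ⟨a, a', z, z', l, i, rfl, (mem_endsL z l).2 h1, h2, h3⟩)))
    | @mull S p q a a' z z' l h1 _ ih =>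
      exact .mk [((S ++ cD.kl l, cD.kl (lastL a'), cD.kl (lastL a)), (a, a'))] _
        (by simpa using ih)
        (Or.inr (Or.inr (Or.inr (Or.inl ⟨a, a', z, z', l, rfl, (mem_endsL z l).2 h1, by simp⟩))))
    | @binl S p q j j' z z' w w' _ ih =>
      exact .mk [((S, p, q), (z, z'))] _ (by simpa using ih)
        (Or.inr (Or.inr (Or.inr (Or.inr ⟨j, j', z, z', w, w', rfl, Or.inl (by simp)⟩))))
    | @binr S p q j j' z z' w w' _ ih =>
      exact .mk [((S, p, q), (w, w'))] _ (by simpa using ih)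
        (Or.inr (Or.inr (Or.inr (Or.inr ⟨j, j', z, z', w, w', rfl, Or.inr (by simp)⟩))))

private theorem s1_NStep : S1 fun x : List NX × NX => NStep x.1 x.2 := by
  unfold NStep
  refine S1.or (S1.ex (S1.ex (S1.and (sx_eq ?_ ?_) (S1.or (sx_ne ?_ ?_) (S1.ex (sx_ne ?_ ?_))))))
    (S1.or (S1.ex (S1.ex (S1.ex (S1.ex (S1.and (sx_eq ?_ ?_) (sx_mem ?_ ?_))))))
    (S1.or (S1.ex (S1.ex (S1.ex (S1.ex (S1.ex (S1.ex (S1.and (sx_eq ?_ ?_) (S1.and (sx_mem ?_ ?_)
      (S1.and (sx_nmem ?_ ?_) (sx_ne ?_ ?_))))))))))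
    (S1.or (S1.ex (S1.ex (S1.ex (S1.ex (S1.ex (S1.and (sx_eq ?_ ?_) (S1.and (sx_mem ?_ ?_)
      (sx_mem ?_ ?_))))))))
    (S1.ex (S1.ex (S1.ex (S1.ex (S1.ex (S1.ex (S1.and (sx_eq ?_ ?_)
      (S1.or (sx_mem ?_ ?_) (sx_mem ?_ ?_))))))))))))
  all_goals
    repeat' first
      | with_reducible exact Primrec.const _
      | with_reducible exact P.id
      | with_reducible exact Primrec.fst
      | with_reducible exact Primrec.snd
      | with_reducible apply P.fst
      | with_reducible apply P.snd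
      | with_reducible apply P.cons
      | with_reducible apply P.append
      | with_reducible apply sx_mul
      | with_reducible apply sx_var
      | with_reducible apply prim_bin
      | with_reducible apply sx_yv
      | with_reducible apply sx_kl
      | with_reducible apply sx_last
      | with_reducible apply sx_ends
      | with_reducible apply sx_count
      | with_reducible apply P.pair

theorem s1_NEQ : S1 fun x : NX => NEQ cD x.1.1 x.1.2.1 x.1.2.2 x.2.1 x.2.2 :=
  (S1.der s1_NStep).of_eq der_NStep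

end Pool.Agent.DD
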