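import Pool.Agent.DD.TrW
import Pool.Agent.DD.BB2
import Pool.Agent.DD.S1Ex
import Pool.Agent.DD.EqS1

set_option autoImplicit false

/-! # DD: the word problem of free (partially) endomorphic algebras is solvable: assembly -/

namespace Pool.Agent.DD

open Encodable Pool.Agent.H78Ext

variable {e f : ℕ} (n : Fin e → ℕ) (m : Fin f → ℕ) (Y : Type) [Primcodable Y]

/-- Failure of `Sim`. -/
theorem not_sim_iff (x : Tm ℕ ℕ × Tm ℕ ℕ) : ¬ Sim cD x.1 x.2 ↔ NE (er 0 x.1) (er 0 x.2) ∨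
    ∃ T1 T1', Ex x.1 T1 ∧ Ex x.2 T1' ∧ Shp T1 T1' ∧ NEQ cD [] [] [] T1 T1' := by
  rw [sim_iff cD 0, ne_iff, not_and_or]
  refine or_congr Iff.rfl ?_
  constructor
  · intro h
    push Not at h
    obtain ⟨T1, T1', h1, h2, h3, h4⟩ := h
    exact ⟨T1, T1', h1, h2, h3, (neq_iff cD h3).2 h4⟩
  · rintro ⟨T1, T1', h1, h2, h3, h4⟩ h
    exact (neq_iff cD h3).1 h4 (h T1 T1' h1 h2 h3)

theorem s1_not_sim : S1 fun x : Tm ℕ ℕ × Tm ℕ ℕ => ¬ Sim cD x.1 x.2 := by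
  refine S1.of_eq ?_ fun x => (not_sim_iff x).symm
  refine S1.or ?_ ?_
  · exact ne_S1.comp (f := fun x : Tm ℕ ℕ × Tm ℕ ℕ => (er 0 x.1, er 0 x.2))
      (Primrec.pair (prim_er.comp Primrec.fst) (prim_er.comp Primrec.snd))
  · refine S1.ex (S1.ex (S1.and ?_ (S1.and ?_ (S1.and ?_ ?_))))
    · exact s1_Ex.comp (f := fun x : ((Tm ℕ ℕ × Tm ℕ ℕ) × Tm ℕ ℕ) × Tm ℕ ℕ => (x.1.1.1, x.1.2))
        (Primrec.pair (Primrec.fst.comp (Primrec.fst.comp Primrec.fst)) (Primrec.snd.comp Primrec.fst))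
    · exact s1_Ex.comp (f := fun x : ((Tm ℕ ℕ × Tm ℕ ℕ) × Tm ℕ ℕ) × Tm ℕ ℕ => (x.1.1.2, x.2))
        (Primrec.pair (Primrec.snd.comp (Primrec.fst.comp Primrec.fst)) Primrec.snd)
    · exact (S1.prim prim_shp).comp (f := fun x : ((Tm ℕ ℕ × Tm ℕ ℕ) × Tm ℕ ℕ) × Tm ℕ ℕ => (x.1.2, x.2))
        (Primrec.pair (Primrec.snd.comp Primrec.fst) Primrec.snd)
    · exact s1_NEQ.comp (f := fun x : ((Tm ℕ ℕ × Tm ℕ ℕ) × Tm ℕ ℕ) × Tm ℕ ℕ =>
        (((([] : List ℕ), ([] : List ℕ), ([] : List ℕ)), (x.1.2, x.2)) : NX))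
        (Primrec.pair (Primrec.const _) (Primrec.pair (Primrec.snd.comp Primrec.fst) Primrec.snd))

/-- Equality of translations. -/
def EZ (z z' : ZZ e f Y) : Prop :=
  (∃ w, z = .inl w ∧ z' = .inl w) ∨ ∃ T T', z = .inr T ∧ z' = .inr T' ∧ Sim cD T T'

/-- `FreeEq s t ↔ EZ (tr s) (tr t)`. -/
theorem freeEq_iff_EZ {n : Fin e → ℕ} {m : Fin f → ℕ} {Y : Type} [Primcodable Y] (s t : Trm n m Y) :
    FreeEq s t ↔ EZ Y (tr s) (tr t) :=
  ⟨tr_of_freeEq, freeEq_of_tr⟩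

omit [Primcodable Y] in
theorem not_EZ_iff (x : ZZ e f Y × ZZ e f Y) : ¬ EZ Y x.1 x.2 ↔
    (∃ w w', x.1 = .inl w ∧ x.2 = .inl w' ∧ w ≠ w') ∨ (∃ w T, x.1 = .inl w ∧ x.2 = .inr T) ∨
    (∃ T w, x.1 = .inr T ∧ x.2 = .inl w) ∨ (∃ T T', x.1 = .inr T ∧ x.2 = .inr T' ∧ ¬ Sim cD T T') := by
  obtain ⟨z, z'⟩ := x
  unfold EZ
  rcases z with w | T <;> rcases z' with w' | T' <;> simp [eq_comm]

/-- The failure of `EZ` is r.e. -/
theorem s1_not_EZ : S1 fun x : ZZ e f Y × ZZ e f Y => ¬ EZ Y x.1 x.2 := by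
  classical
  refine S1.of_eq ?_ fun x => (not_EZ_iff Y x).symm
  refine S1.or (S1.ex (S1.ex (S1.and ?_ (S1.and ?_ ?_)))) (S1.or (S1.ex (S1.ex (S1.and ?_ ?_)))
    (S1.or (S1.ex (S1.ex (S1.and ?_ ?_))) (S1.ex (S1.ex (S1.and ?_ (S1.and ?_ ?_))))))
  · exact S1.prim (PrimrecRel.comp Primrec.eq (P.fst (P.fst (P.fst P.id)))
      (Primrec.sumInl.comp (P.snd (P.fst P.id))))
  · exact S1.prim (PrimrecRel.comp Primrec.eq (P.snd (P.fst (P.fst P.id)))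
      (Primrec.sumInl.comp (P.snd P.id)))
  · exact S1.prim (PrimrecRel.comp Primrec.eq (P.snd (P.fst P.id)) (P.snd P.id)).not
  · exact S1.prim (PrimrecRel.comp Primrec.eq (P.fst (P.fst (P.fst P.id)))
      (Primrec.sumInl.comp (P.snd (P.fst P.id))))
  · exact S1.prim (PrimrecRel.comp Primrec.eq (P.snd (P.fst (P.fst P.id)))
      (Primrec.sumInr.comp (P.snd P.id)))
  · exact S1.prim (PrimrecRel.comp Primrec.eq (P.fst (P.fst (P.fst P.id)))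
      (Primrec.sumInr.comp (P.snd (P.fst P.id))))
  · exact S1.prim (PrimrecRel.comp Primrec.eq (P.snd (P.fst (P.fst P.id)))
      (Primrec.sumInl.comp (P.snd P.id)))
  · exact S1.prim (PrimrecRel.comp Primrec.eq (P.fst (P.fst (P.fst P.id)))
      (Primrec.sumInr.comp (P.snd (P.fst P.id))))
  · exact S1.prim (PrimrecRel.comp Primrec.eq (P.snd (P.fst (P.fst P.id)))
      (Primrec.sumInr.comp (P.snd P.id)))
  · exact s1_not_sim.comp (P.pair (P.snd (P.fst P.id)) (P.snd P.id))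

/-- **The word problem is solvable.** -/
theorem main_theorem : ComputablePred fun p : Wd e f Y × Wd e f Y =>
    ∃ s t : Trm n m Y, s.word = p.1 ∧ t.word = p.2 ∧ FreeEq s t := by
  rw [ComputablePred.computable_iff_re_compl_re']
  refine ⟨s1_iff_re.1 (s1_freeEq n m Y), s1_iff_re.1 ?_⟩
  have key : ∀ p : Wd e f Y × Wd e f Y, (¬ ∃ s t : Trm n m Y, s.word = p.1 ∧ t.word = p.2 ∧ FreeEq s t) ↔
      (¬ TW n m p.1 ∨ ¬ TW n m p.2) ∨ ∃ z : ZZ e f Y, ∃ z' : ZZ e f Y,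
        (∃ s : Trm n m Y, s.word = p.1 ∧ tr s = z) ∧ (∃ t : Trm n m Y, t.word = p.2 ∧ tr t = z') ∧
          ¬ EZ Y z z' := by
    intro p
    constructor
    · intro h
      by_cases h1 : TW n m p.1
      · by_cases h2 : TW n m p.2
        · obtain ⟨s, hs⟩ := h1
          obtain ⟨t, ht⟩ := h2
          refine Or.inr ⟨tr s, tr t, ⟨s, hs, rfl⟩, ⟨t, ht, rfl⟩, fun h3 => h ⟨s, t, hs, ht, ?_⟩⟩
          exact (freeEq_iff_EZ s t).2 h3
        · exact Or.inl (Or.inr h2)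
      · exact Or.inl (Or.inl h1)
    · rintro ((h | h) | ⟨z, z', ⟨s, hs, rfl⟩, ⟨t, ht, rfl⟩, h⟩) ⟨s', t', hs', ht', h'⟩
      · exact h ⟨s', hs'⟩
      · exact h ⟨t', ht'⟩
      · have e1 : s = s' := word_injective n m (hs.trans hs'.symm)
        have e2 : t = t' := word_injective n m (ht.trans ht'.symm)
        subst e1 e2
        exact h ((freeEq_iff_EZ s t).1 h')
  refine S1.of_eq ?_ fun p => (key p).symm
  refine S1.or (S1.or ?_ ?_) ?_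
  · exact (S1.prim (prim_tw n m).not).comp Primrec.fst
  · exact (S1.prim (prim_tw n m).not).comp Primrec.snd
  · refine S1.ex (S1.ex (S1.and ?_ (S1.and ?_ ?_)))
    · exact (s1_tr n m Y).comp (f := fun x : ((Wd e f Y × Wd e f Y) × ZZ e f Y) × ZZ e f Y => (x.1.1.1, x.1.2))
        (Primrec.pair (Primrec.fst.comp (Primrec.fst.comp Primrec.fst)) (Primrec.snd.comp Primrec.fst))
    · exact (s1_tr n m Y).comp (f := fun x : ((Wd e f Y × Wd e f Y) × ZZ e f Y) × ZZ e f Y => (x.1.1.2, x.2))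
        (Primrec.pair (Primrec.snd.comp (Primrec.fst.comp Primrec.fst)) Primrec.snd)
    · exact (s1_not_EZ Y).comp (f := fun x : ((Wd e f Y × Wd e f Y) × ZZ e f Y) × ZZ e f Y => (x.1.2, x.2))
        (Primrec.pair (Primrec.snd.comp Primrec.fst) Primrec.snd)

end Pool.Agent.DD
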