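import Pool.Agent.H78Ext.RE
import Pool.Agent.H78Ext.CeTac

set_option autoImplicit false

/-! # DD: inductively defined sets with an r.e. step relation are r.e. -/

namespace Pool.Agent.DD

open Pool.Agent.H78Ext

variable {α : Type}

/-- The set inductively defined by the steps `Step l a`: `a` follows from the elements of `l`. -/
inductive Der (Step : List α → α → Prop) : α → Prop
  | mk (l : List α) (a : α) : (∀ b ∈ l, Der Step b) → Step l a → Der Step a

/-- Valid derivations; the later entries are the earlier steps. -/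
def VD (Step : List α → α → Prop) : List (List α × α) → Prop
  | [] => True
  | x :: D => Step x.1 x.2 ∧ (∀ b ∈ x.1, ∃ y ∈ D, y.2 = b) ∧ VD Step D

theorem VD.der {Step : List α → α → Prop} {D : List (List α × α)} (h : VD Step D) :
    ∀ x ∈ D, Der Step x.2 := by
  induction D with
  | nil => simp
  | cons x D ih =>
    obtain ⟨h1, h2, h3⟩ := h
    intro y hy
    rcases List.mem_cons.1 hy with rfl | hy
    · refine .mk y.1 y.2 (fun b hb => ?_) h1
      obtain ⟨z, hz, rfl⟩ := h2 b hb
      exact ih h3 z hz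
    · exact ih h3 y hy

theorem VD.append {Step : List α → α → Prop} {D D' : List (List α × α)} (h : VD Step D) (h' : VD Step D') :
    VD Step (D ++ D') := by
  induction D with
  | nil => exact h'
  | cons x D ih =>
    obtain ⟨h1, h2, h3⟩ := h
    refine ⟨h1, fun b hb => ?_, ih h3⟩
    obtain ⟨y, hy, hyb⟩ := h2 b hb
    exact ⟨y, List.mem_append_left _ hy, hyb⟩

theorem VD.exists_list {Step : List α → α → Prop} (l : List α)
    (h : ∀ b ∈ l, ∃ D, VD Step D ∧ ∃ y ∈ D, y.2 = b) : ∃ D, VD Step D ∧ ∀ b ∈ l, ∃ y ∈ D, y.2 = b := by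
  induction l with
  | nil => exact ⟨[], trivial, by simp⟩
  | cons b l ih =>
    obtain ⟨D, hD, hb⟩ := h b (by simp)
    obtain ⟨D', hD', hb'⟩ := ih fun c hc => h c (List.mem_cons_of_mem _ hc)
    refine ⟨D ++ D', hD.append hD', fun c hc => ?_⟩
    rcases List.mem_cons.1 hc with rfl | hc
    · obtain ⟨y, hy, hyc⟩ := hb
      exact ⟨y, List.mem_append_left _ hy, hyc⟩
    · obtain ⟨y, hy, hyc⟩ := hb' c hc
      exact ⟨y, List.mem_append_right _ hy, hyc⟩

theorem Der.exists_VD {Step : List α → α → Prop} {a : α} (h : Der Step a) : ∃ D, VD Step D ∧ ∃ y ∈ D, y.2 = a := by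
  induction h with
  | mk l a hl hs ih =>
    obtain ⟨D, hD, hb⟩ := VD.exists_list l ih
    exact ⟨(l, a) :: D, ⟨hs, hb, hD⟩, (l, a), by simp, rfl⟩

/-- `VD` in terms of indices. -/
theorem VD_iff {Step : List α → α → Prop} (D : List (List α × α)) : VD Step D ↔
    ∀ i ∈ List.range D.length, ∃ x : List α × α, D[i]? = some x ∧ Step x.1 x.2 ∧
      ∀ b ∈ x.1, ∃ j, i < j ∧ ∃ y : List α × α, D[j]? = some y ∧ y.2 = b := by
  induction D with
  | nil => simp [VD]
  | cons x D ih =>
    have key : (∀ b ∈ x.1, ∃ y ∈ D, y.2 = b) ↔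
        ∀ b ∈ x.1, ∃ j, 0 < j ∧ ∃ y : List α × α, (x :: D)[j]? = some y ∧ y.2 = b := by
      refine forall₂_congr fun b _ => ?_
      constructor
      · rintro ⟨y, hy, hyb⟩
        obtain ⟨k, hk⟩ := List.mem_iff_getElem?.1 hy
        exact ⟨k + 1, Nat.succ_pos k, y, by simpa using hk, hyb⟩
      · rintro ⟨j, hj, y, hy, hyb⟩
        obtain ⟨k, rfl⟩ : ∃ k, j = k + 1 := ⟨j - 1, by omega⟩
        exact ⟨y, List.mem_iff_getElem?.2 ⟨k, by simpa using hy⟩, hyb⟩
    constructor
    · rintro ⟨h1, h2, h3⟩ i hi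
      cases i with
      | zero => exact ⟨x, rfl, h1, key.1 h2⟩
      | succ i =>
        obtain ⟨y, hy, hs, hb⟩ := ih.1 h3 i (by simpa using hi)
        refine ⟨y, by simpa using hy, hs, fun b hbb => ?_⟩
        obtain ⟨j, hj, z, hz, hzb⟩ := hb b hbb
        exact ⟨j + 1, by omega, z, by simpa using hz, hzb⟩
    · intro h
      refine ⟨?_, ?_, ih.2 fun i hi => ?_⟩
      · obtain ⟨y, hy, hs, -⟩ := h 0 (by simp)
        obtain rfl : x = y := by simpa using hy
        exact hs
      · obtain ⟨y, hy, -, hb⟩ := h 0 (by simp)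
        obtain rfl : x = y := by simpa using hy
        exact key.2 hb
      · obtain ⟨y, hy, hs, hb⟩ := h (i + 1) (by simpa using hi)
        refine ⟨y, by simpa using hy, hs, fun b hbb => ?_⟩
        obtain ⟨j, hj, z, hz, hzb⟩ := hb b hbb
        obtain ⟨k, rfl⟩ : ∃ k, j = k + 1 := ⟨j - 1, by omega⟩
        exact ⟨k, by omega, z, by simpa using hz, hzb⟩

theorem Der_iff {Step : List α → α → Prop} (a : α) : Der Step a ↔ ∃ D : List (List α × α),
    (∀ i ∈ List.range D.length, ∃ x : List α × α, D[i]? = some x ∧ Step x.1 x.2 ∧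
      ∀ b ∈ x.1, ∃ j, i < j ∧ ∃ y : List α × α, D[j]? = some y ∧ y.2 = b) ∧
    ∃ i : ℕ, ∃ y : List α × α, D[i]? = some y ∧ y.2 = a := by
  constructor
  · intro h
    obtain ⟨D, hD, y, hy, hya⟩ := h.exists_VD
    obtain ⟨i, hi⟩ := List.mem_iff_getElem?.1 hy
    exact ⟨D, (VD_iff D).1 hD, i, y, hi, hya⟩
  · rintro ⟨D, hD, i, y, hy, rfl⟩
    exact ((VD_iff D).2 hD).der y (List.mem_iff_getElem?.2 ⟨i, hy⟩)

/-- The generic theorem. -/
theorem S1.der [Primcodable α] {Step : List α → α → Prop} (hS : S1 fun x : List α × α => Step x.1 x.2) :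
    S1 (Der Step) := by
  refine S1.of_eq ?_ (fun a => (Der_iff a).symm)
  refine S1.ex (S1.and ?_ ?_)
  · refine S1.ball (β := ℕ) ?_ (Primrec.list_range.comp (Primrec.list_length.comp Primrec.snd))
    refine S1.ex (S1.and ?_ (S1.and ?_ ?_))
    · refine S1.prim ?_
      have h1 : Primrec fun x : ((α × List (List α × α)) × ℕ) × (List α × α) => (x.1.1.2)[x.1.2]? :=
        Primrec.list_getElem?.comp (Primrec.snd.comp (Primrec.fst.comp Primrec.fst))
          (Primrec.snd.comp Primrec.fst)
      have h2 : Primrec fun x : ((α × List (List α × α)) × ℕ) × (List α × α) => some x.2 :=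
        Primrec.option_some.comp Primrec.snd
      classical
      exact PrimrecRel.comp Primrec.eq h1 h2
    · exact hS.comp (Primrec.pair (Primrec.fst.comp Primrec.snd) (Primrec.snd.comp Primrec.snd))
    · refine S1.ball (β := α) ?_ (Primrec.fst.comp Primrec.snd)
      refine S1.ex (S1.and ?_ (S1.ex (S1.and ?_ ?_)))
      · refine S1.prim (PrimrecRel.comp Primrec.nat_lt ?_ Primrec.snd)
        exact Primrec.snd.comp (Primrec.fst.comp (Primrec.fst.comp Primrec.fst))
      · refine S1.prim ?_
        classical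
        refine PrimrecRel.comp Primrec.eq (Primrec.list_getElem?.comp ?_ ?_) (Primrec.option_some.comp Primrec.snd)
        · exact Primrec.snd.comp (Primrec.fst.comp (Primrec.fst.comp (Primrec.fst.comp (Primrec.fst.comp
            Primrec.fst))))
        · exact Primrec.snd.comp Primrec.fst
      · refine S1.prim ?_
        classical
        refine PrimrecRel.comp Primrec.eq (Primrec.snd.comp Primrec.snd) ?_
        exact Primrec.snd.comp (Primrec.fst.comp Primrec.fst)
  · refine S1.ex (S1.ex (S1.and ?_ ?_))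
    · refine S1.prim ?_
      classical
      refine PrimrecRel.comp Primrec.eq (Primrec.list_getElem?.comp ?_ ?_) (Primrec.option_some.comp Primrec.snd)
      · exact Primrec.snd.comp (Primrec.fst.comp Primrec.fst)
      · exact Primrec.snd.comp Primrec.fst
    · refine S1.prim ?_
      classical
      refine PrimrecRel.comp Primrec.eq (Primrec.snd.comp Primrec.snd) ?_
      exact Primrec.fst.comp (Primrec.fst.comp Primrec.fst)

end Pool.Agent.DD
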