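import Pool.Agent.DD.Sig
import Pool.Agent.DD.Ind

set_option autoImplicit false

/-! # DD: unique readability of words (Polish notation), the set of words of terms is primitive recursive -/

namespace Pool.Agent.DD

open Pool.Agent.H78Ext

variable {e f : ℕ} (n : Fin e → ℕ) (m : Fin f → ℕ) {Y : Type}

/-- The words over the alphabet of symbols and letters. -/
abbrev Wd (e f : ℕ) (Y : Type) : Type := List (Sy e f ⊕ Y)

/-- Number of terms of which a word is composed (computed from the right end of the word); `none` for wrong words. -/
def cnt : Wd e f Y → Option ℕ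
  | [] => some 0
  | .inr _ :: w => (cnt w).map fun k => k + 1
  | .inl h :: w => (cnt w).bind fun k => if ar n m h ≤ k then some (k - ar n m h + 1) else none

/-- The list of terms of which a word is composed. -/
def parse : Wd e f Y → Option (List (Trm n m Y))
  | [] => some []
  | .inr y :: w => (parse w).map fun l => .var y :: l
  | .inl h :: w => (parse w).bind fun l =>
      if hl : ar n m h ≤ l.length then
        some (.app h (fun i => l[i.1]'(lt_of_lt_of_le i.2 hl)) :: l.drop (ar n m h)) else none

private theorem parse_list (l : List (Trm n m Y))
    (hl : ∀ t ∈ l, ∀ w : Wd e f Y, parse n m (t.word ++ w) = (parse n m w).map fun r => t :: r)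
    (w : Wd e f Y) :
    parse n m ((l.map Trm.word).flatten ++ w) = (parse n m w).map fun r => l ++ r := by
  induction l with
  | nil => simp
  | cons t l ih =>
    have := ih (fun s hs => hl s (List.mem_cons_of_mem _ hs))
    rw [List.map_cons, List.flatten_cons, List.append_assoc, hl t (List.mem_cons_self ..), this,
      Option.map_map]
    rfl

/-- Induction on `t`. In the case `app h x` first show by induction on lists `l` of terms (for which the statement is known):
`parse ((l.map word).flatten ++ w) = (parse w).map fun r => l ++ r`, and use it for `l = List.ofFn x`. -/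
theorem parse_word (t : Trm n m Y) (w : Wd e f Y) :
    parse n m (t.word ++ w) = (parse n m w).map fun l => t :: l := by
  induction t generalizing w with
  | var y => rfl
  | app h x ih =>
    have e1 : (List.ofFn fun i => (x i).word) = (List.ofFn x).map Trm.word := by
      rw [List.map_ofFn]
      rfl
    have e2 : parse n m ((Trm.app h x).word ++ w) =
        (parse n m ((List.ofFn fun i => (x i).word).flatten ++ w)).bind fun l =>
          if hl : ar n m h ≤ l.length then
            some (.app h (fun i => l[i.1]'(lt_of_lt_of_le i.2 hl)) :: l.drop (ar n m h))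
          else none := rfl
    rw [e2, e1, parse_list n m _ (by
      intro t ht
      obtain ⟨i, rfl⟩ := (List.mem_ofFn' _ _).1 ht
      exact ih i)]
    cases parse n m w with
    | none => rfl
    | some r =>
      have h1 : ar n m h ≤ (List.ofFn x ++ r).length := by simp
      simp only [Option.map_some, Option.bind_some]
      rw [dif_pos h1]
      congr 3
      · funext i
        rw [List.getElem_append_left (by simp)]
        simp
      · exact List.drop_left' (by simp)

/-- Unique readability: `parse_word` with `w = []`. -/
theorem word_injective : Function.Injective (Trm.word : Trm n m Y → Wd e f Y) := by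
  intro s t h
  have h1 := parse_word n m s []
  have h2 := parse_word n m t []
  rw [h, h2] at h1
  have h3 : (some [t] : Option (List (Trm n m Y))) = some [s] := h1
  simpa using h3.symm

/-- Induction on `w`: `List.take_append_drop`, `List.ofFn` of `l[i]`, `i < ar n m h`, is `l.take (ar n m h)`. -/
theorem parse_flatten {w : Wd e f Y} {l : List (Trm n m Y)} (h : parse n m w = some l) :
    w = (l.map Trm.word).flatten := by
  induction w generalizing l with
  | nil =>
    have : l = [] := by
      have h1 : (some [] : Option (List (Trm n m Y))) = some l := h
      simpa using h1.symm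
    subst this
    rfl
  | cons a w ih =>
    cases a with
    | inr y =>
      have h1 : (parse n m w).map (fun l => Trm.var y :: l) = some l := h
      obtain ⟨r, hr, rfl⟩ := Option.map_eq_some_iff.1 h1
      rw [ih hr]
      rfl
    | inl s =>
      have h1 : ((parse n m w).bind fun l => if hl : ar n m s ≤ l.length then
            some (Trm.app s (fun i => l[i.1]'(lt_of_lt_of_le i.2 hl)) :: l.drop (ar n m s))
          else none) = some l := h
      obtain ⟨r, hr, h2⟩ := Option.bind_eq_some_iff.1 h1
      by_cases hl : ar n m s ≤ r.length
      · rw [dif_pos hl] at h2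
        obtain rfl := Option.some.inj h2
        have e1 : (List.ofFn fun i : Fin (ar n m s) => (r[i.1]'(lt_of_lt_of_le i.2 hl)).word) =
            (r.take (ar n m s)).map Trm.word := by
          apply List.ext_getElem
          · simp [hl]
          · intro i h1 h2
            simp
        have e2 : (Trm.app s (fun i => r[i.1]'(lt_of_lt_of_le i.2 hl)) : Trm n m Y).word =
            .inl s :: ((r.take (ar n m s)).map Trm.word).flatten := by
          rw [← e1]
          rfl
        rw [List.map_cons, List.flatten_cons, e2, List.cons_append, ← List.flatten_append,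
          ← List.map_append, List.take_append_drop, ← ih hr]
      · rw [dif_neg hl] at h2
        cases h2

/-- Induction on `w`. -/
theorem cnt_eq (w : Wd e f Y) : cnt n m w = (parse n m w).map List.length := by
  induction w with
  | nil => rfl
  | cons a w ih =>
    cases a with
    | inr y =>
      have h1 : cnt n m (.inr y :: w) = (cnt n m w).map fun k => k + 1 := rfl
      have h2 : parse n m (.inr y :: w) = (parse n m w).map fun l => Trm.var y :: l := rfl
      rw [h1, h2, ih, Option.map_map, Option.map_map]
      rfl
    | inl s =>
      have h1 : cnt n m (.inl s :: w) = (cnt n m w).bind fun k =>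
        if ar n m s ≤ k then some (k - ar n m s + 1) else none := rfl
      have h2 : parse n m (.inl s :: w) = (parse n m w).bind fun l =>
          if hl : ar n m s ≤ l.length then
            some (.app s (fun i => l[i.1]'(lt_of_lt_of_le i.2 hl)) :: l.drop (ar n m s))
          else none := rfl
      rw [h1, h2, ih]
      cases parse n m w with
      | none => rfl
      | some r =>
        simp only [Option.map_some, Option.bind_some]
        by_cases hl : ar n m s ≤ r.length
        · rw [dif_pos hl, if_pos hl]
          simp
        · rw [dif_neg hl, if_neg hl]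
          rfl

/-- `w` is the word of a term. -/
def TW (w : Wd e f Y) : Prop := ∃ t : Trm n m Y, t.word = w

/-- `parse_word`, `parse_flatten`, `cnt_eq`. -/
theorem tw_iff (w : Wd e f Y) : TW n m w ↔ cnt n m w = some 1 := by
  constructor
  · rintro ⟨t, rfl⟩
    have h := parse_word n m t []
    rw [List.append_nil] at h
    rw [cnt_eq, h]
    rfl
  · intro h
    rw [cnt_eq] at h
    obtain ⟨l, hl, h1⟩ := Option.map_eq_some_iff.1 h
    obtain ⟨t, rfl⟩ := List.length_eq_one_iff.1 h1
    refine ⟨t, ?_⟩
    rw [parse_flatten n m hl]
    simp

/-- Lists of words of terms. -/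
theorem tw_list {l : List (Wd e f Y)} (h : ∀ w ∈ l, TW n m w) : ∃ l' : List (Trm n m Y), l'.map Trm.word = l := by
  induction l with
  | nil => exact ⟨[], rfl⟩
  | cons w l ih =>
    obtain ⟨t, ht⟩ := h w (List.mem_cons_self ..)
    obtain ⟨l', hl'⟩ := ih fun v hv => h v (List.mem_cons_of_mem _ hv)
    exact ⟨t :: l', by rw [List.map_cons, ht, hl']⟩

/-- The arities are primitive recursive (finite domain: `Primrec.dom_fintype` or `Primrec.dom_finite`). -/
theorem prim_ar : Primrec (ar n m) := by
  exact Primrec.dom_finite _

/-- `cnt` is a `List.foldr`; `Primrec.list_foldr`, `Primrec.sumCasesOn`, `Primrec.option_bind`, ... -/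
theorem prim_cnt [Primcodable Y] : Primrec (cnt (Y := Y) n m) := by
  have hg : Primrec fun x : ℕ × Sy e f =>
      if ar n m x.2 ≤ x.1 then some (x.1 - ar n m x.2 + 1) else (none : Option ℕ) := by
    have ha : Primrec fun x : ℕ × Sy e f => ar n m x.2 := (prim_ar n m).comp Primrec.snd
    refine Primrec.ite (Primrec.nat_le.comp ha Primrec.fst) ?_ (Primrec.const none)
    exact Primrec.option_some.comp (Primrec.succ.comp (Primrec.nat_sub.comp Primrec.fst ha))
  have h : Primrec fun w : Wd e f Y => w.foldr (fun a (r : Option ℕ) =>
      Sum.casesOn (motive := fun _ => Option ℕ) a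
        (fun s => r.bind fun k => if ar n m s ≤ k then some (k - ar n m s + 1) else none)
        (fun _ => r.map fun k => k + 1)) (some 0) := by
    refine Primrec.list_foldr (f := fun w : Wd e f Y => w) (g := fun _ => some 0)
      (h := fun _ (p : (Sy e f ⊕ Y) × Option ℕ) =>
      Sum.casesOn (motive := fun _ => Option ℕ) p.1
        (fun s => p.2.bind fun k => if ar n m s ≤ k then some (k - ar n m s + 1) else none)
        (fun _ => p.2.map fun k => k + 1)) Primrec.id (Primrec.const _) ?_
    refine Primrec.sumCasesOn (f := fun q : Wd e f Y × ((Sy e f ⊕ Y) × Option ℕ) => q.2.1)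
      (g := fun q s => q.2.2.bind fun k => if ar n m s ≤ k then some (k - ar n m s + 1) else none)
      (h := fun q _ => q.2.2.map fun k => k + 1) (Primrec.fst.comp Primrec.snd) ?_ ?_
    · refine Primrec.option_bind (Primrec.snd.comp (Primrec.snd.comp Primrec.fst)) ?_
      exact hg.comp (Primrec.pair Primrec.snd (Primrec.snd.comp Primrec.fst))
    · refine Primrec.option_map (Primrec.snd.comp (Primrec.snd.comp Primrec.fst)) ?_
      exact Primrec.succ.comp Primrec.snd
  refine h.of_eq fun w => ?_
  induction w with
  | nil => rfl
  | cons a w ih =>
    rw [List.foldr_cons, ih]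
    cases a <;> rfl

/-- `tw_iff`, `prim_cnt`. -/
theorem prim_tw [Primcodable Y] : PrimrecPred (TW (Y := Y) n m) := by
  have h : PrimrecPred fun w : Wd e f Y => cnt n m w = some 1 :=
    PrimrecRel.comp Primrec.eq (prim_cnt n m) (Primrec.const _)
  exact h.of_eq fun w => (tw_iff n m w).symm

end Pool.Agent.DD
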