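import Pool.Agent.DD.Snd
import Pool.Agent.DD.Wd

set_option autoImplicit false

/-! # DD: the operations of type `(E, F)` on static words and extended terms (section 3 of /team-store/DD_Statics.md) -/

namespace Pool.Agent.DD

open Encodable

variable {e f : ℕ} {Y B B' : Type} [Primcodable Y]

/-- Homomorphisms of structures with `mul`, `bin`, `tau`. -/
structure XS.Hom {B B' J I : Type} (A : XS B J I) (A' : XS B' J I) (φ : B → B') : Prop where
  mul : ∀ a b, φ (A.mul a b) = A'.mul (φ a) (φ b)
  bin : ∀ j a b, φ (A.bin j a b) = A'.bin j (φ a) (φ b)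
  tau : ∀ i a, φ (A.tau i a) = A'.tau i (φ a)

/-- The arguments which are not static. -/
def nonst {W B : Type} (l : List (W ⊕ B)) : List B := l.filterMap Sum.getRight?

/-- The static arguments. -/
def stat {W B : Type} (l : List (W ⊕ B)) : List W := l.filterMap Sum.getLeft?

/-- The pattern of the static arguments. -/
def pat {W B : Type} (l : List (W ⊕ B)) : List (Option W) := l.map Sum.getLeft?

/-- The element which codes the nonempty list `z :: l`. -/
def lst (A : XS B ℕ ℕ) (z : B) (l : List B) : B := l.foldr (A.bin 0) z

/-- The operation with symbol `h` and pattern `P`, applied to the nonempty list `z :: l`. -/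
def opc (A : XS B ℕ ℕ) (h : Sy e f) (P : List (Option (Wd e f Y))) (z : B) (l : List B) : B :=
  A.bin (encode (h, P) + 1) z (lst A z l)

/-- The operations of type `(E, F)` on the disjoint union of the set of words (static values) and `B`.
`g ∈ F`: if all arguments are static, the value is static. `t ∈ E`: the last argument `z` is distinguished; if it is static, then it is the value;
otherwise the value is `tau z` if all other arguments are static, and a product if not. -/
def opG (A : XS B ℕ ℕ) (h : Sy e f) (l : List (Wd e f Y ⊕ B)) : Wd e f Y ⊕ B :=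
  match h with
  | .inr g => match nonst l with
    | [] => .inl (.inl (.inr g) :: (stat l).flatten)
    | z :: l' => .inr (opc A (.inr g : Sy e f) (pat l) z l')
  | .inl t => match l.getLast? with
    | none => .inl []
    | some (.inl s) => .inl s
    | some (.inr z) => match nonst l.dropLast with
      | [] => .inr (A.tau (encode (t, stat l.dropLast)) z)
      | w :: l' => .inr (A.mul (opc A (.inl t : Sy e f) (pat l.dropLast) w l') z)

private theorem hom_lst {A : XS B ℕ ℕ} {A' : XS B' ℕ ℕ} {φ : B → B'} (hφ : XS.Hom A A' φ)
    (z : B) (l : List B) : φ (lst A z l) = lst A' (φ z) (l.map φ) := by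
  induction l with
  | nil => rfl
  | cons b l ih =>
    change φ (A.bin 0 b (lst A z l)) = A'.bin 0 (φ b) (lst A' (φ z) (l.map φ))
    rw [hφ.bin, ih]

private theorem nonst_map {W : Type} (φ : B → B') (l : List (W ⊕ B)) :
    nonst (l.map (Sum.map id φ)) = (nonst l).map φ := by
  induction l with
  | nil => rfl
  | cons b l ih =>
    unfold nonst at ih ⊢
    cases b with
    | inl s => simpa using ih
    | inr z => simpa using ih

private theorem stat_map {W : Type} (φ : B → B') (l : List (W ⊕ B)) :
    stat (l.map (Sum.map id φ)) = stat l := by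
  induction l with
  | nil => rfl
  | cons b l ih =>
    unfold stat at ih ⊢
    cases b with
    | inl s => simp
    | inr z => simp

private theorem pat_map {W : Type} (φ : B → B') (l : List (W ⊕ B)) :
    pat (l.map (Sum.map id φ)) = pat l := by
  unfold pat
  rw [List.map_map]
  refine List.map_congr_left fun b _ => ?_
  cases b <;> rfl

/-- Naturality of `lst` and `opc`. -/
theorem hom_opc {A : XS B ℕ ℕ} {A' : XS B' ℕ ℕ} {φ : B → B'} (hφ : XS.Hom A A' φ) (h : Sy e f)
    (P : List (Option (Wd e f Y))) (z : B) (l : List B) :
    φ (opc A h P z l) = opc A' h P (φ z) (l.map φ) := by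
  unfold opc
  rw [hφ.bin, hom_lst hφ]

/-- Naturality of `opG`: `nonst (l.map (Sum.map id φ)) = (nonst l).map φ`, `stat` and `pat` do not change. -/
theorem hom_opG {A : XS B ℕ ℕ} {A' : XS B' ℕ ℕ} {φ : B → B'} (hφ : XS.Hom A A' φ) (h : Sy e f)
    (l : List (Wd e f Y ⊕ B)) :
    Sum.map id φ (opG A h l) = opG A' h (l.map (Sum.map id φ)) := by
  cases h with
  | inr g =>
    have e1 : ∀ (A : XS B ℕ ℕ) (l : List (Wd e f Y ⊕ B)), opG A (.inr g : Sy e f) l =
        match nonst l with
        | [] => .inl (.inl (.inr g) :: (stat l).flatten)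
        | z :: l' => .inr (opc A (.inr g : Sy e f) (pat l) z l') := fun _ _ => rfl
    have e2 : ∀ (A : XS B' ℕ ℕ) (l : List (Wd e f Y ⊕ B')), opG A (.inr g : Sy e f) l =
        match nonst l with
        | [] => .inl (.inl (.inr g) :: (stat l).flatten)
        | z :: l' => .inr (opc A (.inr g : Sy e f) (pat l) z l') := fun _ _ => rfl
    rw [e1, e2, nonst_map, stat_map, pat_map]
    cases nonst l with
    | nil => rfl
    | cons z l' =>
      change Sum.inr (φ (opc A (.inr g : Sy e f) (pat l) z l')) =
        Sum.inr (opc A' (.inr g : Sy e f) (pat l) (φ z) (l'.map φ))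
      rw [hom_opc hφ]
  | inl t =>
    have e1 : ∀ (A : XS B ℕ ℕ) (l : List (Wd e f Y ⊕ B)), opG A (.inl t : Sy e f) l =
        match l.getLast? with
        | none => .inl []
        | some (.inl s) => .inl s
        | some (.inr z) => match nonst l.dropLast with
          | [] => .inr (A.tau (encode (t, stat l.dropLast)) z)
          | w :: l' => .inr (A.mul (opc A (.inl t : Sy e f) (pat l.dropLast) w l') z) :=
      fun _ _ => rfl
    have e2 : ∀ (A : XS B' ℕ ℕ) (l : List (Wd e f Y ⊕ B')), opG A (.inl t : Sy e f) l =
        match l.getLast? with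
        | none => .inl []
        | some (.inl s) => .inl s
        | some (.inr z) => match nonst l.dropLast with
          | [] => .inr (A.tau (encode (t, stat l.dropLast)) z)
          | w :: l' => .inr (A.mul (opc A (.inl t : Sy e f) (pat l.dropLast) w l') z) :=
      fun _ _ => rfl
    rw [e1, e2, List.getLast?_map, ← List.map_dropLast, nonst_map, stat_map, pat_map]
    cases l.getLast? with
    | none => rfl
    | some b =>
      cases b with
      | inl s => rfl
      | inr z =>
        simp only [Option.map_some, Sum.map_inr]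
        cases nonst l.dropLast with
        | nil =>
          simp only [List.map_nil, Sum.map_inr]
          rw [hφ.tau]
        | cons w l' =>
          simp only [List.map_cons, Sum.map_inr]
          rw [hφ.mul, hom_opc hφ]

/-- The algebra of type `(E, F)` on the words and `B`. -/
def algG (n : Fin e → ℕ) (m : Fin f → ℕ) (Y : Type) [Primcodable Y] (A : XS B ℕ ℕ) : Alg n m (Wd e f Y ⊕ B) :=
  fun h x => opG A h (List.ofFn x)

/-- `hom_opG`, `List.map_ofFn`. -/
theorem hom_algG {n : Fin e → ℕ} {m : Fin f → ℕ} {A : XS B ℕ ℕ} {A' : XS B' ℕ ℕ} {φ : B → B'} (hφ : XS.Hom A A' φ)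
    (h : Sy e f) (x : Fin (ar n m h) → Wd e f Y ⊕ B) :
    Sum.map id φ (algG n m Y A h x) = algG n m Y A' h fun i => Sum.map id φ (x i) := by
  unfold algG
  rw [hom_opG hφ, List.map_ofFn]
  rfl

/-- If the laws hold in `A` then `algG` is partially endomorphic: for `t ∈ E` and arguments `a` the map
`x ↦ t(a, x)` is `Sum.map id φ` where `φ` is `A.tau i` or `A.mul b`; both are homomorphisms `A → A` by the laws; then `hom_algG`
with `A' = A`. (`List.ofFn (Fin.snoc a x) = List.ofFn a ++ [x]`, `List.getLast?`, `List.dropLast`.) -/
theorem algG_PE (n : Fin e → ℕ) (m : Fin f → ℕ) {A : XS B ℕ ℕ} (hA : A.Laws) : (algG n m Y A).PE := by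
  intro t a h x
  have key : ∃ φ : B → B, XS.Hom A A φ ∧
      ∀ y, (algG n m Y A).act t a y = Sum.map id φ y := by
    have e1 : ∀ y, (algG n m Y A).act t a y =
        match (List.ofFn a ++ [y]).getLast? with
        | none => .inl []
        | some (.inl s) => .inl s
        | some (.inr z) => match nonst (List.ofFn a ++ [y]).dropLast with
          | [] => .inr (A.tau (encode (t, stat (List.ofFn a ++ [y]).dropLast)) z)
          | w :: l' =>
            .inr (A.mul (opc A (.inl t : Sy e f) (pat (List.ofFn a ++ [y]).dropLast) w l') z) := by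
      intro y
      have e2 : List.ofFn a ++ [y] = List.ofFn (Fin.snoc (α := fun _ => Wd e f Y ⊕ B) a y) := by
        rw [List.ofFn_succ', List.concat_eq_append]
        simp
      rw [e2]
      rfl
    simp only [List.getLast?_concat, List.dropLast_concat] at e1
    cases hc : nonst (List.ofFn a) with
    | nil =>
      refine ⟨A.tau (encode (t, stat (List.ofFn a))), ⟨hA.tau_mul _, hA.tau_bin _,
        hA.tau_comm _⟩, fun y => ?_⟩
      rw [e1, hc]
      cases y <;> rfl
    | cons w l' =>
      refine ⟨A.mul (opc A (.inl t : Sy e f) (pat (List.ofFn a)) w l'), ⟨hA.ld _,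
        fun j => hA.lb j _, fun i => hA.mul_tau i _⟩, fun y => ?_⟩
      rw [e1, hc]
      cases y <;> rfl
  obtain ⟨φ, hφ, h1⟩ := key
  rw [h1, hom_algG hφ]
  congr 1
  funext i
  exact (h1 _).symm

end Pool.Agent.DD
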