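import Pool.Agent.DD.SbsF

set_option autoImplicit false

/-! # DD package GraftF: grafts (4.5) of /team-store/DD_Proof.md. `graft b W` is `W >- b`. -/

namespace Pool.Agent.DD

theorem kT_graft (W b : TT) : kT (graft b W) = kT W * kT b := by
  induction W with
  | var u =>
    change kT b = kT (.var u) * kT b
    rw [kT_var, one_mul]
  | mul A B _ ih =>
    change kT (A.mul (graft b B)) = kT (A.mul B) * kT b
    rw [kT_mul, kT_mul, ih, mul_assoc]
  | bin j _ _ _ _ => exact j.elim

theorem pos_graft (W b : TT) : Pos (graft b W) = Pos W ∪ (fun q => kT W * q) '' Pos b := by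
  induction W with
  | var u =>
    change Pos b = {1} ∪ (fun q => kT (.var u) * q) '' Pos b
    have h : (fun q => kT (.var u : TT) * q) = id := by
      funext q
      rw [kT_var, one_mul]
      rfl
    rw [h, Set.image_id]
    exact (Set.union_eq_self_of_subset_left (Set.singleton_subset_iff.2 (one_mem_pos b))).symm
  | mul A B _ ih =>
    change Pos (A.mul (graft b B)) = Pos (A.mul B) ∪ (fun q => kT (A.mul B) * q) '' Pos b
    rw [posF_mul, posF_mul, ih, Set.image_union, Set.union_assoc, Set.image_image]
    have h : (fun q => gen (cls A) * (kT B * q)) = (fun q => kT (A.mul B) * q) := by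
      funext q
      rw [kT_mul, mul_assoc]
    rw [h]
  | bin j _ _ _ _ => exact j.elim

theorem graft_graft (V W b : TT) : graft b (graft W V) = graft (graft b W) V := by
  induction V with
  | var u => rfl
  | mul A B _ ih =>
    change A.mul (graft b (graft W B)) = A.mul (graft (graft b W) B)
    rw [ih]
  | bin j _ _ _ _ => exact j.elim

theorem graft_dst {A B W : TT} (b : TT) (h : Dst A B W) : Dst A (graft b B) (graft b W) := by
  induction h with
  | base B => exact Dst.base _
  | mul h1 _ _ ih => exact Dst.mul h1 ih
  | @bin j _ _ _ _ _ _ _ _ => exact j.elim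

theorem graft_par_l {W W' : TT} (b : TT) (h : Par W W') : Par (graft b W) (graft b W') := by
  induction h with
  | var y => exact Par.refl _
  | mul h1 _ hd _ ih => exact Par.mul h1 ih (graft_dst b hd)
  | @bin j _ _ _ _ _ _ _ _ => exact j.elim

theorem graft_par_r {b b' : TT} (W : TT) (h : Par b b') : Par (graft b W) (graft b' W) := by
  induction W with
  | var u => exact h
  | mul A B _ ih => exact Par.mul (Par.refl A) ih (Dst.base _)
  | bin j _ _ _ _ => exact j.elim

theorem graft_exp {W W' b b' : TT} (h : Exp W W') (h' : Exp b b') : Exp (graft b W) (graft b' W') := by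
  have h1 : Exp (graft b W) (graft b W') :=
    Relation.ReflTransGen.lift (graft b) (fun _ _ h => graft_par_l b h) _ _ h
  have h2 : Exp (graft b W') (graft b' W') :=
    Relation.ReflTransGen.lift (fun b => graft b W') (fun _ _ h => graft_par_r W' h) _ _ h'
  exact Exp.trans h1 h2

/-- `W >- b` expands to `b[W]`. -/
theorem graft_exp_sbs (W b : TT) : Exp (graft b W) (sbs W b) := by
  induction W with
  | var u =>
    have h : ∀ c : TT, sbs (.var u) c = c := by
      intro c
      induction c with
      | var v => rfl
      | mul A B iha ihb =>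
        change (sbs (.var u) A).mul (sbs (.var u) B) = A.mul B
        rw [iha, ihb]
      | bin j _ _ _ _ => exact j.elim
    rw [h b]
    exact Exp.refl _
  | mul A B _ ih =>
    exact Exp.trans (exp_mul (Exp.refl A) ih) (dst_sbs A B b).exp
  | bin j _ _ _ _ => exact j.elim

private theorem graftF_dd (W b : TT) : Exp (graft (dd b) W) (dd (graft b W)) := by
  induction W with
  | var u => exact Exp.refl _
  | mul A B _ ih =>
    exact Exp.trans (exp_mul (par_self_dd A).exp ih) (dst_star (dd A) (dd (graft b B))).exp
  | bin j _ _ _ _ => exact j.elim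

/-- `W >- dd^n b` expands to `dd^n (W >- b)`. -/
theorem graft_exp_dd (n : ℕ) (W b : TT) : Exp (graft (dd^[n] b) W) (dd^[n] (graft b W)) := by
  induction n with
  | zero => exact Exp.refl _
  | succ n ih =>
    rw [Function.iterate_succ_apply', Function.iterate_succ_apply']
    exact Exp.trans (graftF_dd W _) (exp_dd ih)

end Pool.Agent.DD
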