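import Pool.Agent.DD.Core5

set_option autoImplicit false

/-! # DD: left cancellation in the free algebra (6.6), unique labels (C3) (/team-store/DD_Proof.md) -/

namespace Pool.Agent.DD

variable {Y J : Type}

/-- `RC s t`: some element of the monoid sends `s` and `t` to the same element. -/
def RC (s t : El Y J) : Prop := ∃ m : Mon Y J, m • s = m • t

theorem rc_pi {m : Mon Y J} {s t : El Y J} (h : m • s = m • t) : pi s = pi t := by
  have h1 : piM m • pi s = piM m • pi t := by rw [← pi_smul, ← pi_smul, h]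
  rw [pi_eq_kap_smul s, pi_eq_kap_smul t] at h1 ⊢
  rw [← mul_smul, ← mul_smul] at h1
  rw [mul_cancel_l (smul_x_inj h1)]

theorem rc_bisim : Bisim (RC (Y := Y) (J := J)) where
  b1 := by
    rintro E E' ⟨m, h⟩
    exact rc_pi h
  b2 := by
    rintro j j' z w z' w' ⟨m, h⟩
    rw [smul_bin, smul_bin] at h
    obtain ⟨h1, h2, h3⟩ := bin_inj h
    exact ⟨h1, ⟨m, h2⟩, ⟨m, h3⟩⟩
  b3 := by
    rintro m y j z w ⟨n, h⟩
    rw [smul_bin, ← mul_smul] at h
    exact smul_var_ne_bin h
  b3' := by
    rintro m y j z w ⟨n, h⟩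
    rw [smul_bin, ← mul_smul] at h
    exact smul_var_ne_bin h.symm
  b4 := by
    rintro m m' y y' ⟨n, h⟩
    rw [← mul_smul, ← mul_smul] at h
    exact (smul_var_inj h).2
  b5 := by
    rintro a a' s t ⟨m, h⟩ hp
    have h0 := h
    rw [smul_mul', smul_mul'] at h
    have h1 : m • a = m • a' := left_eq h (by rw [pi_smul, pi_smul, hp])
    refine ⟨⟨m, h1⟩, ⟨gen (m • a) * m, ?_⟩⟩
    rw [mul_smul, mul_smul, gen_smul, gen_smul, h, h1]

/-- (6.6) The monoid acts by injective maps. -/
theorem smul_cancel {m : Mon Y J} {s t : El Y J} (h : m • s = m • t) : s = t :=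
  core rc_bisim ⟨m, h⟩

/-- (6.6) Left cancellation. -/
theorem mul_left_cancel' {a s t : El Y J} (h : a.mul s = a.mul t) : s = t :=
  smul_cancel (m := gen a) (by rw [gen_smul, gen_smul, h])

/-- Equal products with left factors of the same skeleton have equal factors. -/
theorem mul_inj_pi {a a' s t : El Y J} (h : a.mul s = a'.mul t) (hp : pi a = pi a') : a = a' ∧ s = t := by
  have h1 := left_eq h hp
  rw [← h1] at h
  exact ⟨h1, mul_left_cancel' h⟩

/-- Two terms of the same shape: the same tree and the same symbols, arbitrary letters. -/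
inductive Shp : Tm Y J → Tm Y J → Prop
  | var (y y' : Y) : Shp (.var y) (.var y')
  | mul {a a' b b' : Tm Y J} : Shp a a' → Shp b b' → Shp (a.mul b) (a'.mul b')
  | bin (j : J) {a a' b b' : Tm Y J} : Shp a a' → Shp b b' → Shp (.bin j a b) (.bin j a' b')

theorem shp_sk {t t' : Tm Y J} (h : Shp t t') : sk t = sk t' := by
  induction h with
  | var y y' => rfl
  | mul _ _ ih1 ih2 =>
    change (sk _).mul (sk _) = (sk _).mul (sk _)
    rw [ih1, ih2]
  | bin j _ _ ih1 _ => exact ih1

/-- (C3) Unique labels. -/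
theorem shp_unique {t t' : Tm Y J} (h : Shp t t') (he : cls t = cls t') : t = t' := by
  induction h with
  | var y y' =>
    have h1 : (1 : Mon Y J) • (El.var y : El Y J) = (1 : Mon Y J) • (El.var y' : El Y J) := by
      rw [one_smul, one_smul]; exact he
    rw [(smul_var_inj h1).2]
  | mul h1 h2 ih1 ih2 =>
    rw [cls_mul, cls_mul] at he
    obtain ⟨e1, e2⟩ := mul_inj_pi he (by rw [pi_cls, pi_cls, shp_sk h1])
    rw [ih1 e1, ih2 e2]
  | bin j h1 h2 ih1 ih2 =>
    rw [cls_bin, cls_bin] at he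
    obtain ⟨_, e1, e2⟩ := bin_inj he
    rw [ih1 e1, ih2 e2]

/-- (C3) for equivalent terms. -/
theorem shp_unique' {t t' : Tm Y J} (h : Shp t t') (he : Eqv t t') : t = t' :=
  shp_unique h (cls_eq.2 he)

end Pool.Agent.DD
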