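import Pool.Agent.DD.TrF

set_option autoImplicit false

/-! # DD package LevF: the levels (6.2) of /team-store/DD_Proof.md -/

namespace Pool.Agent.DD

variable {Y J : Type}

theorem good_smul {S : El Y J → Prop} {e : El Y J} (c : Mon Y J) (h : Good S e) : Good S (c • e) := by
  induction h with
  | var m y =>
    rw [← mul_smul]
    exact Good.var (c * m) y
  | bin j C s t _ hz hw hs ht ih =>
    rw [smul_bin]
    exact Good.bin j (c * C) s t ih (by rw [hz, mul_smul]) (by rw [hw, mul_smul]) hs ht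

theorem good_mono {S S' : El Y J → Prop} (hS : ∀ e, S e → S' e) {e : El Y J} (h : Good S e) : Good S' e := by
  induction h with
  | var m y => exact Good.var m y
  | bin j C s t _ hz hw hs ht ih => exact Good.bin j C s t ih hz hw (hS s hs) (hS t ht)

/-- (6.2)(b): `tr_exp` and `fin_ind`. -/
theorem good_exp {S : El Y J → Prop} {T T' : TT} {E : El Y J} (hT : Bd 1 T E) (hg : ∀ q ∈ Pos T, Good S (At E q))
    (h : Exp T T') : ∀ q ∈ Pos T', Good S (At E q) := by
  refine fin_ind (pos_finite T') fun q hq ih => ?_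
  by_cases hn : q ∈ Pos T
  · exact hg q hn
  · obtain ⟨v0, v1, h0, _, h3, h4, h5⟩ := tr_exp (Y := Y) (J := J) h hq hn
    have h6 := h5 1 E hT
    rw [map_one, one_mul, one_mul, one_mul] at h6
    rw [h6, ← gen_smul]
    exact good_smul _ (ih v0 h0 (h3.trans h4))

private theorem levF_kap {T : TT} {E : El Y J} (hT : Bd 1 T E) : kap E = kT T := by
  rw [bd_kap hT, map_one, one_mul]

/-- (6.2)(c) -/
theorem lev_good {D : ℕ} {E : El Y J} {q : PP} (h : Lev (D + 1) E) (hq : q ≤ kap E) : Good (Lev D) (At E q) := by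
  obtain ⟨T, hT, hg⟩ := h
  rw [levF_kap hT] at hq
  obtain ⟨N, hN⟩ := exists_mem_pos hq
  exact good_exp hT hg (exp_self_dd_iter N T) q (hN N le_rfl)

/-- (6.2)(c) -/
theorem lev_at {D : ℕ} {E : El Y J} {q : PP} (h : Lev (D + 1) E) (hq : q ≤ kap E) : Lev (D + 1) (At E q) := by
  obtain ⟨T, hT, hg⟩ := h
  have hq' := hq
  rw [levF_kap hT] at hq'
  obtain ⟨N, hN⟩ := exists_mem_pos hq'
  have hmem := hN N le_rfl
  obtain ⟨T', _, hpos, hcut⟩ := bd_cut (Y := Y) (J := J) hmem
  have h1 := hcut 1 E (bd_exp (exp_self_dd_iter N T) hT)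
  rw [map_one, one_mul] at h1
  refine ⟨T', h1, fun q' hq'' => ?_⟩
  rw [hpos] at hq''
  rw [at_at hq''.2 hq]
  exact good_exp hT hg (exp_self_dd_iter N T) q' hq''.1

/-- Every large tree with the right end serves. -/
theorem lev_large {D : ℕ} {E : El Y J} {T0 : TT} (h : Lev (D + 1) E) (hk : kT T0 = kap E) :
    ∃ N, ∀ n, N ≤ n → Bd 1 (dd^[n] T0) E ∧ ∀ q ∈ Pos (dd^[n] T0), Good (Lev D) (At E q) := by
  obtain ⟨T, hT, hg⟩ := h
  rw [levF_kap hT] at hk
  obtain ⟨N, hN⟩ := exp_of_cls (cls_eq_of_kT hk.symm)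
  exact ⟨N, fun n hn => ⟨bd_exp (hN n hn) hT, good_exp hT hg (hN n hn)⟩⟩

theorem lev_mono {D : ℕ} {E : El Y J} (h : Lev D E) : Lev (D + 1) E := by
  induction D generalizing E with
  | zero => exact h.elim
  | succ D ih =>
    obtain ⟨T, hT, hg⟩ := h
    exact ⟨T, hT, fun q hq => good_mono (fun e he => ih he) (hg q hq)⟩

theorem lev_mono_le {D D' : ℕ} (hD : D ≤ D') {E : El Y J} (h : Lev D E) : Lev D' E := by
  induction hD with
  | refl => exact h
  | step _ ih => exact lev_mono ih

/-- The number of symbols `bin`. -/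
private def levFnb : Tm Y J → ℕ
  | .var _ => 0
  | .mul a b => levFnb a + levFnb b
  | .bin _ a b => levFnb a + levFnb b + 1

private theorem levF_lev {t : Tm Y J} (h : ∀ (m : Mon Y J), ∀ v ∈ Pos (sk t),
    Good (Lev (levFnb t)) (At (m • cls t) (piM m * v))) : Lev (levFnb t + 1) (cls t) := by
  refine ⟨sk t, ?_, fun q hq => ?_⟩
  · have h1 := bd_sk t (1 : Mon Y J)
    rwa [one_smul] at h1
  · have h1 := h 1 q hq
    rwa [one_smul, map_one, one_mul] at h1

private theorem levF_good (t : Tm Y J) : ∀ (m : Mon Y J), ∀ v ∈ Pos (sk t),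
    Good (Lev (levFnb t)) (At (m • cls t) (piM m * v)) := by
  induction t with
  | var y =>
    intro m v hv
    have hv1 : v = 1 := hv
    have hk : kap (m • (El.var y : El Y J)) = piM m * 1 := by rw [kap_smul, kap_var]
    have h1 : At (m • (El.var y : El Y J)) (piM m * 1) = m • (El.var y : El Y J) := by
      rw [← hk, at_kap]
    rw [hv1, cls_var, h1]
    exact Good.var m y
  | mul a b iha ihb =>
    intro m v hv
    have hm : gen (m • cls a) * m = m * gen (cls a) := by rw [mul_eq_tri m, tri_gen]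
    have hE : m • cls (a.mul b) = (m * gen (cls a)) • cls b := by
      rw [mul_smul, gen_smul, cls_mul]
    have h1 : Bd m (sk a) (m • cls a) := bd_sk a m
    have h2 : Bd (gen (m • cls a) * m) (sk b) (m • cls (a.mul b)) := by
      rw [hm, hE]
      exact bd_sk b _
    rcases hv with hv | ⟨v', hv', rfl⟩
    · rw [bd_at_left h1 h2 hv]
      exact good_mono (fun e he => lev_mono_le (Nat.le_add_right _ _) he) (iha m v hv)
    · have h3 : piM m * (gen (cls (sk a)) * v') = piM (m * gen (cls a)) * v' := by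
        rw [bd_pos_right h1 v', hm]
      change Good _ (At _ (piM m * (gen (cls (sk a)) * v')))
      rw [h3, hE]
      exact good_mono (fun e he => lev_mono_le (Nat.le_add_left _ _) he) (ihb _ v' hv')
  | bin j a b iha ihb =>
    intro m v hv
    have hv' : v ∈ Pos (sk a) := hv
    have hka : kap (m • cls a) = piM m * kT (sk a) := bd_kap (bd_sk a m)
    have hE : m • cls (.bin j a b) = .bin j (m • cls a) (m • cls b) := by
      rw [cls_bin, smul_bin]
    have hD : levFnb a ≤ levFnb (.bin j a b) := by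
      change levFnb a ≤ levFnb a + levFnb b + 1
      omega
    have hDa : levFnb a + 1 ≤ levFnb (.bin j a b) := by
      change levFnb a + 1 ≤ levFnb a + levFnb b + 1
      omega
    have hDb : levFnb b + 1 ≤ levFnb (.bin j a b) := by
      change levFnb b + 1 ≤ levFnb a + levFnb b + 1
      omega
    rcases eq_or_lt_of_le (le_kT hv') with h | h
    · have h1 : At (m • cls (.bin j a b)) (piM m * v) = .bin j (m • cls a) (m • cls b) := by
        rw [hE, h, ← hka, ← kap_bin j (m • cls a) (m • cls b), at_kap]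
      rw [h1]
      have h2 := iha m (kT (sk a)) (kT_mem_pos _)
      rw [← hka, at_kap] at h2
      exact Good.bin j m (cls a) (cls b) (good_mono (fun e he => lev_mono_le hD he) h2) rfl rfl
        (lev_mono_le hDa (levF_lev iha)) (lev_mono_le hDb (levF_lev ihb))
    · have h1 : piM m * v < kap (m • cls a) := by
        rw [hka]
        exact mul_lt_mul_l _ h
      rw [hE, at_bin j h1]
      exact good_mono (fun e he => lev_mono_le hD he) (iha m v hv')

/-- (6.2)(d) -/
theorem lev_all (E : El Y J) : ∃ D, Lev D E := by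
  obtain ⟨t, rfl⟩ := cls_surj E
  exact ⟨_, levF_lev (levF_good t)⟩

end Pool.Agent.DD
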