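import Pool.Agent.DD.Abs
import Pool.Agent.DD.Acy

set_option autoImplicit false

/-! # DD package Ord: the linear order of `PP` (section 3 of /team-store/DD_Proof.md) -/

namespace Pool.Agent.DD

theorem smul_x_inj {p q : PP} (h : p • xF = q • xF) : p = q := (smul_var_inj h).1

theorem Lt_irrefl (p : PP) : ¬ Lt p p := sub_irrefl _

theorem Lt_trans {p q r : PP} (h1 : Lt p q) (h2 : Lt q r) : Lt p r := h1.trans h2

theorem Lt_total (p q : PP) : p = q ∨ Lt p q ∨ Lt q p := by
  rcases sub_total (p • xF) (q • xF) with h | h | h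
  · exact Or.inl (smul_x_inj h)
  · exact Or.inr (Or.inl h)
  · exact Or.inr (Or.inr h)

noncomputable instance : LinearOrder PP where
  le := Le
  lt := Lt
  le_refl p := Or.inr rfl
  le_trans p q r h1 h2 := by
    rcases h1 with h1 | rfl
    · rcases h2 with h2 | rfl
      · exact Or.inl (Lt_trans h1 h2)
      · exact Or.inl h1
    · exact h2
  lt_iff_le_not_ge p q := by
    constructor
    · intro h
      refine ⟨Or.inl h, ?_⟩
      rintro (h' | rfl)
      · exact Lt_irrefl _ (Lt_trans h h')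
      · exact Lt_irrefl _ h
    · rintro ⟨h | rfl, h'⟩
      · exact h
      · exact absurd (Or.inr rfl) h'
  le_antisymm p q h1 h2 := by
    rcases h1 with h1 | h1
    · rcases h2 with h2 | h2
      · exact absurd (Lt_trans h1 h2) (Lt_irrefl _)
      · exact h2.symm
    · exact h1
  le_total p q := by
    rcases Lt_total p q with h | h | h
    · exact Or.inl (Or.inr h)
    · exact Or.inl (Or.inl h)
    · exact Or.inr (Or.inl h)
  toDecidableLE := Classical.decRel _

theorem lt_iff {p q : PP} : p < q ↔ Sub (p • xF) (q • xF) := Iff.rfl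

theorem one_lt {m : PP} (h : m ≠ 1) : 1 < m := by
  rw [lt_iff, one_smul]
  exact sub_var_smul h

theorem one_le (m : PP) : 1 ≤ m := by
  by_cases h : m = 1
  · exact h.ge
  · exact (one_lt h).le

/-- (2.6) for `PP`: `p < [a]m'` if `p.x ≤ a`; conversely. -/
theorem lt_iff_gen {p q : PP} : p < q ↔ ∃ a m', q = gen a * m' ∧ (Sub (p • xF) a ∨ p • xF = a) := by
  rw [lt_iff, sub_iff_eps, eps_smul_var]

/-- (O1) -/
theorem mul_lt_mul_l {p q : PP} (m : PP) (h : p < q) : m * p < m * q := by
  rw [lt_iff, mul_smul, mul_smul]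
  exact sub_smul m h

/-- (O2) -/
theorem mul_lt_tri {p q : PP} (m : PP) (h : p < q) : m * p < tri m q := by
  obtain ⟨a, m', rfl, h'⟩ := lt_iff_gen.1 h
  refine lt_iff_gen.2 ⟨m • a, tri m m', by rw [map_mul, tri_gen], ?_⟩
  rcases h' with h' | h'
  · left
    rw [mul_smul]
    exact sub_smul m h'
  · right
    rw [mul_smul, h']

/-- (O3) -/
theorem le_mul_r (m k : PP) : m ≤ m * k := by
  by_cases h : k = 1
  · rw [h, mul_one]
  · have := mul_lt_mul_l m (one_lt h)
    rw [mul_one] at this
    exact this.le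

theorem lt_mul_r (m : PP) {k : PP} (h : k ≠ 1) : m < m * k := by
  have := mul_lt_mul_l m (one_lt h)
  rwa [mul_one] at this

/-- (O4) -/
theorem tri_lt_mul {p : PP} (h : p ≠ 1) (q : PP) : tri p q < p * q := by
  rw [mul_eq_tri p q]
  exact lt_mul_r _ h

theorem tri_le_mul (p q : PP) : tri p q ≤ p * q := by
  rw [mul_eq_tri p q]
  exact le_mul_r _ _

/-- (O5) -/
theorem lt_tri (p : PP) {q : PP} (h : q ≠ 1) : p < tri p q := by
  have := mul_lt_tri p (one_lt h)
  rwa [mul_one] at this

/-- (O6) -/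
theorem tri_lt_tri {p q : PP} (m : PP) (h : p < q) : tri m p < tri m q := by
  calc tri m p ≤ m * p := tri_le_mul m p
    _ < tri m q := mul_lt_tri m h

private theorem ordAux_mul (m : PP) : StrictMono (fun p : PP => m * p) :=
  fun _ _ h => mul_lt_mul_l m h

private theorem ordAux_tri (m : PP) : StrictMono (fun p : PP => tri m p) :=
  fun _ _ h => tri_lt_tri m h

private theorem ordAux_pfx {z E : FF} (h : Pfx z E) : z = E ∨ Sub z E := by
  induction h with
  | refl => exact Or.inl rfl
  | mul c h ih =>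
    right
    rcases ih with rfl | ⟨c', h'⟩
    · exact ⟨c, .refl⟩
    · exact ⟨c', .mul c h'⟩
  | bin j w h ih => exact j.elim

/-- (O7) -/
theorem mul_lt_iff {m p q : PP} : m * p < m * q ↔ p < q := by
  exact (ordAux_mul m).lt_iff_lt

theorem mul_le_iff {m p q : PP} : m * p ≤ m * q ↔ p ≤ q := by
  exact (ordAux_mul m).le_iff_le

theorem mul_cancel_l {m p q : PP} (h : m * p = m * q) : p = q := by
  exact (ordAux_mul m).injective h

theorem tri_lt_iff {m p q : PP} : tri m p < tri m q ↔ p < q := by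
  exact (ordAux_tri m).lt_iff_lt

theorem tri_le_iff {m p q : PP} : tri m p ≤ tri m q ↔ p ≤ q := by
  exact (ordAux_tri m).le_iff_le

theorem tri_cancel {m p q : PP} (h : tri m p = tri m q) : p = q := by
  exact (ordAux_tri m).injective h

theorem mul_ne_one_l {p : PP} (q : PP) (h : p ≠ 1) : p * q ≠ 1 := by
  intro h'
  have h1 := one_lt h
  have h2 := le_mul_r p q
  rw [h'] at h2
  exact absurd h1 (not_lt.2 h2)

theorem tri_ne_one {p q : PP} (h : q ≠ 1) : tri p q ≠ 1 := by
  intro h'
  have h1 := lt_tri p h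
  rw [h'] at h1
  exact absurd h1 (not_lt.2 (one_le p))

/-- (O8) -/
theorem lt_sc (p : PP) : p < sc p := by
  exact lt_iff_gen.2 ⟨p • xF, 1, by rw [mul_one]; rfl, Or.inr rfl⟩

theorem sc_le {p q : PP} (h : p < q) : sc p ≤ q := by
  obtain ⟨c, hc⟩ := lt_iff.1 h
  have e1 : (p • xF).mul c = (sc p * eps c) • xF := by
    rw [mul_smul, sc, gen_smul, ← FF_eq]
  rw [e1] at hc
  have h2 : sc p * eps c ≤ q := by
    rcases ordAux_pfx hc with h2 | h2
    · exact (smul_x_inj h2).le
    · exact (lt_iff.2 h2).le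
  exact (le_mul_r _ _).trans h2

theorem tri_sc (m p : PP) : tri m (sc p) = sc (m * p) := by
  rw [sc, sc, tri_gen, mul_smul]

/-- `kT A < [cls A]`. -/
theorem kT_lt_gen (A : TT) : kT A < gen (cls A) := by
  rw [gen_cls]
  exact lt_sc _

theorem len_tri (p q : PP) : len (tri p q) = len q := by
  induction q using Mon.ind with
  | h1 => rw [map_one]
  | h2 a q ih => rw [map_mul, len_mul, len_mul, ih, tri_gen, len_gen, len_gen]

end Pool.Agent.DD
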