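import Pool.Agent.DD.Ord

set_option autoImplicit false

/-! # DD package PosF: positions (4.1)-(4.3) of /team-store/DD_Proof.md -/

namespace Pool.Agent.DD

theorem posF_var (u : Unit) : Pos (.var u : TT) = {1} := rfl

theorem posF_mul (A B : TT) : Pos (A.mul B) = Pos A ∪ (fun q => gen (cls A) * q) '' Pos B := rfl

theorem pos_finite (T : TT) : (Pos T).Finite := by
  induction T with
  | var u => exact Set.finite_singleton _
  | mul A B iha ihb => exact iha.union (ihb.image _)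
  | bin j _ _ _ _ => exact j.elim

theorem one_mem_pos (T : TT) : 1 ∈ Pos T := by
  induction T with
  | var u => exact Set.mem_singleton _
  | mul A B iha ihb => exact Or.inl iha
  | bin j _ _ _ _ => exact j.elim

theorem kT_mem_pos (T : TT) : kT T ∈ Pos T := by
  induction T with
  | var u => exact Set.mem_singleton _
  | mul A B iha ihb => exact Or.inr ⟨kT B, ihb, (kT_mul A B).symm⟩
  | bin j _ _ _ _ => exact j.elim

theorem le_kT {T : TT} {p : PP} (h : p ∈ Pos T) : p ≤ kT T := by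
  induction T generalizing p with
  | var u =>
    have h1 : p = 1 := h
    rw [h1]
    exact one_le _
  | mul A B iha ihb =>
    rw [kT_mul]
    rcases h with h | ⟨q, hq, rfl⟩
    · exact (iha h).trans ((kT_lt_gen A).le.trans (le_mul_r _ _))
    · exact mul_le_iff.2 (ihb hq)
  | bin j _ _ _ _ => exact j.elim

/-- Induction on `V`. -/
theorem pos_star (U V : TT) : Pos (star U V) =
    {p | ∃ u ∈ Pos U, ∃ v ∈ Pos V, p = tri (gen (cls U)) v * u} ∪ (fun v => gen (cls U) * v) '' Pos V := by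
  induction V with
  | var y =>
    change Pos (U.mul (.var y)) = _
    rw [posF_mul, posF_var]
    congr 1
    ext p
    constructor
    · intro hp
      exact ⟨p, hp, 1, rfl, by rw [map_one, one_mul]⟩
    · rintro ⟨u, hu, v, hv, rfl⟩
      have hv1 : v = 1 := hv
      rw [hv1, map_one, one_mul]
      exact hu
  | mul B C ihb ihc =>
    change Pos ((star U B).mul (star U C)) = _
    have hc : gen (cls (star U B)) = tri (gen (cls U)) (gen (cls B)) := by
      rw [cls_dst (dst_star U B), tri_gen, gen_smul]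
    rw [posF_mul, hc, ihb, ihc, posF_mul]
    ext p
    constructor
    · rintro ((⟨u, hu, v, hv, rfl⟩ | ⟨v, hv, rfl⟩) | ⟨q, (⟨u, hu, v, hv, rfl⟩ | ⟨v, hv, rfl⟩), rfl⟩)
      · exact Or.inl ⟨u, hu, v, Or.inl hv, rfl⟩
      · exact Or.inr ⟨v, Or.inl hv, rfl⟩
      · exact Or.inl ⟨u, hu, gen (cls B) * v, Or.inr ⟨v, hv, rfl⟩, by rw [map_mul, mul_assoc]⟩
      · refine Or.inr ⟨gen (cls B) * v, Or.inr ⟨v, hv, rfl⟩, ?_⟩
        change gen (cls U) * (gen (cls B) * v) = tri (gen (cls U)) (gen (cls B)) * (gen (cls U) * v)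
        rw [← mul_assoc, ← mul_assoc, ← mul_eq_tri]
    · rintro (⟨u, hu, v, (hv | ⟨v, hv, rfl⟩), rfl⟩ | ⟨v, (hv | ⟨v, hv, rfl⟩), rfl⟩)
      · exact Or.inl (Or.inl ⟨u, hu, v, hv, rfl⟩)
      · refine Or.inr ⟨tri (gen (cls U)) v * u, Or.inl ⟨u, hu, v, hv, rfl⟩, ?_⟩
        change tri (gen (cls U)) (gen (cls B)) * (tri (gen (cls U)) v * u) = tri (gen (cls U)) (gen (cls B) * v) * u
        rw [map_mul, mul_assoc]
      · exact Or.inl (Or.inr ⟨v, hv, rfl⟩)
      · refine Or.inr ⟨gen (cls U) * v, Or.inr ⟨v, hv, rfl⟩, ?_⟩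
        change tri (gen (cls U)) (gen (cls B)) * (gen (cls U) * v) = gen (cls U) * (gen (cls B) * v)
        rw [← mul_assoc, ← mul_assoc, ← mul_eq_tri]
  | bin j _ _ _ _ => exact j.elim

/-- (4.2) Induction on `Dst`. -/
theorem pos_dst {A B D : TT} (h : Dst A B D) : Pos (A.mul B) ⊆ Pos D := by
  induction h with
  | base b => exact Set.Subset.rfl
  | @mul b c d e hd he ihd ihe =>
    have hc : gen (cls d) = gen ((cls A).mul (cls b)) := by rw [cls_dst hd]
    rintro p (hp | ⟨q, (hq | ⟨r, hr, rfl⟩), rfl⟩)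
    · exact Or.inl (ihd (Or.inl hp))
    · exact Or.inl (ihd (Or.inr ⟨q, hq, rfl⟩))
    · refine Or.inr ⟨gen (cls A) * r, ihe (Or.inr ⟨r, hr, rfl⟩), ?_⟩
      change gen (cls d) * (gen (cls A) * r) = gen (cls A) * (gen (cls b) * r)
      rw [hc, ← mul_assoc, ← mul_assoc, gen_mul (cls A) (cls b)]
  | @bin j _ _ _ _ _ _ _ _ => exact j.elim

theorem pos_par {T T' : TT} (h : Par T T') : Pos T ⊆ Pos T' := by
  induction h with
  | var y => exact Set.Subset.rfl
  | @mul a a' b b' d ha hb hd iha ihb =>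
    refine Set.Subset.trans ?_ (pos_dst hd)
    rintro p (hp | ⟨q, hq, rfl⟩)
    · exact Or.inl (iha hp)
    · refine Or.inr ⟨q, ihb hq, ?_⟩
      change gen (cls a') * q = gen (cls a) * q
      rw [cls_par ha]
  | @bin j _ _ _ _ _ _ _ _ => exact j.elim

theorem pos_exp {T T' : TT} (h : Exp T T') : Pos T ⊆ Pos T' := by
  unfold Exp at h
  induction h with
  | refl => exact Set.Subset.rfl
  | tail _ h2 ih => exact ih.trans (pos_par h2)

theorem kT_par {T T' : TT} (h : Par T T') : kT T' = kT T := by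
  unfold kT
  rw [cls_par h]

theorem kT_exp {T T' : TT} (h : Exp T T') : kT T' = kT T := by
  unfold kT
  rw [cls_exp h]

theorem kT_dd_iter (n : ℕ) (T : TT) : kT (dd^[n] T) = kT T := by
  unfold kT
  rw [cls_dd_iter]

theorem cls_eq_of_kT {S T : TT} (h : kT S = kT T) : cls S = cls T := by
  rw [cls_eq_kT S, cls_eq_kT T, h]

theorem kT_surj (p : PP) : ∃ T : TT, kT T = p := by
  obtain ⟨T, hT⟩ := cls_surj (p • xF)
  exact ⟨T, by unfold kT; rw [hT, eps_smul_var]⟩

/-- A full left part consists of the positions up to its end. -/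
theorem pos_spn {T A : TT} (h : Spn T A) : kT A < kT T ∧ Pos A = {q | q ∈ Pos T ∧ q ≤ kT A} := by
  induction h with
  | base u c =>
    refine ⟨?_, ?_⟩
    · rw [kT_mul]
      exact (kT_lt_gen u).trans_le (le_mul_r _ _)
    · ext q
      constructor
      · intro hq
        exact ⟨Or.inl hq, le_kT hq⟩
      · rintro ⟨hq | ⟨v, _, rfl⟩, hle⟩
        · exact hq
        · exact absurd (hle.trans_lt (kT_lt_gen u)) (not_lt.2 (le_mul_r _ _))
  | @mul t u c hs ih =>
    obtain ⟨h1, h2⟩ := ih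
    have h3 : kT t < gen (cls t) := kT_lt_gen t
    refine ⟨?_, ?_⟩
    · rw [kT_mul]
      exact h1.trans (h3.trans_le (le_mul_r _ _))
    · rw [h2]
      ext q
      constructor
      · rintro ⟨hq, hle⟩
        exact ⟨Or.inl hq, hle⟩
      · rintro ⟨hq | ⟨v, _, rfl⟩, hle⟩
        · exact ⟨hq, hle⟩
        · exact absurd (hle.trans_lt (h1.trans h3)) (not_lt.2 (le_mul_r _ _))
  | @bin _ _ j _ _ _ => exact j.elim

/-- (4.3) -/
theorem exists_spn {T : TT} {p : PP} (h : p ≤ kT T) :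
    ∃ n A, kT A = p ∧ (A = dd^[n] T ∨ Spn (dd^[n] T) A) := by
  rcases eq_or_lt_of_le h with h | h
  · exact ⟨0, T, h.symm, Or.inl rfl⟩
  · have hs : Sub (p • xF) (cls T) := by
      rw [cls_eq_kT T]
      exact lt_iff.1 h
    obtain ⟨t, u, ht, hu, hsp⟩ := sub_term hs
    obtain ⟨N, hN⟩ := exp_of_cls ht
    obtain ⟨u', hu', hs'⟩ := heir_exp (hN N le_rfl) hsp
    refine ⟨N, u', ?_, Or.inr hs'⟩
    rw [kT_exp hu']
    unfold kT
    rw [hu, eps_smul_var]

theorem exists_mem_pos {T : TT} {p : PP} (h : p ≤ kT T) : ∃ N, ∀ n, N ≤ n → p ∈ Pos (dd^[n] T) := by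
  obtain ⟨n, A, hA, h1⟩ := exists_spn h
  refine ⟨n, fun m hm => ?_⟩
  apply pos_exp (exp_dd_iter_le hm T)
  have hp : p ∈ Pos A := hA ▸ kT_mem_pos A
  rcases h1 with rfl | h1
  · exact hp
  · rw [(pos_spn h1).2] at hp
    exact hp.1

end Pool.Agent.DD
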