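import Pool.Agent.DD.PosF

set_option autoImplicit false

/-! # DD package SbsF: substitution (4.4) of /team-store/DD_Proof.md -/

namespace Pool.Agent.DD

private theorem sbs_par_refl (T : TT) : Par T T := by
  induction T with
  | var y => exact Par.var y
  | mul a b iha ihb => exact Par.mul iha ihb (Dst.base _)
  | bin j a b _ _ => exact j.elim

theorem cls_sbs (W b : TT) : cls (sbs W b) = kT W • cls b := by
  induction b with
  | var u => exact cls_eq_kT W
  | mul a b iha ihb =>
    change (cls (sbs W a)).mul (cls (sbs W b)) = kT W • (cls a).mul (cls b)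
    rw [iha, ihb, smul_mul']
  | bin j a b _ _ => exact j.elim

theorem kT_sbs (W b : TT) : kT (sbs W b) = kT W * kT b := by
  rw [kT, cls_sbs, eps_smul]
  rfl

theorem gen_sbs (W b : TT) : gen (cls (sbs W b)) = tri (kT W) (gen (cls b)) := by
  rw [cls_sbs, tri_gen]

theorem sbs_sbs (W Z b : TT) : sbs Z (sbs W b) = sbs (sbs Z W) b := by
  induction b with
  | var u => rfl
  | mul a b iha ihb =>
    change (sbs Z (sbs W a)).mul (sbs Z (sbs W b)) = (sbs (sbs Z W) a).mul (sbs (sbs Z W) b)
    rw [iha, ihb]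
  | bin j a b _ _ => exact j.elim

/-- `star U V = V[U*x]`. -/
theorem star_eq_sbs (U V : TT) : star U V = sbs (U.mul xx) V := by
  induction V with
  | var u => rfl
  | mul a b iha ihb =>
    change (star U a).mul (star U b) = (sbs (U.mul xx) a).mul (sbs (U.mul xx) b)
    rw [iha, ihb]
  | bin j a b _ _ => exact j.elim

theorem star_sbs (U V Z : TT) : star U (sbs Z V) = sbs (star U Z) V := by
  induction V with
  | var u => rfl
  | mul a b iha ihb =>
    change (star U (sbs Z a)).mul (star U (sbs Z b)) = (sbs (star U Z) a).mul (sbs (star U Z) b)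
    rw [iha, ihb]
  | bin j a b _ _ => exact j.elim

theorem sbs_dst {a b d : TT} (W : TT) (h : Dst a b d) : Dst (sbs W a) (sbs W b) (sbs W d) := by
  induction h with
  | base b => exact Dst.base _
  | mul _ _ ih1 ih2 => exact Dst.mul ih1 ih2
  | @bin j _ _ _ _ _ _ _ _ => exact j.elim

theorem sbs_par {b b' : TT} (W : TT) (h : Par b b') : Par (sbs W b) (sbs W b') := by
  induction h with
  | var y => exact sbs_par_refl W
  | mul _ _ hd ih1 ih2 => exact Par.mul ih1 ih2 (sbs_dst W hd)
  | @bin j _ _ _ _ _ _ _ _ => exact j.elim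

theorem sbs_exp {b b' : TT} (W : TT) (h : Exp b b') : Exp (sbs W b) (sbs W b') := by
  exact Relation.ReflTransGen.lift (sbs W) (fun _ _ h => sbs_par W h) _ _ h

theorem sbs_spn {b A : TT} (W : TT) (h : Spn b A) : Spn (sbs W b) (sbs W A) := by
  induction h with
  | base u c => exact Spn.base _ _
  | mul c _ ih => exact Spn.mul _ ih
  | bin j w _ _ => exact j.elim

/-- `Dst A (b[W]) (b[A*W])`. -/
theorem dst_sbs (A W b : TT) : Dst A (sbs W b) (sbs (A.mul W) b) := by
  induction b with
  | var u => exact Dst.base _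
  | mul a b iha ihb => exact Dst.mul iha ihb
  | bin j a b _ _ => exact j.elim

theorem mem_pos_sbs {W b : TT} {p : PP} : p ∈ Pos (sbs W b) ↔ ∃ v ∈ Pos b, ∃ w ∈ Pos W, p = tri (kT W) v * w := by
  induction b generalizing p with
  | var u =>
    constructor
    · intro h
      exact ⟨1, rfl, p, h, by rw [map_one, one_mul]⟩
    · rintro ⟨v, hv, w, hw, rfl⟩
      obtain rfl : v = 1 := hv
      rw [map_one, one_mul]
      exact hw
  | mul a b iha ihb =>
    constructor
    · rintro (h | ⟨q, hq, rfl⟩)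
      · obtain ⟨v, hv, w, hw, rfl⟩ := iha.1 h
        exact ⟨v, Or.inl hv, w, hw, rfl⟩
      · obtain ⟨v, hv, w, hw, rfl⟩ := ihb.1 hq
        refine ⟨gen (cls a) * v, Or.inr ⟨v, hv, rfl⟩, w, hw, ?_⟩
        change gen (cls (sbs W a)) * (tri (kT W) v * w) = _
        rw [gen_sbs, map_mul, mul_assoc]
    · rintro ⟨v, hv | ⟨v, hv, rfl⟩, w, hw, rfl⟩
      · exact Or.inl (iha.2 ⟨v, hv, w, hw, rfl⟩)
      · refine Or.inr ⟨tri (kT W) v * w, ihb.2 ⟨v, hv, w, hw, rfl⟩, ?_⟩
        change gen (cls (sbs W a)) * (tri (kT W) v * w) = tri (kT W) (gen (cls a) * v) * w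
        rw [gen_sbs, map_mul, mul_assoc]
  | bin j a b _ _ => exact j.elim

end Pool.Agent.DD
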