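import Mathlib

set_option autoImplicit false

/-! # MP_dd36e8_al: types, terms, (partially) endomorphic algebras, equality in the free algebra, Polish notation -/

namespace Pool.Agent.DD

/-- The symbols of a type `(E, F)`: `Fin e` are the symbols of `E`, `Fin f` the symbols of `F`. -/
abbrev Sy (e f : ℕ) : Type := Fin e ⊕ Fin f

variable {e f : ℕ}

/-- The arities: `t ∈ E` has arity `n t + 1`, `g ∈ F` has arity `m g`. -/
def ar (n : Fin e → ℕ) (m : Fin f → ℕ) : Sy e f → ℕ
  | .inl t => n t + 1
  | .inr g => m g

/-- Terms of the type `(E, F)` with letters in `Y`. -/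
inductive Trm (n : Fin e → ℕ) (m : Fin f → ℕ) (Y : Type) : Type
  | var : Y → Trm n m Y
  | app : (h : Sy e f) → (Fin (ar n m h) → Trm n m Y) → Trm n m Y

/-- The algebras of type `(E, F)` with underlying set `X`. -/
def Alg (n : Fin e → ℕ) (m : Fin f → ℕ) (X : Type) : Type := (h : Sy e f) → (Fin (ar n m h) → X) → X

variable {n : Fin e → ℕ} {m : Fin f → ℕ} {X Y : Type}

/-- The map `x ↦ t(a_1, ..., a_n, x)`, for `t ∈ E`. -/
def Alg.act (A : Alg n m X) (t : Fin e) (a : Fin (n t) → X) (x : X) : X :=
  A (.inl t) (Fin.snoc (α := fun _ => X) a x)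

/-- Partially endomorphic algebras: all maps `x ↦ t(a_1, ..., a_n, x)`, `t ∈ E`, are endomorphisms. -/
def Alg.PE (A : Alg n m X) : Prop :=
  ∀ (t : Fin e) (a : Fin (n t) → X) (h : Sy e f) (x : Fin (ar n m h) → X),
    A.act t a (A h x) = A h fun i => A.act t a (x i)

/-- The value of a term in an algebra under an assignment of the letters. -/
def Trm.eval (A : Alg n m X) (v : Y → X) : Trm n m Y → X
  | .var y => v y
  | .app h x => A h fun i => (x i).eval A v

/-- Equality in the free partially endomorphic algebra over `Y`: the equality `s = t` holds in all partially endomorphic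
algebras (it follows from the defining identities). -/
def FreeEq (s t : Trm n m Y) : Prop :=
  ∀ (X : Type) (A : Alg n m X), A.PE → ∀ v : Y → X, s.eval A v = t.eval A v

/-- A term as a word (Polish notation: symbol, then the words of the arguments). -/
def Trm.word : Trm n m Y → List (Sy e f ⊕ Y)
  | .var y => [.inr y]
  | .app h x => .inl h :: (List.ofFn fun i => (x i).word).flatten

end Pool.Agent.DD
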