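import Pool.Agent.DD.EQ

set_option autoImplicit false

/-! # DD: the congruence `Sim` on extended terms (section 2 of /team-store/DD_Statics.md) -/

namespace Pool.Agent.DD

variable {L Y I J : Type} [DecidableEq I] (D : LDat L Y I)

/-- `T ~ T'`: there are expansions of the same shape which satisfy `EQ` with `S = ∅`, `d = 0`. -/
def Sim (T T' : Tm L J) : Prop := ∃ T1 T1', Ex T T1 ∧ Ex T' T1' ∧ EQ D T1 T1' ∅ 0

theorem Sim.refl (T : Tm L J) : Sim D T T := ⟨T, T, .refl T, .refl T, EQ.refl D T ∅⟩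

theorem Sim.symm {T T' : Tm L J} (h : Sim D T T') : Sim D T' T := by
  obtain ⟨T1, T1', h1, h2, h3⟩ := h
  refine ⟨T1', T1, h2, h1, ?_⟩
  have h4 := EQ.symm D (d := 0) (fun i _ => rfl) h3
  rwa [neg_zero] at h4

/-- `Ex` is contained in `Sim`. -/
theorem Ex.sim {T T' : Tm L J} (h : Ex T T') : Sim D T T' := ⟨T', T', h, .refl T', EQ.refl D T' ∅⟩

private theorem EQ.symm0 {T T' : Tm L J} (h : EQ D T T' ∅ 0) : EQ D T' T ∅ 0 := by
  have h1 := EQ.symm D (d := 0) (fun i _ => rfl) h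
  rwa [neg_zero] at h1

private theorem tm_map_map {L1 L2 L3 : Type} (f : L1 → L2) (g : L2 → L3) (T : Tm L1 J) :
    (T.map f).map g = T.map fun l => g (f l) := by
  induction T with
  | var l => rfl
  | mul a b iha ihb =>
    change (Tm.map g (Tm.map f a)).mul (Tm.map g (Tm.map f b)) = (Tm.map _ a).mul (Tm.map _ b)
    rw [iha, ihb]
  | bin j a b iha ihb =>
    change Tm.bin j (Tm.map g (Tm.map f a)) (Tm.map g (Tm.map f b)) =
      Tm.bin j (Tm.map _ a) (Tm.map _ b)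
    rw [iha, ihb]

/-- (R1) `T` expands to `T1`, `T'` to `T1'` and `T2'`, `T''` to `T2''`. Let `T3'` be a common expansion of `T1'`, `T2'`
(`common_ex`, both are `Eqv` to `T'`). By `ex_EQ` applied to `Ex T1' T3'` and the term `T1` (`EQ.shp`, `EQ.symm`) there is `T3` with
`Ex T1 T3` and `EQ T3' T3`, similarly `T3''` with `Ex T2'' T3''`, `EQ T3' T3''`. Then `EQ T3 T3''` by `EQ.symm`, `EQ.trans`. -/
theorem Sim.trans {T T' T'' : Tm L J} (h : Sim D T T') (h' : Sim D T' T'') : Sim D T T'' := by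
  obtain ⟨T1, T1', e1, e1', h1⟩ := h
  obtain ⟨T2', T2'', e2', e2'', h2⟩ := h'
  obtain ⟨T3', c1, c2⟩ := common_ex (e1'.eqv.symm.trans e2'.eqv)
  have h1s := EQ.symm0 D h1
  obtain ⟨T3, f1, -, -, -, k1⟩ := ex_EQ D c1 (EQ.shp D h1s)
  obtain ⟨T3'', f2, -, -, -, k2⟩ := ex_EQ D c2 (EQ.shp D h2)
  have h3 := EQ.symm0 D ((k1 ∅ 0).1 h1s)
  have h4 := (k2 ∅ 0).1 h2
  have h5 := EQ.trans D (d := 0) (d' := 0) (fun i _ => rfl) (fun i _ => rfl) h3 h4
  rw [add_zero] at h5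
  exact ⟨T3, T3'', e1.trans f1, e2''.trans f2, h5⟩

/-- (R2) `EQ.mono` with `d' = 0` for the left factors. -/
theorem Sim.mul {T T' U U' : Tm L J} (h : Sim D T T') (h' : Sim D U U') : Sim D (T.mul U) (T'.mul U') := by
  obtain ⟨T1, T1', e1, e1', h1⟩ := h
  obtain ⟨U1, U1', f1, f1', h2⟩ := h'
  refine ⟨T1.mul U1, T1'.mul U1', e1.mul f1, e1'.mul f1', ?_⟩
  exact ⟨h2, fun l _ => ⟨0, fun _ _ => rfl, EQ.mono D (Set.empty_subset _) h1⟩⟩

theorem Sim.bin {j : J} {T T' U U' : Tm L J} (h : Sim D T T') (h' : Sim D U U') :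
    Sim D (.bin j T U) (.bin j T' U') := by
  obtain ⟨T1, T1', e1, e1', h1⟩ := h
  obtain ⟨U1, U1', f1, f1', h2⟩ := h'
  exact ⟨.bin j T1 U1, .bin j T1' U1', e1.bin f1, e1'.bin f1', rfl, h1, h2⟩

/-- (R2) for `tau`: `Ex.map` and `EQ.tau`. -/
theorem Sim.tau (i : I) {T T' : Tm L J} (h : Sim D T T') : Sim D (T.map (D.tl i)) (T'.map (D.tl i)) := by
  obtain ⟨T1, T1', e1, e1', h1⟩ := h
  exact ⟨_, _, e1.map _, e1'.map _, EQ.tau D i h1⟩

/-- (R3) `EQ.mul_tau`. -/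
theorem Sim.mul_tau (i : I) (a z : Tm L J) : Sim D (a.mul (z.map (D.tl i))) ((a.mul z).map (D.tl i)) := by
  exact ⟨_, _, .refl _, .refl _, EQ.mul_tau D i a z⟩

/-- (R3) `EQ.map_map`. -/
theorem Sim.tau_comm (i k : I) (T : Tm L J) :
    Sim D ((T.map (D.tl i)).map (D.tl k)) ((T.map (D.tl k)).map (D.tl i)) := by
  refine ⟨_, _, .refl _, .refl _, ?_⟩
  rw [tm_map_map, tm_map_map]
  refine EQ.map_map D _ _ (fun l => ?_) (fun l j => ?_) T ∅
  · rw [D.yv_tl, D.yv_tl, D.yv_tl, D.yv_tl]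
  · rw [D.kl_tl, D.kl_tl, D.kl_tl, D.kl_tl]
    exact (List.Perm.swap i k (D.kl l)).count_eq j

/-- Lifting of expansions to a term of the same shape: `ex_EQ` (with an arbitrary `D`). -/
theorem ex_lift {T T1 T' : Tm L J} (h : Ex T T1) (hs : Shp T T') : ∃ T1', Ex T' T1' ∧ Shp T1 T1' := by
  let D0 : LDat L Unit Empty :=
    { yv := fun _ => ()
      kl := fun _ => []
      tl := fun i => i.elim
      yv_tl := fun i => i.elim
      kl_tl := fun i => i.elim }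
  obtain ⟨T1', h1, h2, -, -, -⟩ := ex_EQ D0 h hs
  exact ⟨T1', h1, h2⟩

/-- (R4), (R5). `l0` is an arbitrary letter.
Left to right: if `T ~ T'` by `T1`, `T1'`, then `Eqv (er l0 T) (er l0 T1)` (`Ex.map`, `Ex.eqv`), `er l0 T1 = er l0 T1'` (`EQ.shp`, `Shp.er_eq`).
Let `T2`, `T2'` be another pair of expansions of the same shape. Common expansion `T3` of `T1`, `T2`. By `ex_EQ`: `T1'` expands to `T3'`,
`Shp T3 T3'`, `EQ T3 T3'`; `T2'` expands to `T3''`, `Shp T3 T3''` and (`EQ T2 T2' ∅ 0 ↔ EQ T3 T3'' ∅ 0`). `T3'`, `T3''` are expansions of `T'`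
of the same shape, so they are equal by `shp_unique'`. Hence `EQ T2 T2' ∅ 0`.
Right to left: `common_ex` gives a common expansion `U` of `er l0 T` and `er l0 T'`; by `ex_lift` (`shp_er`) there are `T1`, `T1'` with `Ex T T1`,
`Ex T' T1'`, `Shp U T1`, `Shp U T1'`. So `Shp T1 T1'` and `EQ T1 T1' ∅ 0` by hypothesis. -/
theorem sim_iff (l0 : L) {T T' : Tm L J} : Sim D T T' ↔ Eqv (er l0 T) (er l0 T') ∧
    ∀ T1 T1', Ex T T1 → Ex T' T1' → Shp T1 T1' → EQ D T1 T1' ∅ 0 := by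
  constructor
  · rintro ⟨T1, T1', e1, e1', h1⟩
    refine ⟨?_, ?_⟩
    · have h2 : Eqv (er l0 T) (er l0 T1) := (e1.map fun _ => l0).eqv
      have h3 : Eqv (er l0 T') (er l0 T1') := (e1'.map fun _ => l0).eqv
      rw [(EQ.shp D h1).er_eq l0] at h2
      exact h2.trans h3.symm
    · intro T2 T2' e2 e2' hs
      obtain ⟨T3, c1, c2⟩ := common_ex (e1.eqv.symm.trans e2.eqv)
      obtain ⟨T3', f1, s1, -, -, k1⟩ := ex_EQ D c1 (EQ.shp D h1)
      obtain ⟨T3'', f2, s2, -, -, k2⟩ := ex_EQ D c2 hs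
      have h4 : T3' = T3'' := shp_unique' (s1.symm.trans s2)
        ((e1'.trans f1).eqv.symm.trans (e2'.trans f2).eqv)
      rw [k2, ← h4, ← k1]
      exact h1
  · rintro ⟨h1, h2⟩
    obtain ⟨U, c1, c2⟩ := common_ex h1
    obtain ⟨T1, f1, s1⟩ := ex_lift c1 (shp_er l0 T).symm
    obtain ⟨T1', f2, s2⟩ := ex_lift c2 (shp_er l0 T').symm
    exact ⟨T1, T1', f1, f2, h2 T1 T1' f1 f2 (s1.symm.trans s2)⟩

end Pool.Agent.DD
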