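import Pool.Agent.DD.CfN

set_option autoImplicit false

/-! # DD package SkF: skeletons (1.8) of /team-store/DD_Proof.md -/

namespace Pool.Agent.DD

variable {Y J : Type}

theorem sk_star (u v : Tm Y J) : sk (star u v) = star (sk u) (sk v) := by
  induction v with
  | var y => rfl
  | mul b c ihb ihc =>
    change (sk (star u b)).mul (sk (star u c)) = (star (sk u) (sk b)).mul (star (sk u) (sk c))
    rw [ihb, ihc]
  | bin j b c ihb ihc => exact ihb

theorem sk_dd (t : Tm Y J) : sk (dd t) = dd (sk t) := by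
  induction t with
  | var y => rfl
  | mul a b iha ihb =>
    change sk (star (dd a) (dd b)) = star (dd (sk a)) (dd (sk b))
    rw [sk_star, iha, ihb]
  | bin j a b iha ihb => exact iha

theorem sk_dst {a b d : Tm Y J} (h : Dst a b d) : Dst (sk a) (sk b) (sk d) := by
  induction h with
  | base b => exact Dst.base _
  | mul _ _ ih1 ih2 => exact Dst.mul ih1 ih2
  | bin _ _ ih1 _ => exact ih1

theorem sk_par {s t : Tm Y J} (h : Par s t) : Par (sk s) (sk t) := by
  induction h with
  | var y => exact Par.var ()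
  | mul _ _ h3 ih1 ih2 => exact Par.mul ih1 ih2 (sk_dst h3)
  | bin _ _ ih1 _ => exact ih1

/-- Induction on `b`. -/
theorem lift_dst {a b : Tm Y J} {D : TT} (h : Dst (sk a) (sk b) D) : ∃ d, Dst a b d ∧ sk d = D := by
  induction b generalizing D with
  | var y =>
    have h' : Dst (sk a) xx D := h
    cases h' with
    | base => exact ⟨a.mul (.var y), Dst.base _, rfl⟩
  | mul b c ihb ihc =>
    have h' : Dst (sk a) ((sk b).mul (sk c)) D := h
    cases h' with
    | base => exact ⟨a.mul (b.mul c), Dst.base _, rfl⟩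
    | mul h1 h2 =>
      obtain ⟨d, h3, rfl⟩ := ihb h1
      obtain ⟨e, h4, rfl⟩ := ihc h2
      exact ⟨d.mul e, Dst.mul h3 h4, rfl⟩
  | bin j b c ihb ihc =>
    obtain ⟨d, h3, h4⟩ := ihb h
    exact ⟨.bin j d (a.mul c), Dst.bin h3 (Dst.base c), h4⟩

/-- Induction on `t`. -/
private theorem skF_par_refl (t : Tm Y J) : Par t t := by
  induction t with
  | var y => exact Par.var y
  | mul a b iha ihb => exact Par.mul iha ihb (Dst.base b)
  | bin j a b iha ihb => exact Par.bin iha ihb

theorem lift_par {t : Tm Y J} {T : TT} (h : Par (sk t) T) : ∃ t', Par t t' ∧ sk t' = T := by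
  induction t generalizing T with
  | var y =>
    have h' : Par xx T := h
    cases h' with
    | var => exact ⟨.var y, Par.var y, rfl⟩
  | mul a b iha ihb =>
    have h' : Par ((sk a).mul (sk b)) T := h
    cases h' with
    | mul h1 h2 h3 =>
      obtain ⟨a', h4, rfl⟩ := iha h1
      obtain ⟨b', h5, rfl⟩ := ihb h2
      obtain ⟨d, h6, h7⟩ := lift_dst h3
      exact ⟨d, Par.mul h4 h5 h6, h7⟩
  | bin j a b iha ihb =>
    obtain ⟨a', h4, h5⟩ := iha h
    exact ⟨.bin j a' b, Par.bin h4 (skF_par_refl b), h5⟩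

theorem lift_exp {t : Tm Y J} {T : TT} (h : Exp (sk t) T) : ∃ t', Exp t t' ∧ sk t' = T := by
  unfold Exp at h
  induction h with
  | refl => exact ⟨t, Relation.ReflTransGen.refl, rfl⟩
  | tail _ h2 ih =>
    obtain ⟨t', h3, rfl⟩ := ih
    obtain ⟨t'', h4, h5⟩ := lift_par h2
    exact ⟨t'', Relation.ReflTransGen.tail h3 h4, h5⟩

end Pool.Agent.DD
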