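import Pool.Agent.DD.Snd1

set_option autoImplicit false

/-! # DD: the soundness theorem (R6) of /team-store/DD_Statics.md -/

namespace Pool.Agent.DD

variable {L Y I J B : Type} [DecidableEq I] (D : LDat L Y I) (A : XS B J I)

/-- (c) of (R6). Induction on `T` (cases on `T'`), all `S, d, m, m'` at the same time.
Letters: `tauL m (tauL k y) = tauL (m ++ k) y`, the counts of `m ++ k` and `m' ++ k'` agree: `tauL_count`.
`bin`: `tauL_bin`. `mul a z`, `mul a' z'`: `tauL_mul`; `tauL m (val z) = tauL m' (val z')` by induction; it remains to show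
`mul (tauL m α) ζ = mul (tauL m' α') ζ` with `α = val a`, `α' = val a'`, `ζ = tauL m (val z)`. By `cls2_val`, `Cls2.tauL` and `Cls2.eq` it is
enough to show `mul (tauL m α) (tauL R x) = mul (tauL m' α') (tauL R x)` for `R = m ++ D.kl l`, `l ∈ Ends z`. Take `d'` from `EQ`
(support in `S ∪ sp l` = the set of elements of `R`) and by `exists_lists` lists `p`, `q` with the elements of `R`, and
`count p - count q = d' - d`; put `n = p ++ m`, `n' = q ++ m'`. By induction `tauL n α = tauL n' α'`, and `tauL n α = tauL p (tauL m α)`, so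
`mul (tauL m α) (tauL R x) = mul (tauL n α) (tauL R x)` by `mul_tauL_list`, and the same for `n'`. -/
theorem sound_aux (hA : A.Laws) (v : Y → B) {T T' : Tm L J} {S : Set I} {d : I → ℤ} (h : EQ D T T' S d)
    (m m' : List I) (hm : ∀ i, i ∈ m ↔ i ∈ S) (hm' : ∀ i, i ∈ m' ↔ i ∈ S)
    (hd : ∀ i, (m.count i : ℤ) - m'.count i = d i) :
    A.tauL m (A.val D v T) = A.tauL m' (A.val D v T') := by
  induction T generalizing T' S d m m' with
  | var l =>
    cases T' with
    | var l' =>
      obtain ⟨h1, h2⟩ : D.yv l = D.yv l' ∧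
        ∀ i, ((D.kl l').count i : ℤ) = (D.kl l).count i + d i := h
      change A.tauL m (A.tauL (D.kl l) (v (D.yv l))) = A.tauL m' (A.tauL (D.kl l') (v (D.yv l')))
      rw [← tauL_append A, ← tauL_append A, h1]
      refine tauL_count A hA (fun i => ?_) _
      rw [List.count_append, List.count_append]
      have h3 := h2 i
      have h4 := hd i
      omega
    | mul _ _ => exact h.elim
    | bin _ _ _ => exact h.elim
  | mul a z iha ihz =>
    cases T' with
    | var _ => exact h.elim
    | bin _ _ _ => exact h.elim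
    | mul a' z' =>
      obtain ⟨h1, h2⟩ : EQ D z z' S d ∧ ∀ l ∈ Ends z, ∃ d' : I → ℤ,
        (∀ i, i ∉ S ∪ D.sp l → d' i = 0) ∧ EQ D a a' (S ∪ D.sp l) d' := h
      change A.tauL m (A.mul (A.val D v a) (A.val D v z)) =
        A.tauL m' (A.mul (A.val D v a') (A.val D v z'))
      rw [tauL_mul A hA, tauL_mul A hA, ← ihz h1 m m' hm hm' hd]
      refine Cls2.eq A hA (Cls2.tauL A hA m (cls2_val D A hA v z)) ?_
      rintro _ ⟨_, ⟨l, hl, rfl⟩, rfl⟩ x
      obtain ⟨d', h3, h4⟩ := h2 l hl
      have hd0 : ∀ i, i ∉ S → d i = 0 := by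
        intro i hi
        rw [← hd i, List.count_eq_zero.2 (fun hh => hi ((hm i).1 hh)),
          List.count_eq_zero.2 (fun hh => hi ((hm' i).1 hh))]
        rfl
      obtain ⟨p, q, h5, h6, h7⟩ := exists_lists (m ++ D.kl l) (fun i => d' i - d i) (by
        intro i hi
        rw [List.mem_append, not_or, hm] at hi
        have hi2 : i ∉ S ∪ D.sp l := by
          rintro (hh | hh)
          · exact hi.1 hh
          · exact hi.2 hh
        rw [h3 i hi2, hd0 i hi.1, sub_zero])
      have e1 : A.mul (A.tauL m (A.val D v a)) (A.tauL (m ++ D.kl l) x) =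
          A.mul (A.tauL (p ++ m) (A.val D v a)) (A.tauL (m ++ D.kl l) x) := by
        rw [tauL_append A p m, mul_tauL_list A hA (fun i hi => (h6 i).1 hi)]
      have e2 : A.mul (A.tauL m' (A.val D v a')) (A.tauL (m ++ D.kl l) x) =
          A.mul (A.tauL (q ++ m') (A.val D v a')) (A.tauL (m ++ D.kl l) x) := by
        rw [tauL_append A q m', mul_tauL_list A hA (fun i hi => (h7 i).1 hi)]
      have e3 : A.tauL (p ++ m) (A.val D v a) = A.tauL (q ++ m') (A.val D v a') := by
        refine iha h4 (p ++ m) (q ++ m') ?_ ?_ ?_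
        · intro i
          rw [List.mem_append, h6, List.mem_append, hm]
          change _ ↔ i ∈ S ∨ i ∈ D.kl l
          tauto
        · intro i
          rw [List.mem_append, h7, List.mem_append, hm, hm']
          change _ ↔ i ∈ S ∨ i ∈ D.kl l
          tauto
        · intro i
          rw [List.count_append, List.count_append]
          have h8 := h5 i
          have h9 := hd i
          push_cast
          omega
      change A.mul (A.tauL m (A.val D v a)) (A.tauL (m ++ D.kl l) x) =
        A.mul (A.tauL m' (A.val D v a')) (A.tauL (m ++ D.kl l) x)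
      rw [e1, e2, e3]
  | bin j z w ihz ihw =>
    cases T' with
    | var _ => exact h.elim
    | mul _ _ => exact h.elim
    | bin j' z' w' =>
      obtain ⟨h1, h2, h3⟩ : j = j' ∧ EQ D z z' S d ∧ EQ D w w' S d := h
      change A.tauL m (A.bin j (A.val D v z) (A.val D v w)) =
        A.tauL m' (A.bin j' (A.val D v z') (A.val D v w'))
      rw [tauL_bin A hA, tauL_bin A hA, h1, ihz h2 m m' hm hm' hd, ihw h3 m m' hm hm' hd]

/-- Induction on `Ex`. -/
theorem val_ex (hA : A.Laws) (v : Y → B) {T T' : Tm L J} (h : Ex T T') : A.val D v T = A.val D v T' := by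
  induction h with
  | refl a => rfl
  | trans _ _ ih1 ih2 => exact ih1.trans ih2
  | mul _ _ ih1 ih2 => exact congrArg₂ A.mul ih1 ih2
  | bin _ _ ih1 ih2 => exact congrArg₂ (A.bin _) ih1 ih2
  | ld a b c => exact hA.ld _ _ _
  | lb j a b c => exact hA.lb _ _ _ _

/-- (R6) Soundness: `val_ex` twice and `sound_aux` with `m = m' = []`. -/
theorem sound (hA : A.Laws) (v : Y → B) {T T' : Tm L J} (h : Sim D T T') : A.val D v T = A.val D v T' := by
  obtain ⟨T1, T1', h1, h2, h3⟩ := h
  rw [val_ex D A hA v h1, val_ex D A hA v h2]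
  exact sound_aux D A hA v h3 [] [] (fun i => by simp) (fun i => by simp) (fun i => by simp)

end Pool.Agent.DD
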