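import Pool.Agent.DD.Sim

set_option autoImplicit false

/-! # DD: algebras with `mul`, `bin`, `tau` and the soundness theorem (R6) of /team-store/DD_Statics.md -/

namespace Pool.Agent.DD

/-- Structures with the operations of extended terms. -/
structure XS (B J I : Type) where
  mul : B → B → B
  bin : J → B → B → B
  tau : I → B → B

/-- The laws (R3). -/
structure XS.Laws {B J I : Type} (A : XS B J I) : Prop where
  ld : ∀ a b c, A.mul a (A.mul b c) = A.mul (A.mul a b) (A.mul a c)
  lb : ∀ j a b c, A.mul a (A.bin j b c) = A.bin j (A.mul a b) (A.mul a c)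
  tau_mul : ∀ i a b, A.tau i (A.mul a b) = A.mul (A.tau i a) (A.tau i b)
  tau_bin : ∀ i j a b, A.tau i (A.bin j a b) = A.bin j (A.tau i a) (A.tau i b)
  tau_comm : ∀ i k a, A.tau i (A.tau k a) = A.tau k (A.tau i a)
  mul_tau : ∀ i a b, A.mul a (A.tau i b) = A.tau i (A.mul a b)

variable {L Y I J B : Type} [DecidableEq I] (D : LDat L Y I) (A : XS B J I)

/-- Iterated `tau`. -/
def XS.tauL {B J I : Type} (A : XS B J I) (l : List I) (b : B) : B := l.foldr A.tau b

/-- The value of an extended term. -/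
def XS.val {L Y I J B : Type} (A : XS B J I) (D : LDat L Y I) (v : Y → B) : Tm L J → B
  | .var l => A.tauL (D.kl l) (v (D.yv l))
  | .mul a b => A.mul (A.val D v a) (A.val D v b)
  | .bin j a b => A.bin j (A.val D v a) (A.val D v b)

theorem tauL_append (l l' : List I) (b : B) : A.tauL (l ++ l') b = A.tauL l (A.tauL l' b) := by
  unfold XS.tauL
  exact List.foldr_append

/-- Induction on `List.Perm`, `tau_comm`. -/
theorem tauL_perm (hA : A.Laws) {l l' : List I} (h : l.Perm l') (b : B) : A.tauL l b = A.tauL l' b := by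
  induction h with
  | nil => rfl
  | cons x _ ih => exact congrArg (A.tau x) ih
  | swap x y l => exact hA.tau_comm _ _ _
  | trans _ _ ih1 ih2 => exact ih1.trans ih2

/-- `List.perm_iff_count`. -/
theorem tauL_count (hA : A.Laws) {l l' : List I} (h : ∀ i, l.count i = l'.count i) (b : B) :
    A.tauL l b = A.tauL l' b := by
  exact tauL_perm A hA (List.perm_iff_count.mpr h) b

theorem tauL_mul (hA : A.Laws) (l : List I) (a b : B) : A.tauL l (A.mul a b) = A.mul (A.tauL l a) (A.tauL l b) := by
  induction l with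
  | nil => rfl
  | cons x l ih =>
    change A.tau x (A.tauL l (A.mul a b)) = A.mul (A.tau x (A.tauL l a)) (A.tau x (A.tauL l b))
    rw [ih, hA.tau_mul]

theorem tauL_bin (hA : A.Laws) (l : List I) (j : J) (a b : B) :
    A.tauL l (A.bin j a b) = A.bin j (A.tauL l a) (A.tauL l b) := by
  induction l with
  | nil => rfl
  | cons x l ih =>
    change A.tau x (A.tauL l (A.bin j a b)) = A.bin j (A.tau x (A.tauL l a)) (A.tau x (A.tauL l b))
    rw [ih, hA.tau_bin]

theorem mul_tauL (hA : A.Laws) (l : List I) (a b : B) : A.mul a (A.tauL l b) = A.tauL l (A.mul a b) := by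
  induction l with
  | nil => rfl
  | cons x l ih =>
    change A.mul a (A.tau x (A.tauL l b)) = A.tau x (A.tauL l (A.mul a b))
    rw [← ih, hA.mul_tau]

/-- Left factors may be changed by `tau i` if `i ∈ R`. `A.tauL R x = A.tau i (A.tauL R' x)` with `R' = R.erase i` (`tauL_perm`,
`List.perm_cons_erase`), and `mul a (tau i u) = tau i (mul a u) = mul (tau i a) (tau i u)`. -/
theorem mul_tauL_eq (hA : A.Laws) {i : I} {R : List I} (hi : i ∈ R) (a x : B) :
    A.mul (A.tau i a) (A.tauL R x) = A.mul a (A.tauL R x) := by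
  have h1 : A.tauL R x = A.tau i (A.tauL (R.erase i) x) :=
    tauL_perm A hA (List.perm_cons_erase hi) x
  rw [h1, ← hA.tau_mul, hA.mul_tau]

/-- Induction on `n`, `mul_tauL_eq`. -/
theorem mul_tauL_list (hA : A.Laws) {n R : List I} (hn : ∀ i ∈ n, i ∈ R) (a x : B) :
    A.mul (A.tauL n a) (A.tauL R x) = A.mul a (A.tauL R x) := by
  induction n with
  | nil => rfl
  | cons i n ih =>
    change A.mul (A.tau i (A.tauL n a)) (A.tauL R x) = _
    rw [mul_tauL_eq A hA (hn i List.mem_cons_self)]
    exact ih fun k hk => hn k (List.mem_cons_of_mem _ hk)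

/-- The closure under `bin` of the elements `tauL R x`, `R` in the set `Q`. -/
inductive Cls2 (Q : Set (List I)) : B → Prop
  | base (R : List I) (x : B) : R ∈ Q → Cls2 Q (A.tauL R x)
  | bin (j : J) {b c : B} : Cls2 Q b → Cls2 Q c → Cls2 Q (A.bin j b c)

/-- `lb`, `mul_tauL`. -/
theorem Cls2.mul (hA : A.Laws) {Q : Set (List I)} (a : B) {b : B} (h : Cls2 A Q b) : Cls2 A Q (A.mul a b) := by
  induction h with
  | base R x hR =>
    rw [mul_tauL A hA]
    exact Cls2.base R _ hR
  | bin j _ _ ih1 ih2 =>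
    rw [hA.lb]
    exact Cls2.bin j ih1 ih2

/-- `tauL_bin`, `tauL_append`. -/
theorem Cls2.tauL (hA : A.Laws) {Q : Set (List I)} (m : List I) {b : B} (h : Cls2 A Q b) :
    Cls2 A ((fun R => m ++ R) '' Q) (A.tauL m b) := by
  induction h with
  | base R x hR =>
    rw [← tauL_append]
    exact Cls2.base (m ++ R) x ⟨R, hR, rfl⟩
  | bin j _ _ ih1 ih2 =>
    rw [tauL_bin A hA]
    exact Cls2.bin j ih1 ih2

private theorem Cls2.mono {Q Q' : Set (List I)} (hQ : Q ⊆ Q') {b : B} (h : Cls2 A Q b) :
    Cls2 A Q' b := by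
  induction h with
  | base R x hR => exact Cls2.base R x (hQ hR)
  | bin j _ _ ih1 ih2 => exact Cls2.bin j ih1 ih2

/-- (a) of (R6): induction on `z`, `Cls2.mul`; monotonicity of `Cls2` in `Q` is needed in the case `bin`. -/
theorem cls2_val (hA : A.Laws) (v : Y → B) (z : Tm L J) : Cls2 A (D.kl '' Ends z) (A.val D v z) := by
  induction z with
  | var l => exact Cls2.base (D.kl l) _ ⟨l, rfl, rfl⟩
  | mul a b _ ih => exact Cls2.mul A hA _ ih
  | bin j a b ih1 ih2 =>
    refine Cls2.bin j (Cls2.mono A (Set.image_mono ?_) ih1) (Cls2.mono A (Set.image_mono ?_) ih2)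
    · exact Set.subset_union_left
    · exact Set.subset_union_right

/-- (b) of (R6): induction on `Cls2`. -/
theorem Cls2.eq (hA : A.Laws) {Q : Set (List I)} {a a' b : B} (h : Cls2 A Q b)
    (h1 : ∀ R ∈ Q, ∀ x, A.mul a (A.tauL R x) = A.mul a' (A.tauL R x)) : A.mul a b = A.mul a' b := by
  induction h with
  | base R x hR => exact h1 R hR x
  | bin j _ _ ih1 ih2 => rw [hA.lb, hA.lb, ih1, ih2]

/-- Lists with prescribed counts. `S` is the set of the elements of the list `U`; `g` vanishes outside `S`. Take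
`p = U ++ p0` with `p0.count i = (g i).toNat`, `q = U ++ q0` with `q0.count i = (-g i).toNat`
(e.g. `p0 = U.dedup.flatMap fun i => List.replicate (g i).toNat i`). -/
theorem exists_lists (U : List I) (g : I → ℤ) (hg : ∀ i, i ∉ U → g i = 0) :
    ∃ p q : List I, (∀ i, ((p.count i : ℤ)) - q.count i = g i) ∧ (∀ i, i ∈ p ↔ i ∈ U) ∧ (∀ i, i ∈ q ↔ i ∈ U) := by
  have key : ∀ f : I → ℕ, (∀ i, i ∉ U → f i = 0) →
      ∃ p0 : List I, ∀ i, p0.count i = f i := by
    intro f hf
    refine ⟨(∑ i ∈ U.toFinset, Multiset.replicate (f i) i).toList, fun j => ?_⟩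
    rw [← Multiset.coe_count, Multiset.coe_toList, Multiset.count_sum']
    simp only [Multiset.count_replicate]
    rw [Finset.sum_ite_eq' U.toFinset j]
    split_ifs with h
    · rfl
    · rw [List.mem_toFinset] at h
      exact (hf j h).symm
  obtain ⟨p0, hp⟩ := key (fun i => (g i).toNat) fun i hi => by rw [hg i hi]; rfl
  obtain ⟨q0, hq⟩ := key (fun i => (-g i).toNat) fun i hi => by rw [hg i hi]; rfl
  have hmem : ∀ (l0 : List I) (f : I → ℕ), (∀ i, i ∉ U → f i = 0) → (∀ i, l0.count i = f i) →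
      ∀ i, i ∈ U ++ l0 ↔ i ∈ U := by
    intro l0 f hf hl i
    rw [List.mem_append]
    constructor
    · rintro (h | h)
      · exact h
      · by_contra hc
        have h1 := List.count_pos_iff.mpr h
        rw [hl, hf i hc] at h1
        exact absurd h1 (lt_irrefl 0)
    · exact fun h => Or.inl h
  refine ⟨U ++ p0, U ++ q0, fun i => ?_, hmem p0 _ (fun i hi => by rw [hg i hi]; rfl) hp,
    hmem q0 _ (fun i hi => by rw [hg i hi]; rfl) hq⟩
  rw [List.count_append, List.count_append, hp, hq]
  push_cast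
  have := Int.toNat_sub_toNat_neg (g i)
  linarith

end Pool.Agent.DD
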