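import Pool.Agent.DD.CfN

set_option autoImplicit false

/-! # DD package SpnF: full left parts of terms (1.9) of /team-store/DD_Proof.md -/

namespace Pool.Agent.DD

variable {Y J : Type}

theorem Spn.trans {t u v : Tm Y J} (h1 : Spn t u) (h2 : Spn u v) : Spn t v := by
  induction h1 with
  | base u c => exact Spn.mul c h2
  | mul c _ ih => exact Spn.mul c (ih h2)
  | bin j w _ ih => exact Spn.bin j w (ih h2)

/-- Induction on `Dst`. -/
theorem spn_dst {a b d : Tm Y J} (h : Dst a b d) : Spn d a := by
  induction h with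
  | base b => exact Spn.base a b
  | mul _ _ ih1 _ => exact Spn.mul _ ih1
  | bin _ _ ih1 _ => exact Spn.bin _ _ ih1

/-- The heir lemma. Induction on `Par`. -/
theorem heir {t t' u : Tm Y J} (h : Par t t') (h2 : Spn t u) : ∃ u', Par u u' ∧ Spn t' u' := by
  induction h generalizing u with
  | var y => cases h2
  | mul ha hb hd ih _ =>
    cases h2 with
    | base => exact ⟨_, ha, spn_dst hd⟩
    | mul _ h3 =>
      obtain ⟨u', h4, h5⟩ := ih h3
      exact ⟨u', h4, (spn_dst hd).trans h5⟩
  | bin ha hb ih _ =>
    cases h2 with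
    | bin _ _ h3 =>
      obtain ⟨u', h4, h5⟩ := ih h3
      exact ⟨u', h4, Spn.bin _ _ h5⟩

theorem heir_exp {t t' u : Tm Y J} (h : Exp t t') (h2 : Spn t u) : ∃ u', Exp u u' ∧ Spn t' u' := by
  induction h with
  | refl => exact ⟨u, Exp.refl u, h2⟩
  | tail _ hp ih =>
    obtain ⟨u', h3, h4⟩ := ih
    obtain ⟨u'', h5, h6⟩ := heir hp h4
    exact ⟨u'', h3.trans h5.exp, h6⟩

/-- Induction on `t`. -/
theorem spn_comp {t u u' : Tm Y J} (h : Spn t u) (h' : Spn t u') : u = u' ∨ Spn u u' ∨ Spn u' u := by
  induction h with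
  | base u c =>
    cases h' with
    | base => exact Or.inl rfl
    | mul _ h1 => exact Or.inr (Or.inl h1)
  | mul c h ih =>
    cases h' with
    | base => exact Or.inr (Or.inr h)
    | mul _ h1 => exact ih h1
  | bin j w _ ih =>
    cases h' with
    | bin _ _ h1 => exact ih h1

theorem spn_sk {t u : Tm Y J} (h : Spn t u) : Spn (sk t) (sk u) := by
  induction h with
  | base u c => exact Spn.base _ _
  | mul c _ ih => exact Spn.mul _ ih
  | bin j w _ ih => exact ih

/-- `star U V` has the full left part `U`; so `dd (A*B)` has the full left part `dd A`. -/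
theorem spn_star (u v : Tm Y J) : Spn (star u v) u := by
  induction v with
  | var y => exact Spn.base _ _
  | mul b c ih _ => exact Spn.mul _ ih
  | bin j b c ih _ => exact Spn.bin _ _ ih

theorem spn_dd {t u : Tm Y J} (h : Spn t u) : Spn (dd t) (dd u) := by
  induction h with
  | base u c => exact spn_star _ _
  | mul c _ ih => exact (spn_star _ _).trans ih
  | bin j w _ ih => exact Spn.bin _ _ ih

theorem spn_dd_iter {t u : Tm Y J} (n : ℕ) (h : Spn t u) : Spn (dd^[n] t) (dd^[n] u) := by
  induction n with
  | zero => exact h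
  | succ n ih =>
    rw [Function.iterate_succ_apply', Function.iterate_succ_apply']
    exact spn_dd ih

end Pool.Agent.DD
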