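import Pool.Agent.DD.Defs
import Pool.Agent.DD.SpnF
import Pool.Agent.DD.SkF

set_option autoImplicit false

/-! # DD package SubF: prefixes in the free algebra (2.5)-(2.7) of /team-store/DD_Proof.md -/

namespace Pool.Agent.DD

variable {Y J : Type}

theorem Pfx.trans {z u E : El Y J} (h1 : Pfx z u) (h2 : Pfx u E) : Pfx z E := by
  induction h2 with
  | refl => exact h1
  | mul c _ ih => exact .mul c ih
  | bin j w _ ih => exact .bin j w ih

theorem sub_mul (z c : El Y J) : Sub z (z.mul c) := ⟨c, .refl⟩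

theorem Sub.trans {z u E : El Y J} (h1 : Sub z u) (h2 : Sub u E) : Sub z E := by
  obtain ⟨c, h1⟩ := h1
  obtain ⟨d, h2⟩ := h2
  exact ⟨c, (Pfx.mul d h1).trans h2⟩

/-- Terms for a prefix: induction on `Pfx` (choose terms of `z`, `c`). -/
theorem sub_term {z E : El Y J} (h : Sub z E) : ∃ t u : Tm Y J, cls t = E ∧ cls u = z ∧ Spn t u := by
  obtain ⟨c, hp⟩ := h
  induction hp with
  | refl =>
    obtain ⟨u, rfl⟩ := cls_surj z
    obtain ⟨c, rfl⟩ := cls_surj c
    exact ⟨u.mul c, u, rfl, rfl, .base u c⟩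
  | mul c' _ ih =>
    obtain ⟨t, u, h1, h2, h3⟩ := ih
    obtain ⟨c', rfl⟩ := cls_surj c'
    exact ⟨t.mul c', u, by rw [cls_mul, h1], h2, .mul c' h3⟩
  | bin j w _ ih =>
    obtain ⟨t, u, h1, h2, h3⟩ := ih
    obtain ⟨w, rfl⟩ := cls_surj w
    exact ⟨.bin j t w, u, by rw [cls_bin, h1], h2, .bin j w h3⟩

theorem sub_of_spn {t u : Tm Y J} (h : Spn t u) : Sub (cls u) (cls t) := by
  induction h with
  | base u c => exact sub_mul (cls u) (cls c)
  | mul c _ ih =>
    obtain ⟨d, h1⟩ := ih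
    exact ⟨d, .mul (cls c) h1⟩
  | bin j w _ ih =>
    obtain ⟨d, h1⟩ := ih
    exact ⟨d, .bin j (cls w) h1⟩

private theorem subF_asmL (a : El Y J) (m : Mon Y J) (y : Y) (l : List (J × El Y J)) :
    Sub a (asmL (gen a * m) y l) := by
  induction l with
  | nil =>
    have h1 : asmL (gen a * m) y [] = a.mul (m • (El.var y : El Y J)) := mul_smul _ _ _
    rw [h1]
    exact sub_mul _ _
  | cons p l ih =>
    obtain ⟨c, h1⟩ := ih
    exact ⟨c, .bin p.1 p.2 h1⟩

/-- (2.6). `→`: induction on `Pfx (z.mul c) E`. `←`: `E = asm (gen a * m') L`. -/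
theorem sub_iff_eps {z E : El Y J} : Sub z E ↔ ∃ a m', eps E = gen a * m' ∧ (Sub z a ∨ z = a) := by
  constructor
  · rintro ⟨c, hp⟩
    induction hp with
    | refl => exact ⟨z, eps c, eps_mul _ _, Or.inr rfl⟩
    | @mul u c' h _ => exact ⟨u, eps c', eps_mul _ _, Or.inl ⟨c, h⟩⟩
    | bin j w _ ih =>
      obtain ⟨a, m', h1, h2⟩ := ih
      exact ⟨a, m', (eps_bin _ _ _).trans h1, h2⟩
  · rintro ⟨a, m', h1, h2⟩
    have h3 : Sub a E := by
      rw [← asm_eps_lab E, h1]
      exact subF_asmL a m' _ _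
    rcases h2 with h2 | rfl
    · exact h2.trans h3
    · exact h3

theorem sub_congr {z E E' : El Y J} (h : eps E = eps E') : Sub z E ↔ Sub z E' := by
  rw [sub_iff_eps, sub_iff_eps, h]

private theorem subF_pfx_smul {z E : El Y J} (m : Mon Y J) (h : Pfx z E) :
    Pfx (m • z) (m • E) := by
  induction h with
  | refl => exact .refl
  | mul c _ ih =>
    rw [smul_mul']
    exact .mul _ ih
  | bin j w _ ih =>
    rw [smul_bin]
    exact .bin _ _ ih

private theorem subF_pfx_pi {z E : El Y J} (h : Pfx z E) : Pfx (pi z) (pi E) := by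
  induction h with
  | refl => exact .refl
  | mul c _ ih =>
    rw [pi_mul]
    exact .mul _ ih
  | bin j w _ ih =>
    rw [pi_bin]
    exact ih

theorem sub_smul {z E : El Y J} (m : Mon Y J) (h : Sub z E) : Sub (m • z) (m • E) := by
  obtain ⟨c, h⟩ := h
  refine ⟨m • c, ?_⟩
  rw [← smul_mul']
  exact subF_pfx_smul m h

theorem sub_pi {z E : El Y J} (h : Sub z E) : Sub (pi z) (pi E) := by
  obtain ⟨c, h⟩ := h
  refine ⟨pi c, ?_⟩
  rw [← pi_mul]
  exact subF_pfx_pi h

/-- (2.7) comparability of full prefixes. -/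
theorem sub_comp {z z' E : El Y J} (h : Sub z E) (h' : Sub z' E) : z = z' ∨ Sub z z' ∨ Sub z' z := by
  obtain ⟨t1, u1, h1, h2, h3⟩ := sub_term h
  obtain ⟨t2, u2, h4, h5, h6⟩ := sub_term h'
  obtain ⟨t3, e1, e2⟩ := common_exp (h1.trans h4.symm)
  obtain ⟨v1, f1, g1⟩ := heir_exp e1 h3
  obtain ⟨v2, f2, g2⟩ := heir_exp e2 h6
  have k1 : cls v1 = z := (cls_exp f1).symm.trans h2
  have k2 : cls v2 = z' := (cls_exp f2).symm.trans h5
  rcases spn_comp g1 g2 with h7 | h7 | h7
  · left
    rw [← k1, ← k2, h7]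
  · right
    right
    rw [← k1, ← k2]
    exact sub_of_spn h7
  · right
    left
    rw [← k1, ← k2]
    exact sub_of_spn h7

/-- The letter is below every product: `Sub x (m • x)` if `m ≠ 1`. -/
theorem sub_var_smul {m : PP} (hm : m ≠ 1) : Sub xF (m • xF) := by
  have key : ∀ E : FF, E = xF ∨ Sub xF E := by
    intro E
    induction E using El.ind with
    | h1 y => exact Or.inl rfl
    | h2 a b iha _ =>
      right
      rcases iha with rfl | iha
      · exact sub_mul _ _
      · exact iha.trans (sub_mul _ _)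
    | h3 j a b _ _ => exact j.elim
  obtain ⟨a, m', rfl⟩ := exists_gen_mul hm
  rw [mul_smul, gen_smul]
  rcases key a with rfl | h
  · exact sub_mul _ _
  · exact h.trans (sub_mul _ _)

private theorem subF_exp_var {A u : Tm Y J} {y : Y} (h : Exp (A.mul (.var y)) u) :
    ∃ A', u = A'.mul (.var y) ∧ Exp A A' := by
  unfold Exp at h
  induction h with
  | refl => exact ⟨A, rfl, Exp.refl A⟩
  | tail _ h2 ih =>
    obtain ⟨A', rfl, h3⟩ := ih
    cases h2 with
    | mul h4 h5 h6 =>
      cases h5 with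
      | var =>
        cases h6 with
        | base => exact ⟨_, rfl, h3.trans h4.exp⟩

/-- Generators are injective (2.4): common expansions of `A*x`, `B*x` are of the form `A'*x`, `B'*x`. -/
theorem gen_inj {Y J : Type} [Nonempty Y] {a b : El Y J} (h : gen a = gen b) : a = b := by
  obtain ⟨y⟩ := ‹Nonempty Y›
  have h1 : gen a • (El.var y : El Y J) = gen b • (El.var y : El Y J) := by rw [h]
  rw [gen_smul, gen_smul] at h1
  obtain ⟨A, rfl⟩ := cls_surj a
  obtain ⟨B, rfl⟩ := cls_surj b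
  have h2 : cls (A.mul (.var y)) = cls (B.mul (.var y)) := h1
  obtain ⟨u, h3, h4⟩ := common_exp h2
  obtain ⟨A', h5, h6⟩ := subF_exp_var h3
  obtain ⟨B', h7, h8⟩ := subF_exp_var h4
  rw [h5] at h7
  injection h7 with h9 _
  rw [cls_exp h6, cls_exp h8, h9]

end Pool.Agent.DD
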