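import Mathlib

set_option autoImplicit false

/-! # MP_dd36e8_al: terms, expansions (DD_Proof.md, section 1; definitions only) -/

namespace Pool.Agent.DD

/-- Terms with letters `Y`, a binary operation `mul` (left self-distributive) and binary symbols `bin j`, `j : J`. -/
inductive Tm (Y J : Type) : Type
  | var : Y → Tm Y J
  | mul : Tm Y J → Tm Y J → Tm Y J
  | bin : J → Tm Y J → Tm Y J → Tm Y J

/-- Equality of terms modulo `a(bc) = (ab)(ac)` and `a bin_j(b,c) = bin_j(ab,ac)`. -/
inductive Eqv {Y J : Type} : Tm Y J → Tm Y J → Prop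
  | refl (a : Tm Y J) : Eqv a a
  | symm {a b : Tm Y J} : Eqv a b → Eqv b a
  | trans {a b c : Tm Y J} : Eqv a b → Eqv b c → Eqv a c
  | mul {a a' b b' : Tm Y J} : Eqv a a' → Eqv b b' → Eqv (a.mul b) (a'.mul b')
  | bin {j : J} {a a' b b' : Tm Y J} : Eqv a a' → Eqv b b' → Eqv (.bin j a b) (.bin j a' b')
  | ld (a b c : Tm Y J) : Eqv (a.mul (b.mul c)) ((a.mul b).mul (a.mul c))
  | lb (j : J) (a b c : Tm Y J) : Eqv (a.mul (.bin j b c)) (.bin j (a.mul b) (a.mul c))

/-- `star u v`: `u` distributed over all letters of `v`. -/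
def star {Y J : Type} (u : Tm Y J) : Tm Y J → Tm Y J
  | .var y => u.mul (.var y)
  | .mul b c => (star u b).mul (star u c)
  | .bin j b c => .bin j (star u b) (star u c)

/-- The operator of Dehornoy. -/
def dd {Y J : Type} : Tm Y J → Tm Y J
  | .var y => .var y
  | .mul a b => star (dd a) (dd b)
  | .bin j a b => .bin j (dd a) (dd b)

/-- `Dst a b d`: `d` is a partial distribution of `a` over `b`. -/
inductive Dst {Y J : Type} (a : Tm Y J) : Tm Y J → Tm Y J → Prop
  | base (b : Tm Y J) : Dst a b (a.mul b)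
  | mul {b c d e : Tm Y J} : Dst a b d → Dst a c e → Dst a (b.mul c) (d.mul e)
  | bin {j : J} {b c d e : Tm Y J} : Dst a b d → Dst a c e → Dst a (.bin j b c) (.bin j d e)

/-- Parallel expansion. -/
inductive Par {Y J : Type} : Tm Y J → Tm Y J → Prop
  | var (y : Y) : Par (.var y) (.var y)
  | mul {a a' b b' d : Tm Y J} : Par a a' → Par b b' → Dst a' b' d → Par (a.mul b) d
  | bin {j : J} {a a' b b' : Tm Y J} : Par a a' → Par b b' → Par (.bin j a b) (.bin j a' b')

/-- Expansions: reflexive transitive closure of `Par`. -/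
def Exp {Y J : Type} (s t : Tm Y J) : Prop := Relation.ReflTransGen Par s t

/-- Terms in one letter, without `bin`. -/
abbrev TT : Type := Tm Unit Empty

/-- The letter of `TT`. -/
abbrev xx : TT := .var ()

/-- The skeleton. -/
def sk {Y J : Type} : Tm Y J → TT
  | .var _ => xx
  | .mul a b => (sk a).mul (sk b)
  | .bin _ a _ => sk a

/-- `Spn t u`: `u` is a proper full left part of `t`. -/
inductive Spn {Y J : Type} : Tm Y J → Tm Y J → Prop
  | base (u c : Tm Y J) : Spn (u.mul c) u
  | mul {t u : Tm Y J} (c : Tm Y J) : Spn t u → Spn (t.mul c) u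
  | bin {t u : Tm Y J} (j : J) (w : Tm Y J) : Spn t u → Spn (.bin j t w) u

/-- Substitution of `W` for the letter of `b`. -/
def sbs (W : TT) : TT → TT
  | .var _ => W
  | .mul a b => (sbs W a).mul (sbs W b)
  | .bin j _ _ => j.elim

/-- The last letter of the first tree is replaced by `b`. -/
def graft (b : TT) : TT → TT
  | .var _ => b
  | .mul A B => A.mul (graft b B)
  | .bin j _ _ => j.elim

end Pool.Agent.DD
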