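import Pool.Agent.DD.BdAt

set_option autoImplicit false

/-! # DD package TrF: new leaves are products of earlier ones (Tr) (4.10) of /team-store/DD_Proof.md -/

namespace Pool.Agent.DD

variable {Y J : Type}

theorem trF_pos_mul {A B : TT} {v : PP} : v ∈ Pos (A.mul B) ↔ v ∈ Pos A ∨ ∃ w ∈ Pos B, gen (cls A) * w = v := Iff.rfl

theorem trF_split {m : Mon Y J} {A b c : TT} {E : El Y J} (h : Bd m (A.mul (b.mul c)) E) :
    ∃ E1 E2, Bd m A E1 ∧ Bd (gen E1 * m) b E2 ∧ Bd m (A.mul b) E2 ∧ Bd (gen E2 * m) A (E2.mul E1) ∧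
      Bd (gen (E2.mul E1) * (gen E2 * m)) c E := by
  obtain ⟨E1, h1, E2, h2, h3⟩ := h
  refine ⟨E1, E2, h1, h2, ⟨E1, h1, h2⟩, ?_, ?_⟩
  · have := bd_smul (gen E2) h1
    rwa [gen_smul] at this
  · rw [← mul_assoc, ← gen_mul, mul_assoc]
    exact h3

/-- (Tr) for `Dst`. Induction on `Dst`. -/
theorem tr_dst {A B D : TT} {v : PP} (h : Dst A B D) (hv : v ∈ Pos D) (hn : v ∉ Pos (A.mul B)) :
    ∃ v0 v1, v0 ∈ Pos D ∧ v1 ∈ Pos D ∧ v0 < v1 ∧ v1 < v ∧ ∀ (m : Mon Y J) (E : El Y J), Bd m (A.mul B) E →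
      At E (piM m * v) = (At E (piM m * v1)).mul (At E (piM m * v0)) := by
  induction h generalizing v with
  | base b => exact absurd hv hn
  | @mul b c d e h1 h2 ih1 ih2 =>
    have hd : cls d = (cls A).mul (cls b) := cls_dst h1
    rcases trF_pos_mul.1 hv with hv1 | ⟨v', hv', rfl⟩
    · have hn1 : v ∉ Pos (A.mul b) := by
        intro hh
        apply hn
        rcases trF_pos_mul.1 hh with h3 | ⟨w, hw, rfl⟩
        · exact Or.inl h3
        · exact Or.inr ⟨w, Or.inl hw, rfl⟩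
      obtain ⟨v0, v1, h0, h1', h01, h1v, hE⟩ := ih1 hv1 hn1
      refine ⟨v0, v1, Or.inl h0, Or.inl h1', h01, h1v, fun m E hB => ?_⟩
      obtain ⟨E1, E2, k1, k2, k3, k4, k5⟩ := trF_split hB
      have hdE : Bd m d E2 := bd_dst h1 k3
      have heE : Bd (gen E2 * m) e E := bd_dst h2 ⟨_, k4, k5⟩
      rw [bd_at_left hdE heE hv1, bd_at_left hdE heE h0, bd_at_left hdE heE h1']
      exact hE m E2 k3
    · by_cases hc : v' ∈ Pos (A.mul c)
      · rcases trF_pos_mul.1 hc with hA | ⟨w, hw, rfl⟩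
        · have hA' : v' ∈ Pos d := pos_dst h1 (Or.inl hA)
          have hk : gen (cls A) * kT b ∈ Pos d := pos_dst h1 (Or.inr ⟨_, kT_mem_pos b, rfl⟩)
          have hkd : gen (cls A) * kT b = kT d := by
            unfold kT
            rw [hd, eps_mul]
          refine ⟨v', gen (cls A) * kT b, Or.inl hA', Or.inl hk, ?_, ?_, fun m E hB => ?_⟩
          · exact lt_of_le_of_lt (le_kT hA) (lt_of_lt_of_le (kT_lt_gen A) (le_mul_r _ _))
          · rw [hkd]
            exact lt_of_lt_of_le (kT_lt_gen d) (le_mul_r _ _)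
          · obtain ⟨E1, E2, k1, k2, k3, k4, k5⟩ := trF_split hB
            have hdE : Bd m d E2 := bd_dst h1 k3
            have heE : Bd (gen E2 * m) e E := bd_dst h2 ⟨_, k4, k5⟩
            have e1 : At E (piM m * (gen (cls d) * v')) = At (E2.mul E1) (piM (gen E2 * m) * v') := by
              rw [bd_pos_right hdE]
              exact bd_at_left k4 k5 hA
            have e2 : At (E2.mul E1) (piM (gen E2 * m) * v') = E2.mul (At E1 (piM m * v')) := by
              have := at_smul (E := E1) (p := piM m * v') (gen E2) (bd_le k1 hA)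
              rw [gen_smul, gen_smul, ← mul_assoc, ← map_mul] at this
              exact this
            have e3 : At E (piM m * v') = At E1 (piM m * v') := by
              rw [bd_at_left hdE heE hA', bd_at_left k1 k2 hA]
            have e4 : At E (piM m * (gen (cls A) * kT b)) = E2 := by
              rw [hkd]
              exact (bd_E1 hdE heE).symm
            rw [e1, e2, e3, e4]
        · exfalso
          apply hn
          refine Or.inr ⟨gen (cls b) * w, Or.inr ⟨w, hw, rfl⟩, ?_⟩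
          change gen (cls A) * (gen (cls b) * w) = gen (cls d) * (gen (cls A) * w)
          rw [← mul_assoc, ← mul_assoc, gen_mul, hd]
      · obtain ⟨v0, v1, h0, h1', h01, h1v, hE⟩ := ih2 hv' hc
        refine ⟨gen (cls d) * v0, gen (cls d) * v1, Or.inr ⟨_, h0, rfl⟩, Or.inr ⟨_, h1', rfl⟩,
          mul_lt_mul_l _ h01, mul_lt_mul_l _ h1v, fun m E hB => ?_⟩
        obtain ⟨E1, E2, k1, k2, k3, k4, k5⟩ := trF_split hB
        have hdE : Bd m d E2 := bd_dst h1 k3
        rw [bd_pos_right hdE, bd_pos_right hdE, bd_pos_right hdE]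
        exact hE _ E ⟨_, k4, k5⟩
  | @bin j b c d e h1 h2 ih1 ih2 => exact j.elim

/-- (Tr) for `Par`. Induction on `Par`. -/
theorem tr_par {D D' : TT} {v : PP} (h : Par D D') (hv : v ∈ Pos D') (hn : v ∉ Pos D) :
    ∃ v0 v1, v0 ∈ Pos D' ∧ v1 ∈ Pos D' ∧ v0 < v1 ∧ v1 < v ∧ ∀ (m : Mon Y J) (E : El Y J), Bd m D E →
      At E (piM m * v) = (At E (piM m * v1)).mul (At E (piM m * v0)) := by
  induction h generalizing v with
  | var y => exact absurd hv hn
  | @mul a a' b b' d ha hb hd iha ihb =>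
    by_cases hc : v ∈ Pos (a'.mul b')
    · have hca : cls a' = cls a := (cls_par ha).symm
      rcases trF_pos_mul.1 hc with hv1 | ⟨v', hv', rfl⟩
      · have hn1 : v ∉ Pos a := fun hh => hn (Or.inl hh)
        obtain ⟨v0, v1, h0, h1', h01, h1v, hE⟩ := iha hv1 hn1
        refine ⟨v0, v1, pos_dst hd (Or.inl h0), pos_dst hd (Or.inl h1'), h01, h1v, fun m E hB => ?_⟩
        obtain ⟨E1, k1, k2⟩ := hB
        have k1' : Bd m a' E1 := bd_par ha k1
        rw [bd_at_left k1' k2 hv1, bd_at_left k1' k2 h0, bd_at_left k1' k2 h1']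
        exact hE m E1 k1
      · have hn1 : v' ∉ Pos b := by
          intro hh
          apply hn
          refine Or.inr ⟨v', hh, ?_⟩
          change gen (cls a) * v' = gen (cls a') * v'
          rw [hca]
        obtain ⟨v0, v1, h0, h1', h01, h1v, hE⟩ := ihb hv' hn1
        refine ⟨gen (cls a') * v0, gen (cls a') * v1, pos_dst hd (Or.inr ⟨_, h0, rfl⟩),
          pos_dst hd (Or.inr ⟨_, h1', rfl⟩), mul_lt_mul_l _ h01, mul_lt_mul_l _ h1v, fun m E hB => ?_⟩
        obtain ⟨E1, k1, k2⟩ := hB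
        have k1' : Bd m a' E1 := bd_par ha k1
        rw [bd_pos_right k1', bd_pos_right k1', bd_pos_right k1']
        exact hE _ E k2
    · obtain ⟨v0, v1, h0, h1', h01, h1v, hE⟩ := tr_dst (Y := Y) (J := J) hd hv hc
      exact ⟨v0, v1, h0, h1', h01, h1v, fun m E hB => hE m E (bd_par (Par.mul ha hb (Dst.base _)) hB)⟩
  | @bin j a a' b b' ha hb iha ihb => exact j.elim

/-- (Tr) for `Exp`. -/
theorem tr_exp {D D' : TT} {v : PP} (h : Exp D D') (hv : v ∈ Pos D') (hn : v ∉ Pos D) :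
    ∃ v0 v1, v0 ∈ Pos D' ∧ v1 ∈ Pos D' ∧ v0 < v1 ∧ v1 < v ∧ ∀ (m : Mon Y J) (E : El Y J), Bd m D E →
      At E (piM m * v) = (At E (piM m * v1)).mul (At E (piM m * v0)) := by
  unfold Exp at h
  induction h with
  | refl => exact absurd hv hn
  | @tail b c h1 h2 ih =>
    by_cases hc : v ∈ Pos b
    · obtain ⟨v0, v1, h0, h1', h01, h1v, hE⟩ := ih hc
      exact ⟨v0, v1, pos_par h2 h0, pos_par h2 h1', h01, h1v, hE⟩
    · obtain ⟨v0, v1, h0, h1', h01, h1v, hE⟩ := tr_par (Y := Y) (J := J) h2 hv hc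
      exact ⟨v0, v1, h0, h1', h01, h1v, fun m E hB => hE m E (bd_exp h1 hB)⟩

/-- A finite set with an exception has a first exception. -/
theorem first_exc {S : Set PP} (hS : S.Finite) {Q : PP → Prop} (h : ∃ p ∈ S, ¬ Q p) :
    ∃ p ∈ S, ¬ Q p ∧ ∀ q ∈ S, q < p → Q q := by
  have hfin : {p | p ∈ S ∧ ¬ Q p}.Finite := hS.subset fun p hp => hp.1
  obtain ⟨p0, hp0, hq0⟩ := h
  obtain ⟨p, hp, hmin⟩ := Set.exists_min_image _ id hfin ⟨p0, hp0, hq0⟩
  refine ⟨p, hp.1, hp.2, fun q hq hqp => ?_⟩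
  by_contra hQ
  exact absurd (hmin q ⟨hq, hQ⟩) (not_le.2 hqp)

/-- Strong induction on a finite set. -/
theorem fin_ind {S : Set PP} (hS : S.Finite) {Q : PP → Prop} (h : ∀ p ∈ S, (∀ q ∈ S, q < p → Q q) → Q p) :
    ∀ p ∈ S, Q p := by
  by_contra hc
  push Not at hc
  obtain ⟨p, hp, hq, hmin⟩ := first_exc hS hc
  exact hq (h p hp hmin)

end Pool.Agent.DD
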