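import Pool.Agent.DD.TrD
import Pool.Agent.DD.DrvW

set_option autoImplicit false

/-! # DD: the graph of the translation is recursively enumerable -/

namespace Pool.Agent.DD

open Encodable Pool.Agent.H78Ext

variable {e f : ℕ} (n : Fin e → ℕ) (m : Fin f → ℕ) (Y : Type) [Primcodable Y]

/-- Static words or extended terms. -/
abbrev ZZ (e f : ℕ) (Y : Type) : Type := Wd e f Y ⊕ Tm ℕ ℕ

section prim

variable {α W B : Type} [Primcodable α] [Primcodable W] [Primcodable B]

private theorem tw_getR : Primrec (Sum.getRight? : W ⊕ B → Option B) := by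
  refine (Primrec.sumCasesOn (f := fun x : W ⊕ B => x) (g := fun _ _ => (none : Option B))
    (h := fun _ b => some b) Primrec.id (Primrec.const _) ?_).of_eq fun x => by cases x <;> rfl
  exact Primrec.option_some.comp Primrec.snd

private theorem tw_getL : Primrec (Sum.getLeft? : W ⊕ B → Option W) := by
  refine (Primrec.sumCasesOn (f := fun x : W ⊕ B => x) (g := fun _ b => some b)
    (h := fun _ _ => (none : Option W)) Primrec.id ?_ (Primrec.const _)).of_eq
    fun x => by cases x <;> rfl
  exact Primrec.option_some.comp Primrec.snd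

private theorem tw_nonst : Primrec (nonst : List (W ⊕ B) → List B) :=
  Primrec.listFilterMap Primrec.id (tw_getR.comp Primrec.snd).to₂

private theorem tw_stat : Primrec (stat : List (W ⊕ B) → List W) :=
  Primrec.listFilterMap Primrec.id (tw_getL.comp Primrec.snd).to₂

private theorem tw_pat : Primrec (pat : List (W ⊕ B) → List (Option W)) :=
  Primrec.list_map Primrec.id (tw_getL.comp Primrec.snd).to₂

private theorem tw_getLast : Primrec (List.getLast? : List B → Option B) :=
  (Primrec.list_head?.comp Primrec.list_reverse).of_eq fun _ => List.head?_reverse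

private theorem tw_dropLast : Primrec (List.dropLast : List B → List B) :=
  (Primrec.list_reverse.comp (Primrec.list_tail.comp Primrec.list_reverse)).of_eq fun l => by
    rw [List.tail_reverse, List.reverse_reverse]

private theorem tw_lst {z : α → Tm ℕ ℕ} {l : α → List (Tm ℕ ℕ)} (hz : Primrec z)
    (hl : Primrec l) : Primrec fun a => lst raw (z a) (l a) := by
  refine (Primrec.list_foldr (h := fun (_ : α) (p : Tm ℕ ℕ × Tm ℕ ℕ) => Tm.bin 0 p.1 p.2)
    hl hz ?_).of_eq fun a => rfl
  exact prim_bin (Primrec.const 0) (Primrec.fst.comp Primrec.snd) (Primrec.snd.comp Primrec.snd)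

private theorem tw_opc {Y : Type} [Primcodable Y] {h : α → Sy e f}
    {P : α → List (Option (Wd e f Y))} {z : α → Tm ℕ ℕ} {l : α → List (Tm ℕ ℕ)}
    (hh : Primrec h) (hP : Primrec P) (hz : Primrec z) (hl : Primrec l) :
    Primrec fun a => opc raw (h a) (P a) (z a) (l a) :=
  prim_bin (Primrec.succ.comp (Primrec.encode.comp (Primrec.pair hh hP))) hz (tw_lst hz hl)

variable {Y : Type} [Primcodable Y]

private def twE (l : List (ZZ e f Y)) (t : Fin e) (z : Tm ℕ ℕ) : ZZ e f Y :=
  match nonst l.dropLast with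
  | [] => .inr (raw.tau (encode (t, stat l.dropLast)) z)
  | w :: l' => .inr (raw.mul (opc raw (.inl t : Sy e f) (pat l.dropLast) w l') z)

private def twX (l : List (ZZ e f Y)) (t : Fin e) (x : ZZ e f Y) : ZZ e f Y :=
  match x with
  | .inl s => .inl s
  | .inr z => twE l t z

private def twO (l : List (ZZ e f Y)) (t : Fin e) : ZZ e f Y :=
  match l.getLast? with
  | none => .inl []
  | some x => twX l t x

private def twF (l : List (ZZ e f Y)) (g : Fin f) : ZZ e f Y :=
  match nonst l with
  | [] => .inl (.inl (.inr g) :: (stat l).flatten)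
  | z :: l' => .inr (opc raw (.inr g : Sy e f) (pat l) z l')

private theorem prim_twE : Primrec fun p : (List (ZZ e f Y) × Fin e) × Tm ℕ ℕ =>
    twE p.1.1 p.1.2 p.2 := by
  have hd : Primrec fun p : (List (ZZ e f Y) × Fin e) × Tm ℕ ℕ => p.1.1.dropLast :=
    tw_dropLast.comp (Primrec.fst.comp Primrec.fst)
  have h1 : Primrec fun p : (List (ZZ e f Y) × Fin e) × Tm ℕ ℕ =>
      (Sum.inr (raw.tau (encode (p.1.2, stat p.1.1.dropLast)) p.2) : ZZ e f Y) :=
    Primrec.sumInr.comp (prim_tau.comp (Primrec.encode.comp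
      (Primrec.pair (Primrec.snd.comp Primrec.fst) (tw_stat.comp hd))) Primrec.snd)
  have h2 : Primrec fun q : ((List (ZZ e f Y) × Fin e) × Tm ℕ ℕ) × (Tm ℕ ℕ × List (Tm ℕ ℕ)) =>
      (Sum.inr (raw.mul (opc raw (.inl q.1.1.2 : Sy e f) (pat q.1.1.1.dropLast) q.2.1 q.2.2)
        q.1.2) : ZZ e f Y) :=
    Primrec.sumInr.comp (prim_mul.comp
      (tw_opc (Primrec.sumInl.comp (Primrec.snd.comp (Primrec.fst.comp Primrec.fst)))
      (tw_pat.comp (hd.comp Primrec.fst)) (Primrec.fst.comp Primrec.snd)
      (Primrec.snd.comp Primrec.snd)) (Primrec.snd.comp Primrec.fst))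
  refine (Primrec.list_casesOn (tw_nonst.comp hd) h1 h2.to₂).of_eq fun p => ?_
  unfold twE
  cases nonst p.1.1.dropLast <;> rfl

private theorem prim_twX : Primrec fun p : (List (ZZ e f Y) × Fin e) × ZZ e f Y =>
    twX p.1.1 p.1.2 p.2 := by
  have h1 : Primrec fun q : ((List (ZZ e f Y) × Fin e) × ZZ e f Y) × Wd e f Y =>
      (Sum.inl q.2 : ZZ e f Y) := Primrec.sumInl.comp Primrec.snd
  have h2 : Primrec fun q : ((List (ZZ e f Y) × Fin e) × ZZ e f Y) × Tm ℕ ℕ =>
      twE q.1.1.1 q.1.1.2 q.2 :=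
    prim_twE.comp (Primrec.pair (Primrec.fst.comp Primrec.fst) Primrec.snd)
  refine (Primrec.sumCasesOn Primrec.snd h1.to₂ h2.to₂).of_eq fun p => ?_
  obtain ⟨p, x⟩ := p
  cases x <;> rfl

private theorem prim_twO : Primrec fun p : List (ZZ e f Y) × Fin e => twO p.1 p.2 := by
  refine (Primrec.option_casesOn (tw_getLast.comp Primrec.fst)
    (Primrec.const (Sum.inl [] : ZZ e f Y)) prim_twX.to₂).of_eq fun p => ?_
  unfold twO
  cases p.1.getLast? <;> rfl

private theorem prim_twF : Primrec fun p : List (ZZ e f Y) × Fin f => twF p.1 p.2 := by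
  have h1 : Primrec fun p : List (ZZ e f Y) × Fin f =>
      (Sum.inl (Sum.inl (Sum.inr p.2) :: (stat p.1).flatten) : ZZ e f Y) :=
    Primrec.sumInl.comp (Primrec.list_cons.comp
      (Primrec.sumInl.comp (Primrec.sumInr.comp Primrec.snd))
      (Primrec.list_flatten.comp (tw_stat.comp Primrec.fst)))
  have h2 : Primrec fun q : (List (ZZ e f Y) × Fin f) × (Tm ℕ ℕ × List (Tm ℕ ℕ)) =>
      (Sum.inr (opc raw (.inr q.1.2 : Sy e f) (pat q.1.1) q.2.1 q.2.2) : ZZ e f Y) :=
    Primrec.sumInr.comp (tw_opc (Primrec.sumInr.comp (Primrec.snd.comp Primrec.fst))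
      (tw_pat.comp (Primrec.fst.comp Primrec.fst)) (Primrec.fst.comp Primrec.snd)
      (Primrec.snd.comp Primrec.snd))
  refine (Primrec.list_casesOn (tw_nonst.comp Primrec.fst) h1 h2.to₂).of_eq fun p => ?_
  unfold twF
  cases nonst p.1 <;> rfl

end prim

/-- `nonst`, `stat`, `pat`, `lst`, `opc`, `getLast?`, `dropLast` are primitive recursive (`Primrec.listFilterMap`, `Primrec.list_map`,
`Primrec.list_foldr`, `prim_bin`, `prim_tau`, `prim_mul`; `l.getLast? = l.reverse.head?`, `l.dropLast = l.reverse.tail.reverse`);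
case distinctions by `Primrec.sumCasesOn`, `Primrec.option_casesOn`, `Primrec.list_casesOn`. -/
theorem prim_opG : Primrec₂ fun (h : Sy e f) (l : List (ZZ e f Y)) => opG raw h l := by
  have h1 : Primrec fun q : (Sy e f × List (ZZ e f Y)) × Fin e => twO q.1.2 q.2 :=
    prim_twO.comp (Primrec.pair (Primrec.snd.comp Primrec.fst) Primrec.snd)
  have h2 : Primrec fun q : (Sy e f × List (ZZ e f Y)) × Fin f => twF q.1.2 q.2 :=
    prim_twF.comp (Primrec.pair (Primrec.snd.comp Primrec.fst) Primrec.snd)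
  refine (Primrec.sumCasesOn (f := fun p : Sy e f × List (ZZ e f Y) => p.1)
    Primrec.fst h1.to₂ h2.to₂).of_eq ?_
  rintro ⟨h, l⟩
  rcases h with t | g
  · change twO l t = opG raw (.inl t) l
    unfold twO opG
    simp only
    cases l.getLast? with
    | none => rfl
    | some x =>
      cases x with
      | inl s => rfl
      | inr z =>
        simp only [twX, twE]
        cases nonst l.dropLast <;> rfl
  · change twF l g = opG raw (.inr g) l
    unfold twF opG
    simp only
    cases nonst l <;> rfl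

/-- The steps of the evaluation of words. -/
def TStep (l : List (Wd e f Y × ZZ e f Y)) (x : Wd e f Y × ZZ e f Y) : Prop :=
  (∃ y : Y, x.1 = [.inr y] ∧ x.2 = .inr (.var (encode (encode y, ([] : List ℕ))))) ∨
  (∃ h : Sy e f, l.length = ar n m h ∧ x.1 = .inl h :: (l.map Prod.fst).flatten ∧
    x.2 = opG raw h (l.map Prod.snd))

variable {n m Y} in
private theorem tw_fn {k : ℕ} {l : List (Wd e f Y × ZZ e f Y)} (hk : l.length = k)
    (h : ∀ b ∈ l, ∃ t : Trm n m Y, t.word = b.1 ∧ tr t = b.2) :
    ∃ x : Fin k → Trm n m Y, l.map Prod.fst = (List.ofFn fun i => (x i).word) ∧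
      l.map Prod.snd = List.ofFn fun i => tr (x i) := by
  subst hk
  choose g hg hg' using fun i : Fin l.length => h (l[i.1]) (List.getElem_mem _)
  refine ⟨g, ?_, ?_⟩
  · simp only [hg]
    conv_lhs => rw [← List.ofFn_getElem (xs := l)]
    rw [List.map_ofFn]
    rfl
  · simp only [hg']
    conv_lhs => rw [← List.ofFn_getElem (xs := l)]
    rw [List.map_ofFn]
    rfl

/-- Induction on `Der`; the list of premises gives a function `Fin (ar n m h) → Trm n m Y`. -/
theorem der_TStep {x : Wd e f Y × ZZ e f Y} (h : Der (TStep n m Y) x) :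
    ∃ t : Trm n m Y, t.word = x.1 ∧ tr t = x.2 := by
  induction h with
  | mk l p hl hs ih =>
    rcases hs with ⟨y, h1, h2⟩ | ⟨h, h1, h2, h3⟩
    · exact ⟨.var y, h1.symm, h2.symm⟩
    · obtain ⟨x, hx, hx'⟩ := tw_fn h1 ih
      refine ⟨.app h x, ?_, ?_⟩
      · rw [h2, hx]
        rfl
      · rw [h3, hx']
        rfl

/-- Induction on `t`. -/
theorem tstep_der (t : Trm n m Y) : Der (TStep n m Y) (t.word, tr t) := by
  induction t with
  | var y => exact .mk [] _ (by simp) (Or.inl ⟨y, rfl, rfl⟩)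
  | app h x ih =>
    refine .mk (List.ofFn fun i => ((x i).word, tr (x i))) _ ?_ (Or.inr ⟨h, ?_, ?_, ?_⟩)
    · intro b hb
      obtain ⟨i, rfl⟩ := (List.mem_ofFn' _ _).1 hb
      exact ih i
    · exact List.length_ofFn
    · rw [List.map_ofFn]
      rfl
    · rw [List.map_ofFn]
      rfl

private theorem tw_eq {α β : Type} [Primcodable α] [Primcodable β] {g g' : α → β}
    (hg : Primrec g) (hg' : Primrec g') : S1 fun a => g a = g' a := by
  classical
  exact S1.prim (PrimrecRel.comp Primrec.eq hg hg')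

theorem s1_TStep : S1 fun x : List (Wd e f Y × ZZ e f Y) × (Wd e f Y × ZZ e f Y) => TStep n m Y x.1 x.2 := by
  have hp : Primrec fun x : List (Wd e f Y × ZZ e f Y) × (Wd e f Y × ZZ e f Y) => x.2.1 :=
    Primrec.fst.comp Primrec.snd
  have hq : Primrec fun x : List (Wd e f Y × ZZ e f Y) × (Wd e f Y × ZZ e f Y) => x.2.2 :=
    Primrec.snd.comp Primrec.snd
  unfold TStep
  refine S1.or (S1.ex (S1.and (tw_eq (hp.comp Primrec.fst) ?_) (tw_eq (hq.comp Primrec.fst) ?_)))
    (S1.ex (S1.and (tw_eq ?_ ?_) (S1.and (tw_eq (hp.comp Primrec.fst) ?_)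
      (tw_eq (hq.comp Primrec.fst) ?_))))
  · exact Primrec.list_cons.comp (Primrec.sumInr.comp Primrec.snd) (Primrec.const [])
  · exact Primrec.sumInr.comp (prim_var.comp (Primrec.encode.comp
      (Primrec.pair (Primrec.encode.comp Primrec.snd) (Primrec.const []))))
  · exact Primrec.list_length.comp (Primrec.fst.comp Primrec.fst)
  · exact (prim_ar n m).comp Primrec.snd
  · refine Primrec.list_cons.comp (Primrec.sumInl.comp Primrec.snd) (Primrec.list_flatten.comp ?_)
    exact Primrec.list_map (Primrec.fst.comp Primrec.fst) (Primrec.fst.comp Primrec.snd).to₂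
  · refine (prim_opG Y).comp Primrec.snd ?_
    exact Primrec.list_map (Primrec.fst.comp Primrec.fst) (Primrec.snd.comp Primrec.snd).to₂

/-- The graph of the translation. -/
theorem s1_tr : S1 fun x : Wd e f Y × ZZ e f Y => ∃ t : Trm n m Y, t.word = x.1 ∧ tr t = x.2 := by
  refine (S1.der (s1_TStep n m Y)).of_eq fun x => ⟨der_TStep n m Y, ?_⟩
  rintro ⟨t, h1, h2⟩
  have h3 := tstep_der n m Y t
  rw [h1, h2] at h3
  exact h3

end Pool.Agent.DD
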